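import Mathlib
import Pool.Agent.Lib.MP_ae5b4e_an_NBT.ConD
import Pool.Agent.Lib.MP_ae5b4e_an_LAT.AlgDefs
import Pool.Agent.Lib.Puiseux.Rot

/-!
# MP_ae5b4e_an, project NB_1 (finite height implies natural boundary): definitions

`RU U`: the ring of analytic functions on the open set `U`.  `Coord`: the derivations with respect
to local coordinates `x`, `u`.  `FChain`: the formal data of case I.
-/

noncomputable section

namespace Pool.Agent.MP_ae5b4e_an_NB1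

open Complex Set Filter Topology Metric
open TopologicalSpace (Opens)
open Pool.Agent.MP_ae5b4e_an_NBT
open Pool.Agent.Lib.Puiseux (rot)

/-! ### Analytic functions on an open set -/

/-- extension by zero -/
def ext0 (U : Opens (ℂ × ℂ)) (f : U → ℂ) (q : ℂ × ℂ) : ℂ :=
  open Classical in if h : q ∈ U then f ⟨q, h⟩ else 0

lemma ext0_apply {U : Opens (ℂ × ℂ)} (f : U → ℂ) {q : ℂ × ℂ} (h : q ∈ U) :
    ext0 U f q = f ⟨q, h⟩ := by
  unfold ext0
  rw [dif_pos h]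

/-- the ring of analytic functions on `U` -/
def RU (U : Opens (ℂ × ℂ)) : Subalgebra ℂ (U → ℂ) where
  carrier := {f | AnalyticOnNhd ℂ (ext0 U f) U}
  mul_mem' := by
    intro f g hf hg q hq
    refine ((hf q hq).mul (hg q hq)).congr ?_
    filter_upwards [U.isOpen.mem_nhds hq] with p hp
    rw [ext0_apply _ hp, Pi.mul_apply, Pi.mul_apply, ext0_apply _ hp, ext0_apply _ hp]
  add_mem' := by
    intro f g hf hg q hq
    refine ((hf q hq).add (hg q hq)).congr ?_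
    filter_upwards [U.isOpen.mem_nhds hq] with p hp
    rw [ext0_apply _ hp, Pi.add_apply, Pi.add_apply, ext0_apply _ hp, ext0_apply _ hp]
  algebraMap_mem' := by
    intro c q hq
    refine (analyticAt_const (v := c)).congr ?_
    filter_upwards [U.isOpen.mem_nhds hq] with p hp
    rw [ext0_apply _ hp]
    rfl

/-- the function on `ℂ × ℂ` of an element of `RU U` -/
def fn {U : Opens (ℂ × ℂ)} (f : RU U) : ℂ × ℂ → ℂ := ext0 U f.1

lemma fn_an {U : Opens (ℂ × ℂ)} (f : RU U) : AnalyticOnNhd ℂ (fn f) U := f.2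

/-- the element of `RU U` of an analytic function -/
def toRU (U : Opens (ℂ × ℂ)) (f : ℂ × ℂ → ℂ) (hf : AnalyticOnNhd ℂ f U) : RU U :=
  ⟨fun q => f q.1, fun q hq => (hf q hq).congr (by
    filter_upwards [U.isOpen.mem_nhds hq] with p hp
    rw [ext0_apply _ hp])⟩

/-- The derivations `D1 = ∂/∂x`, `D2 = ∂/∂u` of `RU U` in the coordinates `x`, `u`. -/
structure Coord {U : Opens (ℂ × ℂ)} (D1 D2 : Derivation ℂ (RU U) (RU U)) (x u : RU U) : Prop where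
  comm : ∀ f, D1 (D2 f) = D2 (D1 f)
  x1 : D1 x = 1
  x2 : D2 x = 0
  u1 : D1 u = 0
  u2 : D2 u = 1
  fd : ∀ f : RU U, ∀ q ∈ U, fderiv ℂ (fn f) q =
    fn (D1 f) q • fderiv ℂ (fn x) q + fn (D2 f) q • fderiv ℂ (fn u) q
  jac : ∀ q ∈ U, fderiv ℂ (fn x) q (1, 0) * fderiv ℂ (fn u) q (0, 1) -
    fderiv ℂ (fn u) q (1, 0) * fderiv ℂ (fn x) q (0, 1) ≠ 0

/-- The polygon `x 0, .., x (M + 2)` (in the text: `x_{-1}, .., x_{M+1}`) and the kicks `K i` at
the points `x (i + 1)`, in a ring with two derivations. -/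
structure Poly {S : Type*} [CommRing S] [Algebra ℂ S] (D1 D2 : Derivation ℂ S S) (M : ℕ)
    (x K : ℕ → S) : Prop where
  ne : ∀ i ≤ M + 1, x (i + 1) ≠ x i
  rel : ∀ i ≤ M, (x (i + 1) - x i) - (x (i + 2) - x (i + 1)) =
    K i * (x (i + 2) - x (i + 1)) * (x (i + 1) - x i)
  wr : ∀ i ≤ M, D1 (K i) * D2 (x (i + 1)) = D2 (K i) * D1 (x (i + 1))
  x1 : D1 (x 1) = 1
  x2 : D2 (x 1) = 0
  u1 : D1 (x 1 - x 0) = 0
  u2 : D2 (x 1 - x 0) = 1

/-- The Laurent series in `w`, `z = w ^ N`: the derivation `d/dz`. -/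
structure IsDz (N : ℕ) (d : Derivation ℂ (LaurentSeries ℂ) (LaurentSeries ℂ)) : Prop where
  pos : 0 < N
  coeff : ∀ (f : LaurentSeries ℂ) (n : ℤ), (d f).coeff n = ((n + N : ℂ) / N) * f.coeff (n + N)

/-- A formal expansion of the polygon in powers of `u = x 1 - x 0` with coefficients in
`LaurentSeries ℂ`, `x 1 = e + w ^ N`; the kicks at `u = 0` are `κ`. -/
structure FExp {S : Type*} [CommRing S] [Algebra ℂ S] (D1 D2 : Derivation ℂ S S) (M : ℕ)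
    (x K : ℕ → S) (N : ℕ) (d : Derivation ℂ (LaurentSeries ℂ) (LaurentSeries ℂ)) (e : ℂ)
    (κ : LaurentSeries ℂ) (ι : S →ₐ[ℂ] PowerSeries (LaurentSeries ℂ)) : Prop where
  inj : Function.Injective ι
  c1 : ∀ a n, PowerSeries.coeff n (ι (D1 a)) = d (PowerSeries.coeff n (ι a))
  c2 : ∀ a n, PowerSeries.coeff n (ι (D2 a)) =
    ((n : LaurentSeries ℂ) + 1) * PowerSeries.coeff (n + 1) (ι a)
  x1 : ι (x 1) = PowerSeries.C (HahnSeries.C e + HahnSeries.single (N : ℤ) 1)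
  u : ι (x 1 - x 0) = PowerSeries.X
  K0 : ∀ i ≤ M, PowerSeries.constantCoeff (ι (K i)) = κ

/-- a subalgebra stable under the derivations which contains the ends of the polygon -/
structure Ends {S : Type*} [CommRing S] [Algebra ℂ S] (D1 D2 : Derivation ℂ S S) (M : ℕ)
    (x : ℕ → S) (S₀ : Subalgebra ℂ S) : Prop where
  d1 : ∀ a ∈ S₀, D1 a ∈ S₀
  d2 : ∀ a ∈ S₀, D2 a ∈ S₀
  m0 : x 0 ∈ S₀
  m1 : x 1 ∈ S₀
  mM : x (M + 1) ∈ S₀
  mM' : x (M + 2) ∈ S₀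

/-- elements of the field of fractions of `S₀` killed by `D2` have an image invariant under the
rotation by `ζ` -/
def RInv {S : Type*} [CommRing S] [Algebra ℂ S] (D2 : Derivation ℂ S S)
    (S₀ : Subalgebra ℂ S) (ζ : ℂˣ) (ι : S →ₐ[ℂ] PowerSeries (LaurentSeries ℂ)) : Prop :=
  ∀ a ∈ S₀, ∀ b ∈ S₀, b ≠ 0 → D2 a * b = a * D2 b →
    ∃ g : LaurentSeries ℂ, rot ζ g = g ∧ ι a = PowerSeries.C g * ι b

/-- the function `f` vanishes at `q` to the order `n` -/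
def Van (f : ℂ × ℂ → ℂ) (q : ℂ × ℂ) (n : ℕ) : Prop :=
  ∃ C : ℝ, ∀ᶠ y in 𝓝 q, ‖f y‖ ≤ C * dist y q ^ n

/-- A formal relation `∑ φ_j (y_j) = 0` near `q`, `j ≤ M`, the `φ_j` are formal power series in
`y_j - y_j (q)` without constant term. -/
def FRel (M : ℕ) (y : ℕ → ℂ × ℂ → ℂ) (q : ℂ × ℂ) (φ : ℕ → PowerSeries ℂ) : Prop :=
  (∀ j ≤ M, PowerSeries.constantCoeff (φ j) = 0) ∧
  ∀ n : ℕ, Van (fun p => ∑ j ∈ Finset.range (M + 1),
    ((φ j).trunc (n + 1)).eval (y j p - y j q)) q (n + 1)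

/-- An analytic relation `∑ a_j (y_j) dy_j = 0` near `q`, `j ≤ M`, not all `a_j` vanish. -/
def ARel (M : ℕ) (y : ℕ → ℂ × ℂ → ℂ) (q : ℂ × ℂ) : Prop :=
  ∃ a : ℕ → ℂ → ℂ, (∀ j ≤ M, AnalyticAt ℂ (a j) (y j q)) ∧
    (∃ j ≤ M, ¬ ∀ᶠ s in 𝓝 (y j q), a j s = 0) ∧
    ∀ᶠ p in 𝓝 q, ∑ j ∈ Finset.range (M + 1), a j (y j p) • fderiv ℂ (y j) p = 0

/-- the Jacobian of two functions -/
def Jac (f g : ℂ × ℂ → ℂ) (p : ℂ × ℂ) : ℂ :=
  fderiv ℂ f p (1, 0) * fderiv ℂ g p (0, 1) - fderiv ℂ g p (1, 0) * fderiv ℂ f p (0, 1)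

end Pool.Agent.MP_ae5b4e_an_NB1
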