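import Mathlib
import Pool.Agent.Lib.MP_ae5b4e_an_NB1.Defs

/-!
# MP_ae5b4e_an, project NB_1: polynomials with analytic coefficients, definitions
-/

noncomputable section

namespace Pool.Agent.MP_ae5b4e_an_NB1

open Complex Set Filter Topology Metric

/-- the cone below `t₁` -/
def Cone (t₁ : ℂ) (ε : ℝ) : Set ℂ := {t | dist t t₁ < ε ∧ |t.re - t₁.re| < t₁.im - t.im}

/-- `f₁` is a ramified function at `t₁`, seen from below, in the coordinate `s`: `f₁ = g (w)`,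
`w ^ m = s`, and `g` is not a function of `w ^ m`. -/
def Ram (f₁ : ℂ → ℂ) (t₁ : ℂ) (s : ℂ → ℂ) : Prop :=
  ∃ (m : ℕ) (g w : ℂ → ℂ) (ε : ℝ), 0 < m ∧ 0 < ε ∧ MeromorphicAt g 0 ∧
    (∀ t ∈ Cone t₁ ε, AnalyticAt ℂ w t ∧ w t ^ m = s t ∧ w t ≠ 0 ∧ f₁ t = g (w t)) ∧
    Tendsto w (𝓝[Cone t₁ ε] t₁) (𝓝 0) ∧
    ∃ ζ : ℂ, ζ ^ m = 1 ∧ ¬ ∀ᶠ v in 𝓝[≠] (0:ℂ), g (ζ * v) = g v

/-- the value at `x` of the polynomial with the coefficients `q i z`, `i ≤ d` -/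
def PolE (d : ℕ) (q : ℕ → ℂ → ℂ) (z x : ℂ) : ℂ := ∑ i ∈ Finset.range (d + 1), q i z * x ^ i

/-- the value of the derivative in `x` -/
def PolD (d : ℕ) (q : ℕ → ℂ → ℂ) (z x : ℂ) : ℂ :=
  ∑ i ∈ Finset.range (d + 1), q i z * (i * x ^ (i - 1))

/-- the coefficients are analytic on `S`, the leading one has no zero and the roots are simple -/
structure Reg (d : ℕ) (q : ℕ → ℂ → ℂ) (S : Set ℂ) : Prop where
  an : ∀ i ≤ d, AnalyticOnNhd ℂ (q i) S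
  lead : ∀ z ∈ S, q d z ≠ 0
  simple : ∀ z ∈ S, ∀ x, PolE d q z x = 0 → PolD d q z x ≠ 0

lemma Reg.mono {d : ℕ} {q : ℕ → ℂ → ℂ} {S T : Set ℂ} (h : Reg d q T) (hST : S ⊆ T) :
    Reg d q S :=
  ⟨fun i hi z hz => h.an i hi z (hST hz), fun z hz => h.lead z (hST hz),
    fun z hz => h.simple z (hST hz)⟩

end Pool.Agent.MP_ae5b4e_an_NB1
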