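import Mathlib
import Pool.Agent.Lib.MP_ae5b4e_an_NB1.BrDefs
import Pool.Agent.Lib.SCV.Osgood

/-!
# MP_ae5b4e_an, project NB_1: joint extension from the extension of the slices, with a bound
-/

noncomputable section

namespace Pool.Agent.MP_ae5b4e_an_NB1

open Complex Set Filter Topology Metric

/-- the partial derivatives in the first variable, restricted to `t = tc` -/
private theorem brE_coeff {A : ℂ × ℂ → ℂ} {tc : ℂ} {U : Set ℂ}
    (hA : ∀ ρ ∈ U, AnalyticAt ℂ A (tc, ρ)) (n : ℕ) :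
    AnalyticOnNhd ℂ (fun ρ => iteratedDeriv n (fun t => A (t, ρ)) tc) U := by
  have hstep : ∀ (H : ℂ × ℂ → ℂ) (q : ℂ × ℂ), AnalyticAt ℂ H q →
      AnalyticAt ℂ (fun q => fderiv ℂ H q (1, 0)) q := fun H q hH =>
    (ContinuousLinearMap.apply ℂ ℂ ((1:ℂ), (0:ℂ))).analyticAt _ |>.comp hH.fderiv
  set D : (ℂ × ℂ → ℂ) → ℂ × ℂ → ℂ := fun H q => fderiv ℂ H q (1, 0) with hDdef
  have hDk : ∀ k : ℕ, ∀ q : ℂ × ℂ, AnalyticAt ℂ A q → AnalyticAt ℂ (D^[k] A) q := by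
    intro k
    induction k with
    | zero => intro q hq; simpa using hq
    | succ k ih =>
      intro q hq
      rw [Function.iterate_succ_apply']
      exact hstep _ _ (ih q hq)
  have hD1 : ∀ (H : ℂ × ℂ → ℂ) (q : ℂ × ℂ), AnalyticAt ℂ H q →
      deriv (fun t => H (t, q.2)) q.1 = D H q := by
    intro H q hH
    have hline : HasDerivAt (fun t : ℂ => (t, q.2)) ((1:ℂ), (0:ℂ)) q.1 :=
      (hasDerivAt_id (q.1:ℂ)).prodMk (hasDerivAt_const (q.1:ℂ) q.2)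
    have : HasDerivAt (fun t : ℂ => H (t, q.2)) (fderiv ℂ H q (1, 0)) q.1 :=
      HasFDerivAt.comp_hasDerivAt (x := q.1) (f := fun t : ℂ => (t, q.2))
        (hH.differentiableAt.hasFDerivAt) hline
    exact this.deriv
  have hk : ∀ k : ℕ, ∀ q : ℂ × ℂ, AnalyticAt ℂ A q →
      iteratedDeriv k (fun t => A (t, q.2)) q.1 = (D^[k] A) q := by
    intro k
    induction k with
    | zero => intro q _; simp
    | succ k ih =>
      intro q hq
      rw [iteratedDeriv_succ, Function.iterate_succ_apply']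
      rw [← hD1 _ _ (hDk k q hq)]
      refine Filter.EventuallyEq.deriv_eq ?_
      have hev : ∀ᶠ t in 𝓝 q.1, AnalyticAt ℂ A (t, q.2) := by
        have hc : ContinuousAt (fun t : ℂ => (t, q.2)) q.1 := by fun_prop
        exact hc.eventually (hq.eventually_analyticAt)
      filter_upwards [hev] with t ht
      exact ih (t, q.2) ht
  intro w hw
  have h1 : AnalyticAt ℂ (fun v : ℂ => (D^[n] A) (tc, v)) w :=
    AnalyticAt.fun_comp (f := fun v : ℂ => (tc, v)) (hDk n (tc, w) (hA w hw))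
      (analyticAt_const.prod analyticAt_id)
  refine h1.congr ?_
  have hev : ∀ᶠ v in 𝓝 w, AnalyticAt ℂ A (tc, v) := by
    have hc : ContinuousAt (fun v : ℂ => (tc, v)) w := by fun_prop
    exact hc.eventually (hA w hw).eventually_analyticAt
  filter_upwards [hev] with v hv
  exact (hk n (tc, v) hv).symm

/-- a bound which holds off a countable set holds everywhere -/
private theorem brE_dense {h : ℂ → ℂ} {U Z : Set ℂ} (hU : IsOpen U) (hc : ContinuousOn h U)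
    (hZ : Z.Countable) {M : ℝ} (hb : ∀ ρ ∈ U, ρ ∉ Z → ‖h ρ‖ ≤ M) : ∀ ρ ∈ U, ‖h ρ‖ ≤ M := by
  intro ρ hρ
  by_contra hcon
  push Not at hcon
  have h1 : IsOpen (U ∩ (fun x => ‖h x‖) ⁻¹' Ioi M) :=
    hc.norm.isOpen_inter_preimage hU isOpen_Ioi
  obtain ⟨x, hx1, hx2⟩ := (hZ.dense_compl ℂ).inter_open_nonempty _ h1 ⟨ρ, hρ, hcon⟩
  exact absurd (hb x hx1.1 hx2) (not_le.2 hx1.2)

/-- division by a power, with a bound -/
private theorem brE_div {a : ℂ → ℂ} {ρ₀ : ℂ} {s : ℝ} (hs : 0 < s)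
    (ha : AnalyticOnNhd ℂ a (ball ρ₀ s)) {Z : Set ℂ} (hZ : Z.Countable) (k : ℕ) {M : ℝ}
    (hb : ∀ ρ ∈ ball ρ₀ s, ρ ∉ Z → ρ ≠ ρ₀ → ‖a ρ‖ ≤ ‖ρ - ρ₀‖ ^ k * M) :
    ∃ c : ℂ → ℂ, AnalyticOnNhd ℂ c (ball ρ₀ s) ∧
      ∀ ρ ∈ ball ρ₀ s, a ρ = (ρ - ρ₀) ^ k * c ρ := by
  set h : ℂ → ℂ := fun ρ => a ρ / (ρ - ρ₀) ^ k with hh
  have hd : DifferentiableOn ℂ h (ball ρ₀ s \ {ρ₀}) := by
    intro ρ hρ
    have hne : (ρ - ρ₀) ^ k ≠ 0 := pow_ne_zero _ (sub_ne_zero.2 hρ.2)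
    exact (((ha ρ hρ.1).differentiableAt).div (by fun_prop) hne).differentiableWithinAt
  have hopen : IsOpen (ball ρ₀ s \ {ρ₀}) := isOpen_ball.sdiff isClosed_singleton
  have hbd : ∀ ρ ∈ ball ρ₀ s \ {ρ₀}, ‖h ρ‖ ≤ M := by
    refine brE_dense hopen hd.continuousOn hZ fun ρ hρ hρZ => ?_
    have hne : (ρ - ρ₀) ^ k ≠ 0 := pow_ne_zero _ (sub_ne_zero.2 hρ.2)
    rw [hh]
    simp only
    rw [norm_div, norm_pow, div_le_iff₀ (by
      rw [← norm_pow]
      exact norm_pos_iff.2 hne), mul_comm]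
    exact hb ρ hρ.1 hρZ hρ.2
  have hrem := Complex.differentiableOn_update_limUnder_of_bddAbove
    (ball_mem_nhds ρ₀ hs) hd ⟨M, by
      rintro _ ⟨ρ, hρ, rfl⟩
      exact hbd ρ hρ⟩
  set c : ℂ → ℂ := Function.update h ρ₀ ((𝓝[≠] ρ₀).limUnder h) with hc
  have hcan : AnalyticOnNhd ℂ c (ball ρ₀ s) := hrem.analyticOnNhd isOpen_ball
  have heq : ∀ ρ ∈ ball ρ₀ s \ {ρ₀}, a ρ = (ρ - ρ₀) ^ k * c ρ := by
    intro ρ hρ
    have hne : (ρ - ρ₀) ^ k ≠ 0 := pow_ne_zero _ (sub_ne_zero.2 hρ.2)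
    have h1 : c ρ = h ρ := Function.update_of_ne hρ.2 _ _
    rw [h1, hh]
    field_simp
  refine ⟨c, hcan, fun ρ hρ => ?_⟩
  by_cases hρ0 : ρ = ρ₀
  · subst hρ0
    have h1 : Tendsto a (𝓝[≠] ρ) (𝓝 (a ρ)) :=
      ((ha ρ hρ).continuousAt.tendsto).mono_left nhdsWithin_le_nhds
    have h2 : Tendsto (fun x => (x - ρ) ^ k * c x) (𝓝[≠] ρ) (𝓝 ((ρ - ρ) ^ k * c ρ)) := by
      have h3 : ContinuousAt (fun x => (x - ρ) ^ k * c x) ρ :=
        ContinuousAt.mul (by fun_prop) (hcan ρ hρ).continuousAt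
      exact h3.tendsto.mono_left nhdsWithin_le_nhds
    refine tendsto_nhds_unique h1 (h2.congr' ?_)
    filter_upwards [nhdsWithin_le_nhds (ball_mem_nhds ρ hs), self_mem_nhdsWithin] with x h4 h5
    exact (heq x ⟨h4, h5⟩).symm
  · exact heq ρ ⟨hρ, hρ0⟩

/-- **Joint extension.** -/
theorem joint_ext {tc ρ₀ : ℂ} {s R C : ℝ} (hs : 0 < s) (hR : 0 < R) {k : ℕ} {A : ℂ × ℂ → ℂ}
    (hA : AnalyticOnNhd ℂ A (ball tc s ×ˢ ball ρ₀ s)) {Z : Set ℂ} (hZ : Z.Countable)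
    (hsl : ∀ ρ ∈ ball ρ₀ s, ρ ∉ Z → ρ ≠ ρ₀ → ∃ w : ℂ → ℂ, AnalyticOnNhd ℂ w (ball tc R) ∧
      (∀ t ∈ ball tc R, ‖w t‖ ≤ C) ∧ ∀ᶠ t in 𝓝 tc, A (t, ρ) = (ρ - ρ₀) ^ k * w t) :
    ∃ G : ℂ × ℂ → ℂ, AnalyticOnNhd ℂ G (ball tc R ×ˢ ball ρ₀ s) ∧
      ∀ p ∈ ball tc (min s R) ×ˢ ball ρ₀ s, A p = (p.2 - ρ₀) ^ k * G p := by
  have htc : tc ∈ ball tc s := mem_ball_self hs
  -- the coefficients
  have ha := fun n : ℕ => brE_coeff (A := A) (tc := tc) (U := ball ρ₀ s)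
    (fun ρ hρ => hA (tc, ρ) ⟨htc, hρ⟩) n
  have hbd : ∀ (n : ℕ) (r : ℝ), 0 < r → r < R → ∀ ρ ∈ ball ρ₀ s, ρ ∉ Z → ρ ≠ ρ₀ →
      ‖iteratedDeriv n (fun t => A (t, ρ)) tc‖ ≤
        ‖ρ - ρ₀‖ ^ k * ((n.factorial : ℝ) * C / r ^ n) := by
    intro n r hr hrR ρ hρ hρZ hρ0
    obtain ⟨w, hw, hwC, hAw⟩ := hsl ρ hρ hρZ hρ0
    have h1 : iteratedDeriv n (fun t => A (t, ρ)) tc =
        (ρ - ρ₀) ^ k * iteratedDeriv n w tc := by
      rw [Filter.EventuallyEq.iteratedDeriv_eq n hAw]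
      exact iteratedDeriv_const_mul _ (hw tc (mem_ball_self hR)).contDiffAt
    have h2 : DiffContOnCl ℂ w (ball tc r) := by
      refine DifferentiableOn.diffContOnCl ?_
      intro t ht
      have ht' : t ∈ ball tc R := by
        have := closure_ball_subset_closedBall ht
        exact lt_of_le_of_lt this hrR
      exact (hw t ht').differentiableAt.differentiableWithinAt
    have h3 := Complex.norm_iteratedDeriv_le_of_forall_mem_sphere_norm_le n hr h2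
      (fun z hz => hwC z (by
        rw [mem_sphere] at hz
        rw [mem_ball, hz]
        exact hrR))
    rw [h1, norm_mul, norm_pow]
    exact mul_le_mul_of_nonneg_left h3 (by positivity)
  have hR2 : R / 2 < R := by linarith
  choose c hcan hceq using fun n : ℕ => brE_div hs (ha n) hZ k
    (M := (n.factorial : ℝ) * C / (R / 2) ^ n)
    (fun ρ h1 h2 h3 => hbd n (R / 2) (by linarith) hR2 ρ h1 h2 h3)
  -- the bound of the coefficients
  have hcb : ∀ (n : ℕ) (r : ℝ), 0 < r → r < R → ∀ ρ ∈ ball ρ₀ s,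
      ‖c n ρ‖ ≤ (n.factorial : ℝ) * C / r ^ n := by
    intro n r hr hrR
    refine brE_dense isOpen_ball (hcan n).continuousOn (hZ.union (Set.countable_singleton ρ₀))
      fun ρ hρ hρZ => ?_
    rw [Set.mem_union, not_or, Set.mem_singleton_iff] at hρZ
    have h1 := hbd n r hr hrR ρ hρ hρZ.1 hρZ.2
    rw [hceq n ρ hρ, norm_mul, norm_pow] at h1
    have h2 : 0 < ‖ρ - ρ₀‖ ^ k := pow_pos (norm_pos_iff.2 (sub_ne_zero.2 hρZ.2)) _
    exact le_of_mul_le_mul_left h1 h2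
  -- the function
  set f : ℕ → ℂ × ℂ → ℂ := fun n p => (n.factorial : ℂ)⁻¹ * (p.1 - tc) ^ n * c n p.2 with hf
  have hfan : ∀ n, AnalyticOnNhd ℂ (f n) (ball tc R ×ˢ ball ρ₀ s) := by
    intro n p hp
    have h1 : AnalyticAt ℂ (fun p : ℂ × ℂ => c n p.2) p :=
      AnalyticAt.fun_comp (hcan n p.2 hp.2) analyticAt_snd
    exact (analyticAt_const.mul ((analyticAt_fst.sub analyticAt_const).pow n)).mul h1
  have hfb : ∀ (n : ℕ) (r r' : ℝ), 0 < r → r < r' → r' < R → ∀ p ∈ ball tc r ×ˢ ball ρ₀ s,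
      ‖f n p‖ ≤ |C| * (r / r') ^ n := by
    intro n r r' hr hrr hrR p hp
    have hr' : 0 < r' := hr.trans hrr
    have h1 := hcb n r' hr' hrR p.2 hp.2
    have h2 : ‖p.1 - tc‖ ≤ r := by
      have := hp.1
      rw [mem_ball, dist_eq_norm] at this
      exact this.le
    have h3 : ‖p.1 - tc‖ ^ n ≤ r ^ n := pow_le_pow_left₀ (norm_nonneg _) h2 n
    have hfac : (0:ℝ) < n.factorial := Nat.cast_pos.2 n.factorial_pos
    have h4 : ‖f n p‖ = (n.factorial : ℝ)⁻¹ * ‖p.1 - tc‖ ^ n * ‖c n p.2‖ := by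
      rw [hf]
      simp only
      rw [norm_mul, norm_mul, norm_pow, norm_inv, Complex.norm_natCast]
    rw [h4]
    have h5 : ‖c n p.2‖ ≤ (n.factorial : ℝ) * |C| / r' ^ n := by
      refine h1.trans ?_
      have h6 := le_abs_self C
      gcongr
    calc (n.factorial : ℝ)⁻¹ * ‖p.1 - tc‖ ^ n * ‖c n p.2‖
        ≤ (n.factorial : ℝ)⁻¹ * r ^ n * ((n.factorial : ℝ) * |C| / r' ^ n) := by
          gcongr
      _ = |C| * (r / r') ^ n := by
          rw [div_pow]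
          field_simp
  refine ⟨fun p => ∑' n, f n p, ?_, ?_⟩
  · refine Pool.Agent.SCV.analyticOnNhd_of_tendstoLocallyUniformlyOn (l := atTop) _
      (isOpen_ball.prod isOpen_ball) (fun t : Finset ℕ => fun p => ∑ n ∈ t, f n p) _
      (fun t p hp => Finset.analyticAt_fun_sum _ fun n _ => hfan n p hp) ?_
    intro u hu p hp
    have hp1 : dist p.1 tc < R := hp.1
    obtain ⟨r, hr1, hr2⟩ := exists_between hp1
    obtain ⟨r', hr3, hr4⟩ := exists_between hr2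
    have hr0 : 0 < r := lt_of_le_of_lt dist_nonneg hr1
    have hr'0 : 0 < r' := hr0.trans hr3
    have hsum : Summable fun n : ℕ => |C| * (r / r') ^ n :=
      (summable_geometric_of_lt_one (by positivity) ((div_lt_one hr'0).2 hr3)).mul_left _
    have hunif := tendstoUniformlyOn_tsum hsum
      (fun n q hq => hfb n r r' hr0 hr3 hr4 q hq)
    refine ⟨ball tc r ×ˢ ball ρ₀ s, mem_nhdsWithin_of_mem_nhds
      ((isOpen_ball.prod isOpen_ball).mem_nhds ⟨hr1, hp.2⟩), hunif u hu⟩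
  · intro p hp
    have hp1 : p.1 ∈ ball tc s := ball_subset_ball (min_le_left _ _) hp.1
    have hdiff : DifferentiableOn ℂ (fun t => A (t, p.2)) (ball tc s) := by
      intro t ht
      have h1 : AnalyticAt ℂ (fun t : ℂ => A (t, p.2)) t :=
        AnalyticAt.fun_comp (f := fun t : ℂ => (t, p.2)) (hA (t, p.2) ⟨ht, hp.2⟩)
          (analyticAt_id.prod analyticAt_const)
      exact h1.differentiableAt.differentiableWithinAt
    have h1 := (Complex.hasSum_taylorSeries_on_ball hdiff hp1).tsum_eq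
    have h2 : A p = ∑' n, (n.factorial : ℂ)⁻¹ • (p.1 - tc) ^ n •
        iteratedDeriv n (fun t => A (t, p.2)) tc := h1.symm
    rw [h2]
    show _ = (p.2 - ρ₀) ^ k * ∑' n, f n p
    rw [← tsum_mul_left]
    refine tsum_congr fun n => ?_
    rw [hceq n p.2 hp.2, hf]
    simp only [smul_eq_mul]
    ring

end Pool.Agent.MP_ae5b4e_an_NB1
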