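import Mathlib
import Pool.Agent.Lib.MP_ae5b4e_an_NB1.BrDefs

/-!
# MP_ae5b4e_an, project NB_1: the squarefree part of a polynomial with analytic coefficients
-/

noncomputable section

namespace Pool.Agent.MP_ae5b4e_an_NB1

open Complex Set Filter Topology Metric

open scoped nonZeroDivisors in
/-- clearing denominators -/
private theorem BrA_clear {A : Type*} [CommRing A] [IsDomain A]
    (p : Polynomial (FractionRing A)) : ∃ s : A, s ≠ 0 ∧ ∃ q : Polynomial A,
      q.map (algebraMap A (FractionRing A)) =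
        Polynomial.C (algebraMap A (FractionRing A) s) * p := by
  obtain ⟨c, c0, hc⟩ := IsLocalization.integerNormalization_spec A⁰ p
  refine ⟨c, nonZeroDivisors.ne_zero c0, IsLocalization.integerNormalization A⁰ p, ?_⟩
  rw [hc, Algebra.smul_def]
  rfl

/-- the squarefree part, over a domain of characteristic zero -/
private theorem BrA_alg {A : Type*} [CommRing A] [IsDomain A] [CharZero A] {P : Polynomial A}
    (hP : P ≠ 0) : ∃ (Q a b c₁ c₂ : Polynomial A) (s₁ s₂ s₃ : A) (n : ℕ), Q ≠ 0 ∧ s₁ ≠ 0 ∧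
      s₂ ≠ 0 ∧ s₃ ≠ 0 ∧ Polynomial.C s₁ = a * Q + b * Polynomial.derivative Q ∧
      Polynomial.C s₂ * P = Q * c₁ ∧ Polynomial.C s₃ * Q ^ n = P * c₂ := by
  classical
  obtain ⟨f, hf⟩ : ∃ f : A →+* FractionRing A, f = algebraMap A (FractionRing A) := ⟨_, rfl⟩
  have hinj : Function.Injective f := by
    rw [hf]
    exact IsFractionRing.injective A (FractionRing A)
  have hch : CharZero (FractionRing A) := by
    refine ⟨fun a b hab => ?_⟩
    have h1 : f (a : A) = f (b : A) := by simpa using hab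
    exact_mod_cast hinj h1
  have hP0 : P.map f ≠ 0 := by rwa [Ne, Polynomial.map_eq_zero_iff hinj]
  have hne : Nonempty (NormalizationMonoid (Polynomial (FractionRing A))) := inferInstance
  obtain ⟨inst⟩ := hne
  obtain ⟨R, hR⟩ : ∃ R, R = UniqueFactorizationMonoid.radical (P.map f) := ⟨_, rfl⟩
  have hsq : Squarefree R := by rw [hR]; exact UniqueFactorizationMonoid.squarefree_radical
  obtain ⟨c10, hc10⟩ : R ∣ P.map f := by
    rw [hR]; exact UniqueFactorizationMonoid.radical_dvd_self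
  obtain ⟨n, c20, hc20⟩ : ∃ n, P.map f ∣ R ^ n := by
    rw [hR]; exact UniqueFactorizationMonoid.exists_dvd_radical_self_pow hP0
  have hsep : R.Separable := PerfectField.separable_iff_squarefree.2 hsq
  obtain ⟨a0, b0, hab⟩ := hsep
  have hR0 : R ≠ 0 := by
    rintro h0
    rw [h0, zero_mul] at hc10
    exact hP0 hc10
  have hclear : ∀ p : Polynomial (FractionRing A), ∃ s : A, s ≠ 0 ∧ ∃ q : Polynomial A,
      q.map f = Polynomial.C (f s) * p := by
    intro p
    rw [hf]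
    exact BrA_clear p
  have hpi : Function.Injective (Polynomial.map f) := Polynomial.map_injective f hinj
  have hCf : ∀ s : A, s ≠ 0 → Polynomial.C (f s) ≠ 0 := by
    intro s hs h
    rw [Polynomial.C_eq_zero, map_eq_zero_iff f hinj] at h
    exact hs h
  obtain ⟨t, ht, Q, hQ⟩ := hclear R
  obtain ⟨sa, hsa, a, ha⟩ := hclear a0
  obtain ⟨sb, hsb, b, hb⟩ := hclear b0
  obtain ⟨s1, hs1, c1, hc1⟩ := hclear c10
  obtain ⟨s2, hs2, c2, hc2⟩ := hclear c20
  refine ⟨Q, Polynomial.C sb * a, Polynomial.C sa * b, c1, Polynomial.C (t ^ n) * c2,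
    sa * sb * t, s1 * t, s2, n, ?_, mul_ne_zero (mul_ne_zero hsa hsb) ht, mul_ne_zero hs1 ht, hs2,
    ?_, ?_, ?_⟩
  · rintro rfl
    rw [Polynomial.map_zero] at hQ
    exact mul_ne_zero (hCf t ht) hR0 hQ.symm
  · apply hpi
    have hdQ : (Polynomial.derivative Q).map f =
        Polynomial.C (f t) * Polynomial.derivative R := by
      rw [← Polynomial.derivative_map, hQ, Polynomial.derivative_C_mul]
    simp only [Polynomial.map_add, Polynomial.map_mul, Polynomial.map_C, ha, hb, hQ, hdQ,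
      map_mul]
    linear_combination (-(Polynomial.C (f sa) * Polynomial.C (f sb) * Polynomial.C (f t))) * hab
  · apply hpi
    simp only [Polynomial.map_mul, Polynomial.map_C, hc1, hQ, map_mul]
    rw [hc10]
    ring
  · apply hpi
    simp only [Polynomial.map_mul, Polynomial.map_C, Polynomial.map_pow, hc2, hQ, map_pow]
    rw [mul_pow, hc20]
    ring

/-- the ring of analytic functions on `U` -/
private def BrAring (U : Set ℂ) : Subalgebra ℂ (U → ℂ) where
  carrier := {f | ∃ F : ℂ → ℂ, AnalyticOnNhd ℂ F U ∧ ∀ z : U, f z = F z}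
  mul_mem' := by
    rintro f g ⟨F, hF, h⟩ ⟨G, hG, h'⟩
    exact ⟨fun z => F z * G z, hF.mul hG, fun z => by rw [Pi.mul_apply, h, h']⟩
  add_mem' := by
    rintro f g ⟨F, hF, h⟩ ⟨G, hG, h'⟩
    exact ⟨fun z => F z + G z, hF.add hG, fun z => by rw [Pi.add_apply, h, h']⟩
  algebraMap_mem' := fun r => ⟨fun _ => r, analyticOnNhd_const, fun _ => rfl⟩

private theorem BrA_mem {U : Set ℂ} {f : U → ℂ} {F : ℂ → ℂ} (hF : AnalyticOnNhd ℂ F U)
    (h : ∀ z : U, f z = F z) : f ∈ BrAring U := ⟨F, hF, h⟩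

private theorem BrA_noZero {U : Set ℂ} (hU : IsOpen U) (hUc : IsPreconnected U) :
    NoZeroDivisors (BrAring U) := by
  refine ⟨fun {f g} hfg => ?_⟩
  by_contra hcon
  push Not at hcon
  obtain ⟨hf, hg⟩ := hcon
  obtain ⟨F, hF, hF'⟩ := f.2
  obtain ⟨G, hG, hG'⟩ := g.2
  have h1 : ∃ z : U, f.1 z ≠ 0 := by
    by_contra h
    push Not at h
    apply hf
    apply Subtype.ext
    funext z
    exact h z
  obtain ⟨z, hz⟩ := h1
  have hz' : F z ≠ 0 := by rw [← hF']; exact hz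
  have hFG : ∀ w ∈ U, F w * G w = 0 := by
    intro w hw
    have h2 := congrFun (congrArg Subtype.val hfg) ⟨w, hw⟩
    have h3 : f.1 ⟨w, hw⟩ * g.1 ⟨w, hw⟩ = 0 := h2
    rwa [hF', hG'] at h3
  have h2 : G =ᶠ[𝓝 (z:ℂ)] 0 := by
    filter_upwards [hU.mem_nhds z.2, (hF z z.2).continuousAt.eventually_ne hz'] with w h3 h4
    exact (mul_eq_zero.1 (hFG w h3)).resolve_left h4
  have h3 := hG.eqOn_zero_of_preconnected_of_eventuallyEq_zero hUc z.2 h2
  apply hg
  apply Subtype.ext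
  funext w
  show g.1 w = 0
  rw [hG']
  exact h3 w.2

private theorem BrA_eval {A : Type*} [CommRing A] (φ : A →+* ℂ) (Q : Polynomial A) {q : ℕ → ℂ → ℂ}
    {z : ℂ} {d : ℕ} (hd : Q.natDegree ≤ d) (hq : ∀ i, q i z = φ (Q.coeff i)) (x : ℂ) :
    PolE d q z x = Q.eval₂ φ x ∧ PolD d q z x = (Polynomial.derivative Q).eval₂ φ x := by
  have h1 : Q.map φ = ∑ i ∈ Finset.range (d + 1), Polynomial.C (φ (Q.coeff i)) * Polynomial.X ^ i := by
    have h2 : (Q.map φ).natDegree < d + 1 :=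
      (Polynomial.natDegree_map_le).trans_lt (Nat.lt_succ_of_le hd)
    rw [Polynomial.as_sum_range' (Q.map φ) (d + 1) h2]
    refine Finset.sum_congr rfl fun i _ => ?_
    rw [Polynomial.coeff_map, Polynomial.C_mul_X_pow_eq_monomial]
  constructor
  · rw [← Polynomial.eval_map, h1, Polynomial.eval_finsetSum]
    unfold PolE
    refine Finset.sum_congr rfl fun i _ => ?_
    rw [hq]
    simp
  · rw [← Polynomial.eval_map, ← Polynomial.derivative_map, h1, Polynomial.derivative_sum,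
      Polynomial.eval_finsetSum]
    unfold PolD
    refine Finset.sum_congr rfl fun i _ => ?_
    rw [hq, Polynomial.derivative_C_mul_X_pow]
    simp
    ring

/-- **The squarefree part.** -/
theorem exists_sqf {U : Set ℂ} (hU : IsOpen U) (hUc : IsPreconnected U) {D : ℕ}
    {b : ℕ → ℂ → ℂ} (hb : ∀ i ≤ D, AnalyticOnNhd ℂ (b i) U)
    (h0 : ∃ i ≤ D, ∃ z ∈ U, b i z ≠ 0) :
    ∃ (d : ℕ) (q : ℕ → ℂ → ℂ) (Δ : ℂ → ℂ), (∀ i ≤ d, AnalyticOnNhd ℂ (q i) U) ∧
      AnalyticOnNhd ℂ Δ U ∧ (∃ z ∈ U, Δ z ≠ 0) ∧ Reg d q (U ∩ {z | Δ z ≠ 0}) ∧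
      ∀ z ∈ U, Δ z ≠ 0 → ∀ x, (PolE D b z x = 0 ↔ PolE d q z x = 0) := by
  classical
  have hnz := BrA_noZero hU hUc
  obtain ⟨i₀, hi₀, z₀, hz₀, hb₀⟩ := h0
  have hne : Nonempty U := ⟨⟨z₀, hz₀⟩⟩
  have hnt : Nontrivial (BrAring U) := inferInstance
  have hdom : IsDomain (BrAring U) := NoZeroDivisors.to_isDomain _
  have hchar : CharZero (BrAring U) :=
    charZero_of_injective_algebraMap (FaithfulSMul.algebraMap_injective ℂ (BrAring U))
  -- the evaluations
  obtain ⟨ev, hev⟩ : ∃ ev : U → (BrAring U →+* ℂ), ∀ z (f : BrAring U), ev z f = f.1 z :=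
    ⟨fun z => (Pi.evalRingHom (fun _ : U => ℂ) z).comp (BrAring U).val.toRingHom,
      fun z f => rfl⟩
  have hext : ∀ f : BrAring U, ∃ F : ℂ → ℂ, AnalyticOnNhd ℂ F U ∧ ∀ z : U, f.1 z = F z :=
    fun f => f.2
  choose ext hext1 hext2 using hext
  -- the polynomial
  obtain ⟨bb, hbb⟩ : ∃ bb : ℕ → BrAring U, ∀ i, i ≤ D → ∀ z : U, (bb i).1 z = b i z := by
    refine ⟨fun i => if h : i ≤ D then ⟨fun z => b i z, BrA_mem (hb i h) fun _ => rfl⟩ else 0, ?_⟩
    intro i hi z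
    simp only [dif_pos hi]
  obtain ⟨P, hP⟩ : ∃ P : Polynomial (BrAring U), P =
    ∑ i ∈ Finset.range (D + 1), Polynomial.C (bb i) * Polynomial.X ^ i := ⟨_, rfl⟩
  have hPc : ∀ i, i ≤ D → P.coeff i = bb i := by
    intro i hi
    rw [hP, Polynomial.finsetSum_coeff]
    simp only [Polynomial.coeff_C_mul_X_pow]
    rw [Finset.sum_ite_eq]
    rw [if_pos (Finset.mem_range.2 (Nat.lt_succ_of_le hi))]
  have hP0 : P ≠ 0 := by
    intro h
    have h1 := hPc i₀ hi₀
    rw [h, Polynomial.coeff_zero] at h1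
    have h2 := hbb i₀ hi₀ ⟨z₀, hz₀⟩
    rw [← h1] at h2
    exact hb₀ h2.symm
  have hPd : P.natDegree ≤ D := by
    rw [hP]
    refine Polynomial.natDegree_sum_le_of_forall_le _ _ fun i hi => ?_
    refine (Polynomial.natDegree_C_mul_X_pow_le _ _).trans ?_
    exact Nat.lt_succ_iff.1 (Finset.mem_range.1 hi)
  obtain ⟨Q, a, b', c₁, c₂, s₁, s₂, s₃, n, hQ0, h1, h2, h3, e1, e2, e3⟩ := BrA_alg hP0
  have hΔ0 : s₁ * s₂ * s₃ * Q.leadingCoeff ≠ 0 :=
    mul_ne_zero (mul_ne_zero (mul_ne_zero h1 h2) h3) (Polynomial.leadingCoeff_ne_zero.2 hQ0)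
  -- the values of the factors
  have hval : ∀ z : U, ext (s₁ * s₂ * s₃ * Q.leadingCoeff) z ≠ 0 →
      ev z s₁ ≠ 0 ∧ ev z s₂ ≠ 0 ∧ ev z s₃ ≠ 0 ∧ ev z Q.leadingCoeff ≠ 0 := by
    intro z hz
    rw [← hext2, ← hev, map_mul, map_mul, map_mul] at hz
    have h4 := left_ne_zero_of_mul hz
    have h5 := left_ne_zero_of_mul h4
    exact ⟨left_ne_zero_of_mul h5, right_ne_zero_of_mul h5, right_ne_zero_of_mul h4,
      right_ne_zero_of_mul hz⟩
  have hEQ : ∀ (z : U) (x : ℂ),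
      PolE Q.natDegree (fun i => ext (Q.coeff i)) z x = Q.eval₂ (ev z) x ∧
      PolD Q.natDegree (fun i => ext (Q.coeff i)) z x =
        (Polynomial.derivative Q).eval₂ (ev z) x := fun z x =>
    BrA_eval (ev z) Q le_rfl (fun i => by rw [hev, hext2]) x
  have hEP : ∀ (z : U) (x : ℂ), PolE D b z x = P.eval₂ (ev z) x := by
    intro z x
    have h4 : PolE D b z x = PolE D (fun i => ext (P.coeff i)) z x := by
      unfold PolE
      refine Finset.sum_congr rfl fun i hi => ?_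
      have hi' : i ≤ D := Nat.lt_succ_iff.1 (Finset.mem_range.1 hi)
      beta_reduce
      rw [← hext2, hPc i hi', hbb i hi']
    rw [h4]
    exact (BrA_eval (ev z) P hPd (fun i => by rw [hev, hext2]) x).1
  refine ⟨Q.natDegree, fun i => ext (Q.coeff i), ext (s₁ * s₂ * s₃ * Q.leadingCoeff),
    fun i _ => hext1 _, hext1 _, ?_, ⟨fun i _ => (hext1 _).mono inter_subset_left, ?_, ?_⟩, ?_⟩
  · by_contra h
    push Not at h
    apply hΔ0
    apply Subtype.ext
    funext z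
    show (s₁ * s₂ * s₃ * Q.leadingCoeff).1 z = 0
    rw [hext2]
    exact h z z.2
  · rintro z ⟨hz, hzΔ⟩
    have h4 := (hval ⟨z, hz⟩ hzΔ).2.2.2
    rw [hev, hext2] at h4
    exact h4
  · rintro z ⟨hz, hzΔ⟩ x hx
    have h4 := (hval ⟨z, hz⟩ hzΔ).1
    have h5 := hEQ ⟨z, hz⟩ x
    rw [h5.1] at hx
    rw [h5.2]
    intro h6
    apply h4
    have h7 := congrArg (Polynomial.eval₂ (ev ⟨z, hz⟩) x) e1
    rw [Polynomial.eval₂_C, Polynomial.eval₂_add, Polynomial.eval₂_mul, Polynomial.eval₂_mul,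
      hx, h6, mul_zero, mul_zero, add_zero] at h7
    exact h7
  · intro z hz hzΔ x
    obtain ⟨-, h4, h5, -⟩ := hval ⟨z, hz⟩ hzΔ
    rw [hEP ⟨z, hz⟩ x, (hEQ ⟨z, hz⟩ x).1]
    constructor
    · intro h6
      have h7 := congrArg (Polynomial.eval₂ (ev ⟨z, hz⟩) x) e3
      rw [Polynomial.eval₂_mul, Polynomial.eval₂_mul, Polynomial.eval₂_C, Polynomial.eval₂_pow,
        h6, zero_mul] at h7
      by_contra h8
      exact mul_ne_zero h5 (pow_ne_zero n h8) h7
    · intro h6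
      have h7 := congrArg (Polynomial.eval₂ (ev ⟨z, hz⟩) x) e2
      rw [Polynomial.eval₂_mul, Polynomial.eval₂_mul, Polynomial.eval₂_C, h6, zero_mul] at h7
      exact (mul_eq_zero.1 h7).resolve_left h4

end Pool.Agent.MP_ae5b4e_an_NB1
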