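import Mathlib
import Pool.Agent.Lib.MP_ae5b4e_an_NB1.BrDefs
import Pool.Agent.Lib.MP_ae5b4e_an_LAT.NDImplicit

/-!
# MP_ae5b4e_an, project NB_1: branches of algebraic functions
-/

noncomputable section

namespace Pool.Agent.MP_ae5b4e_an_NB1

open Complex Set Filter Topology Metric

variable {d : ℕ} {q : ℕ → ℂ → ℂ}

/-- the local branch through a simple root -/
theorem Reg.branch {S : Set ℂ} (hq : Reg d q S) {z x : ℂ} (hz : z ∈ S) (hx : PolE d q z x = 0) :
    ∃ h : ℂ → ℂ, AnalyticAt ℂ h z ∧ h z = x ∧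
      ∀ᶠ p in 𝓝 (z, x), PolE d q p.1 p.2 = 0 ↔ h p.1 = p.2 := by
  have hF : AnalyticAt ℂ (fun p : ℂ × ℂ => PolE d q p.1 p.2) (z, x) := by
    unfold PolE
    refine Finset.analyticAt_fun_sum _ fun i hi => ?_
    have hi' : i ≤ d := Nat.lt_succ_iff.1 (Finset.mem_range.1 hi)
    have h1 : AnalyticAt ℂ (fun p : ℂ × ℂ => q i p.1) (z, x) :=
      AnalyticAt.fun_comp (g := q i) (f := fun p : ℂ × ℂ => p.1) (hq.an i hi' z hz) analyticAt_fst
    exact h1.mul (analyticAt_snd.pow i)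
  have hd : HasDerivAt (fun t => PolE d q z t) (PolD d q z x) x := by
    unfold PolE PolD
    refine HasDerivAt.fun_sum fun i _ => ?_
    have h1 := (hasDerivAt_pow i x).const_mul (q i z)
    exact h1
  exact MP_ae5b4e_an_ND.implicit_analytic hF hx (hq.simple z hz x hx) hd

/-- a continuous branch is analytic -/
theorem Reg.analyticAt {S : Set ℂ} (hq : Reg d q S) {z : ℂ} (hz : z ∈ S) {V : ℂ → ℂ}
    (hV : ContinuousAt V z) (hV0 : ∀ᶠ t in 𝓝 z, PolE d q t (V t) = 0) : AnalyticAt ℂ V z := by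
  obtain ⟨h, hh, -, he⟩ := hq.branch hz hV0.self_of_nhds
  refine hh.congr ?_
  have h1 : Tendsto (fun t : ℂ => (t, V t)) (𝓝 z) (𝓝 (z, V z)) :=
    (continuousAt_id.prodMk hV).tendsto
  filter_upwards [h1.eventually he, hV0] with t h2 h3
  exact h2.1 h3

/-- branches which agree at a point agree -/
theorem Reg.eqOn {S : Set ℂ} (hSc : IsPreconnected S) (hq : Reg d q S) {V W : ℂ → ℂ}
    (hV : ContinuousOn V S) (hW : ContinuousOn W S) (hV0 : ∀ z ∈ S, PolE d q z (V z) = 0)
    (hW0 : ∀ z ∈ S, PolE d q z (W z) = 0) {z₀ : ℂ} (hz₀ : z₀ ∈ S) (h : V z₀ = W z₀) :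
    EqOn V W S := by
  have : PreconnectedSpace S := isPreconnected_iff_preconnectedSpace.1 hSc
  have hVc : Continuous fun t : S => V t := continuousOn_iff_continuous_domRestrict.1 hV
  have hWc : Continuous fun t : S => W t := continuousOn_iff_continuous_domRestrict.1 hW
  have hcl : IsClosed {t : S | V t = W t} := isClosed_eq hVc hWc
  have hop : IsOpen {t : S | V t = W t} := by
    rw [isOpen_iff_mem_nhds]
    intro z hz
    have hz' : V z = W z := hz
    obtain ⟨b, -, -, he⟩ := hq.branch z.2 (hV0 z z.2)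
    have h1 : Tendsto (fun t : S => ((t : ℂ), V t)) (𝓝 z) (𝓝 ((z : ℂ), V z)) :=
      (continuous_subtype_val.prodMk hVc).tendsto z
    have h2 : Tendsto (fun t : S => ((t : ℂ), W t)) (𝓝 z) (𝓝 ((z : ℂ), V z)) := by
      rw [hz']
      exact (continuous_subtype_val.prodMk hWc).tendsto z
    filter_upwards [h1.eventually he, h2.eventually he] with t h3 h4
    exact (h3.1 (hV0 t t.2)).symm.trans (h4.1 (hW0 t t.2))
  have hall := IsClopen.eq_univ ⟨hcl, hop⟩ ⟨⟨z₀, hz₀⟩, h⟩
  intro z hz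
  have h1 : (⟨z, hz⟩ : S) ∈ {t : S | V t = W t} := by
    rw [hall]
    exact mem_univ _
  exact h1

/-- a bound of the roots -/
theorem root_bound {z x : ℂ} (hx : PolE d q z x = 0) :
    ‖q d z * x‖ ≤ ∑ i ∈ Finset.range (d + 1), ‖q i z‖ := by
  have hnn : ∀ i ∈ Finset.range (d + 1), 0 ≤ ‖q i z‖ := fun i _ => norm_nonneg _
  rcases le_or_gt ‖x‖ 1 with h1 | h1
  · rw [norm_mul]
    have h2 : ‖q d z‖ * ‖x‖ ≤ ‖q d z‖ := mul_le_of_le_one_right (norm_nonneg _) h1
    exact h2.trans (Finset.single_le_sum (f := fun i => ‖q i z‖) hnn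
      (Finset.mem_range.2 (Nat.lt_succ_self d)))
  · cases d with
    | zero =>
      unfold PolE at hx
      rw [Finset.sum_range_one, pow_zero, mul_one] at hx
      rw [hx, zero_mul, norm_zero]
      exact Finset.sum_nonneg hnn
    | succ n =>
      have hxp : 0 < ‖x‖ ^ n := pow_pos (by linarith) n
      unfold PolE at hx
      rw [Finset.sum_range_succ] at hx
      have h2 : q (n + 1) z * x ^ (n + 1) = -∑ i ∈ Finset.range (n + 1), q i z * x ^ i := by
        linear_combination hx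
      have h3 : ‖q (n + 1) z * x‖ * ‖x‖ ^ n ≤
          (∑ i ∈ Finset.range (n + 1), ‖q i z‖) * ‖x‖ ^ n := by
        have e1 : ‖q (n + 1) z * x‖ * ‖x‖ ^ n = ‖q (n + 1) z * x ^ (n + 1)‖ := by
          rw [norm_mul, norm_mul, norm_pow]
          ring
        rw [e1, h2, norm_neg, Finset.sum_mul]
        refine (norm_sum_le _ _).trans (Finset.sum_le_sum fun i hi => ?_)
        rw [norm_mul, norm_pow]
        exact mul_le_mul_of_nonneg_left
          (pow_le_pow_right₀ h1.le (Nat.lt_succ_iff.1 (Finset.mem_range.1 hi))) (norm_nonneg _)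
      have h4 := le_of_mul_le_mul_right h3 hxp
      refine h4.trans ?_
      rw [Finset.sum_range_succ _ (n + 1)]
      linarith [norm_nonneg (q (n + 1) z)]

/-- a branch near a point where the leading coefficient may vanish is meromorphic -/
theorem merom_of_root {z : ℂ} (hq : ∀ i ≤ d, AnalyticAt ℂ (q i) z)
    (hl : ∀ᶠ t in 𝓝[≠] z, q d t ≠ 0) {V : ℂ → ℂ} (hV : ∀ᶠ t in 𝓝[≠] z, AnalyticAt ℂ V t)
    (hV0 : ∀ᶠ t in 𝓝[≠] z, PolE d q t (V t) = 0) : MeromorphicAt V z := by
  have hc : ContinuousAt (fun t => ∑ i ∈ Finset.range (d + 1), ‖q i t‖) z := by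
    refine tendsto_finsetSum _ fun i hi => ?_
    exact ((hq i (Nat.lt_succ_iff.1 (Finset.mem_range.1 hi))).continuousAt.norm).tendsto
  have hb : ∀ᶠ t in 𝓝 z, ∑ i ∈ Finset.range (d + 1), ‖q i t‖ <
      ∑ i ∈ Finset.range (d + 1), ‖q i z‖ + 1 :=
    hc.eventually (gt_mem_nhds (lt_add_one _))
  have hev : ∀ᶠ t in 𝓝 z, (t ≠ z → AnalyticAt ℂ V t ∧ PolE d q t (V t) = 0) ∧
      AnalyticAt ℂ (q d) t ∧ ∑ i ∈ Finset.range (d + 1), ‖q i t‖ <
      ∑ i ∈ Finset.range (d + 1), ‖q i z‖ + 1 := by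
    have h1 := eventually_nhdsWithin_iff.1 (hV.and hV0)
    filter_upwards [h1, hb, (hq d le_rfl).eventually_analyticAt] with t h2 h3 h4
    exact ⟨fun h => h2 h, h4, h3⟩
  obtain ⟨r, hr, hr1⟩ := Metric.eventually_nhds_iff_ball.1 hev
  have hd : DifferentiableOn ℂ (fun t => q d t * V t) (ball z r \ {z}) := by
    rintro t ⟨ht, htz⟩
    obtain ⟨h1, h2, -⟩ := hr1 t ht
    exact (h2.differentiableAt.mul (h1 htz).1.differentiableAt).differentiableWithinAt
  have hbd : BddAbove (norm ∘ (fun t => q d t * V t) '' (ball z r \ {z})) := by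
    refine ⟨∑ i ∈ Finset.range (d + 1), ‖q i z‖ + 1, ?_⟩
    rintro _ ⟨t, ⟨ht, htz⟩, rfl⟩
    obtain ⟨h1, -, h3⟩ := hr1 t ht
    exact (root_bound (h1 htz).2).trans h3.le
  have h1 := Complex.differentiableOn_update_limUnder_of_bddAbove (ball_mem_nhds z hr) hd hbd
  have h2 := (h1.analyticAt (ball_mem_nhds z hr)).meromorphicAt
  have h3 : MeromorphicAt (fun t => q d t * V t) z := by
    refine h2.congr ?_
    filter_upwards [self_mem_nhdsWithin] with t ht
    exact Function.update_of_ne ht _ _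
  refine (h3.div (hq d le_rfl).meromorphicAt).congr ?_
  filter_upwards [hl] with t ht
  show q d t * V t / q d t = V t
  field_simp

end Pool.Agent.MP_ae5b4e_an_NB1
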