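import Mathlib
import Pool.Agent.Lib.MP_ae5b4e_an_NB1.BrB

/-!
# MP_ae5b4e_an, project NB_1: branches of algebraic functions on convex sets without singularities
-/

noncomputable section

namespace Pool.Agent.MP_ae5b4e_an_NB1

open Complex Set Filter Topology Metric

variable {d : ℕ} {q : ℕ → ℂ → ℂ}

/-- the graph of the algebraic function over `H` -/
def BrE (d : ℕ) (q : ℕ → ℂ → ℂ) (H : Set ℂ) : Type :=
  {p : ℂ × ℂ // p.1 ∈ H ∧ PolE d q p.1 p.2 = 0}

instance (H : Set ℂ) : TopologicalSpace (BrE d q H) :=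
  inferInstanceAs (TopologicalSpace {p : ℂ × ℂ // p.1 ∈ H ∧ PolE d q p.1 p.2 = 0})

instance (H : Set ℂ) : T2Space (BrE d q H) :=
  inferInstanceAs (T2Space {p : ℂ × ℂ // p.1 ∈ H ∧ PolE d q p.1 p.2 = 0})

/-- the projection of the graph -/
def brPi {H : Set ℂ} (e : BrE d q H) : H := ⟨e.1.1, e.2.1⟩

lemma continuous_brVal {H : Set ℂ} : Continuous fun e : BrE d q H => e.1 :=
  continuous_subtype_val

lemma continuous_brPi {H : Set ℂ} : Continuous (brPi : BrE d q H → H) :=
  Continuous.subtype_mk (continuous_fst.comp continuous_brVal) _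

lemma nhds_brE {H : Set ℂ} (e : BrE d q H) :
    𝓝 e = comap (fun e : BrE d q H => e.1) (𝓝 e.1) :=
  nhds_subtype (X := ℂ × ℂ) (s := {p | p.1 ∈ H ∧ PolE d q p.1 p.2 = 0}) e

lemma isOpenMap_brPi {H : Set ℂ} (hq : Reg d q H) :
    IsOpenMap (brPi : BrE d q H → H) := by
  rw [isOpenMap_iff_nhds_le]
  intro e V hV
  rw [mem_map, nhds_brE, mem_comap] at hV
  obtain ⟨V₀, hV₀, hV₁⟩ := hV
  obtain ⟨h, hh, hhz, he⟩ := hq.branch e.2.1 e.2.2
  have h1 : Tendsto (fun t : ℂ => (t, h t)) (𝓝 e.1.1) (𝓝 (e.1.1, e.1.2)) := by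
    have h2 := (continuousAt_id (x := e.1.1)).prodMk hh.continuousAt
    have h3 : Tendsto (fun t : ℂ => (t, h t)) (𝓝 e.1.1) (𝓝 (e.1.1, h e.1.1)) := h2
    rwa [hhz] at h3
  have h2 : ∀ᶠ t : H in 𝓝 (brPi e), (((t : ℂ), h t) : ℂ × ℂ) ∈ V₀ ∧
      (PolE d q t (h t) = 0 ↔ h t = h t) := by
    have h3 : Tendsto (fun t : H => (t : ℂ)) (𝓝 (brPi e)) (𝓝 e.1.1) :=
      continuous_subtype_val.tendsto (brPi e)
    exact (h3.eventually (h1.eventually hV₀)).and (h3.eventually (h1.eventually he))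
  filter_upwards [h2] with t ht
  have h3 : PolE d q (t : ℂ) (h t) = 0 := ht.2.2 rfl
  have h4 := @hV₁ ⟨((t : ℂ), h t), t.2, h3⟩ ht.1
  exact h4

lemma isLocalHomeomorph_brPi {H : Set ℂ} (hq : Reg d q H) :
    IsLocalHomeomorph (brPi : BrE d q H → H) := by
  rw [isLocalHomeomorph_iff_isOpenEmbedding_restrict]
  intro e
  obtain ⟨h, hh, hhz, he⟩ := hq.branch e.2.1 e.2.2
  have h1 : ∀ᶠ p : BrE d q H in 𝓝 e, PolE d q p.1.1 p.1.2 = 0 ↔ h p.1.1 = p.1.2 :=
    (continuous_brVal.tendsto e).eventually he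
  obtain ⟨U, hU, hUo, heU⟩ := eventually_nhds_iff.1 h1
  refine ⟨U, hUo.mem_nhds heU, ?_⟩
  refine IsOpenEmbedding.of_continuous_injective_isOpenMap ?_ ?_ ?_
  · exact continuous_brPi.comp continuous_subtype_val
  · intro a b hab
    have h2 : (a : BrE d q H).1.1 = (b : BrE d q H).1.1 := congrArg Subtype.val hab
    have h3 := (hU a a.2).1 (a : BrE d q H).2.2
    have h4 := (hU b b.2).1 (b : BrE d q H).2.2
    have h5 : (a : BrE d q H).1.2 = (b : BrE d q H).1.2 := by
      rw [← h3, ← h4, h2]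
    exact Subtype.ext (Subtype.ext (Prod.ext h2 h5))
  · exact (isOpenMap_brPi hq).comp hUo.isOpenMap_subtype_val

lemma polE_continuousOn {H : Set ℂ} (hq : Reg d q H) :
    ContinuousOn (fun p : ℂ × ℂ => PolE d q p.1 p.2) {p | p.1 ∈ H} := by
  unfold PolE
  refine continuousOn_finsetSum _ fun i hi => ?_
  have hi' : i ≤ d := Nat.lt_succ_iff.1 (Finset.mem_range.1 hi)
  have h1 : ContinuousOn (fun p : ℂ × ℂ => q i p.1) {p | p.1 ∈ H} :=
    (hq.an i hi').continuousOn.comp continuousOn_fst fun p hp => hp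
  exact h1.mul (continuousOn_snd.pow i)

lemma isClosedMap_brPi {H : Set ℂ} (hH : IsOpen H) (hq : Reg d q H) :
    IsClosedMap (brPi : BrE d q H → H) := by
  have : LocallyCompactSpace H := hH.locallyCompactSpace
  have hp : IsProperMap (brPi : BrE d q H → H) := by
    rw [isProperMap_iff_isCompact_preimage]
    refine ⟨continuous_brPi, fun K hK => ?_⟩
    have hK' : IsCompact ((fun t : H => (t : ℂ)) '' K) := hK.image continuous_subtype_val
    have hKH : (fun t : H => (t : ℂ)) '' K ⊆ H := by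
      rintro _ ⟨t, -, rfl⟩
      exact t.2
    have hc : ContinuousOn (fun t => (∑ i ∈ Finset.range (d + 1), ‖q i t‖) / ‖q d t‖)
        ((fun t : H => (t : ℂ)) '' K) := by
      refine ContinuousOn.div ?_ ?_ ?_
      · refine continuousOn_finsetSum _ fun i hi => ?_
        exact ((hq.an i (Nat.lt_succ_iff.1 (Finset.mem_range.1 hi))).continuousOn.mono hKH).norm
      · exact ((hq.an d le_rfl).continuousOn.mono hKH).norm
      · intro t ht
        exact norm_ne_zero_iff.2 (hq.lead t (hKH ht))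
    obtain ⟨M, hM⟩ := hK'.exists_bound_of_continuousOn hc
    have h1 : IsCompact ((((fun t : H => (t : ℂ)) '' K) ×ˢ closedBall (0 : ℂ) M) ∩
        (fun p : ℂ × ℂ => PolE d q p.1 p.2) ⁻¹' {0}) := by
      have h2 : IsCompact (((fun t : H => (t : ℂ)) '' K) ×ˢ closedBall (0 : ℂ) M) :=
        hK'.prod (isCompact_closedBall _ _)
      refine h2.of_isClosed_subset ?_ inter_subset_left
      refine ContinuousOn.preimage_isClosed_of_isClosed ?_ h2.isClosed isClosed_singleton
      exact (polE_continuousOn hq).mono fun p hp => hKH hp.1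
    have h3 : IsCompact (Subtype.val ''
        (brPi ⁻¹' K : Set {p : ℂ × ℂ // p.1 ∈ H ∧ PolE d q p.1 p.2 = 0})) := by
      convert h1 using 1
      ext p
      constructor
      · rintro ⟨e, he, rfl⟩
        have he1 : (e.1.1 : ℂ) ∈ (fun t : H => (t : ℂ)) '' K := ⟨_, he, rfl⟩
        refine ⟨⟨he1, ?_⟩, e.2.2⟩
        rw [mem_closedBall_zero_iff]
        have h5 := hM _ he1
        have h6 := root_bound e.2.2
        have h7 : 0 < ‖q d e.1.1‖ := norm_pos_iff.2 (hq.lead _ e.2.1)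
        rw [norm_mul] at h6
        have h8 : ‖e.1.2‖ ≤ (∑ i ∈ Finset.range (d + 1), ‖q i e.1.1‖) / ‖q d e.1.1‖ := by
          rw [le_div_iff₀ h7]
          linarith
        exact h8.trans ((le_abs_self _).trans h5)
      · rintro ⟨⟨⟨t, ht, hte⟩, -⟩, hp0⟩
        have hte' : (t : ℂ) = p.1 := hte
        have hpH : p.1 ∈ H := by
          rw [← hte']
          exact t.2
        refine ⟨⟨p, hpH, hp0⟩, ?_, rfl⟩
        have h9 : (⟨p.1, hpH⟩ : H) = t := Subtype.ext hte'.symm
        show (⟨p.1, hpH⟩ : H) ∈ K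
        rw [h9]
        exact ht
    exact Subtype.isCompact_iff.2 h3
  exact hp.isClosedMap

lemma finite_brPi {H : Set ℂ} (hq : Reg d q H) (t : H) :
    ((brPi : BrE d q H → H) ⁻¹' {t}).Finite := by
  set P : Polynomial ℂ := ∑ i ∈ Finset.range (d + 1),
    Polynomial.C (q i t) * Polynomial.X ^ i with hP
  have hev : ∀ x, P.eval x = PolE d q t x := by
    intro x
    rw [hP, Polynomial.eval_finsetSum]
    unfold PolE
    refine Finset.sum_congr rfl fun i _ => ?_
    rw [Polynomial.eval_mul, Polynomial.eval_C, Polynomial.eval_pow, Polynomial.eval_X]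
  have hP0 : P ≠ 0 := by
    intro h0
    have h1 : P.coeff d = q d t := by
      rw [hP, Polynomial.finsetSum_coeff]
      simp only [Polynomial.coeff_C_mul_X_pow]
      rw [Finset.sum_eq_single d]
      · rw [if_pos rfl]
      · intro i _ hi
        rw [if_neg (Ne.symm hi)]
      · intro h
        exact absurd (Finset.mem_range.2 (Nat.lt_succ_self d)) h
    rw [h0, Polynomial.coeff_zero] at h1
    exact hq.lead t t.2 h1.symm
  have hfin := Polynomial.finite_setOfPred_isRoot hP0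
  refine Finite.of_finite_image (f := fun e : BrE d q H => e.1.2) (hfin.subset ?_) ?_
  · rintro _ ⟨e, he, rfl⟩
    have h1 : e.1.1 = (t : ℂ) := congrArg Subtype.val he
    show P.eval e.1.2 = 0
    rw [hev, ← h1]
    exact e.2.2
  · intro a ha b hb hab
    have h1 : a.1.1 = (t : ℂ) := congrArg Subtype.val ha
    have h2 : b.1.1 = (t : ℂ) := congrArg Subtype.val hb
    exact Subtype.ext (Prod.ext (h1.trans h2.symm) hab)

/-- **Branches on convex sets.** -/
theorem Reg.exists_section {H : Set ℂ} (hH : IsOpen H) (hHc : Convex ℝ H) (hq : Reg d q H)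
    {z₀ x₀ : ℂ} (hz₀ : z₀ ∈ H) (hx₀ : PolE d q z₀ x₀ = 0) :
    ∃ V : ℂ → ℂ, AnalyticOnNhd ℂ V H ∧ V z₀ = x₀ ∧ ∀ z ∈ H, PolE d q z (V z) = 0 := by
  classical
  have hcov : IsCoveringMapOn (brPi : BrE d q H → H) univ :=
    (isClosedMap_brPi hH hq).isCoveringMapOn_of_isLocalHomeomorphOn
      (fun t _ => finite_brPi hq t) (isLocalHomeomorph_brPi hq).isLocalHomeomorphOn
  have hc : ContractibleSpace H := hHc.contractibleSpace ⟨z₀, hz₀⟩
  have hs : SimplyConnectedSpace H := SimplyConnectedSpace.ofContractible H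
  have hl : LocallyPathConnectedSpace H := hH.locallyPathConnectedSpace
  obtain ⟨F, ⟨hF0, hF⟩, -⟩ := hcov.existsUnique_continuousMap_lifts (A := H)
    (ContinuousMap.id H) (a₀ := ⟨z₀, hz₀⟩) (e₀ := ⟨(z₀, x₀), hz₀, hx₀⟩) rfl
    (fun _ => mem_univ _)
  have hF' : ∀ t : H, (F t).1.1 = t := fun t => congrArg Subtype.val (congrFun hF t)
  set V : ℂ → ℂ := fun t => if ht : t ∈ H then (F ⟨t, ht⟩).1.2 else 0 with hV
  have hVt : ∀ t : H, V t = (F t).1.2 := by
    intro t
    simp only [hV, t.2, dif_pos]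
  have hVc : ContinuousOn V H := by
    rw [continuousOn_iff_continuous_domRestrict]
    have h1 : Continuous fun t : H => (F t).1.2 :=
      continuous_snd.comp (continuous_brVal.comp F.continuous)
    exact h1.congr fun t => (hVt t).symm
  have hV0 : ∀ z ∈ H, PolE d q z (V z) = 0 := by
    intro z hz
    have h1 := (F ⟨z, hz⟩).2.2
    rw [hF' ⟨z, hz⟩, ← hVt ⟨z, hz⟩] at h1
    exact h1
  refine ⟨V, fun z hz => ?_, ?_, hV0⟩
  · refine hq.analyticAt hz (hVc.continuousAt (hH.mem_nhds hz)) ?_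
    filter_upwards [hH.mem_nhds hz] with t ht
    exact hV0 t ht
  · rw [hVt ⟨z₀, hz₀⟩, hF0]

end Pool.Agent.MP_ae5b4e_an_NB1
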