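import Mathlib
import Pool.Agent.Lib.MP_ae5b4e_an_NB1.BrS

/-!
# MP_ae5b4e_an, project NB_1: a branch of an algebraic function extends or is ramified
-/

noncomputable section

namespace Pool.Agent.MP_ae5b4e_an_NB1

open Complex Set Filter Topology Metric

private theorem BrC_per {c : ℝ} {V : ℂ → ℂ} {P : ℂ} (hP : P.re = 0)
    (hper : ∀ z : ℂ, z.re < c → V (z + P) = V z) (n : ℕ) :
    ∀ z : ℂ, z.re < c → V (z + n * P) = V z := by
  induction n with
  | zero => intro z _; simp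
  | succ n ih =>
    intro z hz
    have h1 : z + ((n + 1 : ℕ) : ℂ) * P = (z + n * P) + P := by push_cast; ring
    rw [h1, hper _ (by simp [hP, hz]), ih z hz]

private theorem BrC_perZ {c : ℝ} {V : ℂ → ℂ} {P : ℂ} (hP : P.re = 0)
    (hper : ∀ z : ℂ, z.re < c → V (z + P) = V z) (n : ℤ) {z z' : ℂ} (hz : z.re < c)
    (hz' : z'.re < c) (h : z = z' + n * P) : V z = V z' := by
  obtain ⟨k, rfl | rfl⟩ := n.eq_nat_or_neg
  · rw [h]
    push_cast
    exact BrC_per hP hper k z' hz'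
  · have h1 : z' = z + k * P := by
      rw [h]
      push_cast
      ring
    rw [h1]
    exact (BrC_per hP hper k z hz).symm

private theorem BrC_well {c : ℝ} {V : ℂ → ℂ} {m : ℕ} (hm : 0 < m)
    (hper : ∀ z : ℂ, z.re < c → V (z + m * (2 * Real.pi * I)) = V z) {z z' : ℂ}
    (hz : z.re < c) (hz' : z'.re < c) (h : exp (z / m) = exp (z' / m)) : V z = V z' := by
  have hm0 : (m : ℂ) ≠ 0 := by exact_mod_cast hm.ne'
  obtain ⟨n, hn⟩ := Complex.exp_eq_exp_iff_exists_int.1 h
  refine BrC_perZ (P := m * (2 * Real.pi * I)) (by simp) hper n hz hz' ?_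
  have h1 : z = m * (z / m) := by field_simp
  rw [h1, hn]
  field_simp

private theorem BrC_an {c : ℝ} {V : ℂ → ℂ} (hV : AnalyticOnNhd ℂ V {z | z.re < c}) {m : ℕ}
    (hm : 0 < m) (hper : ∀ z : ℂ, z.re < c → V (z + m * (2 * Real.pi * I)) = V z) {v : ℂ}
    (hv : v ≠ 0) (hvc : m * Real.log ‖v‖ < c) : AnalyticAt ℂ (fun v => V (m * log v)) v := by
  have hm0 : (m : ℂ) ≠ 0 := by exact_mod_cast hm.ne'
  have hre : ∀ u : ℂ, ((m : ℂ) * log u).re = m * Real.log ‖u‖ := by
    intro u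
    simp [log_re]
  by_cases hs : v ∈ slitPlane
  · have h1 : AnalyticAt ℂ (fun u : ℂ => (m : ℂ) * log u) v :=
      analyticAt_const.mul (analyticAt_clog hs)
    have h2 : AnalyticAt ℂ V ((m : ℂ) * log v) := hV _ (by
      show ((m : ℂ) * log v).re < c
      rw [hre]
      exact hvc)
    exact AnalyticAt.fun_comp (g := V) (f := fun u => (m : ℂ) * log u) h2 h1
  · have hns : -v ∈ slitPlane := by
      rw [mem_slitPlane_iff] at hs ⊢
      push Not at hs
      left
      have h1 : v.re ≠ 0 := by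
        intro h0
        exact hv (Complex.ext h0 hs.2)
      have h2 := lt_of_le_of_ne hs.1 h1
      simp only [neg_re]
      linarith
    have h1 : AnalyticAt ℂ (fun u : ℂ => (m : ℂ) * (log (-u) + Real.pi * I)) v := by
      have h2 : AnalyticAt ℂ (fun u : ℂ => -u) v := analyticAt_id.neg
      have h3 : AnalyticAt ℂ (fun u : ℂ => log (-u)) v := h2.clog hns
      exact analyticAt_const.mul (h3.add analyticAt_const)
    have hre' : ∀ u : ℂ, ((m : ℂ) * (log (-u) + Real.pi * I)).re = m * Real.log ‖u‖ := by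
      intro u
      simp [log_re]
    have h2 : AnalyticAt ℂ V ((m : ℂ) * (log (-v) + Real.pi * I)) := hV _ (by
      show ((m : ℂ) * (log (-v) + Real.pi * I)).re < c
      rw [hre']
      exact hvc)
    have h3 : AnalyticAt ℂ (fun u => V ((m : ℂ) * (log (-u) + Real.pi * I))) v :=
      AnalyticAt.fun_comp (g := V) (f := fun u => (m : ℂ) * (log (-u) + Real.pi * I)) h2 h1
    refine h3.congr ?_
    have hc1 : ContinuousAt (fun u : ℂ => (m : ℝ) * Real.log ‖u‖) v :=
      continuousAt_const.mul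
        ((Real.continuousAt_log (norm_ne_zero_iff.2 hv)).comp continuous_norm.continuousAt)
    have hev1 : ∀ᶠ u in 𝓝 v, u ≠ 0 := isOpen_ne.mem_nhds hv
    have hev : ∀ᶠ u in 𝓝 v, u ≠ 0 ∧ (m : ℝ) * Real.log ‖u‖ < c :=
      hev1.and (hc1.eventually (gt_mem_nhds hvc))
    filter_upwards [hev] with u hu
    refine BrC_well hm hper (by rw [hre']; exact hu.2) (by rw [hre]; exact hu.2) ?_
    have e1 : (m : ℂ) * (log (-u) + Real.pi * I) / m = log (-u) + Real.pi * I := by
      field_simp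
    have e2 : (m : ℂ) * log u / m = log u := by field_simp
    rw [e1, e2, exp_add, exp_log (neg_ne_zero.2 hu.1), exp_log hu.1, exp_pi_mul_I]
    ring

private theorem BrC_fin {d : ℕ} {q : ℕ → ℂ → ℂ} {z : ℂ} (h : q d z ≠ 0) :
    {x | PolE d q z x = 0}.Finite := by
  set P : Polynomial ℂ := ∑ i ∈ Finset.range (d + 1),
    Polynomial.C (q i z) * Polynomial.X ^ i with hP
  have h1 : ∀ x, P.eval x = PolE d q z x := by
    intro x
    rw [hP, Polynomial.eval_finsetSum]
    simp [PolE]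
  have h2 : P.coeff d = q d z := by
    rw [hP, Polynomial.finsetSum_coeff]
    simp [Polynomial.coeff_C_mul, Polynomial.coeff_X_pow]
  have h3 : P ≠ 0 := by
    intro h0
    rw [h0] at h2
    exact h (by simpa using h2.symm)
  refine (P.roots.toFinset.finite_toSet).subset ?_
  intro x hx
  have hx' : PolE d q z x = 0 := hx
  simp [Polynomial.mem_roots h3, Polynomial.IsRoot, h1, hx']

private theorem BrC_cone {t₁ : ℂ} {ε : ℝ} : Convex ℝ (Cone t₁ ε) := by
  intro x hx y hy a b ha hb hab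
  refine ⟨?_, ?_⟩
  · exact convex_ball t₁ ε (show x ∈ ball t₁ ε from hx.1) (show y ∈ ball t₁ ε from hy.1) ha hb hab
  · have h1 := hx.2
    have h2 := hy.2
    rw [abs_lt] at h1 h2 ⊢
    simp only [add_re, add_im, smul_re, smul_im, smul_eq_mul]
    have e1 : a * x.re + b * y.re - t₁.re = a * (x.re - t₁.re) + b * (y.re - t₁.re) := by
      linear_combination t₁.re * hab
    have e2 : t₁.im - (a * x.im + b * y.im) = a * (t₁.im - x.im) + b * (t₁.im - y.im) := by
      linear_combination (-t₁.im) * hab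
    rw [e1, e2]
    rcases ha.eq_or_lt with h0 | h0
    · subst h0
      have hb1 : b = 1 := by linarith
      subst hb1
      constructor <;> nlinarith
    · constructor
      · have h3 : a * (-(t₁.im - x.im)) < a * (x.re - t₁.re) := mul_lt_mul_of_pos_left h1.1 h0
        have h4 : b * (-(t₁.im - y.im)) ≤ b * (y.re - t₁.re) :=
          mul_le_mul_of_nonneg_left h2.1.le hb
        linarith
      · have h3 : a * (x.re - t₁.re) < a * (t₁.im - x.im) := mul_lt_mul_of_pos_left h1.2 h0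
        have h4 : b * (y.re - t₁.re) ≤ b * (t₁.im - y.im) :=
          mul_le_mul_of_nonneg_left h2.2.le hb
        linarith

private theorem BrC_lower {t₁ : ℂ} {ε : ℝ} : Convex ℝ (ball t₁ ε ∩ {t : ℂ | t.im < t₁.im}) :=
  (convex_ball t₁ ε).inter (convex_halfSpace_im_lt t₁.im)

/-- the logarithm of `s` on the cone -/
private theorem BrC_re {u e a : ℂ} (ha : a ≠ 0) (hu : |u.re| < -u.im)
    (he : ‖e‖ ≤ ‖a‖ / 2 * ‖u‖) : 0 < (I * (a * u + e) / a).re := by
  have h1 : I * (a * u + e) / a = I * u + I * (e / a) := by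
    field_simp
  have h2 : (I * u).re = -u.im := by simp
  have h3 : -‖e / a‖ ≤ (I * (e / a)).re := by
    have h4 := Complex.abs_re_le_norm (I * (e / a))
    rw [norm_mul, Complex.norm_I, one_mul] at h4
    exact (abs_le.1 h4).1
  have h4 : ‖e / a‖ ≤ ‖u‖ / 2 := by
    rw [norm_div, div_le_iff₀ (norm_pos_iff.2 ha)]
    linarith
  have h5 : ‖u‖ ≤ |u.re| + |u.im| := Complex.norm_le_abs_re_add_abs_im u
  have h6 : 0 ≤ |u.re| := abs_nonneg _
  have h7 : |u.im| = -u.im := abs_of_neg (by linarith)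
  rw [h1, add_re, h2]
  linarith

/-- **Extension or ramification.** -/
theorem ram_or_extends {t₁ : ℂ} {ε : ℝ} (hε : 0 < ε) {d : ℕ} {q : ℕ → ℂ → ℂ}
    (hq : ∀ i ≤ d, AnalyticOnNhd ℂ (q i) (ball t₁ ε)) (hreg : Reg d q (ball t₁ ε \ {t₁}))
    {f₁ : ℂ → ℂ} (hf : AnalyticOnNhd ℂ f₁ (ball t₁ ε ∩ {t | t.im < t₁.im}))
    (hroot : ∀ t ∈ ball t₁ ε, t.im < t₁.im → PolE d q t (f₁ t) = 0) :
    (∃ (δ : ℝ) (g : ℂ → ℂ), 0 < δ ∧ δ ≤ ε ∧ AnalyticOnNhd ℂ g (ball t₁ δ \ {t₁}) ∧
      (∀ t ∈ ball t₁ δ, t ≠ t₁ → PolE d q t (g t) = 0) ∧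
      ∀ t ∈ ball t₁ δ, t.im < t₁.im → g t = f₁ t) ∨
    ∀ s : ℂ → ℂ, AnalyticAt ℂ s t₁ → s t₁ = 0 → deriv s t₁ ≠ 0 → Ram f₁ t₁ s := by
  by_cases hext : (∃ (δ : ℝ) (g : ℂ → ℂ), 0 < δ ∧ δ ≤ ε ∧ AnalyticOnNhd ℂ g (ball t₁ δ \ {t₁}) ∧
      (∀ t ∈ ball t₁ δ, t ≠ t₁ → PolE d q t (g t) = 0) ∧
      ∀ t ∈ ball t₁ δ, t.im < t₁.im → g t = f₁ t)
  · exact Or.inl hext
  right
  intro s hs hs0 hs1
  -- the local inverse
  have hF : AnalyticAt ℂ (fun p : ℂ × ℂ => s p.2 - p.1) (0, t₁) := by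
    have h1 : AnalyticAt ℂ (fun p : ℂ × ℂ => s p.2) (0, t₁) :=
      AnalyticAt.fun_comp (g := s) (f := fun p : ℂ × ℂ => p.2) hs analyticAt_snd
    exact h1.sub analyticAt_fst
  have hd : HasDerivAt (fun t => (fun p : ℂ × ℂ => s p.2 - p.1) (0, t)) (deriv s t₁) t₁ := by
    simpa using hs.differentiableAt.hasDerivAt
  obtain ⟨τ, hτ, hτ0, hτe⟩ := MP_ae5b4e_an_ND.implicit_analytic hF (by simp [hs0]) hs1 hd
  obtain ⟨R, hR, hR1⟩ := Metric.eventually_nhds_iff_ball.1 hτe
  have hR2 : ∀ v ∈ ball (0 : ℂ) R, ∀ t ∈ ball t₁ R, s t - v = 0 ↔ τ v = t := by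
    intro v hv t ht
    refine hR1 (v, t) ?_
    rw [← ball_prod_same]
    exact ⟨hv, ht⟩
  have hRε : 0 < min R ε := lt_min hR hε
  have hev1 : ∀ᶠ v in 𝓝 (0 : ℂ), AnalyticAt ℂ τ v ∧ τ v ∈ ball t₁ (min R ε) ∧
      v ∈ ball (0 : ℂ) R := by
    have h1 : ∀ᶠ v in 𝓝 (0 : ℂ), τ v ∈ ball t₁ (min R ε) :=
      hτ.continuousAt.eventually (by rw [hτ0]; exact ball_mem_nhds t₁ hRε)
    exact hτ.eventually_analyticAt.and (h1.and (ball_mem_nhds 0 hR))
  obtain ⟨r, hr, hr1⟩ := Metric.eventually_nhds_iff_ball.1 hev1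
  have hlo : ∀ᶠ t in 𝓝 t₁, ‖s t - deriv s t₁ * (t - t₁)‖ ≤ ‖deriv s t₁‖ / 2 * ‖t - t₁‖ := by
    have h1 := hs.differentiableAt.hasDerivAt.isLittleO.def
      (half_pos (norm_pos_iff.2 hs1))
    filter_upwards [h1] with t ht
    rw [hs0, sub_zero, smul_eq_mul, mul_comm (t - t₁)] at ht
    exact ht
  have hev2 : ∀ᶠ t in 𝓝 t₁, AnalyticAt ℂ s t ∧ s t ∈ ball (0 : ℂ) r ∧ t ∈ ball t₁ (min R ε) ∧
      ‖s t - deriv s t₁ * (t - t₁)‖ ≤ ‖deriv s t₁‖ / 2 * ‖t - t₁‖ := by
    have h1 : ∀ᶠ t in 𝓝 t₁, s t ∈ ball (0 : ℂ) r :=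
      hs.continuousAt.eventually (by rw [hs0]; exact ball_mem_nhds 0 hr)
    have h2 : ∀ᶠ t in 𝓝 t₁, t ∈ ball t₁ (min R ε) := ball_mem_nhds t₁ hRε
    exact hs.eventually_analyticAt.and (h1.and (h2.and hlo))
  obtain ⟨δ, hδ, hδ1⟩ := Metric.eventually_nhds_iff_ball.1 hev2
  have hδR : ∀ t ∈ ball t₁ δ, t ∈ ball t₁ R := fun t ht =>
    ball_subset_ball (min_le_left _ _) (hδ1 t ht).2.2.1
  have hδε : ∀ t ∈ ball t₁ δ, t ∈ ball t₁ ε := fun t ht =>
    ball_subset_ball (min_le_right _ _) (hδ1 t ht).2.2.1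
  have hτs : ∀ t ∈ ball t₁ δ, τ (s t) = t := by
    intro t ht
    exact (hR2 (s t) (hr1 _ (hδ1 t ht).2.1).2.2 t (hδR t ht)).1 (sub_self _)
  have hsτ : ∀ v ∈ ball (0 : ℂ) r, s (τ v) = v := by
    intro v hv
    have h1 := hr1 v hv
    exact sub_eq_zero.1 ((hR2 v h1.2.2 (τ v) (ball_subset_ball (min_le_left _ _) h1.2.1)).2 rfl)
  have hτne : ∀ v ∈ ball (0 : ℂ) r, v ≠ 0 → τ v ∈ ball t₁ ε \ {t₁} := by
    intro v hv hv0
    refine ⟨ball_subset_ball (min_le_right _ _) (hr1 v hv).2.1, ?_⟩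
    intro h1
    have h2 : τ v = t₁ := h1
    have h3 := hsτ v hv
    rw [h2, hs0] at h3
    exact hv0 h3.symm
  have hsne : ∀ t ∈ ball t₁ δ, t ≠ t₁ → s t ≠ 0 := by
    intro t ht ht1 h0
    have h1 := hτs t ht
    rw [h0, hτ0] at h1
    exact ht1 h1.symm
  -- the half plane
  set c : ℝ := Real.log r with hc
  have hexp : ∀ z : ℂ, z.re < c → exp z ∈ ball (0 : ℂ) r := by
    intro z hz
    rw [mem_ball_zero_iff, Complex.norm_exp, ← Real.lt_log_iff_exp_lt hr]
    exact hz
  have hlogre : ∀ z : ℂ, exp z ∈ ball (0 : ℂ) r → z.re < c := by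
    intro z hz
    rw [mem_ball_zero_iff, Complex.norm_exp, ← Real.lt_log_iff_exp_lt hr] at hz
    exact hz
  set H : Set ℂ := {z | z.re < c} with hH
  have hHo : IsOpen H := isOpen_lt continuous_re continuous_const
  have hHc : Convex ℝ H := convex_halfSpace_re_lt c
  set Q : ℕ → ℂ → ℂ := fun i z => q i (τ (exp z)) with hQd
  have hPQ : ∀ z x, PolE d Q z x = PolE d q (τ (exp z)) x := fun z x => rfl
  have hQ : Reg d Q H := by
    refine ⟨?_, ?_, ?_⟩
    · intro i hi z hz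
      have h0 := hexp z hz
      have h1 : AnalyticAt ℂ (fun z : ℂ => τ (exp z)) z :=
        AnalyticAt.fun_comp (g := τ) (f := fun z => exp z) (hr1 _ h0).1 analyticAt_cexp
      exact AnalyticAt.fun_comp (g := q i) (f := fun z => τ (exp z))
        (hq i hi _ (hτne _ h0 (exp_ne_zero z)).1) h1
    · intro z hz
      exact hreg.lead _ (hτne _ (hexp z hz) (exp_ne_zero z))
    · intro z hz x hx
      exact hreg.simple _ (hτne _ (hexp z hz) (exp_ne_zero z)) x hx
  have hexpP : ∀ (n : ℕ) (z : ℂ), exp (z + n * (2 * Real.pi * I)) = exp z := by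
    intro n z
    rw [exp_add, Complex.exp_nat_mul_two_pi_mul_I, mul_one]
  have hQP : ∀ (n : ℕ) (z x : ℂ), PolE d Q (z + n * (2 * Real.pi * I)) x = PolE d Q z x := by
    intro n z x
    rw [hPQ, hPQ, hexpP]
  have hHP : ∀ (n : ℕ) (z : ℂ), z ∈ H → z + n * (2 * Real.pi * I) ∈ H := by
    intro n z hz
    show (z + n * (2 * Real.pi * I)).re < c
    have h1 : z.re < c := hz
    simpa using h1
  -- the logarithm of `s` on the cone
  have hcone : ∀ t ∈ Cone t₁ δ, t ∈ ball t₁ δ ∧ t.im < t₁.im ∧ t ≠ t₁ := by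
    intro t ht
    have h1 : t.im < t₁.im := by
      have := ht.2
      have h2 := abs_nonneg (t.re - t₁.re)
      linarith
    refine ⟨ht.1, h1, ?_⟩
    intro h2
    rw [h2] at h1
    exact lt_irrefl _ h1
  set A : ℂ → ℂ := fun t => I * s t / deriv s t₁ with hA
  have hAre : ∀ t ∈ Cone t₁ δ, 0 < (A t).re := by
    intro t ht
    have h1 := BrC_re (u := t - t₁) (e := s t - deriv s t₁ * (t - t₁)) (a := deriv s t₁) hs1
      (by
        have := ht.2
        simp only [sub_re, sub_im]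
        linarith) (hδ1 t (hcone t ht).1).2.2.2
    simp only [hA]
    convert h1 using 4
    ring
  have hA0 : ∀ t ∈ Cone t₁ δ, A t ≠ 0 := by
    intro t ht h0
    have h1 := hAre t ht
    rw [h0] at h1
    simp at h1
  have hB0 : deriv s t₁ / I ≠ 0 := div_ne_zero hs1 I_ne_zero
  set l : ℂ → ℂ := fun t => log (A t) + log (deriv s t₁ / I) with hl
  have hexpl : ∀ t ∈ Cone t₁ δ, exp (l t) = s t := by
    intro t ht
    simp only [hl]
    rw [exp_add, exp_log (hA0 t ht), exp_log hB0]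
    simp only [hA]
    field_simp
  have hlan : ∀ t ∈ Cone t₁ δ, AnalyticAt ℂ l t := by
    intro t ht
    have h1 : AnalyticAt ℂ A t :=
      (analyticAt_const.mul (hδ1 t (hcone t ht).1).1).div analyticAt_const hs1
    have h2 : A t ∈ slitPlane := Or.inl (hAre t ht)
    exact (h1.clog h2).add analyticAt_const
  have hlH : ∀ t ∈ Cone t₁ δ, l t ∈ H := by
    intro t ht
    refine hlogre (l t) ?_
    rw [hexpl t ht]
    exact (hδ1 t (hcone t ht).1).2.1
  -- the base point
  obtain ⟨t₀, ht₀⟩ : ∃ t₀, t₀ ∈ Cone t₁ δ := by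
    refine ⟨t₁ - I * (δ / 2 : ℝ), ?_, ?_⟩
    · rw [dist_eq_norm]
      have h1 : t₁ - I * (δ / 2 : ℝ) - t₁ = -(I * (δ / 2 : ℝ)) := by ring
      rw [h1, norm_neg, norm_mul, norm_I, one_mul, Complex.norm_real, Real.norm_eq_abs,
        abs_of_pos (by linarith)]
      linarith
    · simp
      linarith
  have hz₀ : l t₀ ∈ H := hlH t₀ ht₀
  have hx₀ : PolE d Q (l t₀) (f₁ t₀) = 0 := by
    rw [hPQ, hexpl t₀ ht₀, hτs t₀ (hcone t₀ ht₀).1]
    exact hroot t₀ (hδε t₀ (hcone t₀ ht₀).1) (hcone t₀ ht₀).2.1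
  obtain ⟨V, hV, hVz, hV0⟩ := Reg.exists_section hHo hHc hQ hz₀ hx₀
  have hfan : ∀ t ∈ ball t₁ δ, t.im < t₁.im → AnalyticAt ℂ f₁ t := fun t ht h =>
    hf t ⟨hδε t ht, h⟩
  have hVl : EqOn (fun t => V (l t)) f₁ (Cone t₁ δ) := by
    refine Reg.eqOn (d := d) (q := q) BrC_cone.isPreconnected (hreg.mono ?_) ?_ ?_ ?_ ?_
      ht₀ hVz
    · intro t ht
      exact ⟨hδε t (hcone t ht).1, (hcone t ht).2.2⟩
    · intro t ht
      exact (AnalyticAt.fun_comp (g := V) (f := l) (hV _ (hlH t ht))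
        (hlan t ht)).continuousAt.continuousWithinAt
    · intro t ht
      exact (hfan t (hcone t ht).1 (hcone t ht).2.1).continuousAt.continuousWithinAt
    · intro t ht
      have h1 := hV0 (l t) (hlH t ht)
      rw [hPQ, hexpl t ht, hτs t (hcone t ht).1] at h1
      exact h1
    · intro t ht
      exact hroot t (hδε t (hcone t ht).1) (hcone t ht).2.1
  -- a period
  have hVP : ∀ n : ℕ, ContinuousOn (fun z => V (z + n * (2 * Real.pi * I))) H := by
    intro n z hz
    have h1 : AnalyticAt ℂ (fun z : ℂ => z + n * (2 * Real.pi * I)) z :=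
      analyticAt_id.add analyticAt_const
    exact (AnalyticAt.fun_comp (g := V) (f := fun z => z + n * (2 * Real.pi * I))
      (hV _ (hHP n z hz)) h1).continuousAt.continuousWithinAt
  have hVP0 : ∀ (n : ℕ), ∀ z ∈ H, PolE d Q z (V (z + n * (2 * Real.pi * I))) = 0 := by
    intro n z hz
    rw [← hQP n]
    exact hV0 _ (hHP n z hz)
  obtain ⟨m, hm, hper⟩ : ∃ m : ℕ, 0 < m ∧
      ∀ z : ℂ, z.re < c → V (z + m * (2 * Real.pi * I)) = V z := by
    have hfin := BrC_fin (hQ.lead _ hz₀)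
    have hft : Finite {x | PolE d Q (l t₀) x = 0} := hfin.to_subtype
    obtain ⟨k, k', hkk, hkv⟩ := Finite.exists_ne_map_eq_of_infinite
      (fun n : ℕ => (⟨V (l t₀ + n * (2 * Real.pi * I)), hVP0 n _ hz₀⟩ :
        {x | PolE d Q (l t₀) x = 0}))
    have hkv' : V (l t₀ + k * (2 * Real.pi * I)) = V (l t₀ + k' * (2 * Real.pi * I)) :=
      congrArg Subtype.val hkv
    have key : ∀ k k' : ℕ, k < k' →
        V (l t₀ + k * (2 * Real.pi * I)) = V (l t₀ + k' * (2 * Real.pi * I)) →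
        ∃ m : ℕ, 0 < m ∧ ∀ z : ℂ, z.re < c → V (z + m * (2 * Real.pi * I)) = V z := by
      intro k k' hlt he
      have h1 := Reg.eqOn hHc.isPreconnected hQ (hVP k) (hVP k') (hVP0 k) (hVP0 k') hz₀ he
      refine ⟨k' - k, by omega, fun z hz => ?_⟩
      have h2 : z - k * (2 * Real.pi * I) ∈ H := by
        show (z - k * (2 * Real.pi * I)).re < c
        simpa using hz
      have h3 := h1 h2
      have e1 : z - k * (2 * Real.pi * I) + k * (2 * Real.pi * I) = z := by ring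
      have e2 : z - k * (2 * Real.pi * I) + k' * (2 * Real.pi * I) =
          z + ((k' - k : ℕ) : ℂ) * (2 * Real.pi * I) := by
        rw [Nat.cast_sub hlt.le]
        ring
      simp only at h3
      rw [e1, e2] at h3
      exact h3.symm
    rcases lt_or_gt_of_ne hkk with h | h
    · exact key k k' h hkv'
    · exact key k' k h hkv'.symm
  have hm0 : (m : ℂ) ≠ 0 := by exact_mod_cast hm.ne'
  have hmR : (0 : ℝ) < m := by exact_mod_cast hm
  -- the meromorphic function
  set g : ℂ → ℂ := fun v => V (m * log v) with hg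
  have hgV : ∀ z ∈ H, g (exp (z / m)) = V z := by
    intro z hz
    simp only [hg]
    have h0 : ((m : ℂ) * log (exp (z / m))).re < c := by
      have h1 : ((m : ℂ) * log (exp (z / m))).re = z.re := by
        simp only [mul_re, natCast_re, natCast_im, zero_mul, sub_zero, log_re, norm_exp,
          Real.log_exp]
        rw [div_natCast_re]
        field_simp
      rw [h1]
      exact hz
    refine BrC_well hm hper h0 hz ?_
    have e1 : (m : ℂ) * log (exp (z / m)) / m = log (exp (z / m)) := by field_simp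
    rw [e1, exp_log (exp_ne_zero _)]
  have hsmall : ∀ᶠ v in 𝓝 (0 : ℂ), v ^ m ∈ ball (0 : ℂ) r := by
    have h1 : ContinuousAt (fun v : ℂ => v ^ m) 0 := (continuous_pow m).continuousAt
    refine h1.eventually ?_
    show ball (0 : ℂ) r ∈ 𝓝 ((0 : ℂ) ^ m)
    rw [zero_pow hm.ne']
    exact ball_mem_nhds 0 hr
  have hlogm : ∀ v : ℂ, v ≠ 0 → exp ((m : ℂ) * log v) = v ^ m := by
    intro v hv
    rw [exp_nat_mul, exp_log hv]
  have hHv : ∀ v : ℂ, v ≠ 0 → v ^ m ∈ ball (0 : ℂ) r → (m : ℂ) * log v ∈ H := by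
    intro v hv hvm
    refine hlogre _ ?_
    rw [hlogm v hv]
    exact hvm
  have hgan : ∀ v : ℂ, v ≠ 0 → v ^ m ∈ ball (0 : ℂ) r → AnalyticAt ℂ g v := by
    intro v hv hvm
    refine BrC_an hV hm hper hv ?_
    have h1 : ((m : ℂ) * log v).re < c := hHv v hv hvm
    simpa [log_re] using h1
  have hgmer : MeromorphicAt g 0 := by
    have hpow : AnalyticAt ℂ (fun v : ℂ => v ^ m) 0 := analyticAt_id.pow m
    have hτpow : AnalyticAt ℂ (fun v : ℂ => τ (v ^ m)) 0 := by
      refine AnalyticAt.fun_comp (g := τ) (f := fun v : ℂ => v ^ m) ?_ hpow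
      show AnalyticAt ℂ τ ((0 : ℂ) ^ m)
      rw [zero_pow hm.ne']
      exact hτ
    refine merom_of_root (d := d) (q := fun i v => q i (τ (v ^ m))) ?_ ?_ ?_ ?_
    · intro i hi
      refine AnalyticAt.fun_comp (g := q i) (f := fun v : ℂ => τ (v ^ m)) ?_ hτpow
      show AnalyticAt ℂ (q i) (τ ((0 : ℂ) ^ m))
      rw [zero_pow hm.ne', hτ0]
      exact hq i hi t₁ (mem_ball_self hε)
    · have h1 := eventually_nhdsWithin_of_eventually_nhds (s := {0}ᶜ) hsmall
      filter_upwards [h1, self_mem_nhdsWithin] with v hv hv0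
      exact hreg.lead _ (hτne _ hv (pow_ne_zero m hv0))
    · have h1 := eventually_nhdsWithin_of_eventually_nhds (s := {0}ᶜ) hsmall
      filter_upwards [h1, self_mem_nhdsWithin] with v hv hv0
      exact hgan v hv0 hv
    · have h1 := eventually_nhdsWithin_of_eventually_nhds (s := {0}ᶜ) hsmall
      filter_upwards [h1, self_mem_nhdsWithin] with v hv hv0
      have h2 := hV0 _ (hHv v hv0 hv)
      rw [hPQ, hlogm v hv0] at h2
      exact h2
  have hwm : ∀ t ∈ Cone t₁ δ, exp (l t / m) ^ m = s t := by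
    intro t ht
    rw [← exp_nat_mul, ← hexpl t ht]
    congr 1
    field_simp
  refine ⟨m, g, fun t => exp (l t / m), δ, hm, hδ, hgmer, ?_, ?_, exp (2 * Real.pi * I / m), ?_, ?_⟩
  · intro t ht
    refine ⟨?_, hwm t ht, exp_ne_zero _, ?_⟩
    · exact ((hlan t ht).div analyticAt_const hm0).cexp
    · rw [hgV _ (hlH t ht)]
      exact (hVl ht).symm
  · rw [tendsto_zero_iff_norm_tendsto_zero]
    rw [Metric.tendsto_nhds]
    intro η hη
    have h1 : Tendsto s (𝓝[Cone t₁ δ] t₁) (𝓝 0) := by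
      have h2 : Tendsto s (𝓝 t₁) (𝓝 (s t₁)) := hs.continuousAt
      rw [hs0] at h2
      exact h2.mono_left nhdsWithin_le_nhds
    have h2 : ∀ᶠ t in 𝓝[Cone t₁ δ] t₁, s t ∈ ball (0 : ℂ) (η ^ m) :=
      h1.eventually (ball_mem_nhds 0 (pow_pos hη m))
    filter_upwards [h2, self_mem_nhdsWithin] with t ht ht'
    rw [mem_ball_zero_iff, ← hwm t ht', norm_pow] at ht
    rw [Real.dist_eq, sub_zero, abs_of_nonneg (norm_nonneg _)]
    exact lt_of_pow_lt_pow_left₀ m hη.le ht
  · rw [← exp_nat_mul]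
    have e1 : (m : ℂ) * (2 * Real.pi * I / m) = 2 * Real.pi * I := by field_simp
    rw [e1, exp_two_pi_mul_I]
  · intro hinv
    -- then `V` has the period `2 π i`
    obtain ⟨ρ, hρ, hρ1⟩ := Metric.eventually_nhds_iff_ball.1 (eventually_nhdsWithin_iff.1 hinv)
    have hz1 : ∃ z : ℂ, z ∈ H ∧ ‖exp (z / m)‖ < ρ := by
      refine ⟨((min (c - 1) (m * (Real.log ρ - 1)) : ℝ) : ℂ), ?_, ?_⟩
      · show ((min (c - 1) (m * (Real.log ρ - 1)) : ℝ) : ℂ).re < c
        rw [ofReal_re]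
        have := min_le_left (c - 1) (m * (Real.log ρ - 1))
        linarith
      · rw [norm_exp, div_natCast_re, ofReal_re, ← Real.lt_log_iff_exp_lt hρ,
          div_lt_iff₀ hmR]
        have := min_le_right (c - 1) (m * (Real.log ρ - 1))
        nlinarith
    obtain ⟨z, hz, hzρ⟩ := hz1
    have hper1z : V (z + (1 : ℕ) * (2 * Real.pi * I)) = V (z + (0 : ℕ) * (2 * Real.pi * I)) := by
      have h1 := hρ1 (exp (z / m)) (by rw [mem_ball_zero_iff]; exact hzρ) (exp_ne_zero _)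
      rw [hgV z hz, ← exp_add] at h1
      have e1 : 2 * Real.pi * I / m + z / m = (z + (1 : ℕ) * (2 * Real.pi * I)) / m := by
        push_cast
        ring
      rw [e1, hgV _ (hHP 1 z hz)] at h1
      rw [h1]
      simp
    have hper1 : ∀ z : ℂ, z.re < c → V (z + (1 : ℕ) * (2 * Real.pi * I)) = V z := by
      intro y hy
      have h1 := Reg.eqOn hHc.isPreconnected hQ (hVP 1) (hVP 0) (hVP0 1) (hVP0 0) hz hper1z
      have h2 := h1 (show y ∈ H from hy)
      simp only at h2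
      rw [h2]
      simp
    apply hext
    refine ⟨δ, fun t => V ((1 : ℕ) * log (s t)), hδ, ?_, ?_, ?_, ?_⟩
    · -- `δ ≤ ε`
      by_contra hcon
      push Not at hcon
      have h1 : t₁ + (ε : ℂ) ∈ ball t₁ δ := by
        rw [mem_ball, dist_eq_norm]
        simp only [add_sub_cancel_left, Complex.norm_real, Real.norm_eq_abs]
        rw [abs_of_pos hε]
        exact hcon
      have h2 := hδε _ h1
      rw [mem_ball, dist_eq_norm] at h2
      simp only [add_sub_cancel_left, Complex.norm_real, Real.norm_eq_abs] at h2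
      rw [abs_of_pos hε] at h2
      exact lt_irrefl _ h2
    · rintro t ⟨ht, ht1⟩
      have h0 : s t ≠ 0 := hsne t ht ht1
      have h1 : s t ∈ ball (0 : ℂ) r := (hδ1 t ht).2.1
      have h2 : AnalyticAt ℂ (fun v => V ((1 : ℕ) * log v)) (s t) := by
        refine BrC_an hV Nat.one_pos hper1 h0 ?_
        have h3 : (log (s t)).re < c := by
          refine hlogre _ ?_
          rw [exp_log h0]
          exact h1
        rw [log_re] at h3
        simpa using h3
      exact AnalyticAt.fun_comp (g := fun v => V ((1 : ℕ) * log v)) (f := s) h2 (hδ1 t ht).1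
    · intro t ht ht1
      have h0 : s t ≠ 0 := hsne t ht ht1
      have h1 : s t ∈ ball (0 : ℂ) r := (hδ1 t ht).2.1
      have h3 : log (s t) ∈ H := by
        refine hlogre _ ?_
        rw [exp_log h0]
        exact h1
      have h4 := hV0 _ h3
      rw [hPQ, exp_log h0, hτs t ht] at h4
      simpa using h4
    · have hlow : ∀ t ∈ ball t₁ δ ∩ {t : ℂ | t.im < t₁.im}, t ≠ t₁ := by
        rintro t ⟨-, ht2⟩ h0
        have h1 : t.im < t₁.im := ht2
        rw [h0] at h1
        exact lt_irrefl _ h1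
      have hmem : ∀ t ∈ ball t₁ δ ∩ {t : ℂ | t.im < t₁.im}, log (s t) ∈ H := by
        intro t ht
        refine hlogre _ ?_
        rw [exp_log (hsne t ht.1 (hlow t ht))]
        exact (hδ1 t ht.1).2.1
      have hEq : EqOn (fun t => V ((1 : ℕ) * log (s t))) f₁
          (ball t₁ δ ∩ {t : ℂ | t.im < t₁.im}) := by
        refine Reg.eqOn (d := d) (q := q) BrC_lower.isPreconnected (hreg.mono ?_) ?_ ?_ ?_ ?_
          (z₀ := t₀) ⟨(hcone t₀ ht₀).1, (hcone t₀ ht₀).2.1⟩ ?_
        · intro t ht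
          exact ⟨hδε t ht.1, hlow t ht⟩
        · intro t ht
          have h0 : s t ≠ 0 := hsne t ht.1 (hlow t ht)
          have h2 : AnalyticAt ℂ (fun v => V ((1 : ℕ) * log v)) (s t) := by
            refine BrC_an hV Nat.one_pos hper1 h0 ?_
            have h3 : (log (s t)).re < c := hmem t ht
            rw [log_re] at h3
            simpa using h3
          exact (AnalyticAt.fun_comp (g := fun v => V ((1 : ℕ) * log v)) (f := s) h2
            (hδ1 t ht.1).1).continuousAt.continuousWithinAt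
        · intro t ht
          exact (hfan t ht.1 ht.2).continuousAt.continuousWithinAt
        · intro t ht
          have h4 := hV0 _ (hmem t ht)
          rw [hPQ, exp_log (hsne t ht.1 (hlow t ht)), hτs t ht.1] at h4
          simpa using h4
        · intro t ht
          exact hroot t (hδε t ht.1) ht.2
        · rw [← hVz]
          have h0 : s t₀ ≠ 0 := hsne t₀ (hcone t₀ ht₀).1 (hcone t₀ ht₀).2.2
          refine BrC_well Nat.one_pos hper1 ?_ hz₀ ?_
          · have h3 := hmem t₀ ⟨(hcone t₀ ht₀).1, (hcone t₀ ht₀).2.1⟩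
            have h4 : (log (s t₀)).re < c := h3
            simpa using h4
          · simp only [Nat.cast_one, one_mul, div_one]
            rw [exp_log h0, hexpl t₀ ht₀]
      intro t ht ht2
      exact hEq ⟨ht, ht2⟩

end Pool.Agent.MP_ae5b4e_an_NB1
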