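import Mathlib
import Pool.Agent.Lib.MP_ae5b4e_an_NB1.BrC
import Pool.Agent.Lib.MP_ae5b4e_an_MERO.Countable

/-!
# MP_ae5b4e_an, project NB_1: climbing with a branch of an algebraic function of one variable
-/

noncomputable section

namespace Pool.Agent.MP_ae5b4e_an_NB1

open Complex Set Filter Topology Metric

/-- `F` is a branch on `W`, off the zeros of `Δ` -/
private def brd_Rt (d : ℕ) (q : ℕ → ℂ → ℂ) (Δ : ℂ → ℂ) (W : Set ℂ) (F : ℂ → ℂ) : Prop :=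
  ∀ t ∈ W, Δ t ≠ 0 → AnalyticAt ℂ F t ∧ PolE d q t (F t) = 0

/-- the part of the disc below the height `h` -/
private def brd_V (tp : ℂ) (r' h : ℝ) : Set ℂ := {t | t ∈ ball tp r' ∧ t.im < h}

private lemma brd_V_open (tp : ℂ) (r' h : ℝ) : IsOpen (brd_V tp r' h) :=
  isOpen_ball.inter (isOpen_lt Complex.continuous_im continuous_const)

private lemma brd_V_convex (tp : ℂ) (r' h : ℝ) : Convex ℝ (brd_V tp r' h) :=
  (convex_ball tp r').inter (convex_halfSpace_im_lt h)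

private lemma brd_V_nonempty {tp : ℂ} {r' h : ℝ} (hr' : 0 < r') (hh : tp.im - r' < h) :
    ∃ c, c ∈ brd_V tp r' h := by
  obtain ⟨a, ha1, ha2⟩ := exists_between (show max (tp.im - h) 0 < r' from
    max_lt (by linarith) hr')
  have ha3 : tp.im - h < a := lt_of_le_of_lt (le_max_left _ _) ha1
  have ha4 : 0 < a := lt_of_le_of_lt (le_max_right _ _) ha1
  refine ⟨tp - a * I, ?_, ?_⟩
  · rw [mem_ball, dist_eq_norm, sub_sub_cancel_left, norm_neg, norm_mul, Complex.norm_I, mul_one,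
      Complex.norm_real, Real.norm_eq_abs, abs_of_pos ha4]
    exact ha2
  · have h1 : (tp - a * I).im = tp.im - a := by simp
    rw [h1]
    linarith

/-- points of the closed disc at the height `h` are limits of points of `V h` -/
private lemma brd_closure {tp : ℂ} {r' h : ℝ} (hr' : 0 < r') (hh : tp.im - r' < h) {p : ℂ}
    (hp : p ∈ closedBall tp r') (hpi : p.im = h) {W : Set ℂ} (hW : IsOpen W) (hpW : p ∈ W) :
    ∃ z ∈ W, z ∈ brd_V tp r' h := by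
  obtain ⟨c, hc1, hc2⟩ := brd_V_nonempty hr' hh
  have h1 : Tendsto (fun θ : ℝ => p + (θ : ℂ) * (c - p)) (𝓝[>] 0) (𝓝 p) := by
    have h2 : Continuous fun θ : ℝ => p + (θ : ℂ) * (c - p) := by fun_prop
    have h3 := h2.tendsto 0
    simp only [Complex.ofReal_zero, zero_mul, add_zero] at h3
    exact h3.mono_left nhdsWithin_le_nhds
  have h4 : ∀ᶠ θ : ℝ in 𝓝[>] 0, p + (θ : ℂ) * (c - p) ∈ W := h1.eventually (hW.mem_nhds hpW)
  have h5 : ∀ᶠ θ : ℝ in 𝓝[>] 0, θ < 1 := nhdsWithin_le_nhds (Iio_mem_nhds one_pos)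
  obtain ⟨θ, h6, h7, h8⟩ := (h4.and (h5.and self_mem_nhdsWithin)).exists
  have h9 : 0 < θ := h8
  refine ⟨_, h6, ?_, ?_⟩
  · have e1 : p + (θ : ℂ) * (c - p) - tp =
        ((1 - θ : ℝ) : ℂ) * (p - tp) + (θ : ℂ) * (c - tp) := by
      push_cast
      ring
    rw [mem_ball, dist_eq_norm, e1]
    rw [mem_closedBall, dist_eq_norm] at hp
    rw [mem_ball, dist_eq_norm] at hc1
    have e2 : ‖((1 - θ : ℝ) : ℂ) * (p - tp)‖ = (1 - θ) * ‖p - tp‖ := by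
      rw [norm_mul, Complex.norm_real, Real.norm_eq_abs, abs_of_pos (by linarith)]
    have e3 : ‖(θ : ℂ) * (c - tp)‖ = θ * ‖c - tp‖ := by
      rw [norm_mul, Complex.norm_real, Real.norm_eq_abs, abs_of_pos h9]
    have e4 := norm_add_le (((1 - θ : ℝ) : ℂ) * (p - tp)) ((θ : ℂ) * (c - tp))
    rw [e2, e3] at e4
    nlinarith
  · have e1 : (p + (θ : ℂ) * (c - p)).im = p.im + θ * (c.im - p.im) := by
      simp
    rw [e1, hpi]
    have hc2' : c.im < h := hc2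
    nlinarith

section

variable {tp : ℂ} {r₁ : ℝ} {d : ℕ} {q : ℕ → ℂ → ℂ} {Δ : ℂ → ℂ}

private lemma brd_iso (hΔ : AnalyticOnNhd ℂ Δ (ball tp r₁)) (hΔ0 : ∃ z ∈ ball tp r₁, Δ z ≠ 0)
    {z : ℂ} (hz : z ∈ ball tp r₁) : ∀ᶠ w in 𝓝[≠] z, Δ w ≠ 0 := by
  rcases (hΔ z hz).eventually_eq_zero_or_eventually_ne_zero with h1 | h1
  · exfalso
    obtain ⟨x, hx, hx0⟩ := hΔ0
    exact hx0 (hΔ.eqOn_zero_of_preconnected_of_eventuallyEq_zero
      (convex_ball tp r₁).isPreconnected hz h1 hx)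
  · exact h1

private lemma brd_count (hΔ : AnalyticOnNhd ℂ Δ (ball tp r₁))
    (hΔ0 : ∃ z ∈ ball tp r₁, Δ z ≠ 0) : {z | z ∈ ball tp r₁ ∧ Δ z = 0}.Countable := by
  refine MP_ae5b4e_an_MERO.CN.countable_of_eventually (D := ball tp r₁) (fun z hz => hz.1) ?_
  intro t ht
  filter_upwards [brd_iso hΔ hΔ0 ht] with x hx hx'
  exact hx hx'.2

private lemma brd_pc (hΔ : AnalyticOnNhd ℂ Δ (ball tp r₁)) (hΔ0 : ∃ z ∈ ball tp r₁, Δ z ≠ 0)
    {W : Set ℂ} (hW : IsOpen W) (hWc : Convex ℝ W) (hWB : W ⊆ ball tp r₁) :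
    IsPreconnected (W ∩ {z | Δ z ≠ 0}) := by
  have h1 : W ∩ {z | Δ z ≠ 0} = W \ {z | z ∈ ball tp r₁ ∧ Δ z = 0} := by
    ext z
    constructor
    · rintro ⟨i1, i2⟩
      exact ⟨i1, fun i3 => i2 i3.2⟩
    · rintro ⟨i1, i2⟩
      exact ⟨i1, fun i3 => i2 ⟨hWB i1, i3⟩⟩
  rw [h1]
  exact MP_ae5b4e_an_MERO.isPreconnected_diff hW hWc (brd_count hΔ hΔ0)

/-- a nonempty open set contains points which are not zeros -/
private lemma brd_exists (hΔ : AnalyticOnNhd ℂ Δ (ball tp r₁))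
    (hΔ0 : ∃ z ∈ ball tp r₁, Δ z ≠ 0) {W : Set ℂ} (hW : IsOpen W) (hWB : W ⊆ ball tp r₁)
    {z : ℂ} (hz : z ∈ W) : ∃ x ∈ W, Δ x ≠ 0 := by
  have h1 : ∀ᶠ x in 𝓝[≠] z, x ∈ W := nhdsWithin_le_nhds (hW.mem_nhds hz)
  obtain ⟨x, hx1, hx2⟩ := (h1.and (brd_iso hΔ hΔ0 (hWB hz))).exists
  exact ⟨x, hx1, hx2⟩

/-- uniqueness -/
private lemma brd_uniq (hΔ : AnalyticOnNhd ℂ Δ (ball tp r₁))
    (hΔ0 : ∃ z ∈ ball tp r₁, Δ z ≠ 0) (hreg : Reg d q (ball tp r₁ ∩ {z | Δ z ≠ 0}))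
    {W : Set ℂ} (hW : IsOpen W) (hWc : Convex ℝ W) (hWB : W ⊆ ball tp r₁) {F G : ℂ → ℂ}
    (hF : brd_Rt d q Δ W F) (hG : brd_Rt d q Δ W G) {z₀ : ℂ} (hz₀ : z₀ ∈ W) (hz₀' : Δ z₀ ≠ 0)
    (h : F z₀ = G z₀) {t : ℂ} (ht : t ∈ W) (ht' : Δ t ≠ 0) : F t = G t := by
  have h1 : Reg d q (W ∩ {z | Δ z ≠ 0}) := hreg.mono (inter_subset_inter_left _ hWB)
  exact Reg.eqOn (brd_pc hΔ hΔ0 hW hWc hWB) h1
    (fun x hx => (hF x hx.1 hx.2).1.continuousAt.continuousWithinAt)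
    (fun x hx => (hG x hx.1 hx.2).1.continuousAt.continuousWithinAt)
    (fun x hx => (hF x hx.1 hx.2).2) (fun x hx => (hG x hx.1 hx.2).2) ⟨hz₀, hz₀'⟩ h ⟨ht, ht'⟩

/-- uniqueness on `V h` -/
private lemma brd_uniqV (hΔ : AnalyticOnNhd ℂ Δ (ball tp r₁))
    (hΔ0 : ∃ z ∈ ball tp r₁, Δ z ≠ 0) (hreg : Reg d q (ball tp r₁ ∩ {z | Δ z ≠ 0}))
    {r' y h : ℝ} (hr' : 0 < r') (hr1 : r' ≤ r₁) (hy : tp.im - r' < y) {f₀ F G : ℂ → ℂ}
    (hF : brd_Rt d q Δ (brd_V tp r' h) F) (hG : brd_Rt d q Δ (brd_V tp r' h) G)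
    (hF0 : ∀ t ∈ brd_V tp r' h, t.im < y → Δ t ≠ 0 → F t = f₀ t)
    (hG0 : ∀ t ∈ brd_V tp r' h, t.im < y → Δ t ≠ 0 → G t = f₀ t)
    {t : ℂ} (ht : t ∈ brd_V tp r' h) (ht' : Δ t ≠ 0) : F t = G t := by
  have hVB : ∀ h, brd_V tp r' h ⊆ ball tp r₁ := fun h x hx => ball_subset_ball hr1 hx.1
  have hh : tp.im - r' < h := by
    have h1 : |(t - tp).im| ≤ ‖t - tp‖ := Complex.abs_im_le_norm _
    have h2 : ‖t - tp‖ < r' := by
      rw [← dist_eq_norm]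
      exact ht.1
    have h3 : t.im < h := ht.2
    have h4 := (abs_lt.1 (lt_of_le_of_lt h1 h2)).1
    rw [Complex.sub_im] at h4
    linarith
  obtain ⟨c, hc⟩ := brd_V_nonempty (tp := tp) (h := min h y) hr' (lt_min hh hy)
  obtain ⟨x, hx1, hx2⟩ := brd_exists hΔ hΔ0 (brd_V_open tp r' (min h y)) (hVB _) hc
  have hx3 : x ∈ brd_V tp r' h := ⟨hx1.1, lt_of_lt_of_le hx1.2 (min_le_left _ _)⟩
  have hx4 : x.im < y := lt_of_lt_of_le hx1.2 (min_le_right _ _)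
  exact brd_uniq hΔ hΔ0 hreg (brd_V_open tp r' h) (brd_V_convex tp r' h) (hVB h) hF hG hx3 hx2
    (by rw [hF0 x hx3 hx4 hx2, hG0 x hx3 hx4 hx2]) ht ht'

/-- extension up to the supremum -/
private lemma brd_sup (hΔ : AnalyticOnNhd ℂ Δ (ball tp r₁))
    (hΔ0 : ∃ z ∈ ball tp r₁, Δ z ≠ 0) (hreg : Reg d q (ball tp r₁ ∩ {z | Δ z ≠ 0}))
    {r' y y0 : ℝ} (hr' : 0 < r') (hr1 : r' ≤ r₁) (hy : tp.im - r' < y) {f₀ : ℂ → ℂ}
    (hP : ∀ h < y0, ∃ F : ℂ → ℂ, brd_Rt d q Δ (brd_V tp r' h) F ∧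
      ∀ t ∈ brd_V tp r' h, t.im < y → Δ t ≠ 0 → F t = f₀ t) :
    ∃ F : ℂ → ℂ, brd_Rt d q Δ (brd_V tp r' y0) F ∧
      ∀ t ∈ brd_V tp r' y0, t.im < y → Δ t ≠ 0 → F t = f₀ t := by
  choose! Ff hF1 hF2 using hP
  have hlt : ∀ t : ℂ, t.im < y0 → t.im < (t.im + y0) / 2 ∧ (t.im + y0) / 2 < y0 := by
    intro t ht
    constructor <;> linarith
  refine ⟨fun t => Ff ((t.im + y0) / 2) t, ?_, ?_⟩
  · intro t ht ht'
    obtain ⟨h1, h2⟩ := hlt t ht.2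
    have h3 : t ∈ brd_V tp r' ((t.im + y0) / 2) := ⟨ht.1, h1⟩
    obtain ⟨h4, h5⟩ := hF1 _ h2 t h3 ht'
    refine ⟨h4.congr ?_, h5⟩
    have h6 : ∀ᶠ x in 𝓝 t, Δ x ≠ 0 :=
      (hΔ t (ball_subset_ball hr1 ht.1)).continuousAt.eventually_ne ht'
    filter_upwards [(brd_V_open tp r' _).mem_nhds h3, h6] with x hx hx'
    have hx1 : x.im < y0 := lt_trans hx.2 h2
    obtain ⟨h7, h8⟩ := hlt x hx1
    have hm1 : brd_V tp r' (min ((t.im + y0) / 2) ((x.im + y0) / 2)) ⊆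
        brd_V tp r' ((t.im + y0) / 2) := fun z hz => ⟨hz.1, lt_of_lt_of_le hz.2 (min_le_left _ _)⟩
    have hm2 : brd_V tp r' (min ((t.im + y0) / 2) ((x.im + y0) / 2)) ⊆
        brd_V tp r' ((x.im + y0) / 2) := fun z hz => ⟨hz.1, lt_of_lt_of_le hz.2 (min_le_right _ _)⟩
    exact brd_uniqV hΔ hΔ0 hreg hr' hr1 hy (fun z hz => hF1 _ h2 z (hm1 hz))
      (fun z hz => hF1 _ h8 z (hm2 hz)) (fun z hz => hF2 _ h2 z (hm1 hz))
      (fun z hz => hF2 _ h8 z (hm2 hz)) ⟨hx.1, lt_min hx.2 h7⟩ hx'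
  · intro t ht hty ht'
    obtain ⟨h1, h2⟩ := hlt t ht.2
    exact hF2 _ h2 t ⟨ht.1, h1⟩ hty ht'

/-- the local extension at a point of the height `y0` -/
private lemma brd_local (hq : ∀ i ≤ d, AnalyticOnNhd ℂ (q i) (ball tp r₁))
    (hΔ : AnalyticOnNhd ℂ Δ (ball tp r₁))
    (hΔ0 : ∃ z ∈ ball tp r₁, Δ z ≠ 0) (hreg : Reg d q (ball tp r₁ ∩ {z | Δ z ≠ 0}))
    {r' y0 : ℝ} (hr' : 0 < r') (hr1 : r' < r₁) (hy : tp.im - r' < y0)
    (hr'Z : ∀ z ∈ ball tp r₁, Δ z = 0 → dist z tp ≠ r') {F : ℂ → ℂ}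
    (hF : brd_Rt d q Δ (brd_V tp r' y0) F) {k : ℂ} (hk : k ∈ closedBall tp r')
    (hki : k.im = y0) (hno : ¬ (k ∈ ball tp r' ∧ ∀ s : ℂ → ℂ, AnalyticAt ℂ s k → s k = 0 →
      deriv s k ≠ 0 → Ram F k s)) :
    ∃ ε > 0, ∃ g : ℂ → ℂ, ball k ε ⊆ ball tp r₁ ∧ brd_Rt d q Δ (ball k ε) g ∧
      ∀ t ∈ ball k ε, t ∈ brd_V tp r' y0 → Δ t ≠ 0 → g t = F t := by
  have hkB : k ∈ ball tp r₁ := closedBall_subset_ball hr1 hk
  have hVB : brd_V tp r' y0 ⊆ ball tp r₁ := fun x hx => ball_subset_ball hr1.le hx.1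
  by_cases hk0 : Δ k = 0
  · have hkb : k ∈ ball tp r' := by
      rw [mem_ball]
      exact lt_of_le_of_ne hk (hr'Z k hkB hk0)
    have hiso : ∀ᶠ x in 𝓝 k, x ≠ k → Δ x ≠ 0 :=
      eventually_nhdsWithin_iff.1 (brd_iso hΔ hΔ0 hkB)
    obtain ⟨ε, hε, hε'⟩ := Metric.eventually_nhds_iff_ball.1
      (hiso.and (isOpen_ball.mem_nhds hkb : ∀ᶠ x in 𝓝 k, x ∈ ball tp r'))
    have hsub : ball k ε ⊆ ball tp r₁ := fun x hx => ball_subset_ball hr1.le (hε' x hx).2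
    have hsub' : ball k ε \ {k} ⊆ ball tp r₁ ∩ {z | Δ z ≠ 0} :=
      fun x hx => ⟨hsub hx.1, (hε' x hx.1).1 hx.2⟩
    have hlow : ∀ t ∈ ball k ε, t.im < k.im → t ∈ brd_V tp r' y0 ∧ Δ t ≠ 0 := by
      intro t ht hti
      refine ⟨⟨(hε' t ht).2, by rw [← hki]; exact hti⟩, (hε' t ht).1 ?_⟩
      rintro rfl
      exact lt_irrefl _ hti
    rcases ram_or_extends hε (fun i hi z hz => hq i hi z (hsub hz)) (hreg.mono hsub')
      (f₁ := F) (fun t ht => (hF t (hlow t ht.1 ht.2).1 (hlow t ht.1 ht.2).2).1)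
      (fun t ht hti => (hF t (hlow t ht hti).1 (hlow t ht hti).2).2) with h1 | h1
    · obtain ⟨δ, g, hδ, hδε, h2, h3, h4⟩ := h1
      refine ⟨δ, hδ, g, (ball_subset_ball hδε).trans hsub, ?_, ?_⟩
      · intro t ht ht'
        have htk : t ≠ k := by
          rintro rfl
          exact ht' hk0
        exact ⟨h2 t ⟨ht, htk⟩, h3 t ht htk⟩
      · intro t ht htV _
        exact h4 t ht (by rw [hki]; exact htV.2)
    · exact absurd ⟨hkb, h1⟩ hno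
  · have h1 : ∀ᶠ x in 𝓝 k, Δ x ≠ 0 := (hΔ k hkB).continuousAt.eventually_ne hk0
    obtain ⟨ε, hε, hε'⟩ := Metric.eventually_nhds_iff_ball.1
      (h1.and (isOpen_ball.mem_nhds hkB : ∀ᶠ x in 𝓝 k, x ∈ ball tp r₁))
    have hsub : ball k ε ⊆ ball tp r₁ := fun x hx => (hε' x hx).2
    obtain ⟨z₀, hz1, hz2⟩ := brd_closure hr' hy hk hki isOpen_ball (mem_ball_self hε)
    obtain ⟨g, hg1, hg2, hg3⟩ := Reg.exists_section (H := ball k ε) isOpen_ball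
      (convex_ball k ε) (hreg.mono fun x hx => ⟨hsub hx, (hε' x hx).1⟩) hz1
      (hF z₀ hz2 (hε' z₀ hz1).1).2
    have hR : brd_Rt d q Δ (ball k ε) g := fun t ht _ => ⟨hg1 t ht, hg3 t ht⟩
    refine ⟨ε, hε, g, hsub, hR, fun t ht htV ht' => ?_⟩
    exact brd_uniq hΔ hΔ0 hreg (W := ball k ε ∩ brd_V tp r' y0)
      (isOpen_ball.inter (brd_V_open _ _ _)) ((convex_ball k ε).inter (brd_V_convex _ _ _))
      (fun x hx => hsub hx.1) (fun x hx => hR x hx.1) (fun x hx => hF x hx.2) ⟨hz1, hz2⟩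
      (hε' z₀ hz1).1 hg2 ⟨ht, htV⟩ ht'

/-- the covering argument -/
private lemma brd_cover {r' y0 : ℝ} {ε : ℂ → ℝ}
    (hε : ∀ k ∈ closedBall tp r', k.im = y0 → 0 < ε k) :
    ∃ δ > 0, ∀ t ∈ ball tp r', y0 ≤ t.im → t.im < y0 + δ →
      ∃ k, k ∈ closedBall tp r' ∧ k.im = y0 ∧ t ∈ ball k (ε k) := by
  let U : Set ℂ := ⋃ k ∈ {k | k ∈ closedBall tp r' ∧ k.im = y0}, ball k (ε k)
  have hU : IsOpen U := isOpen_biUnion fun k _ => isOpen_ball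
  let C : Set ℂ := closedBall tp r' ∩ ({t | y0 ≤ t.im} ∩ Uᶜ)
  have hC : IsCompact C := (isCompact_closedBall tp r').inter_right
    ((isClosed_le continuous_const Complex.continuous_im).inter hU.isClosed_compl)
  have hmem : ∀ t, t ∈ U ↔ ∃ k, k ∈ closedBall tp r' ∧ k.im = y0 ∧ t ∈ ball k (ε k) := by
    intro t
    simp only [U, mem_iUnion, mem_ofPred_eq, exists_prop, and_assoc]
  by_cases hne : C.Nonempty
  · obtain ⟨x, hx, hmin⟩ := hC.exists_isMinOn hne Complex.continuous_im.continuousOn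
    have hx1 : y0 < x.im := by
      refine lt_of_le_of_ne hx.2.1 fun h1 => hx.2.2 ?_
      exact (hmem x).2 ⟨x, hx.1, h1.symm, mem_ball_self (hε x hx.1 h1.symm)⟩
    refine ⟨x.im - y0, by linarith, fun t ht ht1 ht2 => ?_⟩
    by_contra hcon
    have h1 : t ∈ C := ⟨ball_subset_closedBall ht, ht1, fun h2 => hcon ((hmem t).1 h2)⟩
    have h2 : x.im ≤ t.im := hmin h1
    linarith
  · refine ⟨1, one_pos, fun t ht ht1 _ => ?_⟩
    by_contra hcon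
    exact hne ⟨t, ball_subset_closedBall ht, ht1, fun h2 => hcon ((hmem t).1 h2)⟩

/-- gluing -/
private lemma brd_glue (hΔ : AnalyticOnNhd ℂ Δ (ball tp r₁))
    (hΔ0 : ∃ z ∈ ball tp r₁, Δ z ≠ 0) (hreg : Reg d q (ball tp r₁ ∩ {z | Δ z ≠ 0}))
    {r' y0 : ℝ} (hr' : 0 < r') (hr1 : r' < r₁) (hy : tp.im - r' < y0) {F : ℂ → ℂ}
    (hF : brd_Rt d q Δ (brd_V tp r' y0) F)
    (hloc : ∀ k : ℂ, k ∈ closedBall tp r' → k.im = y0 → ∃ ε > 0, ∃ g : ℂ → ℂ,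
      ball k ε ⊆ ball tp r₁ ∧ brd_Rt d q Δ (ball k ε) g ∧
      ∀ t ∈ ball k ε, t ∈ brd_V tp r' y0 → Δ t ≠ 0 → g t = F t) :
    ∃ δ > 0, ∃ G : ℂ → ℂ, brd_Rt d q Δ (brd_V tp r' (y0 + δ)) G ∧
      ∀ t ∈ brd_V tp r' y0, Δ t ≠ 0 → G t = F t := by
  classical
  choose! ε hε g hsub hR hag using hloc
  obtain ⟨δ, hδ, hcov⟩ := brd_cover (tp := tp) (r' := r') (y0 := y0) (ε := ε) hε
  choose! kk hkk1 hkk2 hkk3 using hcov
  -- the local extensions agree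
  have hcons : ∀ k k' : ℂ, k ∈ closedBall tp r' → k.im = y0 → k' ∈ closedBall tp r' →
      k'.im = y0 → ∀ t ∈ ball k (ε k), t ∈ ball k' (ε k') → Δ t ≠ 0 → g k t = g k' t := by
    intro k k' hk hki hk' hki' t ht ht2 htΔ
    have hek := hε k hk hki
    have hek' := hε k' hk' hki'
    have hdist : dist k k' < ε k + ε k' := by
      have h1 : dist k k' ≤ dist t k + dist t k' := by
        rw [dist_comm t k]
        exact dist_triangle k t k'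
      rw [mem_ball] at ht ht2
      linarith
    -- the point of the segment
    have hsum : 0 < ε k + ε k' := by linarith
    obtain ⟨p, hp1, hp2, hp3, hp4⟩ : ∃ p : ℂ, p ∈ closedBall tp r' ∧ p.im = y0 ∧
        p ∈ ball k (ε k) ∧ p ∈ ball k' (ε k') := by
      let θ : ℝ := ε k / (ε k + ε k')
      have hθ0 : 0 < θ := div_pos hek hsum
      have hθ1 : θ < 1 := (div_lt_one hsum).2 (by linarith)
      have hθ2 : θ * (ε k + ε k') = ε k := div_mul_cancel₀ _ hsum.ne'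
      have e0 : ((1 - θ) • k + θ • k' : ℂ) = k + (θ : ℂ) * (k' - k) := by
        rw [Complex.real_smul, Complex.real_smul]
        push_cast
        ring
      refine ⟨(1 - θ) • k + θ • k', ?_, ?_, ?_, ?_⟩
      · exact (convex_closedBall tp r') hk hk' (by linarith) hθ0.le (by ring)
      · rw [e0]
        have e1 : (k + (θ : ℂ) * (k' - k)).im = k.im + θ * (k'.im - k.im) := by simp
        rw [e1, hki, hki']
        ring
      · rw [mem_ball, dist_eq_norm, e0, add_sub_cancel_left, norm_mul, Complex.norm_real,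
          Real.norm_eq_abs, abs_of_pos hθ0, ← dist_eq_norm, dist_comm]
        calc θ * dist k k' < θ * (ε k + ε k') := mul_lt_mul_of_pos_left hdist hθ0
          _ = ε k := hθ2
      · have e1 : k + (θ : ℂ) * (k' - k) - k' = ((1 - θ : ℝ) : ℂ) * (k - k') := by
          push_cast
          ring
        rw [mem_ball, dist_eq_norm, e0, e1, norm_mul, Complex.norm_real,
          Real.norm_eq_abs, abs_of_pos (by linarith), ← dist_eq_norm]
        calc (1 - θ) * dist k k' < (1 - θ) * (ε k + ε k') :=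
              mul_lt_mul_of_pos_left hdist (by linarith)
          _ = ε k' := by
              rw [sub_mul, hθ2]
              ring
    have hWo : IsOpen (ball k (ε k) ∩ ball k' (ε k')) := isOpen_ball.inter isOpen_ball
    have hWB : ball k (ε k) ∩ ball k' (ε k') ⊆ ball tp r₁ := fun x hx => hsub k hk hki hx.1
    obtain ⟨z, hz1, hz2⟩ := brd_closure hr' hy hp1 hp2 hWo ⟨hp3, hp4⟩
    obtain ⟨x, hx1, hx2⟩ := brd_exists hΔ hΔ0 (hWo.inter (brd_V_open tp r' y0))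
      (fun x hx => hWB hx.1) ⟨hz1, hz2⟩
    refine brd_uniq hΔ hΔ0 hreg hWo ((convex_ball _ _).inter (convex_ball _ _)) hWB
      (fun x hx => hR k hk hki x hx.1) (fun x hx => hR k' hk' hki' x hx.2) hx1.1 hx2 ?_
      ⟨ht, ht2⟩ htΔ
    rw [hag k hk hki x hx1.1.1 hx1.2 hx2, hag k' hk' hki' x hx1.1.2 hx1.2 hx2]
  refine ⟨δ, hδ, fun t => if t.im < y0 then F t else g (kk t) t, ?_, ?_⟩
  · intro t ht htΔ
    have hΔev : ∀ᶠ x in 𝓝 t, Δ x ≠ 0 :=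
      (hΔ t (ball_subset_ball hr1.le ht.1)).continuousAt.eventually_ne htΔ
    by_cases hti : t.im < y0
    · have htV : t ∈ brd_V tp r' y0 := ⟨ht.1, hti⟩
      obtain ⟨h1, h2⟩ := hF t htV htΔ
      constructor
      · refine h1.congr ?_
        filter_upwards [(brd_V_open tp r' y0).mem_nhds htV] with x hx
        rw [if_pos hx.2]
      · change PolE d q t (if t.im < y0 then F t else g (kk t) t) = 0
        rw [if_pos hti]
        exact h2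
    · have hti' : y0 ≤ t.im := not_lt.1 hti
      have i1 := hkk1 t ht.1 hti' ht.2
      have i2 := hkk2 t ht.1 hti' ht.2
      have i3 := hkk3 t ht.1 hti' ht.2
      obtain ⟨h1, h2⟩ := hR _ i1 i2 t i3 htΔ
      constructor
      · refine h1.congr ?_
        filter_upwards [(brd_V_open tp r' (y0 + δ)).mem_nhds ht, hΔev,
          isOpen_ball.mem_nhds i3] with x hx hxΔ hxb
        by_cases hxi : x.im < y0
        · rw [if_pos hxi]
          exact hag _ i1 i2 x hxb ⟨hx.1, hxi⟩ hxΔ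
        · rw [if_neg hxi]
          have hxi' : y0 ≤ x.im := not_lt.1 hxi
          exact hcons _ _ i1 i2 (hkk1 x hx.1 hxi' hx.2) (hkk2 x hx.1 hxi' hx.2) x hxb
            (hkk3 x hx.1 hxi' hx.2) hxΔ
      · change PolE d q t (if t.im < y0 then F t else g (kk t) t) = 0
        rw [if_neg hti]
        exact h2
  · intro t ht _
    exact if_pos ht.2

end

/-- **Climbing.**  A branch on the lower part of a disc extends to a disc or it extends up to a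
ramification point. -/
theorem climb {tp : ℂ} {ra rb r₁ : ℝ} (hra : 0 < ra) (hab : ra < rb) (hb1 : rb < r₁) {d : ℕ}
    {q : ℕ → ℂ → ℂ} {Δ : ℂ → ℂ} (hq : ∀ i ≤ d, AnalyticOnNhd ℂ (q i) (ball tp r₁))
    (hΔ : AnalyticOnNhd ℂ Δ (ball tp r₁)) (hΔ0 : ∃ z ∈ ball tp r₁, Δ z ≠ 0)
    (hreg : Reg d q (ball tp r₁ ∩ {z | Δ z ≠ 0})) {y : ℝ} (hy : tp.im - ra < y) {f₀ : ℂ → ℂ}
    (hf₀ : ∀ t ∈ ball tp r₁, t.im < y → Δ t ≠ 0 → AnalyticAt ℂ f₀ t ∧ PolE d q t (f₀ t) = 0) :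
    (∃ F : ℂ → ℂ, (∀ t ∈ ball tp ra, Δ t ≠ 0 → AnalyticAt ℂ F t ∧ PolE d q t (F t) = 0) ∧
      ∀ t ∈ ball tp ra, t.im < y → Δ t ≠ 0 → F t = f₀ t) ∨
    ∃ (r' : ℝ) (t₁ : ℂ) (F : ℂ → ℂ), ra < r' ∧ r' < rb ∧ t₁ ∈ ball tp r' ∧ y ≤ t₁.im ∧
      (∀ t ∈ ball tp r', t.im < t₁.im → Δ t ≠ 0 → AnalyticAt ℂ F t ∧ PolE d q t (F t) = 0) ∧
      (∀ t ∈ ball tp r', t.im < y → Δ t ≠ 0 → F t = f₀ t) ∧
      ∀ s : ℂ → ℂ, AnalyticAt ℂ s t₁ → s t₁ = 0 → deriv s t₁ ≠ 0 → Ram F t₁ s := by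
  -- the radius
  obtain ⟨r', hr'1, hr'2⟩ : ∃ r' ∈ Ioo ra rb, ∀ z ∈ ball tp r₁, Δ z = 0 → dist z tp ≠ r' := by
    have h1 : ((fun z => dist z tp) '' {z | z ∈ ball tp r₁ ∧ Δ z = 0}).Countable :=
      (brd_count hΔ hΔ0).image _
    obtain ⟨r', h2, h3⟩ := (h1.dense_compl ℝ).inter_open_nonempty (Ioo ra rb) isOpen_Ioo
      (nonempty_Ioo.2 hab)
    exact ⟨r', h2, fun z hz hz0 h4 => h3 ⟨z, ⟨hz, hz0⟩, h4⟩⟩
  have hr' : 0 < r' := hra.trans hr'1.1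
  have hr1 : r' < r₁ := hr'1.2.trans hb1
  have hy' : tp.im - r' < y := by
    have := hr'1.1
    linarith
  let P : ℝ → Prop := fun h => ∃ F : ℂ → ℂ, brd_Rt d q Δ (brd_V tp r' h) F ∧
      ∀ t ∈ brd_V tp r' h, t.im < y → Δ t ≠ 0 → F t = f₀ t
  have hmono : ∀ h h', h ≤ h' → P h' → P h := by
    rintro h h' hh ⟨F, h1, h2⟩
    have h3 : brd_V tp r' h ⊆ brd_V tp r' h' := fun t ht => ⟨ht.1, lt_of_lt_of_le ht.2 hh⟩
    exact ⟨F, fun t ht => h1 t (h3 ht), fun t ht => h2 t (h3 ht)⟩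
  have hPy : P y := ⟨f₀, fun t ht ht' => hf₀ t (ball_subset_ball hr1.le ht.1) ht.2 ht',
    fun t _ _ _ => rfl⟩
  have him : ∀ t ∈ ball tp r', t.im < tp.im + r' := by
    intro t ht
    have h1 : |(t - tp).im| ≤ ‖t - tp‖ := Complex.abs_im_le_norm _
    have h2 : ‖t - tp‖ < r' := by
      rw [← dist_eq_norm]
      exact ht
    have h4 := (abs_lt.1 (lt_of_le_of_lt h1 h2)).2
    rw [Complex.sub_im] at h4
    linarith
  by_cases htop : P (tp.im + r')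
  · left
    obtain ⟨F, h1, h2⟩ := htop
    have h3 : ball tp ra ⊆ brd_V tp r' (tp.im + r') := fun t ht =>
      ⟨ball_subset_ball hr'1.1.le ht, him t (ball_subset_ball hr'1.1.le ht)⟩
    exact ⟨F, fun t ht => h1 t (h3 ht), fun t ht => h2 t (h3 ht)⟩
  · right
    have hbdd : BddAbove {h | P h} := by
      refine ⟨tp.im + r', fun h hh => ?_⟩
      by_contra hcon
      exact htop (hmono _ _ (not_le.1 hcon).le hh)
    have hy0 : y ≤ sSup {h | P h} := le_csSup hbdd hPy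
    obtain ⟨F, hF1, hF2⟩ : P (sSup {h | P h}) := by
      refine brd_sup hΔ hΔ0 hreg hr' hr1.le hy' fun h hh => ?_
      obtain ⟨h', h1, h2⟩ := exists_lt_of_lt_csSup ⟨y, hPy⟩ hh
      exact hmono _ _ h2.le h1
    have hy0' : tp.im - r' < sSup {h | P h} := lt_of_lt_of_le hy' hy0
    by_contra hcon
    have hno : ∀ k : ℂ, k ∈ closedBall tp r' → k.im = sSup {h | P h} →
        ¬ (k ∈ ball tp r' ∧ ∀ s : ℂ → ℂ, AnalyticAt ℂ s k → s k = 0 →
          deriv s k ≠ 0 → Ram F k s) := by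
      rintro k - hki ⟨hk1, hk2⟩
      refine hcon ⟨r', k, F, hr'1.1, hr'1.2, hk1, by rw [hki]; exact hy0, ?_, ?_, hk2⟩
      · intro t ht hti
        exact hF1 t ⟨ht, by rw [← hki]; exact hti⟩
      · intro t ht hti
        exact hF2 t ⟨ht, lt_of_lt_of_le hti hy0⟩ hti
    obtain ⟨δ, hδ, G, hG1, hG2⟩ := brd_glue hΔ hΔ0 hreg hr' hr1 hy0' hF1
      (fun k hk hki => brd_local hq hΔ hΔ0 hreg hr' hr1 hy0' hr'2 hF1 hk hki (hno k hk hki))
    have h1 : P (sSup {h | P h} + δ) := by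
      refine ⟨G, hG1, fun t ht hty htΔ => ?_⟩
      have h2 : t ∈ brd_V tp r' (sSup {h | P h}) := ⟨ht.1, lt_of_lt_of_le hty hy0⟩
      rw [hG2 t h2 htΔ]
      exact hF2 t h2 hty htΔ
    have h2 := le_csSup hbdd h1
    linarith

end Pool.Agent.MP_ae5b4e_an_NB1
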