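import Mathlib
import Pool.Agent.Lib.MP_ae5b4e_an_NB1.BrB
import Pool.Agent.Lib.MP_ae5b4e_an_NBT.Slice

/-!
# MP_ae5b4e_an, project NB_1: auxiliary lemmas for the branch point theorem (helper46)
-/

noncomputable section

namespace Pool.Agent.MP_ae5b4e_an_NB1

open Complex Set Filter Topology Metric
open Pool.Agent.MP_ae5b4e_an_NBT

/-! ### One variable: removing singularities -/

lemma lim_eq {g : ℂ → ℂ} {x : ℂ} (h : AnalyticAt ℂ g x) : limUnder (𝓝[≠] x) g = g x :=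
  (h.continuousAt.tendsto.mono_left nhdsWithin_le_nhds).limUnder_eq

lemma lim_analytic {g : ℂ → ℂ} {t : ℂ} (h1 : ∀ᶠ x in 𝓝[≠] t, AnalyticAt ℂ g x) {C : ℝ}
    (hb : ∀ᶠ x in 𝓝[≠] t, ‖g x‖ ≤ C) : AnalyticAt ℂ (fun x => limUnder (𝓝[≠] x) g) t := by
  have h2 := (h1.and hb)
  rw [eventually_nhdsWithin_iff, Metric.eventually_nhds_iff_ball] at h2
  obtain ⟨ε, hε, h3⟩ := h2
  have h4 : DifferentiableOn ℂ (Function.update g t (limUnder (𝓝[≠] t) g)) (ball t ε) := by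
    apply Complex.differentiableOn_update_limUnder_of_bddAbove (ball_mem_nhds t hε)
    · intro x hx
      exact (h3 x hx.1 hx.2).1.differentiableAt.differentiableWithinAt
    · refine ⟨C, ?_⟩
      rintro _ ⟨x, hx, rfl⟩
      exact (h3 x hx.1 hx.2).2
  have h5 : AnalyticAt ℂ (Function.update g t (limUnder (𝓝[≠] t) g)) t :=
    h4.analyticAt (ball_mem_nhds t hε)
  refine h5.congr ?_
  filter_upwards [ball_mem_nhds t hε] with x hx
  by_cases hxt : x = t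
  · subst hxt
    rw [Function.update_self]
  · rw [Function.update_of_ne hxt, lim_eq (h3 x hx hxt).1]

/-- removing bounded isolated singularities -/
lemma rem_ext {S : Set ℂ} {E : Set ℂ} (hE : ∀ t ∈ S, ∀ᶠ x in 𝓝[≠] t, x ∈ S ∧ x ∉ E) {u : ℂ → ℂ}
    {C : ℝ} (hu : ∀ t ∈ S, t ∉ E → AnalyticAt ℂ u t ∧ ‖u t‖ ≤ C) :
    ∃ w : ℂ → ℂ, AnalyticOnNhd ℂ w S ∧ (∀ t ∈ S, ‖w t‖ ≤ C) ∧ ∀ t ∈ S, t ∉ E → w t = u t := by
  have h1 : ∀ t ∈ S, ∀ᶠ x in 𝓝[≠] t, AnalyticAt ℂ u x ∧ ‖u x‖ ≤ C := by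
    intro t ht
    filter_upwards [hE t ht] with x hx
    exact hu x hx.1 hx.2
  have h2 : ∀ t ∈ S, AnalyticAt ℂ (fun x => limUnder (𝓝[≠] x) u) t := by
    intro t ht
    exact lim_analytic ((h1 t ht).mono fun x hx => hx.1) ((h1 t ht).mono fun x hx => hx.2)
  have h3 : ∀ t ∈ S, t ∉ E → limUnder (𝓝[≠] t) u = u t := fun t ht htE => lim_eq (hu t ht htE).1
  refine ⟨fun x => limUnder (𝓝[≠] x) u, h2, ?_, h3⟩
  intro t ht
  have h4 : Tendsto (fun x => ‖limUnder (𝓝[≠] x) u‖) (𝓝[≠] t) (𝓝 ‖limUnder (𝓝[≠] t) u‖) :=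
    ((h2 t ht).continuousAt.norm.tendsto).mono_left nhdsWithin_le_nhds
  refine le_of_tendsto h4 ?_
  filter_upwards [hE t ht] with x hx
  rw [h3 x hx.1 hx.2]
  exact (hu x hx.1 hx.2).2

/-- the identity theorem for meromorphic functions of one variable -/
lemma mero_eq {S : Set ℂ} (hS : IsPreconnected S) {u v : ℂ → ℂ} (hu : ∀ t ∈ S, MeromorphicAt u t)
    (hv : ∀ t ∈ S, MeromorphicAt v t) {t₀ : ℂ} (ht₀ : t₀ ∈ S) (h : u =ᶠ[𝓝[≠] t₀] v) :
    ∀ t ∈ S, u =ᶠ[𝓝[≠] t] v := by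
  have hop : IsOpen {t : ℂ | u =ᶠ[𝓝[≠] t] v} := by
    rw [isOpen_iff_mem_nhds]
    intro t ht
    have h1 : ∀ᶠ x in 𝓝 t, x ≠ t → u x = v x := eventually_nhdsWithin_iff.1 ht
    filter_upwards [h1.eventually_nhds] with x hx
    by_cases hxt : x = t
    · subst hxt
      exact ht
    · refine Filter.EventuallyEq.filter_mono ?_ nhdsWithin_le_nhds
      filter_upwards [hx, eventually_ne_nhds hxt] with y hy hy'
      exact hy hy'
  have hcl : closure {t : ℂ | u =ᶠ[𝓝[≠] t] v} ∩ S ⊆ {t : ℂ | u =ᶠ[𝓝[≠] t] v} := by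
    rintro t ⟨ht, htS⟩
    rcases ((hu t htS).sub (hv t htS)).eventually_eq_zero_or_eventually_ne_zero with h1 | h1
    · filter_upwards [h1] with x hx
      exact sub_eq_zero.1 hx
    · exfalso
      have h2 : ∀ᶠ x in 𝓝 t, x ≠ t → (u - v) x ≠ 0 := eventually_nhdsWithin_iff.1 h1
      obtain ⟨y, hy, hy2⟩ :=
        ((mem_closure_iff_frequently.1 ht).and_eventually h2.eventually_nhds).exists
      have h4 : ∀ᶠ x in 𝓝[≠] y, x ≠ t := by
        by_cases hst : y = t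
        · subst hst
          exact self_mem_nhdsWithin
        · exact (eventually_ne_nhds hst).filter_mono nhdsWithin_le_nhds
      obtain ⟨x, hx1, hx2, hx3⟩ := (h4.and ((Filter.Eventually.filter_mono nhdsWithin_le_nhds
        hy2).and hy)).exists
      exact hx2 hx1 (sub_eq_zero.2 hx3)
  exact fun t ht => hS.subset_of_closure_inter_subset hop ⟨t₀, ht₀, h⟩ hcl ht

/-- zeros of an analytic function on a connected set are isolated -/
lemma ev_ne {U : Set ℂ} (hUc : IsPreconnected U) {Δ : ℂ → ℂ} (hΔ : AnalyticOnNhd ℂ Δ U)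
    (h0 : ∃ z ∈ U, Δ z ≠ 0) : ∀ t ∈ U, ∀ᶠ x in 𝓝[≠] t, Δ x ≠ 0 := by
  intro t ht
  rcases (hΔ t ht).eventually_eq_zero_or_eventually_ne_zero with h1 | h1
  · exfalso
    obtain ⟨z, hz, hz0⟩ := h0
    exact hz0 (AnalyticOnNhd.eqOn_zero_of_preconnected_of_eventuallyEq_zero hΔ hUc ht h1 hz)
  · exact h1

lemma continuousAt_polE {d : ℕ} {q : ℕ → ℂ → ℂ} {z : ℂ} (hq : ∀ i ≤ d, AnalyticAt ℂ (q i) z)
    {V : ℂ → ℂ} (hV : ContinuousAt V z) : ContinuousAt (fun t => PolE d q t (V t)) z := by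
  unfold PolE
  apply tendsto_finsetSum
  intro i hi
  exact ((hq i (by simpa [Nat.lt_succ_iff] using hi)).continuousAt).mul (hV.pow i)

/-- the normal form of a meromorphic branch -/
lemma nfd {S : Set ℂ} {d : ℕ} {q : ℕ → ℂ → ℂ} {E : Set ℂ} (hreg : Reg d q (S \ E)) {g : ℂ → ℂ}
    (hg : ∀ t ∈ S, MeromorphicAt g t) (hr : ∀ t ∈ S, ∀ᶠ x in 𝓝[≠] t, PolE d q x (g x) = 0) :
    ∃ f₀ : ℂ → ℂ, (∀ t ∈ S, t ∉ E → AnalyticAt ℂ f₀ t ∧ PolE d q t (f₀ t) = 0) ∧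
      ∀ t ∈ S, f₀ =ᶠ[𝓝[≠] t] g := by
  have h1 : ∀ t ∈ S, (fun x => limUnder (𝓝[≠] x) g) =ᶠ[𝓝[≠] t] g := by
    intro t ht
    filter_upwards [(hg t ht).eventually_analyticAt] with x hx
    exact lim_eq hx
  refine ⟨fun x => limUnder (𝓝[≠] x) g, fun t ht htE => ?_, h1⟩
  have htS : t ∈ S \ E := ⟨ht, htE⟩
  -- boundedness
  have hql : q d t ≠ 0 := hreg.lead t htS
  set K : ℝ := (∑ i ∈ Finset.range (d + 1), ‖q i t‖) + 1 with hK
  have h2 : ∀ᶠ x in 𝓝 t, ∑ i ∈ Finset.range (d + 1), ‖q i x‖ < K := by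
    have hc : ContinuousAt (fun x => ∑ i ∈ Finset.range (d + 1), ‖q i x‖) t := by
      apply tendsto_finsetSum
      intro i hi
      exact (hreg.an i (by simpa [Nat.lt_succ_iff] using hi) t htS).continuousAt.norm
    exact hc.eventually_lt continuousAt_const (by rw [hK]; linarith)
  have h3 : ∀ᶠ x in 𝓝 t, ‖q d t‖ / 2 < ‖q d x‖ := by
    have hc : ContinuousAt (fun x => ‖q d x‖) t := (hreg.an d le_rfl t htS).continuousAt.norm
    have hpos : 0 < ‖q d t‖ := norm_pos_iff.2 hql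
    exact (continuousAt_const.eventually_lt hc (by linarith))
  have h4 : ∀ᶠ x in 𝓝[≠] t, ‖g x‖ ≤ K / (‖q d t‖ / 2) := by
    filter_upwards [hr t ht, h2.filter_mono nhdsWithin_le_nhds,
      h3.filter_mono nhdsWithin_le_nhds] with x hx1 hx2 hx3
    have h5 := root_bound hx1
    rw [norm_mul] at h5
    have hpos : 0 < ‖q d t‖ / 2 := by
      have : 0 < ‖q d t‖ := norm_pos_iff.2 hql
      linarith
    rw [le_div_iff₀ hpos]
    have h6 : ‖g x‖ * (‖q d t‖ / 2) ≤ ‖g x‖ * ‖q d x‖ :=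
      mul_le_mul_of_nonneg_left hx3.le (norm_nonneg _)
    linarith [mul_comm ‖g x‖ ‖q d x‖]
  have h5 : AnalyticAt ℂ (fun x => limUnder (𝓝[≠] x) g) t :=
    lim_analytic (hg t ht).eventually_analyticAt h4
  refine ⟨h5, ?_⟩
  have h6 : Tendsto (fun x => PolE d q x (limUnder (𝓝[≠] x) g)) (𝓝[≠] t)
      (𝓝 (PolE d q t (limUnder (𝓝[≠] t) g))) :=
    (continuousAt_polE (fun i hi => hreg.an i hi t htS)
      (V := fun x => limUnder (𝓝[≠] x) g) h5.continuousAt).tendsto.mono_left nhdsWithin_le_nhds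
  have h7 : Tendsto (fun x => PolE d q x (limUnder (𝓝[≠] x) g)) (𝓝[≠] t) (𝓝 0) := by
    refine tendsto_const_nhds.congr' ?_
    filter_upwards [hr t ht, h1 t ht] with x hx1 hx2
    have hx3 : limUnder (𝓝[≠] x) g = g x := hx2
    rw [hx3, hx1]
  exact tendsto_nhds_unique h6 h7

/-! ### Two variables -/

/-- a common denominator -/
lemma common_den {p : ℂ × ℂ} (D : ℕ) {b : ℕ → ℂ × ℂ → ℂ} (hb : ∀ i ≤ D, MerAt (b i) p) :
    ∃ (C : ℂ × ℂ → ℂ) (β : ℕ → ℂ × ℂ → ℂ), Den C p ∧ (∀ i ≤ D, AnalyticAt ℂ (β i) p) ∧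
      ∀ᶠ q in 𝓝 p, C q ≠ 0 → ∀ i ≤ D, C q * b i q = β i q := by
  induction D with
  | zero =>
    obtain ⟨A, B, hA, hB, h⟩ := hb 0 le_rfl
    refine ⟨B, fun _ => A, hB, fun _ _ => hA, ?_⟩
    filter_upwards [h] with q hq hq0 i hi
    obtain rfl : i = 0 := by omega
    rw [hq hq0]
    field_simp
  | succ D ih =>
    obtain ⟨C, β, hC, hβ, h⟩ := ih (fun i hi => hb i (by omega))
    obtain ⟨A, B, hA, hB, h'⟩ := hb (D + 1) le_rfl
    refine ⟨fun q => C q * B q, fun i q => if i = D + 1 then C q * A q else β i q * B q,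
      hC.mul hB, ?_, ?_⟩
    · intro i hi
      by_cases hi' : i = D + 1
      · simp only [hi', if_true]
        exact hC.an.mul hA
      · simp only [hi', if_false]
        exact (hβ i (by omega)).mul hB.an
    · filter_upwards [h, h'] with q hq hq' h0 i hi
      have hC0 := left_ne_zero_of_mul h0
      have hB0 := right_ne_zero_of_mul h0
      by_cases hi' : i = D + 1
      · simp only [hi', if_true]
        rw [hq' hB0]
        field_simp
      · simp only [hi', if_false]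
        rw [← hq hC0 i (by omega)]
        ring

/-- `den_factor` with the coordinates exchanged -/
lemma den_swap {B : ℂ × ℂ → ℂ} {t₀ ρ : ℂ} (h : Den B (t₀, ρ)) :
    ∃ (k : ℕ) (B' : ℂ × ℂ → ℂ), AnalyticAt ℂ B' (t₀, ρ) ∧
      (∀ᶠ t in 𝓝[≠] t₀, B' (t, ρ) ≠ 0) ∧
      ∀ᶠ q in 𝓝 (t₀, ρ), B q = (q.2 - ρ) ^ k * B' q := by
  have hsw : ∀ q : ℂ × ℂ, AnalyticAt ℂ (Homeomorph.prodComm ℂ ℂ) q := by
    intro q
    change AnalyticAt ℂ (fun p : ℂ × ℂ => (p.2, p.1)) q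
    exact analyticAt_snd.prod analyticAt_fst
  have h1 : Den (fun q => B ((Homeomorph.prodComm ℂ ℂ) q)) (ρ, t₀) :=
    Den.comp (Homeomorph.prodComm ℂ ℂ) (hsw _) h
  obtain ⟨k, B', hB', hB0, hBe⟩ := den_factor h1
  have hB2 : AnalyticAt ℂ (fun q : ℂ × ℂ => B' (q.2, q.1)) (t₀, ρ) :=
    AnalyticAt.fun_comp (g := B') (f := fun q : ℂ × ℂ => (q.2, q.1)) hB'
      (analyticAt_snd.prod analyticAt_fst)
  refine ⟨k, fun q => B' (q.2, q.1), hB2, ?_, ?_⟩
  · have h2 : AnalyticAt ℂ (fun t : ℂ => B' (ρ, t)) t₀ :=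
      AnalyticAt.fun_comp (g := B') (f := fun t : ℂ => (ρ, t)) hB'
        (analyticAt_const.prod analyticAt_id)
    exact h2.eventually_eq_zero_or_eventually_ne_zero.resolve_left hB0
  · have ht : Tendsto (fun q : ℂ × ℂ => (q.2, q.1)) (𝓝 (t₀, ρ)) (𝓝 (ρ, t₀)) := by
      have : Continuous (fun q : ℂ × ℂ => (q.2, q.1)) := by fun_prop
      exact this.tendsto _
    filter_upwards [ht.eventually hBe] with q hq
    exact hq

end Pool.Agent.MP_ae5b4e_an_NB1
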