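import Mathlib
import Pool.Agent.Lib.MP_ae5b4e_an_NB1.BrA
import Pool.Agent.Lib.MP_ae5b4e_an_NB1.BrD
import Pool.Agent.Lib.MP_ae5b4e_an_NB1.BrF

/-!
# MP_ae5b4e_an, project NB_1: the alternative for one slice (helper46)
-/

noncomputable section

namespace Pool.Agent.MP_ae5b4e_an_NB1

open Complex Set Filter Topology Metric
open Pool.Agent.MP_ae5b4e_an_NBT

/-- the slice extends to a disc, or it extends up to a ramification point -/
theorem slice_alt {tp tc : ℂ} {ra rb r₁ : ℝ} (hra : 0 < ra) (hab : ra < rb) (hb1 : rb < r₁)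
    {S : Set ℂ} (hSc : Convex ℝ S) {g : ℂ → ℂ} (hg : ∀ t ∈ S, MeromorphicAt g t)
    {y : ℝ} (htc : tc ∈ ball tp ra) (hy : tc.im < y) (hyS : ∀ t ∈ ball tp r₁, t.im < y → t ∈ S)
    {D : ℕ} {β : ℕ → ℂ → ℂ} (hβ : ∀ i ≤ D, AnalyticOnNhd ℂ (β i) (ball tp r₁))
    (hβ0 : ∃ z ∈ ball tp r₁, β D z ≠ 0)
    (hrel : ∀ t ∈ S, t ∈ ball tp r₁ → ∀ᶠ x in 𝓝[≠] t, PolE D β x (g x) = 0) {C : ℝ}
    (hC : ∀ t ∈ ball tp ra, ∑ i ∈ Finset.range (D + 1), ‖β i t‖ ≤ C) :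
    (∃ w : ℂ → ℂ, AnalyticOnNhd ℂ w (ball tp ra) ∧ (∀ t ∈ ball tp ra, ‖w t‖ ≤ C) ∧
      ∀ t ∈ ball tp ra, t.im < y → w =ᶠ[𝓝[≠] t] fun x => β D x * g x) ∨
    ∃ (r' : ℝ) (t₁ : ℂ) (F : ℂ → ℂ), ra < r' ∧ r' < rb ∧ t₁ ∈ ball tp r' ∧ y ≤ t₁.im ∧
      (∀ t ∈ ball tp r', t.im < t₁.im → MeromorphicAt F t) ∧
      (∀ t ∈ ball tp r', t.im < t₁.im → t ∈ S → F =ᶠ[𝓝[≠] t] g) ∧
      ∀ s : ℂ → ℂ, AnalyticAt ℂ s t₁ → s t₁ = 0 → deriv s t₁ ≠ 0 → Ram F t₁ s := by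
  have hUc : IsPreconnected (ball tp r₁) := (convex_ball tp r₁).isPreconnected
  obtain ⟨d, q, Δ, hq, hΔ, hΔ0, hreg, hiff⟩ := exists_sqf isOpen_ball hUc hβ ⟨D, le_rfl, hβ0⟩
  have hΔev := ev_ne hUc hΔ hΔ0
  have hraU : ball tp ra ⊆ ball tp r₁ := ball_subset_ball (by linarith)
  -- the normal form on the lower part
  set S₁ : Set ℂ := ball tp r₁ ∩ {t | t.im < y} with hS₁
  have hS₁o : IsOpen S₁ := isOpen_ball.inter (isOpen_lt continuous_im continuous_const)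
  have hregS : Reg d q (S₁ \ {z | Δ z = 0}) := hreg.mono (fun z hz => ⟨hz.1.1, hz.2⟩)
  obtain ⟨f₀, hf₀, hf₀g⟩ := nfd (S := S₁) hregS (fun t ht => hg t (hyS t ht.1 ht.2)) (by
    intro t ht
    filter_upwards [hrel t (hyS t ht.1 ht.2) ht.1, hΔev t ht.1,
      mem_nhdsWithin_of_mem_nhds (isOpen_ball.mem_nhds ht.1)] with x hx1 hx2 hx3
    exact (hiff x hx3 hx2 _).1 hx1)
  have hy' : tp.im - ra < y := by
    have h1 : |(tc - tp).im| ≤ ‖tc - tp‖ := abs_im_le_norm _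
    have h2 : ‖tc - tp‖ < ra := by
      rw [← dist_eq_norm]
      exact htc
    have h3 : (tc - tp).im = tc.im - tp.im := sub_im _ _
    rw [h3] at h1
    have h4 := abs_lt.1 (lt_of_le_of_lt h1 h2)
    linarith [h4.1]
  rcases climb hra hab hb1 hq hΔ hΔ0 hreg hy' (f₀ := f₀)
    (fun t ht hty hΔt => hf₀ t ⟨ht, hty⟩ hΔt) with ⟨F, hF, hFf⟩ | ⟨r', t₁, F, hr', hr'b, ht₁, hyt₁,
      hF, hFf, hR⟩
  · left
    obtain ⟨w, hw, hwC, hwu⟩ := rem_ext (S := ball tp ra) (E := {z | Δ z = 0})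
      (u := fun t => β D t * F t) (C := C) (by
        intro t ht
        filter_upwards [hΔev t (hraU ht),
          mem_nhdsWithin_of_mem_nhds (isOpen_ball.mem_nhds ht)] with x hx1 hx2
        exact ⟨hx2, hx1⟩) (by
        intro t ht hΔt
        obtain ⟨h1, h2⟩ := hF t ht hΔt
        refine ⟨(hβ D le_rfl t (hraU ht)).mul h1, ?_⟩
        exact (root_bound ((hiff t (hraU ht) hΔt _).2 h2)).trans (hC t ht))
    refine ⟨w, hw, hwC, fun t ht hty => ?_⟩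
    filter_upwards [hΔev t (hraU ht), mem_nhdsWithin_of_mem_nhds (isOpen_ball.mem_nhds ht),
      mem_nhdsWithin_of_mem_nhds ((isOpen_lt continuous_im continuous_const).mem_nhds hty),
      hf₀g t ⟨hraU ht, hty⟩] with x hx1 hx2 hx3 hx4
    rw [hwu x hx2 hx1, hFf x hx2 hx3 hx1, hx4]
  · right
    have hr'U : ball tp r' ⊆ ball tp r₁ := ball_subset_ball (by linarith)
    have hmer : ∀ t ∈ ball tp r', t.im < t₁.im → MeromorphicAt F t := by
      intro t ht htt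
      have hev : ∀ᶠ x in 𝓝[≠] t, x ∈ ball tp r' ∧ x.im < t₁.im ∧ Δ x ≠ 0 := by
        filter_upwards [hΔev t (hr'U ht), mem_nhdsWithin_of_mem_nhds (isOpen_ball.mem_nhds ht),
          mem_nhdsWithin_of_mem_nhds
            ((isOpen_lt continuous_im continuous_const).mem_nhds htt)] with x hx1 hx2 hx3
        exact ⟨hx2, hx3, hx1⟩
      refine merom_of_root (fun i hi => hq i hi t (hr'U ht)) ?_ ?_ ?_
      · filter_upwards [hev] with x hx
        exact hreg.lead x ⟨hr'U hx.1, hx.2.2⟩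
      · filter_upwards [hev] with x hx
        exact (hF x hx.1 hx.2.1 hx.2.2).1
      · filter_upwards [hev] with x hx
        exact (hF x hx.1 hx.2.1 hx.2.2).2
    refine ⟨r', t₁, F, hr', hr'b, ht₁, hyt₁, hmer, ?_, hR⟩
    have hTc : Convex ℝ (ball tp r' ∩ ({t : ℂ | t.im < t₁.im} ∩ S)) := by
      refine (convex_ball tp r').inter (Convex.inter ?_ hSc)
      exact convex_halfSpace_im_lt _
    have htcr' : tc ∈ ball tp r' := ball_subset_ball hr'.le htc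
    have hbase : F =ᶠ[𝓝[≠] tc] g := by
      filter_upwards [hΔev tc (hraU htc), mem_nhdsWithin_of_mem_nhds (isOpen_ball.mem_nhds htcr'),
        mem_nhdsWithin_of_mem_nhds ((isOpen_lt continuous_im continuous_const).mem_nhds hy),
        hf₀g tc ⟨hraU htc, hy⟩] with x hx1 hx2 hx3 hx4
      rw [hFf x hx2 hx3 hx1, hx4]
    intro t ht htt htS
    exact mero_eq hTc.isPreconnected (fun x hx => hmer x hx.1 hx.2.1) (fun x hx => hg x hx.2.2)
      (t₀ := tc) ⟨htcr', lt_of_lt_of_le hy hyt₁, hyS tc (hraU htc) hy⟩ hbase t ⟨ht, htt, htS⟩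

end Pool.Agent.MP_ae5b4e_an_NB1
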