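import Mathlib
import Pool.Agent.Lib.MP_ae5b4e_an_NB1.BrE
import Pool.Agent.Lib.MP_ae5b4e_an_NB1.BrG

/-!
# MP_ae5b4e_an, project NB_1: the branch point of an algebraic function (helper46)
-/

noncomputable section

namespace Pool.Agent.MP_ae5b4e_an_NB1

open Complex Set Filter Topology Metric
open Pool.Agent.MP_ae5b4e_an_NBT

/-- the slices of a set which is closed downwards are convex -/
private lemma conv_slice {tp ρ₀ : ℂ} {r : ℝ} {Ω : Set (ℂ × ℂ)}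
    (hΩN : Ω ⊆ ball tp r ×ˢ ball ρ₀ r)
    (hdown : ∀ (t t' ρ : ℂ), (t, ρ) ∈ Ω → t' ∈ ball tp r → t'.im ≤ t.im → (t', ρ) ∈ Ω) (ρ : ℂ) :
    Convex ℝ {t : ℂ | (t, ρ) ∈ Ω} := by
  intro x hx z hz a b ha hb hab
  have h1 : a • x + b • z ∈ ball tp r := convex_ball tp r (hΩN hx).1 (hΩN hz).1 ha hb hab
  have h2 : (a • x + b • z).im = a * x.im + b * z.im := by simp
  have hb' : b = 1 - a := by linarith
  rcases le_total x.im z.im with h | h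
  · refine hdown z _ ρ hz h1 ?_
    rw [h2, hb']
    nlinarith
  · refine hdown x _ ρ hx h1 ?_
    rw [h2, hb']
    nlinarith

/-- the equation for the slices -/
private lemma slice_rel {f : ℂ × ℂ → ℂ} {t ρ : ℂ} (hsl : SlAt f (t, ρ)) {D : ℕ}
    {β : ℕ → ℂ × ℂ → ℂ} {N : Set (ℂ × ℂ)} (hN : IsOpen N) (hp : (t, ρ) ∈ N)
    (hβ : ∀ i ≤ D, ∀ q ∈ N, AnalyticAt ℂ (β i) q)
    (hrel : ∀ p ∈ N, EqM (fun q => ∑ i ∈ Finset.range (D + 1), β i q * f q ^ i) (fun _ => 0) p) :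
    ∀ᶠ x in 𝓝[≠] t, PolE D (fun i x => β i (x, ρ)) x (sl f ρ x) = 0 := by
  have hline : Tendsto (fun s : ℂ => (s, ρ)) (𝓝 t) (𝓝 (t, ρ)) := by
    have : Continuous (fun s : ℂ => (s, ρ)) := by fun_prop
    exact this.tendsto t
  filter_upwards [hsl.germ, (hline.eventually (hN.mem_nhds hp)).filter_mono nhdsWithin_le_nhds]
    with x hx hxN
  obtain ⟨C, hC, hfC⟩ := hx
  have h1 : sl f ρ x = C (x, ρ) := nfM_eq hC hfC
  have h2 : EqM (fun q => ∑ i ∈ Finset.range (D + 1), β i q * f q ^ i)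
      (fun q => ∑ i ∈ Finset.range (D + 1), β i q * C q ^ i) (x, ρ) := by
    obtain ⟨B, hB, h⟩ := hfC
    refine ⟨B, hB, ?_⟩
    filter_upwards [h] with q hq h0
    rw [hq h0]
  have h3 := (h2.symm.trans (hrel (x, ρ) hxN))
  have h4 : AnalyticAt ℂ (fun q => ∑ i ∈ Finset.range (D + 1), β i q * C q ^ i) (x, ρ) := by
    apply Finset.analyticAt_fun_sum
    intro i hi
    exact (hβ i (by simpa [Nat.lt_succ_iff] using hi) _ hxN).mul (hC.pow i)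
  have h5 := (h3.eventuallyEq h4 analyticAt_const).self_of_nhds
  unfold PolE
  rw [h1]
  exact h5

/-- **The branch point.**  `f` is meromorphic on `Ω`, a domain below the point `(tp, ρ₀)`, algebraic
over the functions which are meromorphic near `(tp, ρ₀)`, and does not extend there.  Then for some
`ρ₁` outside any given countable set the slice extends to a half plane `Im t < Im t₁` (in a disc),
and is ramified at `t₁`. -/
theorem exists_branch {tp ρ₀ : ℂ} {r : ℝ} (hr : 0 < r) {Ω : Set (ℂ × ℂ)} (hΩ : IsOpen Ω)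
    (hΩN : Ω ⊆ ball tp r ×ˢ ball ρ₀ r)
    (hdown : ∀ (t t' ρ : ℂ), (t, ρ) ∈ Ω → t' ∈ ball tp r → t'.im ≤ t.im → (t', ρ) ∈ Ω)
    (hlow : ∀ η : ℝ, 0 < η → η < r → (tp - η * I, ρ₀) ∈ Ω)
    {f : ℂ × ℂ → ℂ} (hf : Mer f Ω) {D : ℕ} {b : ℕ → ℂ × ℂ → ℂ}
    (hb : ∀ i ≤ D, Mer (b i) (ball tp r ×ˢ ball ρ₀ r))
    (hb0 : ∃ i ≤ D, ∃ p ∈ Ω, ¬ EqM (b i) (fun _ => 0) p)
    (halg : ∀ p ∈ Ω, EqM (fun q => ∑ i ∈ Finset.range (D + 1), b i q * f q ^ i) (fun _ => 0) p)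
    (hsing : ¬ ∃ δ > 0, ∃ g : ℂ × ℂ → ℂ, Mer g (ball tp δ ×ˢ ball ρ₀ δ) ∧
      ∀ p ∈ (ball tp δ ×ˢ ball ρ₀ δ) ∩ Ω, EqM g f p)
    {Z : Set ℂ} (hZ : Z.Countable) :
    ∃ (ρ₁ t₁ : ℂ) (r' : ℝ) (f₁ : ℂ → ℂ), ρ₁ ∈ ball ρ₀ r ∧ ρ₁ ∉ Z ∧ 0 < r' ∧ r' < r ∧
      t₁ ∈ ball tp r' ∧
      (∀ t ∈ ball tp r', t.im < t₁.im → MeromorphicAt f₁ t) ∧
      (∃ t ∈ ball tp r', t.im < t₁.im ∧ (t, ρ₁) ∈ Ω) ∧
      (∀ t ∈ ball tp r', t.im < t₁.im → (t, ρ₁) ∈ Ω → SlAt f (t, ρ₁) ∧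
        f₁ =ᶠ[𝓝[≠] t] sl f ρ₁) ∧
      ∀ s : ℂ → ℂ, AnalyticAt ℂ s t₁ → s t₁ = 0 → deriv s t₁ ≠ 0 → Ram f₁ t₁ s := by
  classical
  have hp0 : (tp, ρ₀) ∈ ball tp r ×ˢ ball ρ₀ r := ⟨mem_ball_self hr, mem_ball_self hr⟩
  obtain ⟨C, β, hC, hβ, hCβ⟩ := common_den D (fun i hi => hb i hi _ hp0)
  -- some coefficient is not zero
  have hex : ∃ i, i ≤ D ∧ Den (β i) (tp, ρ₀) := by
    by_contra hcon
    push Not at hcon
    obtain ⟨i, hi, p, hp, hne⟩ := hb0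
    have h1 : ∀ᶠ q in 𝓝 (tp, ρ₀), β i q = 0 := by
      by_contra h2
      exact hcon i hi ⟨hβ i hi, h2⟩
    have h2 : EqM (b i) (fun _ => 0) (tp, ρ₀) := by
      refine ⟨C, hC, ?_⟩
      filter_upwards [hCβ, h1] with q hq1 hq2 hq3
      have h3 := hq1 hq3 i hi
      rw [hq2] at h3
      exact (mul_eq_zero.1 h3).resolve_left hq3
    exact hne (Mer.eqM (((convex_ball tp r).prod (convex_ball ρ₀ r)).isPreconnected) (hb i hi)
      (Mer.of_analytic analyticOnNhd_const) hp0 h2 p (hΩN hp))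
  obtain ⟨D', hD', hDen, hmax⟩ : ∃ D' ≤ D, Den (β D') (tp, ρ₀) ∧
      ∀ i, D' < i → i ≤ D → ∀ᶠ q in 𝓝 (tp, ρ₀), β i q = 0 := by
    obtain ⟨i₀, hi₀, hi₀'⟩ := hex
    refine ⟨Nat.findGreatest (fun i => Den (β i) (tp, ρ₀)) D, Nat.findGreatest_le D, ?_, ?_⟩
    · exact Nat.findGreatest_spec (P := fun i => Den (β i) (tp, ρ₀)) hi₀ hi₀'
    · intro i hi1 hi2
      have h1 := Nat.findGreatest_is_greatest (P := fun i => Den (β i) (tp, ρ₀)) hi1 hi2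
      by_contra h2
      exact h1 ⟨hβ i hi2, h2⟩
  -- a small bidisc
  have hev : ∀ᶠ q in 𝓝 (tp, ρ₀), ((C q ≠ 0 → ∀ i ≤ D, C q * b i q = β i q) ∧ Den C q) ∧
      (∀ i ∈ Iic D, AnalyticAt ℂ (β i) q) ∧ Den (β D') q ∧
      ∀ i ∈ Iic D, D' < i → β i q = 0 := by
    refine (hCβ.and hC.eventually).and (Filter.Eventually.and ?_ (hDen.eventually.and ?_))
    · exact (Filter.eventually_all_finite (Set.finite_Iic D)).2
        (fun i hi => (hβ i hi).eventually_analyticAt)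
    · refine (Filter.eventually_all_finite (Set.finite_Iic D)).2 (fun i hi => ?_)
      by_cases h1 : D' < i
      · filter_upwards [hmax i h1 hi] with q hq _
        exact hq
      · exact Eventually.of_forall fun q h2 => absurd h2 h1
  obtain ⟨r₀, hr₀, hN⟩ := Metric.eventually_nhds_iff_ball.1 hev
  set r₁ : ℝ := min r₀ r with hr₁
  have hr₁0 : 0 < r₁ := lt_min hr₀ hr
  have hr₁r : r₁ ≤ r := min_le_right _ _
  have hN₁ : ∀ q ∈ ball tp r₁ ×ˢ ball ρ₀ r₁,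
      ((C q ≠ 0 → ∀ i ≤ D, C q * b i q = β i q) ∧ Den C q) ∧
      (∀ i ∈ Iic D, AnalyticAt ℂ (β i) q) ∧ Den (β D') q ∧
      ∀ i ∈ Iic D, D' < i → β i q = 0 := by
    intro q hq
    apply hN
    rw [← ball_prod_same]
    exact ⟨ball_subset_ball (min_le_left _ _) hq.1, ball_subset_ball (min_le_left _ _) hq.2⟩
  have hNo : IsOpen (ball tp r₁ ×ˢ ball ρ₀ r₁) := isOpen_ball.prod isOpen_ball
  have hβN : ∀ i ≤ D', ∀ q ∈ ball tp r₁ ×ˢ ball ρ₀ r₁, AnalyticAt ℂ (β i) q :=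
    fun i hi q hq => (hN₁ q hq).2.1 i (hi.trans hD')
  have hrel : ∀ p ∈ Ω ∩ ball tp r₁ ×ˢ ball ρ₀ r₁,
      EqM (fun q => ∑ i ∈ Finset.range (D' + 1), β i q * f q ^ i) (fun _ => 0) p := by
    rintro p ⟨hpΩ, hpN⟩
    obtain ⟨B, hB, h⟩ := halg p hpΩ
    refine ⟨fun q => B q * C q, hB.mul (hN₁ p hpN).1.2, ?_⟩
    filter_upwards [h, hNo.mem_nhds hpN] with q hq hqN h0
    have hB0 := left_ne_zero_of_mul h0
    have hC0 := right_ne_zero_of_mul h0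
    have h1 : ∑ i ∈ Finset.range (D' + 1), β i q * f q ^ i =
        ∑ i ∈ Finset.range (D + 1), β i q * f q ^ i := by
      apply Finset.sum_subset
      · intro i hi
        simp only [Finset.mem_range] at hi ⊢
        omega
      · intro i hi hi'
        simp only [Finset.mem_range] at hi hi'
        rw [(hN₁ q hqN).2.2.2 i (by simp only [mem_Iic]; omega) (by omega), zero_mul]
    have h2 : ∑ i ∈ Finset.range (D + 1), β i q * f q ^ i =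
        C q * ∑ i ∈ Finset.range (D + 1), b i q * f q ^ i := by
      rw [Finset.mul_sum]
      apply Finset.sum_congr rfl
      intro i hi
      simp only [Finset.mem_range] at hi
      rw [← (hN₁ q hqN).1.1 hC0 i (by omega)]
      ring
    show ∑ i ∈ Finset.range (D' + 1), β i q * f q ^ i = 0
    rw [h1, h2, hq hB0, mul_zero]
  -- the constants
  set ra : ℝ := r₁ / 4 with hra
  set rb : ℝ := r₁ / 2 with hrb
  set η : ℝ := r₁ / 32 with hη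
  have hra0 : 0 < ra := by positivity
  have hab : ra < rb := by rw [hra, hrb]; linarith
  have hb1 : rb < r₁ := by rw [hrb]; linarith
  have hη0 : 0 < η := by positivity
  set ts : ℂ := tp - η * I with hts
  have htsd : dist ts tp = η := by
    rw [hts, dist_eq_norm]
    simp [abs_of_pos hη0]
  have htsΩ : (ts, ρ₀) ∈ Ω := hlow η hη0 (by rw [hη]; linarith)
  have htsN : (ts, ρ₀) ∈ ball tp r₁ ×ˢ ball ρ₀ r₁ := by
    refine ⟨?_, mem_ball_self hr₁0⟩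
    rw [mem_ball, htsd, hη]
    linarith
  obtain ⟨A, B, hA, hB, hfAB⟩ := hf (ts, ρ₀) htsΩ
  obtain ⟨k, B', hB', hB'0, hBe⟩ := den_swap hB
  obtain ⟨l, β', hβ', hβ'0, hβe⟩ := den_swap (hN₁ _ htsN).2.2.1
  have hline : ∀ t : ℂ, Tendsto (fun s : ℂ => (s, ρ₀)) (𝓝 t) (𝓝 (t, ρ₀)) := by
    intro t
    have : Continuous (fun s : ℂ => (s, ρ₀)) := by fun_prop
    exact this.tendsto t
  -- the point tc
  obtain ⟨tc, ⟨htc1, htc2⟩, htcev, htcb⟩ : ∃ tc : ℂ, (B' (tc, ρ₀) ≠ 0 ∧ β' (tc, ρ₀) ≠ 0) ∧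
      (∀ᶠ q in 𝓝 (tc, ρ₀), (AnalyticAt ℂ A q ∧ AnalyticAt ℂ B' q ∧ AnalyticAt ℂ β' q) ∧
        (B q ≠ 0 → f q = A q / B q) ∧ B q = (q.2 - ρ₀) ^ k * B' q ∧
        β D' q = (q.2 - ρ₀) ^ l * β' q ∧ q ∈ Ω ∧ q ∈ ball tp r₁ ×ˢ ball ρ₀ r₁) ∧
      dist tc ts < η := by
    have h1 : ∀ᶠ q in 𝓝 (ts, ρ₀), (AnalyticAt ℂ A q ∧ AnalyticAt ℂ B' q ∧ AnalyticAt ℂ β' q) ∧
        (B q ≠ 0 → f q = A q / B q) ∧ B q = (q.2 - ρ₀) ^ k * B' q ∧
        β D' q = (q.2 - ρ₀) ^ l * β' q ∧ q ∈ Ω ∧ q ∈ ball tp r₁ ×ˢ ball ρ₀ r₁ := by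
      filter_upwards [hA.eventually_analyticAt, hB'.eventually_analyticAt,
        hβ'.eventually_analyticAt, hfAB, hBe, hβe, hΩ.mem_nhds htsΩ, hNo.mem_nhds htsN]
        with q h1 h2 h3 h4 h5 h6 h7 h8
      exact ⟨⟨h1, h2, h3⟩, h4, h5, h6, h7, h8⟩
    have h2 : ∀ᶠ x in 𝓝[≠] ts, ∀ᶠ q in 𝓝 (x, ρ₀),
        (AnalyticAt ℂ A q ∧ AnalyticAt ℂ B' q ∧ AnalyticAt ℂ β' q) ∧
        (B q ≠ 0 → f q = A q / B q) ∧ B q = (q.2 - ρ₀) ^ k * B' q ∧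
        β D' q = (q.2 - ρ₀) ^ l * β' q ∧ q ∈ Ω ∧ q ∈ ball tp r₁ ×ˢ ball ρ₀ r₁ :=
      ((hline ts).eventually h1.eventually_nhds).filter_mono nhdsWithin_le_nhds
    obtain ⟨x, hx1, hx2, hx3, hx4⟩ := (hB'0.and (hβ'0.and (h2.and
      (mem_nhdsWithin_of_mem_nhds (ball_mem_nhds ts hη0))))).exists
    exact ⟨x, ⟨hx1, hx2⟩, hx3, hx4⟩
  have htctp : dist tc tp < 2 * η := by
    have := dist_triangle tc ts tp
    linarith
  have htcra : tc ∈ ball tp ra := by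
    rw [mem_ball, hra]
    rw [hη] at htctp
    linarith
  -- the small bidisc at tc
  obtain ⟨s, hs, hsra, hM⟩ : ∃ s > 0, s ≤ ra ∧ ∀ q ∈ ball tc s ×ˢ ball ρ₀ s,
      (AnalyticAt ℂ A q ∧ AnalyticAt ℂ B' q) ∧ (B' q ≠ 0 ∧ β' q ≠ 0) ∧
      (B q ≠ 0 → f q = A q / B q) ∧ B q = (q.2 - ρ₀) ^ k * B' q ∧
        β D' q = (q.2 - ρ₀) ^ l * β' q ∧ q ∈ Ω ∧ q ∈ ball tp r₁ ×ˢ ball ρ₀ r₁ := by
    have h0 := htcev.self_of_nhds
    have h1 : ∀ᶠ q in 𝓝 (tc, ρ₀), B' q ≠ 0 ∧ β' q ≠ 0 :=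
      (h0.1.2.1.continuousAt.eventually_ne htc1).and (h0.1.2.2.continuousAt.eventually_ne htc2)
    obtain ⟨s₀, hs₀, hs₁⟩ := Metric.eventually_nhds_iff_ball.1 (htcev.and h1)
    refine ⟨min s₀ ra, lt_min hs₀ hra0, min_le_right _ _, fun q hq => ?_⟩
    have h2 : q ∈ ball (tc, ρ₀) s₀ := by
      rw [← ball_prod_same]
      exact ⟨ball_subset_ball (min_le_left _ _) hq.1, ball_subset_ball (min_le_left _ _) hq.2⟩
    obtain ⟨⟨⟨h3, h4, -⟩, h5, h6, h7, h8, h9⟩, h10⟩ := hs₁ q h2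
    exact ⟨⟨h3, h4⟩, h10, h5, h6, h7, h8, h9⟩
  have hMo : IsOpen (ball tc s ×ˢ ball ρ₀ s) := isOpen_ball.prod isOpen_ball
  have hBne : ∀ q ∈ ball tc s ×ˢ ball ρ₀ s, q.2 ≠ ρ₀ → B q ≠ 0 := by
    intro q hq hq2
    rw [(hM q hq).2.2.2.1]
    exact mul_ne_zero (pow_ne_zero _ (sub_ne_zero.2 hq2)) (hM q hq).2.1.1
  have hβne : ∀ q ∈ ball tc s ×ˢ ball ρ₀ s, q.2 ≠ ρ₀ → β D' q ≠ 0 := by
    intro q hq hq2
    rw [(hM q hq).2.2.2.2.1]
    exact mul_ne_zero (pow_ne_zero _ (sub_ne_zero.2 hq2)) (hM q hq).2.1.2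
  have hfq : ∀ q ∈ ball tc s ×ˢ ball ρ₀ s, q.2 ≠ ρ₀ →
      f q = A q / ((q.2 - ρ₀) ^ k * B' q) := by
    intro q hq hq2
    rw [(hM q hq).2.2.1 (hBne q hq hq2), (hM q hq).2.2.2.1]
  have hfan : ∀ q ∈ ball tc s ×ˢ ball ρ₀ s, q.2 ≠ ρ₀ → AnalyticAt ℂ f q := by
    intro q hq hq2
    have h1 : AnalyticAt ℂ (fun q : ℂ × ℂ => A q / ((q.2 - ρ₀) ^ k * B' q)) q := by
      refine (hM q hq).1.1.div
        (((analyticAt_snd.sub analyticAt_const).pow k).mul (hM q hq).1.2) ?_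
      exact mul_ne_zero (pow_ne_zero _ (sub_ne_zero.2 hq2)) (hM q hq).2.1.1
    refine h1.congr ?_
    have h2 : ∀ᶠ x : ℂ × ℂ in 𝓝 q, x.2 ≠ ρ₀ :=
      continuous_snd.continuousAt.eventually_ne hq2
    filter_upwards [hMo.mem_nhds hq, h2] with x hx hx2
    exact (hfq x hx hx2).symm
  -- the bound
  obtain ⟨K, hK⟩ : ∃ K : ℝ, ∀ q ∈ closedBall tp ra ×ˢ closedBall ρ₀ ra,
      ∑ i ∈ Finset.range (D' + 1), ‖β i q‖ ≤ K := by
    have hcpt : IsCompact (closedBall tp ra ×ˢ closedBall ρ₀ ra) :=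
      (isCompact_closedBall tp ra).prod (isCompact_closedBall ρ₀ ra)
    have hco : ContinuousOn (fun q => ∑ i ∈ Finset.range (D' + 1), ‖β i q‖)
        (closedBall tp ra ×ˢ closedBall ρ₀ ra) := by
      apply continuousOn_finsetSum
      intro i hi q hq
      have hqN : q ∈ ball tp r₁ ×ˢ ball ρ₀ r₁ :=
        ⟨closedBall_subset_ball (by linarith) hq.1, closedBall_subset_ball (by linarith) hq.2⟩
      exact (hβN i (by simpa [Nat.lt_succ_iff] using hi) q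
        hqN).continuousAt.norm.continuousWithinAt
    obtain ⟨K, hK⟩ := hcpt.bddAbove_image hco
    exact ⟨K, fun q hq => hK ⟨q, hq, rfl⟩⟩
  by_contra hcon
  have hR0 : (0:ℝ) < ra / 2 := by positivity
  have hRsub : ball tc (ra / 2) ⊆ ball tp ra := by
    intro x hx
    rw [mem_ball] at hx ⊢
    have := dist_triangle x tc tp
    rw [hη] at htctp
    rw [hra] at hx ⊢
    linarith
  -- the slices
  have hslAt : ∀ ρ ∈ ball ρ₀ s, ρ ≠ ρ₀ → ∀ t, (t, ρ) ∈ Ω → SlAt f (t, ρ) := by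
    intro ρ hρ hρ0 t ht
    have hmem : (tc, ρ) ∈ ball tc s ×ˢ ball ρ₀ s := ⟨mem_ball_self hs, hρ⟩
    exact slAt_of_mer (V := {t : ℂ | (t, ρ) ∈ Ω}) (conv_slice hΩN hdown ρ).isPreconnected
      (fun t ht => hf _ ht) (t₁ := tc) (hM _ hmem).2.2.2.2.2.1
      (slAt_of_analyticAt (hfan _ hmem hρ0)) t ht
  have hsl : ∀ ρ ∈ ball ρ₀ s, ρ ∉ Z → ρ ≠ ρ₀ → ∃ w : ℂ → ℂ,
      AnalyticOnNhd ℂ w (ball tc (ra / 2)) ∧ (∀ t ∈ ball tc (ra / 2), ‖w t‖ ≤ K) ∧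
      ∀ᶠ t in 𝓝 tc, (fun q => β D' q * A q / B' q) (t, ρ) = (ρ - ρ₀) ^ k * w t := by
    intro ρ hρ hρZ hρ0
    have hmem : (tc, ρ) ∈ ball tc s ×ˢ ball ρ₀ s := ⟨mem_ball_self hs, hρ⟩
    have hρN : ρ ∈ ball ρ₀ r₁ := (hM _ hmem).2.2.2.2.2.2.2
    have hyS : ∀ t ∈ ball tp r₁, t.im < tc.im + s / 2 → (t, ρ) ∈ Ω := by
      intro t ht hty
      have h1 : (tc + (s / 2 : ℝ) * I, ρ) ∈ ball tc s ×ˢ ball ρ₀ s := by
        refine ⟨?_, hρ⟩
        rw [mem_ball, dist_eq_norm]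
        simp only [add_sub_cancel_left, norm_mul, norm_real, norm_I, mul_one, Real.norm_eq_abs]
        rw [abs_of_pos (by positivity)]
        linarith
      refine hdown _ t ρ (hM _ h1).2.2.2.2.2.1 (ball_subset_ball hr₁r ht) ?_
      simp
      linarith
    have hβs : ∀ i ≤ D', AnalyticOnNhd ℂ (fun x => β i (x, ρ)) (ball tp r₁) := by
      intro i hi x hx
      exact AnalyticAt.fun_comp (g := β i) (f := fun x : ℂ => (x, ρ)) (hβN i hi (x, ρ) ⟨hx, hρN⟩)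
        (analyticAt_id.prod analyticAt_const)
    rcases slice_alt hra0 hab hb1 (tc := tc) (S := {t : ℂ | (t, ρ) ∈ Ω})
      (conv_slice hΩN hdown ρ) (g := sl f ρ)
      (fun t ht => (hslAt ρ hρ hρ0 t ht).meromorphicAt) htcra (y := tc.im + s / 2) (by linarith)
      hyS (D := D') (β := fun i x => β i (x, ρ)) hβs
      ⟨tc, (hM _ hmem).2.2.2.2.2.2.1, hβne _ hmem hρ0⟩
      (fun t ht ht1 => slice_rel (hslAt ρ hρ hρ0 t ht) (hΩ.inter hNo) ⟨ht, ht1, hρN⟩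
        (fun i hi q hq => hβN i hi q hq.2) hrel) (C := K)
      (fun t ht => hK (t, ρ) ⟨ball_subset_closedBall ht,
        ball_subset_closedBall (ball_subset_ball hsra hρ)⟩) with ⟨w, hw, hwK, hwe⟩ |
      ⟨r', t₁, F, hr', hr'b, ht₁, hyt₁, hmer, hFg, hRam⟩
    · refine ⟨w, fun t ht => hw t (hRsub ht), fun t ht => hwK t (hRsub ht), ?_⟩
      have h1 := hwe tc htcra (by linarith)
      have hlρ : Tendsto (fun s : ℂ => (s, ρ)) (𝓝 tc) (𝓝 (tc, ρ)) := by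
        have : Continuous (fun s : ℂ => (s, ρ)) := by fun_prop
        exact this.tendsto tc
      have h2 : (fun t => (fun q => β D' q * A q / B' q) (t, ρ)) =ᶠ[𝓝[≠] tc]
          fun t => (ρ - ρ₀) ^ k * w t := by
        filter_upwards [h1, (hlρ.eventually (hMo.mem_nhds hmem)).filter_mono
          nhdsWithin_le_nhds] with x hx1 hx2
        have h3 : sl f ρ x = f (x, ρ) := sl_of_analyticAt (hfan _ hx2 hρ0)
        rw [hx1, h3, hfq _ hx2 hρ0]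
        have h4 : (ρ - ρ₀) ^ k ≠ 0 := pow_ne_zero _ (sub_ne_zero.2 hρ0)
        have h5 : B' (x, ρ) ≠ 0 := (hM _ hx2).2.1.1
        field_simp
      have hc1 : ContinuousAt (fun t => (fun q => β D' q * A q / B' q) (t, ρ)) tc := by
        have h3 : AnalyticAt ℂ (fun q => β D' q * A q / B' q) (tc, ρ) :=
          ((hβN D' le_rfl _ (hM _ hmem).2.2.2.2.2.2).mul (hM _ hmem).1.1).div
            (hM _ hmem).1.2 (hM _ hmem).2.1.1
        exact ContinuousAt.comp (g := fun q => β D' q * A q / B' q) (f := fun t : ℂ => (t, ρ))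
          h3.continuousAt hlρ
      have hc2 : ContinuousAt (fun t => (ρ - ρ₀) ^ k * w t) tc :=
        continuousAt_const.mul (hw tc htcra).continuousAt
      exact (hc1.eventuallyEq_nhds_iff_eventuallyEq_nhdsNE hc2).1 h2
    · exfalso
      apply hcon
      have hr'r : r' < r := by linarith
      refine ⟨ρ, t₁, r', F, ball_subset_ball hr₁r hρN, hρZ, by linarith, hr'r, ht₁, hmer,
        ⟨tc, ball_subset_ball hr'.le htcra, by linarith, (hM _ hmem).2.2.2.2.2.1⟩, ?_, hRam⟩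
      intro t ht htt htΩ
      exact ⟨hslAt ρ hρ hρ0 t htΩ, hFg t ht htt htΩ⟩
  -- the joint extension
  obtain ⟨G, hG, hGA⟩ := joint_ext hs hR0 (A := fun q => β D' q * A q / B' q) (k := k) (by
    intro q hq
    exact ((hβN D' le_rfl _ (hM _ hq).2.2.2.2.2.2).mul (hM _ hq).1.1).div
      (hM _ hq).1.2 (hM _ hq).2.1.1) hZ hsl
  have hsr₁ : s ≤ r₁ := by linarith
  have hgmer : Mer (fun q => G q / β D' q) (ball tc (ra / 2) ×ˢ ball ρ₀ s) := by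
    intro p hp
    have hpN : p ∈ ball tp r₁ ×ˢ ball ρ₀ r₁ :=
      ⟨ball_subset_ball (by linarith) (hRsub hp.1), ball_subset_ball hsr₁ hp.2⟩
    exact (merAt_of_analyticAt (hG p hp)).div (merAt_of_analyticAt (hβN D' le_rfl p hpN))
  have hkey : ∀ p ∈ ball tc (ra / 2) ×ˢ ball ρ₀ s, p ∈ Ω → p.2 ≠ ρ₀ →
      EqM (fun q => G q / β D' q) f p := by
    rintro ⟨t, ρ⟩ ⟨ht, hρ⟩ hpΩ hρ0
    have hρ0' : ρ ≠ ρ₀ := hρ0
    have hρ' : ρ ∈ ball ρ₀ s := hρ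
    have hmem : (tc, ρ) ∈ ball tc s ×ˢ ball ρ₀ s := ⟨mem_ball_self hs, hρ'⟩
    have hL : IsPreconnected ((ball tc (ra / 2) ∩ {t : ℂ | (t, ρ) ∈ Ω}) ×ˢ ({ρ} : Set ℂ)) :=
      (((convex_ball tc (ra / 2)).inter (conv_slice hΩN hdown ρ)).prod
        (convex_singleton ρ)).isPreconnected
    refine Mer.eqM hL (p := (tc, ρ)) ?_ ?_ ?_ ?_ (t, ρ) ⟨⟨ht, hpΩ⟩, rfl⟩
    · rintro ⟨x, ρ'⟩ ⟨hx, hx'⟩
      have hx'' : ρ' = ρ := hx'
      subst hx''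
      exact hgmer _ ⟨hx.1, hρ'⟩
    · rintro ⟨x, ρ'⟩ ⟨hx, hx'⟩
      have hx'' : ρ' = ρ := hx'
      subst hx''
      exact hf _ hx.2
    · exact ⟨⟨mem_ball_self hR0, (hM _ hmem).2.2.2.2.2.1⟩, rfl⟩
    · apply EqM.of_eventuallyEq
      have h1 : (tc, ρ) ∈ ball tc (min s (ra / 2)) ×ˢ ball ρ₀ s :=
        ⟨mem_ball_self (lt_min hs hR0), hρ'⟩
      have h2 : ∀ᶠ x : ℂ × ℂ in 𝓝 (tc, ρ), x.2 ≠ ρ₀ :=
        continuous_snd.continuousAt.eventually_ne hρ0'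
      filter_upwards [(isOpen_ball.prod isOpen_ball).mem_nhds h1, hMo.mem_nhds hmem, h2]
        with q hq1 hq2 hq3
      have h3 := hGA q hq1
      have h4 : (q.2 - ρ₀) ^ k ≠ 0 := pow_ne_zero _ (sub_ne_zero.2 hq3)
      have h5 : B' q ≠ 0 := (hM _ hq2).2.1.1
      have h6 : β D' q ≠ 0 := hβne q hq2 hq3
      rw [hfq q hq2 hq3]
      have h7 : β D' q * A q / B' q = (q.2 - ρ₀) ^ k * G q := h3
      rw [div_eq_div_iff h6 (mul_ne_zero h4 h5)]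
      rw [div_eq_iff h5] at h7
      linear_combination -h7
  apply hsing
  have hδ : 0 < min (ra / 4) s := lt_min (by positivity) hs
  have hsub : ball tp (min (ra / 4) s) ⊆ ball tc (ra / 2) := by
    intro x hx
    rw [mem_ball] at hx ⊢
    have h1 := dist_triangle x tp tc
    rw [dist_comm tp tc] at h1
    have h2 := lt_of_lt_of_le hx (min_le_left _ _)
    rw [hη] at htctp
    rw [hra] at h2 ⊢
    linarith
  have hsub2 : ball ρ₀ (min (ra / 4) s) ⊆ ball ρ₀ s := ball_subset_ball (min_le_right _ _)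
  refine ⟨min (ra / 4) s, hδ, fun q => G q / β D' q,
    hgmer.mono (prod_mono hsub hsub2), ?_⟩
  rintro p ⟨hp, hpΩ⟩
  by_cases hp2 : p.2 = ρ₀
  · have hop : IsOpen ((ball tc (ra / 2) ×ˢ ball ρ₀ s) ∩ Ω) :=
      (isOpen_ball.prod isOpen_ball).inter hΩ
    obtain ⟨ε, hε, hεs⟩ := Metric.isOpen_iff.1 hop p ⟨⟨hsub hp.1, hsub2 hp.2⟩, hpΩ⟩
    have hp' : (p.1, p.2 + (ε / 2 : ℝ)) ∈ ball p ε := by
      rw [mem_ball, Prod.dist_eq]
      simp only [dist_self, dist_eq_norm, add_sub_cancel_left, norm_real, Real.norm_eq_abs]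
      rw [abs_of_pos (by positivity)]
      exact max_lt hε (by linarith)
    have hne : (p.1, p.2 + ((ε / 2 : ℝ) : ℂ)).2 ≠ ρ₀ := by
      show p.2 + ((ε / 2 : ℝ) : ℂ) ≠ ρ₀
      rw [hp2]
      intro h
      have h1 : ((ε / 2 : ℝ) : ℂ) = 0 := by linear_combination h
      rw [ofReal_eq_zero] at h1
      linarith
    exact Mer.eqM (convex_ball p ε).isPreconnected (fun q hq => hgmer q (hεs hq).1)
      (fun q hq => hf q (hεs hq).2) hp' (hkey _ (hεs hp').1 (hεs hp').2 hne) p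
      (mem_ball_self hε)
  · exact hkey p ⟨hsub hp.1, hsub2 hp.2⟩ hpΩ hp2

end Pool.Agent.MP_ae5b4e_an_NB1
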