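import Mathlib
import Pool.Agent.Lib.MP_ae5b4e_an_NB1.Defs

/-!
# MP_ae5b4e_an, project NB_1: differential polynomials in `κ`, expansions (definitions)
-/

noncomputable section

namespace Pool.Agent.MP_ae5b4e_an_NB1

open Pool.Agent.Lib.Puiseux (rot)

/-- The ring `ℂ[x, κ, κ', κ'', ..]`. -/
abbrev KR := MvPolynomial (Option ℕ) ℂ

/-- the variables of the derivative -/
def dKRv : Option ℕ → KR
  | none => 1
  | some j => MvPolynomial.X (some (j + 1))

/-- the derivation of `KR`, `x' = 1` -/
def dKR : Derivation ℂ KR KR := MvPolynomial.mkDerivation ℂ dKRv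

/-- the values of the variables -/
def evv {A : Type*} (D : A → A) (x κ : A) : Option ℕ → A
  | none => x
  | some j => D^[j] κ

/-- the evaluation `x ↦ x`, `κ^(j) ↦ D^j κ` -/
def evD {A : Type*} [CommRing A] [Algebra ℂ A] (D : A → A) (x κ : A) : KR →ₐ[ℂ] A :=
  MvPolynomial.aeval (evv D x κ)

/-- the restriction of a derivation to a stable subalgebra -/
def resD {A : Type*} [CommRing A] [Algebra ℂ A] (D : Derivation ℂ A A) (S : Subalgebra ℂ A)
    (h : ∀ a ∈ S, D a ∈ S) : Derivation ℂ S S where
  toFun a := ⟨D a.1, h a.1 a.2⟩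
  map_add' a b := by
    apply Subtype.ext
    simp
  map_smul' c a := by
    apply Subtype.ext
    simp
  map_one_eq_zero' := by
    apply Subtype.ext
    simp
  leibniz' a b := by
    apply Subtype.ext
    simp

/-- The elements whose expansion has its coefficients in `Q`. -/
def SS {A B : Type*} [CommRing A] [Algebra ℂ A] [CommRing B] [Algebra ℂ B]
    (E : A →ₐ[ℂ] PowerSeries B) (Q : Subalgebra ℂ B) : Subalgebra ℂ A where
  carrier := {a | ∀ n, PowerSeries.coeff n (E a) ∈ Q}
  mul_mem' := by
    intro a b ha hb n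
    rw [map_mul, PowerSeries.coeff_mul]
    exact Subalgebra.sum_mem _ fun i _ => Subalgebra.mul_mem _ (ha _) (hb _)
  add_mem' := by
    intro a b ha hb n
    rw [map_add, map_add]
    exact Subalgebra.add_mem _ (ha n) (hb n)
  algebraMap_mem' := by
    intro c n
    rw [AlgHom.commutes, PowerSeries.algebraMap_apply, PowerSeries.coeff_C]
    split_ifs
    · exact Subalgebra.algebraMap_mem _ c
    · exact Subalgebra.zero_mem _

/-- the coordinate `e + w ^ N` of the formal place -/
def xL (e : ℂ) (N : ℕ) : LaurentSeries ℂ := HahnSeries.C e + HahnSeries.single (N : ℤ) 1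

end Pool.Agent.MP_ae5b4e_an_NB1
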