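import Mathlib
import Pool.Agent.Lib.MP_ae5b4e_an_NB1.AlgDefs
import Pool.Agent.Lib.MP_ae5b4e_an_LAT.NDSeries

/-!
# MP_ae5b4e_an, project NB_1: expansions and differential polynomials of functions (definitions)
-/

noncomputable section

namespace Pool.Agent.MP_ae5b4e_an_NB1

open Complex Set Filter Topology Metric
open TopologicalSpace (Opens)
open Pool.Agent.MP_ae5b4e_an_NBT
open Pool.Agent.MP_ae5b4e_an_ND (HasPS)

/-- The function `f`, meromorphic at `0`, has the Laurent expansion `ℓ`. -/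
def LExp (f : ℂ → ℂ) (ℓ : LaurentSeries ℂ) : Prop :=
  ∃ (c : ℕ) (g : ℂ → ℂ) (p : PowerSeries ℂ), HasPS g p ∧
    ℓ = HahnSeries.single (-(c : ℤ)) (1:ℂ) * HahnSeries.ofPowerSeries ℤ ℂ p ∧
    ∀ᶠ v in 𝓝[≠] (0:ℂ), f v = g v / v ^ c

/-- the derivation `d/dc` of functions of one variable -/
def d1 (c : ℂ → ℂ) (h : ℂ → ℂ) (t : ℂ) : ℂ := deriv h t / deriv c t

/-- differential polynomials of functions of one variable -/
def ev1 (c κ : ℂ → ℂ) (P : KR) : ℂ → ℂ := evD (d1 c) c κ P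

/-- the derivation `d/dz`, `z = v ^ N`, on functions of `v` -/
def dg (N : ℕ) (h : ℂ → ℂ) (v : ℂ) : ℂ := deriv h v / (N * v ^ (N - 1))

/-- differential polynomials in the coordinate `e + v ^ N` -/
def evg (e : ℂ) (N : ℕ) (g : ℂ → ℂ) (P : KR) : ℂ → ℂ := evD (dg N) (fun v => e + v ^ N) g P

/-- the partial derivatives -/
def pt (f : ℂ × ℂ → ℂ) (q : ℂ × ℂ) : ℂ := fderiv ℂ f q (1, 0)

/-- the partial derivative in `ρ` -/
def pr (f : ℂ × ℂ → ℂ) (q : ℂ × ℂ) : ℂ := fderiv ℂ f q (0, 1)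

/-- differential polynomials of analytic functions of two variables, `d/dC` with `ρ` fixed -/
def evA (C κ : ℂ × ℂ → ℂ) (P : KR) : ℂ × ℂ → ℂ := evD (fun f q => pt f q / pt C q) C κ P

/-- the partial derivative in `ρ` of a meromorphic function -/
def drM (f : ℂ × ℂ → ℂ) (q : ℂ × ℂ) : ℂ := deriv (fun s => nfM f (q.1, s)) q.2

/-- the Jacobian of meromorphic functions -/
def JM (f g : ℂ × ℂ → ℂ) (q : ℂ × ℂ) : ℂ := dtM f q * drM g q - dtM g q * drM f q

/-- differential polynomials of meromorphic functions of two variables -/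
def evM (G K : ℂ × ℂ → ℂ) (P : KR) : ℂ × ℂ → ℂ := evD (fun f q => dtM f q / dtM G q) G K P

/-- the restriction of the functions on `U` to the line `ρ = 0` -/
def rst (U : Opens (ℂ × ℂ)) : RU U →ₐ[ℂ] ({t : ℂ // (t, (0:ℂ)) ∈ U} → ℂ) where
  toFun f t := f.1 ⟨(t.1, 0), t.2⟩
  map_one' := rfl
  map_mul' _ _ := rfl
  map_zero' := rfl
  map_add' _ _ := rfl
  commutes' _ := rfl

end Pool.Agent.MP_ae5b4e_an_NB1
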