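import Mathlib
import Pool.Agent.Lib.MP_ae5b4e_an_NB1.AnDefs

/-!
# MP_ae5b4e_an, project NB_1: a local coordinate for a meromorphic function of one variable
-/

noncomputable section

namespace Pool.Agent.MP_ae5b4e_an_NB1

open Complex Set Filter Topology Metric

/-- an analytic function with a zero is locally a power of a coordinate -/
theorem coordx_root {g : ℂ → ℂ} {t₁ : ℂ} (hg : AnalyticAt ℂ g t₁) (h0 : g t₁ = 0)
    (hne : ¬ ∀ᶠ t in 𝓝 t₁, g t = 0) :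
    ∃ (n : ℕ) (s : ℂ → ℂ), 0 < n ∧ AnalyticAt ℂ s t₁ ∧ s t₁ = 0 ∧ deriv s t₁ ≠ 0 ∧
      ∀ᶠ t in 𝓝 t₁, g t = s t ^ n := by
  obtain ⟨n, u, hu, hu0, hgu⟩ := hg.exists_eventuallyEq_pow_smul_nonzero_iff.mpr hne
  have hn : 0 < n := by
    rcases Nat.eq_zero_or_pos n with rfl | hn
    · have := hgu.self_of_nhds
      rw [h0, pow_zero, one_smul] at this
      exact absurd this.symm hu0
    · exact hn
  obtain ⟨w₀, hw₀⟩ := IsAlgClosed.exists_pow_nat_eq (u t₁) hn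
  have hw0 : w₀ ≠ 0 := by
    rintro rfl
    rw [zero_pow hn.ne'] at hw₀
    exact hu0 hw₀.symm
  have hv : AnalyticAt ℂ (fun t => w₀ * exp (log (u t / u t₁) / n)) t₁ := by
    refine analyticAt_const.mul (AnalyticAt.cexp (AnalyticAt.div_const ?_))
    refine (hu.div_const).clog ?_
    rw [div_self hu0]
    exact one_mem_slitPlane
  set v : ℂ → ℂ := fun t => w₀ * exp (log (u t / u t₁) / n) with hvdef
  have hv1 : v t₁ = w₀ := by
    simp only [hvdef, div_self hu0, log_one, zero_div, exp_zero, mul_one]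
  have hn' : (n : ℂ) ≠ 0 := Nat.cast_ne_zero.mpr hn.ne'
  have hvn : ∀ᶠ t in 𝓝 t₁, v t ^ n = u t := by
    filter_upwards [hu.continuousAt.eventually_ne hu0] with t ht
    simp only [hvdef]
    rw [mul_pow, hw₀, ← exp_nat_mul, mul_div_cancel₀ _ hn', exp_log (div_ne_zero ht hu0),
      mul_div_cancel₀ _ hu0]
  refine ⟨n, fun t => (t - t₁) * v t, hn, (analyticAt_id.sub analyticAt_const).mul hv, ?_, ?_, ?_⟩
  · simp only [sub_self, zero_mul]
  · have h1 : HasDerivAt (fun t => (t - t₁) * v t) (1 * v t₁ + (t₁ - t₁) * deriv v t₁) t₁ :=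
      ((hasDerivAt_id t₁).sub_const t₁).mul hv.differentiableAt.hasDerivAt
    rw [h1.deriv, hv1, sub_self, zero_mul, one_mul, add_zero]
    exact hw0
  · filter_upwards [hgu, hvn] with t h1 h2
    rw [h1, mul_pow, h2, smul_eq_mul]

theorem exists_coordX {x₁ : ℂ → ℂ} {t₁ : ℂ} (hx : MeromorphicAt x₁ t₁)
    (hnc : ∀ a : ℂ, ¬ ∀ᶠ t in 𝓝[≠] t₁, x₁ t = a) :
    ∃ (n : ℕ) (s : ℂ → ℂ) (e : ℂ), 0 < n ∧ AnalyticAt ℂ s t₁ ∧ s t₁ = 0 ∧ deriv s t₁ ≠ 0 ∧
      ((∀ᶠ t in 𝓝[≠] t₁, x₁ t = e + s t ^ n) ∨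
        ((∀ᶠ t in 𝓝[≠] t₁, (x₁ t)⁻¹ = 0 + s t ^ n) ∧ ∀ᶠ t in 𝓝[≠] t₁, x₁ t ≠ 0)) := by
  have htop : meromorphicOrderAt x₁ t₁ ≠ ⊤ := by
    intro h
    exact hnc 0 (meromorphicOrderAt_eq_top_iff.mp h)
  obtain ⟨k, hk⟩ := WithTop.ne_top_iff_exists.mp htop
  obtain ⟨g, hg, hg0, hgx⟩ := (meromorphicOrderAt_eq_int_iff hx).mp hk.symm
  have hgne : ∀ᶠ t in 𝓝[≠] t₁, g t ≠ 0 :=
    (hg.continuousAt.eventually_ne hg0).filter_mono nhdsWithin_le_nhds
  have hne : ∀ᶠ t in 𝓝[≠] t₁, t - t₁ ≠ 0 := by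
    filter_upwards [self_mem_nhdsWithin] with t ht using sub_ne_zero.mpr ht
  rcases le_or_gt 0 k with hk0 | hk0
  · -- finite value
    obtain ⟨m, rfl⟩ := Int.eq_ofNat_of_zero_le hk0
    have hG : AnalyticAt ℂ (fun t => (t - t₁) ^ m * g t) t₁ :=
      ((analyticAt_id.sub analyticAt_const).pow m).mul hg
    set G : ℂ → ℂ := fun t => (t - t₁) ^ m * g t with hGdef
    have hxG : ∀ᶠ t in 𝓝[≠] t₁, x₁ t = G t := by
      filter_upwards [hgx] with t ht
      rw [ht, smul_eq_mul]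
      simp only [hGdef]
      rw [zpow_natCast]
    obtain ⟨n, s, hn, hs, hs0, hds, hsn⟩ := coordx_root (g := fun t => G t - G t₁)
      (hG.sub analyticAt_const) (sub_self _) (by
        intro h
        refine hnc (G t₁) ?_
        filter_upwards [hxG, h.filter_mono nhdsWithin_le_nhds] with t h1 h2
        rw [h1]
        exact sub_eq_zero.mp h2)
    refine ⟨n, s, G t₁, hn, hs, hs0, hds, Or.inl ?_⟩
    filter_upwards [hxG, hsn.filter_mono nhdsWithin_le_nhds] with t h1 h2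
    rw [h1, ← h2]
    ring
  · -- pole
    obtain ⟨m, hm⟩ := Int.eq_ofNat_of_zero_le (show 0 ≤ -k by omega)
    have hm0 : m ≠ 0 := by rintro rfl; simp at hm; omega
    have hk' : k = -(m : ℤ) := by omega
    have hG : AnalyticAt ℂ (fun t => (t - t₁) ^ m * (g t)⁻¹) t₁ :=
      ((analyticAt_id.sub analyticAt_const).pow m).mul (hg.inv hg0)
    have hxG : ∀ᶠ t in 𝓝[≠] t₁, (x₁ t)⁻¹ = (t - t₁) ^ m * (g t)⁻¹ := by
      filter_upwards [hgx] with t ht
      rw [ht, smul_eq_mul, hk', zpow_neg, zpow_natCast, mul_inv, inv_inv]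
    have hxne : ∀ᶠ t in 𝓝[≠] t₁, x₁ t ≠ 0 := by
      filter_upwards [hgx, hgne, hne] with t h1 h2 h3
      rw [h1, smul_eq_mul]
      exact mul_ne_zero (zpow_ne_zero _ h3) h2
    obtain ⟨n, s, hn, hs, hs0, hds, hsn⟩ := coordx_root hG
      (by simp only [sub_self, zero_pow hm0, zero_mul]) (by
        intro h
        obtain ⟨t, h1, h2, h3⟩ := ((h.filter_mono nhdsWithin_le_nhds).and
          (hgne.and hne)).exists
        exact mul_ne_zero (pow_ne_zero _ h3) (inv_ne_zero h2) h1)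
    refine ⟨n, s, 0, hn, hs, hs0, hds, Or.inr ⟨?_, hxne⟩⟩
    filter_upwards [hxG, hsn.filter_mono nhdsWithin_le_nhds] with t h1 h2
    rw [h1, h2, zero_add]

end Pool.Agent.MP_ae5b4e_an_NB1
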