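import Mathlib
import Pool.Agent.Lib.MP_ae5b4e_an_NB1.AlgDefs

/-!
# MP_ae5b4e_an, project NB_1: Taylor expansion along a derivation
-/

noncomputable section

namespace Pool.Agent.MP_ae5b4e_an_NB1

open Pool.Agent.Lib.Puiseux (rot)

variable {A B : Type*} [CommRing A] [Algebra ℂ A] [CommRing B] [Algebra ℂ B]

open Finset in
private theorem exphom_leibniz (D : Derivation ℂ A A) (n : ℕ) (a b : A) :
    D^[n] (a * b) = ∑ ij ∈ antidiagonal n, n.choose ij.1 • (D^[ij.1] a * D^[ij.2] b) := by
  induction n with
  | zero => simp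
  | succ n ih =>
    rw [sum_antidiagonal_choose_succ_nsmul (M := A) (fun i j => D^[i] a * D^[j] b) n]
    simp only [Function.iterate_succ_apply', ih, map_sum, map_nsmul, Derivation.leibniz,
      smul_eq_mul, smul_add, sum_add_distrib, add_right_inj]
    refine sum_congr rfl fun ⟨i, j⟩ hij ↦ ?_
    rw [n.choose_symm_of_eq_add (mem_antidiagonal.1 hij).symm, mul_comm]

private theorem exphom_add (D : Derivation ℂ A A) (n : ℕ) (a b : A) :
    D^[n] (a + b) = D^[n] a + D^[n] b := by
  induction n with
  | zero => rfl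
  | succ n ih => rw [Function.iterate_succ_apply', Function.iterate_succ_apply',
      Function.iterate_succ_apply', ih, map_add]

private theorem exphom_const (D : Derivation ℂ A A) (n : ℕ) (c : ℂ) :
    D^[n] (algebraMap ℂ A c) = if n = 0 then algebraMap ℂ A c else 0 := by
  have h0 : ∀ m : ℕ, D^[m] (0 : A) = 0 := by
    intro m
    induction m with
    | zero => rfl
    | succ m ih => rw [Function.iterate_succ_apply', ih, map_zero]
  cases n with
  | zero => simp
  | succ n =>
    rw [Function.iterate_succ_apply, Derivation.map_algebraMap, h0, if_neg (Nat.succ_ne_zero n)]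

/-- Taylor expansion along a derivation -/
theorem exists_expHom (D : Derivation ℂ A A) (r : A →ₐ[ℂ] B) :
    ∃ E : A →ₐ[ℂ] PowerSeries B, ∀ n a,
      PowerSeries.coeff n (E a) = (n.factorial : ℂ)⁻¹ • r (D^[n] a) := by
  let f : A → PowerSeries B := fun a => PowerSeries.mk fun n =>
    (n.factorial : ℂ)⁻¹ • r (D^[n] a)
  have hf : ∀ n a, PowerSeries.coeff n (f a) = (n.factorial : ℂ)⁻¹ • r (D^[n] a) :=
    fun n a => PowerSeries.coeff_mk n _
  have hc : ∀ c : ℂ, f (algebraMap ℂ A c) = algebraMap ℂ (PowerSeries B) c := by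
    intro c
    ext n
    rw [hf, exphom_const]
    have h1 : algebraMap ℂ (PowerSeries B) c = PowerSeries.C (algebraMap ℂ B c) :=
      PowerSeries.algebraMap_apply
    rw [h1, PowerSeries.coeff_C]
    by_cases hn : n = 0
    · subst hn
      simp
    · rw [if_neg hn, if_neg hn, map_zero, smul_zero]
  have hadd : ∀ a b, f (a + b) = f a + f b := by
    intro a b
    ext n
    rw [map_add, hf, hf, hf, exphom_add, map_add, smul_add]
  have hmul : ∀ a b, f (a * b) = f a * f b := by
    intro a b
    ext n
    rw [PowerSeries.coeff_mul, hf, exphom_leibniz, map_sum, Finset.smul_sum]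
    refine Finset.sum_congr rfl fun ⟨i, j⟩ hij => ?_
    have hij' : i + j = n := Finset.HasAntidiagonal.mem_antidiagonal.1 hij
    rw [hf, hf, map_nsmul, map_mul, smul_mul_smul_comm, ← Nat.cast_smul_eq_nsmul ℂ, smul_smul]
    congr 1
    have h1 : (n.choose i : ℂ) * (i.factorial : ℂ) * (j.factorial : ℂ) = (n.factorial : ℂ) := by
      rw [← hij', Nat.choose_symm_add]
      exact_mod_cast Nat.add_choose_mul_factorial_mul_factorial i j
    have hn : (n.factorial : ℂ) ≠ 0 := Nat.cast_ne_zero.2 n.factorial_ne_zero
    have hi : (i.factorial : ℂ) ≠ 0 := Nat.cast_ne_zero.2 i.factorial_ne_zero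
    have hj : (j.factorial : ℂ) ≠ 0 := Nat.cast_ne_zero.2 j.factorial_ne_zero
    field_simp
    rw [← h1]
  refine ⟨{ toFun := f
            map_one' := ?_
            map_mul' := hmul
            map_zero' := ?_
            map_add' := hadd
            commutes' := hc }, hf⟩
  · have h1 := hc 1
    rwa [map_one, map_one] at h1
  · have h1 := hc 0
    rwa [map_zero, map_zero] at h1

end Pool.Agent.MP_ae5b4e_an_NB1
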