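import Mathlib
import Pool.Agent.Lib.MP_ae5b4e_an_NB1.Defs
import Pool.Agent.Lib.MP_ae5b4e_an_NB1C.Alg41
import Pool.Agent.Lib.MP_ae5b4e_an_NB1C.Fin
import Pool.Agent.Lib.MP_ae5b4e_an_NB1D.ArL
import Pool.Agent.Lib.MP_ae5b4e_an_NB1B.CaseII

/-!
# MP_ae5b4e_an, project NB_1: interface (statements proved elsewhere)

The exact statements of the big parts, proved in NB1B, NB1C, NB1D.
-/

noncomputable section

namespace Pool.Agent.MP_ae5b4e_an_NB1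

open Complex Set Filter Topology Metric
open TopologicalSpace (Opens)
open Pool.Agent.MP_ae5b4e_an_NBT
open Pool.Agent.Lib.Puiseux (rot)

/-- **Formal part of case I** (helper68; uses `Pool.Agent.LAT.alg_tchain`). -/
theorem caseI_formal {S : Type*} [CommRing S] [IsDomain S] [Algebra ℂ S]
    {D1 D2 : Derivation ℂ S S} {M : ℕ} {x K : ℕ → S} {S₀ : Subalgebra ℂ S} {N : ℕ}
    {d : Derivation ℂ (LaurentSeries ℂ) (LaurentSeries ℂ)} {e : ℂ} {κ : LaurentSeries ℂ}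
    {ι : S →ₐ[ℂ] PowerSeries (LaurentSeries ℂ)} {ζ : ℂˣ}
    (hM : 2 ≤ M) (hP : Poly D1 D2 M x K) (hcomm : ∀ a, D1 (D2 a) = D2 (D1 a))
    (hE : Ends D1 D2 M x S₀)
    (halg : ∀ i ≤ M + 2, IsAlgebraic S₀ (x i))
    (hd : IsDz N d) (hι : FExp D1 D2 M x K N d e κ ι) (hζ : ζ ^ N = 1)
    (hinv : RInv D2 S₀ ζ ι) : rot ζ κ = κ :=
  Pool.Agent.MP_ae5b4e_an_NB1C.caseI_formal hM hP hcomm hE halg hd hι hζ hinv

/-- **Lemma (4.1)** (helper68): without formal relations all points are algebraic over the ends. -/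
theorem alg41 {U : Opens (ℂ × ℂ)} (hU : IsPreconnected (U : Set (ℂ × ℂ)))
    (hne : (U : Set (ℂ × ℂ)).Nonempty) {D1 D2 : Derivation ℂ (RU U) (RU U)} {M : ℕ}
    {x K : ℕ → RU U} (hM : 2 ≤ M) (hC : Coord D1 D2 (x 1) (x 1 - x 0)) (hP : Poly D1 D2 M x K)
    (hno : ∀ q ∈ U, ∀ φ : ℕ → PowerSeries ℂ, FRel M (fun j => fn (x (j + 1))) q φ →
      ∀ j ≤ M, φ j = 0)
    {S₀ : Subalgebra ℂ (RU U)} (hE : Ends D1 D2 M x S₀) :
    ∀ i ≤ M + 2, IsAlgebraic S₀ (x i) :=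
  Pool.Agent.MP_ae5b4e_an_NB1C.alg41 hU hne hM hC hP hno hE

/-- **Lemma (2.1)** (helper67): a formal relation at one point of a ball extends. -/
theorem ar_lemma {p₀ : ℂ × ℂ} {r : ℝ} {M : ℕ} (hM : 2 ≤ M) {y : ℕ → ℂ × ℂ → ℂ}
    (hy : ∀ j ≤ M, AnalyticOnNhd ℂ (y j) (ball p₀ r))
    (hJ : ∀ i j, i < j → j ≤ M → ∀ p ∈ ball p₀ r, Jac (y i) (y j) p ≠ 0)
    {q : ℂ × ℂ} (hq : q ∈ ball p₀ r) {φ : ℕ → PowerSeries ℂ} (hφ : FRel M y q φ)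
    (hne : ∃ j ≤ M, φ j ≠ 0) : ARel M y p₀ :=
  Pool.Agent.MP_ae5b4e_an_NB1D.ar_lemma hM hy hJ hq hφ hne

/-- **Case II** (helper63): an analytic relation implies infinite height. -/
theorem caseII {k : ℂ → ℂ} {F : ℂ × ℂ → ℂ} {c : ℝ} (hC : Con k F c) {t : ℝ} {M : ℕ} (_hM : 2 ≤ M)
    (h : ARel M (fun j p => F (p.1 + j * p.2, p.2)) ((t : ℂ), 0)) (y : ℝ) :
    ExtM F c (c / 4) y 0 :=
  Pool.Agent.MP_ae5b4e_an_NB1B.caseII hC h y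

end Pool.Agent.MP_ae5b4e_an_NB1
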