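import Mathlib
import Pool.Agent.Lib.MP_ae5b4e_an_NB1.AlgDefs

/-!
# MP_ae5b4e_an, project NB_1: evaluation of differential polynomials
-/

noncomputable section

namespace Pool.Agent.MP_ae5b4e_an_NB1

open Pool.Agent.Lib.Puiseux (rot)

variable {A B : Type*} [CommRing A] [Algebra ℂ A] [CommRing B] [Algebra ℂ B]

theorem evD_dKR (D : Derivation ℂ A A) {x κ : A} (hx : D x = 1) (P : KR) :
    evD D x κ (dKR P) = D (evD D x κ P) := by
  induction P using MvPolynomial.induction_on with
  | C a =>
    have h1 : dKR (MvPolynomial.C a) = 0 := dKR.map_algebraMap a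
    have h2 : evD D x κ (MvPolynomial.C a) = algebraMap ℂ A a := (evD D x κ).commutes a
    rw [h1, h2, map_zero, D.map_algebraMap]
  | add p q hp hq => rw [map_add, map_add, map_add, map_add, hp, hq]
  | mul_X p i hp =>
    have h3 : evD D x κ (dKR (MvPolynomial.X i)) = D (evD D x κ (MvPolynomial.X i)) := by
      have h4 : evD D x κ (MvPolynomial.X i) = evv D x κ i := MvPolynomial.aeval_X _ _
      have h5 : dKR (MvPolynomial.X i) = dKRv i := MvPolynomial.mkDerivation_X _ _ _
      rw [h4, h5]
      cases i with
      | none =>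
        show evD D x κ 1 = D x
        rw [map_one, hx]
      | some j =>
        show evD D x κ (MvPolynomial.X (some (j + 1))) = D (D^[j] κ)
        have h6 : evD D x κ (MvPolynomial.X (some (j + 1))) = D^[j + 1] κ :=
          MvPolynomial.aeval_X _ _
        rw [h6, Function.iterate_succ_apply']
    rw [Derivation.leibniz, map_add, smul_eq_mul, smul_eq_mul, map_mul, map_mul, map_mul,
      Derivation.leibniz, smul_eq_mul, smul_eq_mul, hp, h3]

end Pool.Agent.MP_ae5b4e_an_NB1
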