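import Mathlib
import Pool.Agent.Lib.MP_ae5b4e_an_NB1.AlgDefs
import Pool.Agent.Lib.MP_ae5b4e_an_NB1.EvD

/-!
# MP_ae5b4e_an, project NB_1: the coefficients of the expansions are differential polynomials
-/

noncomputable section

namespace Pool.Agent.MP_ae5b4e_an_NB1

open Pool.Agent.Lib.Puiseux (rot)

variable {A B : Type*} [CommRing A] [Algebra ℂ A] [CommRing B] [Algebra ℂ B]

/-- Division of power series: the quotient by a series with constant coefficient one has its
coefficients in `Q`. -/
private theorem memss_div (Q : Subalgebra ℂ B) (s y : PowerSeries B)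
    (hs : ∀ n, PowerSeries.coeff n s ∈ Q) (h1 : PowerSeries.coeff 0 s = 1) (N : ℕ)
    (h : ∀ n ≤ N, PowerSeries.coeff n (s * y) ∈ Q) : ∀ n ≤ N, PowerSeries.coeff n y ∈ Q := by
  intro n
  induction n using Nat.strong_induction_on with
  | _ n ih =>
    intro hn
    have h2 := h n hn
    rw [PowerSeries.coeff_mul, Finset.Nat.sum_antidiagonal_eq_sum_range_succ
      (fun i j => PowerSeries.coeff i s * PowerSeries.coeff j y), Finset.sum_range_succ',
      h1, one_mul, Nat.sub_zero] at h2
    have h3 : ∑ k ∈ Finset.range n, PowerSeries.coeff (k + 1) s *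
        PowerSeries.coeff (n - (k + 1)) y ∈ Q := by
      refine Subalgebra.sum_mem _ fun k hk => ?_
      rw [Finset.mem_range] at hk
      exact Subalgebra.mul_mem _ (hs _) (ih _ (by omega) (by omega))
    have h4 := Subalgebra.sub_mem _ h2 h3
    rwa [add_sub_cancel_left] at h4

private theorem memss_iter {D1 D2 : Derivation ℂ A A} (hcomm : ∀ a, D1 (D2 a) = D2 (D1 a))
    (n : ℕ) (a : A) : D2^[n] (D1 a) = D1 (D2^[n] a) := by
  induction n with
  | zero => rfl
  | succ n ih => rw [Function.iterate_succ_apply', Function.iterate_succ_apply', ih, hcomm]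

private theorem memss_iter0 (D : Derivation ℂ A A) (n : ℕ) : D^[n] (0 : A) = 0 := by
  induction n with
  | zero => rfl
  | succ n ih => rw [Function.iterate_succ_apply', ih, map_zero]

private theorem memss_coeff {D2 : Derivation ℂ A A} {r : A →ₐ[ℂ] B} {E : A →ₐ[ℂ] PowerSeries B}
    (hE : ∀ n a, PowerSeries.coeff n (E a) = (n.factorial : ℂ)⁻¹ • r (D2^[n] a))
    (Q : Subalgebra ℂ B) (n : ℕ) (a : A) :
    PowerSeries.coeff n (E a) ∈ Q ↔ r (D2^[n] a) ∈ Q := by
  rw [hE]
  constructor
  · intro h
    have h2 := Subalgebra.smul_mem Q h (n.factorial : ℂ)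
    rwa [smul_smul, mul_inv_cancel₀ (Nat.cast_ne_zero.2 (Nat.factorial_ne_zero n)),
      one_smul] at h2
  · intro h
    exact Subalgebra.smul_mem Q h _

/-- The expansions of the polygon have coefficients which are differential polynomials in `κ`. -/
theorem mem_SS {D1 D2 : Derivation ℂ A A} {M : ℕ} {x K : ℕ → A} (hP : Poly D1 D2 M x K)
    (hcomm : ∀ a, D1 (D2 a) = D2 (D1 a)) {r : A →ₐ[ℂ] B} (hr : ∀ a, r a = 0 → r (D1 a) = 0)
    (hu : r (x 1 - x 0) = 0) (hK : ∀ i ≤ M, r (K i) = r (K 0)) {E : A →ₐ[ℂ] PowerSeries B}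
    (hE : ∀ n a, PowerSeries.coeff n (E a) = (n.factorial : ℂ)⁻¹ • r (D2^[n] a))
    {Q : Subalgebra ℂ B} (hQ : Q = (r.comp (evD D1 (x 1) (K 0))).range) :
    (∀ a ∈ SS E Q, D1 a ∈ SS E Q) ∧ (∀ a ∈ SS E Q, D2 a ∈ SS E Q) ∧
      (∀ i ≤ M + 2, x i ∈ SS E Q) ∧ (∀ i ≤ M, K i ∈ SS E Q) ∧
      ∀ P : KR, evD D1 (x 1) (K 0) P ∈ SS E Q := by
  have hmem : ∀ a, a ∈ SS E Q ↔ ∀ n, PowerSeries.coeff n (E a) ∈ Q := fun a => Iff.rfl
  have hco : ∀ n a, PowerSeries.coeff n (E a) ∈ Q ↔ r (D2^[n] a) ∈ Q := memss_coeff hE Q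
  have hev : ∀ P : KR, r (evD D1 (x 1) (K 0) P) ∈ Q := by
    intro P
    rw [hQ]
    exact ⟨P, rfl⟩
  -- `D1` respects `r a ∈ Q`
  have hD1Q : ∀ a, r a ∈ Q → r (D1 a) ∈ Q := by
    intro a ha
    rw [hQ] at ha
    obtain ⟨P, hP'⟩ := ha
    have h1 : r (a - evD D1 (x 1) (K 0) P) = 0 := by
      rw [map_sub, sub_eq_zero]
      exact hP'.symm
    have h2 := hr _ h1
    rw [map_sub, map_sub, sub_eq_zero, ← evD_dKR D1 hP.x1] at h2
    rw [h2]
    exact hev _
  have hD1c : ∀ n a, PowerSeries.coeff n (E a) ∈ Q → PowerSeries.coeff n (E (D1 a)) ∈ Q := by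
    intro n a ha
    rw [hco] at ha ⊢
    rw [memss_iter hcomm]
    exact hD1Q _ ha
  have hD1 : ∀ a ∈ SS E Q, D1 a ∈ SS E Q := fun a ha n => hD1c n a (ha n)
  have hD2c : ∀ n a, PowerSeries.coeff n (E (D2 a)) ∈ Q ↔
      PowerSeries.coeff (n + 1) (E a) ∈ Q := by
    intro n a
    rw [hco, hco, Function.iterate_succ_apply]
  have hD2 : ∀ a ∈ SS E Q, D2 a ∈ SS E Q := fun a ha n => (hD2c n a).2 (ha (n + 1))
  -- differential polynomials
  have hK0 : D2 (K 0) = 0 := by
    have h1 := hP.wr 0 (Nat.zero_le _)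
    rw [zero_add, hP.x2, hP.x1, mul_zero, mul_one] at h1
    exact h1.symm
  have hv : ∀ i, D2 (evv D1 (x 1) (K 0) i) = 0 := by
    intro i
    cases i with
    | none => exact hP.x2
    | some j =>
      change D2 (D1^[j] (K 0)) = 0
      have h1 := memss_iter (D1 := D2) (D2 := D1) (fun a => (hcomm a).symm) j (K 0)
      rw [← h1, hK0, memss_iter0]
  have hD2ev : ∀ P : KR, D2 (evD D1 (x 1) (K 0) P) = 0 := by
    intro P
    induction P using MvPolynomial.induction_on with
    | C c =>
      rw [evD, MvPolynomial.aeval_C]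
      exact D2.map_algebraMap c
    | add p q hp hq => rw [map_add, map_add, hp, hq, add_zero]
    | mul_X p i hp =>
      have h1 : evD D1 (x 1) (K 0) (MvPolynomial.X i) = evv D1 (x 1) (K 0) i := by
        rw [evD, MvPolynomial.aeval_X]
      rw [map_mul, h1, D2.leibniz, hp, hv, smul_zero, smul_zero, add_zero]
  have hevS : ∀ P : KR, evD D1 (x 1) (K 0) P ∈ SS E Q := by
    intro P n
    rw [hco]
    cases n with
    | zero => exact hev P
    | succ n =>
      rw [Function.iterate_succ_apply, hD2ev, memss_iter0, map_zero]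
      exact Subalgebra.zero_mem _
  have hx1 : x 1 ∈ SS E Q := by
    have h1 := hevS (MvPolynomial.X none)
    rw [evD, MvPolynomial.aeval_X] at h1
    exact h1
  have hK0S : K 0 ∈ SS E Q := by
    have h1 := hevS (MvPolynomial.X (some 0))
    rw [evD, MvPolynomial.aeval_X] at h1
    exact h1
  have huS : x 1 - x 0 ∈ SS E Q := by
    intro n
    rw [hco]
    match n with
    | 0 =>
      change r (x 1 - x 0) ∈ Q
      rw [hu]
      exact Subalgebra.zero_mem _
    | 1 =>
      rw [Function.iterate_one, hP.u2, map_one]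
      exact Subalgebra.one_mem _
    | (n + 2) =>
      rw [Function.iterate_succ_apply, Function.iterate_succ_apply, hP.u2, D2.map_one_eq_zero,
        memss_iter0, map_zero]
      exact Subalgebra.zero_mem _
  have hx0 : x 0 ∈ SS E Q := by
    have h1 := Subalgebra.sub_mem _ hx1 huS
    rwa [sub_sub_cancel] at h1
  -- the differences at `u = 0`
  have hDl : ∀ i ≤ M + 1, r (x (i + 1) - x i) = 0 := by
    intro i
    induction i with
    | zero => intro _; exact hu
    | succ i ih =>
      intro hi
      have h1 := ih (by omega)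
      have h2 := congrArg r (hP.rel i (by omega))
      rw [map_sub r (x (i + 1) - x i), map_mul r (K i * (x (i + 2) - x (i + 1))), h1, zero_sub,
        mul_zero, neg_eq_zero] at h2
      exact h2
  have hrx : ∀ i ≤ M + 1, r (x (i + 1) - x 1) = 0 := by
    intro i
    induction i with
    | zero => intro _; rw [zero_add, sub_self, map_zero]
    | succ i ih =>
      intro hi
      have h1 := ih (by omega)
      have h2 := hDl (i + 1) hi
      rw [← sub_add_sub_cancel _ (x (i + 1)), map_add, h1, h2, add_zero]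
  have hD1x : ∀ i ≤ M + 1, r (D1 (x (i + 1))) = 1 := by
    intro i hi
    have h1 := hr _ (hrx i hi)
    rw [map_sub, map_sub, hP.x1, map_one, sub_eq_zero] at h1
    exact h1
  have hc0 : ∀ a, PowerSeries.coeff 0 (E a) = r a := by
    intro a
    rw [hE]
    simp
  -- the kicks
  have hKs : ∀ i ≤ M, x (i + 1) ∈ SS E Q → K i ∈ SS E Q := by
    intro i hi hx n
    induction n using Nat.strong_induction_on with
    | _ n ih =>
      cases n with
      | zero =>
        rw [hc0, hK i hi]
        have := hK0S 0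
        rwa [hc0] at this
      | succ n =>
        rw [← hD2c]
        have hD1x' := hD1 _ hx
        have hD2x' := hD2 _ hx
        refine memss_div Q (E (D1 (x (i + 1)))) (E (D2 (K i))) hD1x' ?_ n ?_ n le_rfl
        · rw [hc0, hD1x i (by omega)]
        · intro l hl
          have h1 : E (D1 (x (i + 1))) * E (D2 (K i)) =
              E (D1 (K i)) * E (D2 (x (i + 1))) := by
            rw [← map_mul, ← map_mul, mul_comm (D1 (x (i + 1))), hP.wr i hi]
          rw [h1, PowerSeries.coeff_mul]
          refine Subalgebra.sum_mem _ fun p hp => ?_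
          have hp := Finset.HasAntidiagonal.mem_antidiagonal.1 hp
          exact Subalgebra.mul_mem _ (hD1c _ _ (ih p.1 (by omega))) (hD2x' p.2)
  have hmain : ∀ i ≤ M + 1, x i ∈ SS E Q ∧ x (i + 1) ∈ SS E Q := by
    intro i
    induction i with
    | zero => intro _; exact ⟨hx0, hx1⟩
    | succ i ih =>
      intro hi
      obtain ⟨h0, h1⟩ := ih (by omega)
      have hiM : i ≤ M := by omega
      have hKi := hKs i hiM h1
      refine ⟨h1, ?_⟩
      have hd : x (i + 1) - x i ∈ SS E Q := Subalgebra.sub_mem _ h1 h0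
      have hs : 1 + K i * (x (i + 1) - x i) ∈ SS E Q :=
        Subalgebra.add_mem _ (Subalgebra.one_mem _) (Subalgebra.mul_mem _ hKi hd)
      have hy : x (i + 2) - x (i + 1) ∈ SS E Q := by
        intro n
        refine memss_div Q (E (1 + K i * (x (i + 1) - x i))) (E (x (i + 2) - x (i + 1))) hs ?_ n
          ?_ n le_rfl
        · rw [hc0, map_add, map_mul, hDl i (by omega), mul_zero, add_zero, map_one]
        · intro l _
          have h2 : E (1 + K i * (x (i + 1) - x i)) * E (x (i + 2) - x (i + 1)) =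
              E (x (i + 1) - x i) := by
            rw [← map_mul]
            congr 1
            have h3 := hP.rel i hiM
            linear_combination -h3
          rw [h2]
          exact hd l
      have h4 := Subalgebra.add_mem _ hy h1
      rwa [sub_add_cancel] at h4
  refine ⟨hD1, hD2, ?_, ?_, hevS⟩
  · intro i hi
    rcases Nat.lt_or_ge i (M + 2) with h | h
    · exact (hmain i (by omega)).1
    · have : i = (M + 1) + 1 := by omega
      rw [this]
      exact (hmain (M + 1) le_rfl).2
  · intro i hi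
    exact hKs i hi (hmain i (by omega)).2

end Pool.Agent.MP_ae5b4e_an_NB1
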