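import Mathlib
import Pool.Agent.Lib.MP_ae5b4e_an_NB1.MemSS
import Pool.Agent.Lib.MP_ae5b4e_an_NB1.EvD

/-!
# MP_ae5b4e_an, project NB_1: the formal expansion
-/

noncomputable section

namespace Pool.Agent.MP_ae5b4e_an_NB1

open Pool.Agent.Lib.Puiseux (rot)

variable {A B : Type*} [CommRing A] [Algebra ℂ A] [CommRing B] [Algebra ℂ B]

private theorem exists_theta {R S T : Type*} [CommRing R] [CommRing S] [CommRing T] [Algebra ℂ R]
    [Algebra ℂ S] [Algebra ℂ T] (φ : R →ₐ[ℂ] S) (ψ : R →ₐ[ℂ] T)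
    (h : ∀ P, φ P = 0 ↔ ψ P = 0) {Q : Subalgebra ℂ S} (hQ : Q = φ.range) :
    ∃ θ : Q →ₐ[ℂ] T, (∀ (q : Q) (P : R), (q : S) = φ P → θ q = ψ P) ∧
      (∀ q, θ q = 0 → q = 0) := by
  subst hQ
  have h0 : ∀ a ∈ RingHom.ker φ, ψ a = 0 := fun a ha => (h a).mp ha
  have key : ∀ (q : φ.range) (P : R), (q : S) = φ P →
      ((Ideal.Quotient.liftₐ (RingHom.ker φ) ψ h0).comp
        ((Ideal.quotientKerEquivRange φ).symm : φ.range →ₐ[ℂ] R ⧸ RingHom.ker φ)) q = ψ P := by
    intro q P hP
    have h1 : q = Ideal.quotientKerEquivRange φ (Ideal.Quotient.mk (RingHom.ker φ) P) := by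
      apply Subtype.ext
      rw [hP]
      rfl
    rw [h1]
    rw [AlgHom.comp_apply]
    show (Ideal.Quotient.liftₐ (RingHom.ker φ) ψ h0) ((Ideal.quotientKerEquivRange φ).symm
      (Ideal.quotientKerEquivRange φ (Ideal.Quotient.mk (RingHom.ker φ) P))) = ψ P
    rw [AlgEquiv.symm_apply_apply]
    rfl
  refine ⟨_, key, fun q hq => ?_⟩
  obtain ⟨P, hP⟩ := q.2
  rw [key q P hP.symm] at hq
  apply Subtype.ext
  rw [← hP]
  exact (h P).mpr hq

private theorem memQ {E : A →ₐ[ℂ] PowerSeries B} {Q : Subalgebra ℂ B} (a : SS E Q) (n : ℕ) :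
    PowerSeries.coeff n (E a.1) ∈ Q := a.2 n

/-- The coefficientwise image of an expansion. -/
private def iotaHom {E : A →ₐ[ℂ] PowerSeries B} {Q : Subalgebra ℂ B} {T : Type*} [CommRing T]
    [Algebra ℂ T] (θ : Q →ₐ[ℂ] T) : SS E Q →ₐ[ℂ] PowerSeries T where
  toFun a := PowerSeries.mk fun n => θ ⟨PowerSeries.coeff n (E a.1), memQ a n⟩
  map_one' := by
    ext n
    rw [PowerSeries.coeff_mk, PowerSeries.coeff_one]
    by_cases hn : n = 0
    · have h1 : (⟨PowerSeries.coeff n (E ((1 : SS E Q) : A)), memQ 1 n⟩ : Q) = 1 := by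
        apply Subtype.ext
        simp [hn]
      rw [h1, map_one, if_pos hn]
    · have h1 : (⟨PowerSeries.coeff n (E ((1 : SS E Q) : A)), memQ 1 n⟩ : Q) = 0 := by
        apply Subtype.ext
        simp [PowerSeries.coeff_one, hn]
      rw [h1, map_zero, if_neg hn]
  map_mul' a b := by
    ext n
    rw [PowerSeries.coeff_mk, PowerSeries.coeff_mul]
    simp only [PowerSeries.coeff_mk]
    simp only [← map_mul]
    rw [← map_sum]
    refine congrArg θ ?_
    apply Subtype.ext
    rw [AddSubmonoidClass.coe_finsetSum]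
    show PowerSeries.coeff n (E (a.1 * b.1)) = _
    rw [map_mul, PowerSeries.coeff_mul]
    rfl
  map_zero' := by
    ext n
    rw [PowerSeries.coeff_mk, map_zero]
    have h1 : (⟨PowerSeries.coeff n (E ((0 : SS E Q) : A)), memQ 0 n⟩ : Q) = 0 := by
      apply Subtype.ext
      simp
    rw [h1, map_zero]
  map_add' a b := by
    ext n
    rw [PowerSeries.coeff_mk, map_add, PowerSeries.coeff_mk, PowerSeries.coeff_mk, ← map_add]
    refine congrArg θ ?_
    apply Subtype.ext
    show PowerSeries.coeff n (E (a.1 + b.1)) = _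
    rw [map_add, map_add]
    rfl
  commutes' c := by
    ext n
    rw [PowerSeries.coeff_mk, PowerSeries.algebraMap_apply, PowerSeries.coeff_C]
    by_cases hn : n = 0
    · have h1 : (⟨PowerSeries.coeff n (E ((algebraMap ℂ (SS E Q) c : SS E Q) : A)),
          memQ (algebraMap ℂ (SS E Q) c) n⟩ : Q) = algebraMap ℂ Q c := by
        apply Subtype.ext
        show PowerSeries.coeff n (E (algebraMap ℂ A c)) = algebraMap ℂ B c
        rw [AlgHom.commutes, PowerSeries.algebraMap_apply, PowerSeries.coeff_C, if_pos hn]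
      rw [h1, AlgHom.commutes, if_pos hn]
    · have h1 : (⟨PowerSeries.coeff n (E ((algebraMap ℂ (SS E Q) c : SS E Q) : A)),
          memQ (algebraMap ℂ (SS E Q) c) n⟩ : Q) = 0 := by
        apply Subtype.ext
        show PowerSeries.coeff n (E (algebraMap ℂ A c)) = 0
        rw [AlgHom.commutes, PowerSeries.algebraMap_apply, PowerSeries.coeff_C, if_neg hn]
      rw [h1, map_zero, if_neg hn]

private theorem coeff_iotaHom {E : A →ₐ[ℂ] PowerSeries B} {Q : Subalgebra ℂ B} {T : Type*}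
    [CommRing T] [Algebra ℂ T] (θ : Q →ₐ[ℂ] T) (a : SS E Q) (n : ℕ) :
    PowerSeries.coeff n (iotaHom θ a) = θ ⟨PowerSeries.coeff n (E a.1), memQ a n⟩ :=
  PowerSeries.coeff_mk n fun n => θ ⟨PowerSeries.coeff n (E a.1), memQ a n⟩

private theorem iter_comm {D1 D2 : Derivation ℂ A A} (hcomm : ∀ a, D1 (D2 a) = D2 (D1 a)) (n : ℕ)
    (a : A) : D2^[n] (D1 a) = D1 (D2^[n] a) := by
  induction n generalizing a with
  | zero => rfl
  | succ n ih => rw [Function.iterate_succ_apply, Function.iterate_succ_apply, ← hcomm, ih]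

private theorem iter_comm' {D1 D2 : Derivation ℂ A A} (hcomm : ∀ a, D1 (D2 a) = D2 (D1 a)) (n : ℕ)
    (a : A) : D2 (D1^[n] a) = D1^[n] (D2 a) := by
  induction n generalizing a with
  | zero => rfl
  | succ n ih => rw [Function.iterate_succ_apply, Function.iterate_succ_apply, ih, hcomm]

private theorem iter_zero (D : Derivation ℂ A A) (n : ℕ) : D^[n] 0 = 0 := by
  induction n with
  | zero => rfl
  | succ n ih => rw [Function.iterate_succ_apply, map_zero, ih]

private theorem D2_ev {D1 D2 : Derivation ℂ A A} {M : ℕ} {x K : ℕ → A} (hP : Poly D1 D2 M x K)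
    (hcomm : ∀ a, D1 (D2 a) = D2 (D1 a)) (P : KR) : D2 (evD D1 (x 1) (K 0) P) = 0 := by
  have hK0 : D2 (K 0) = 0 := by
    have h := hP.wr 0 (Nat.zero_le _)
    rw [zero_add, hP.x2, hP.x1, mul_zero, mul_one] at h
    exact h.symm
  have hv : ∀ i : Option ℕ, D2 (evv D1 (x 1) (K 0) i) = 0 := by
    intro i
    cases i with
    | none => exact hP.x2
    | some j =>
      show D2 (D1^[j] (K 0)) = 0
      rw [iter_comm' hcomm, hK0, iter_zero]
  unfold evD
  induction P using MvPolynomial.induction_on with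
  | C c => rw [MvPolynomial.aeval_C, Derivation.map_algebraMap]
  | add p q hp hq => rw [map_add, map_add, hp, hq, add_zero]
  | mul_X p i hp =>
    rw [map_mul, MvPolynomial.aeval_X, Derivation.leibniz, hp, hv i, smul_zero, smul_zero,
      add_zero]

theorem iota_d_xL {N : ℕ} {d : Derivation ℂ (LaurentSeries ℂ) (LaurentSeries ℂ)}
    (hd : IsDz N d) (e : ℂ) : d (xL e N) = 1 := by
  have hN : (N : ℂ) ≠ 0 := by
    have := hd.pos
    exact_mod_cast this.ne'
  have hN' : (N : ℤ) ≠ 0 := by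
    have := hd.pos
    exact_mod_cast this.ne'
  ext n
  rw [hd.coeff]
  unfold xL
  rw [HahnSeries.coeff_add, HahnSeries.C_apply, HahnSeries.coeff_single, HahnSeries.coeff_single,
    HahnSeries.coeff_one]
  by_cases hn : n = 0
  · subst hn
    rw [if_neg (by omega : ¬ (0 : ℤ) + (N : ℤ) = 0), if_pos (zero_add _), if_pos rfl]
    simp [hN]
  · rw [if_neg hn, if_neg (by omega : ¬ n + (N : ℤ) = N)]
    by_cases hz : n + (N : ℤ) = 0
    · rw [if_pos hz]
      have h2 : ((n : ℂ) + N) = 0 := by exact_mod_cast hz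
      rw [h2, zero_div, zero_mul]
    · rw [if_neg hz, add_zero, mul_zero]

/-- A derivation from the product rule. -/
def iota_mkD {L : Type*} [CommRing L] [Algebra ℂ L] (f : L → L)
    (hadd : ∀ a b, f (a + b) = f a + f b) (hmul : ∀ a b, f (a * b) = a * f b + b * f a)
    (halg : ∀ c : ℂ, f (algebraMap ℂ L c) = 0) : Derivation ℂ L L where
  toFun := f
  map_add' := hadd
  map_smul' c a := by
    rw [Algebra.smul_def, hmul, halg, mul_zero, add_zero, RingHom.id_apply, Algebra.smul_def]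
  map_one_eq_zero' := by
    show f 1 = 0
    have h := halg 1
    rwa [map_one] at h
  leibniz' a b := hmul a b

/-- `evD_dKR` for a map with the rules of a derivation. -/
theorem iota_evD_gen {L : Type*} [CommRing L] [Algebra ℂ L] (f : L → L)
    (hadd : ∀ a b, f (a + b) = f a + f b) (hmul : ∀ a b, f (a * b) = a * f b + b * f a)
    (halg : ∀ c : ℂ, f (algebraMap ℂ L c) = 0) {x κ : L} (hx : f x = 1) (P : KR) :
    evD f x κ (dKR P) = f (evD f x κ P) :=
  evD_dKR (iota_mkD f hadd hmul halg) hx P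

/-- `evD_dKR` over the Laurent series (there the module structure of `Derivation` is the one of
`HahnSeries`, which is not definitionally `Algebra.toModule`). -/
theorem iota_evD_Laurent (d : Derivation ℂ (LaurentSeries ℂ) (LaurentSeries ℂ))
    {x κ : LaurentSeries ℂ} (hx : d x = 1) (P : KR) : evD d x κ (dKR P) = d (evD d x κ P) :=
  iota_evD_gen d (fun a b => map_add d a b) (fun a b => d.leibniz a b)
    (fun c => d.map_algebraMap c) hx P

/-- The formal expansion. -/
theorem exists_iota {D1 D2 : Derivation ℂ A A} {M : ℕ} {x K : ℕ → A} (hP : Poly D1 D2 M x K)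
    (hcomm : ∀ a, D1 (D2 a) = D2 (D1 a)) {r : A →ₐ[ℂ] B} (hr : ∀ a, r a = 0 → r (D1 a) = 0)
    (hu : r (x 1 - x 0) = 0) (hK : ∀ i ≤ M, r (K i) = r (K 0))
    (hinj : ∀ a, (∀ n, r (D2^[n] a) = 0) → a = 0) {E : A →ₐ[ℂ] PowerSeries B}
    (hE : ∀ n a, PowerSeries.coeff n (E a) = (n.factorial : ℂ)⁻¹ • r (D2^[n] a))
    {Q : Subalgebra ℂ B} (hQ : Q = (r.comp (evD D1 (x 1) (K 0))).range)
    {N : ℕ} {d : Derivation ℂ (LaurentSeries ℂ) (LaurentSeries ℂ)} {e : ℂ}
    {κ : LaurentSeries ℂ} (hd : IsDz N d)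
    (hker : ∀ P : KR, r (evD D1 (x 1) (K 0) P) = 0 ↔ evD d (xL e N) κ P = 0)
    (h1 : ∀ a ∈ SS E Q, D1 a ∈ SS E Q) (h2 : ∀ a ∈ SS E Q, D2 a ∈ SS E Q)
    {x' K' : ℕ → SS E Q} (hx' : ∀ i ≤ M + 2, (x' i : A) = x i) (hK' : ∀ i ≤ M, (K' i : A) = K i) :
    ∃ ι : SS E Q →ₐ[ℂ] PowerSeries (LaurentSeries ℂ),
      FExp (resD D1 (SS E Q) h1) (resD D2 (SS E Q) h2) M x' K' N d e κ ι ∧
      (∀ (a : SS E Q) (n : ℕ) (P : KR),
        PowerSeries.coeff n (E a) = r (evD D1 (x 1) (K 0) P) →
          PowerSeries.coeff n (ι a) = evD d (xL e N) κ P) ∧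
      ∀ (P : KR) (a : SS E Q), (a : A) = evD D1 (x 1) (K 0) P →
        ι a = PowerSeries.C (evD d (xL e N) κ P) := by
  obtain ⟨θ, hθ, hθ0⟩ := exists_theta (r.comp (evD D1 (x 1) (K 0))) (evD d (xL e N) κ) hker hQ
  have hfac : ∀ n : ℕ, (n.factorial : ℂ) ≠ 0 := fun n => by exact_mod_cast n.factorial_ne_zero
  -- the second claim
  have hc : ∀ (a : SS E Q) (n : ℕ) (P : KR),
      PowerSeries.coeff n (E a) = r (evD D1 (x 1) (K 0) P) →
        PowerSeries.coeff n (iotaHom θ a) = evD d (xL e N) κ P := by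
    intro a n P h
    rw [coeff_iotaHom]
    exact hθ _ P h
  -- coefficients which vanish
  have hz : ∀ (a : SS E Q) (n : ℕ), r (D2^[n] a.1) = 0 →
      PowerSeries.coeff n (iotaHom θ a) = 0 := by
    intro a n h
    rw [hc a n 0 (by rw [hE, h, smul_zero, map_zero, map_zero]), map_zero]
  -- the last claim
  have hl : ∀ (P : KR) (a : SS E Q), (a : A) = evD D1 (x 1) (K 0) P →
      iotaHom θ a = PowerSeries.C (evD d (xL e N) κ P) := by
    intro P a h
    ext1 n
    rw [PowerSeries.coeff_C]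
    by_cases hn : n = 0
    · subst hn
      rw [if_pos rfl]
      refine hc a 0 P ?_
      rw [hE, Nat.factorial_zero, Nat.cast_one, inv_one, one_smul, Function.iterate_zero_apply, h]
    · rw [if_neg hn]
      obtain ⟨k, rfl⟩ := Nat.exists_eq_succ_of_ne_zero hn
      refine hz a _ ?_
      rw [Function.iterate_succ_apply, h, D2_ev hP hcomm, iter_zero, map_zero]
  refine ⟨iotaHom θ, ⟨?_, ?_, ?_, ?_, ?_, ?_⟩, hc, hl⟩
  · -- injectivity
    rw [injective_iff_map_eq_zero]
    intro a ha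
    apply Subtype.ext
    refine hinj a.1 fun n => ?_
    have h3 : θ ⟨PowerSeries.coeff n (E a.1), memQ a n⟩ = 0 := by
      rw [← coeff_iotaHom, ha, map_zero]
    have h4 : PowerSeries.coeff n (E a.1) = 0 := congrArg Subtype.val (hθ0 _ h3)
    rw [hE] at h4
    have h5 : (n.factorial : ℂ) • ((n.factorial : ℂ)⁻¹ • r (D2^[n] a.1)) = 0 := by
      rw [h4, smul_zero]
    rwa [smul_smul, mul_inv_cancel₀ (hfac n), one_smul] at h5
  · -- the first derivation
    intro a n
    obtain ⟨P, hP'⟩ := (le_of_eq hQ) (memQ a n)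
    have hP1 : r (evD D1 (x 1) (K 0) P) = PowerSeries.coeff n (E a.1) := hP'
    rw [hc a n P hP1.symm, ← iota_evD_Laurent d (iota_d_xL hd e)]
    refine hc _ n _ ?_
    show PowerSeries.coeff n (E (D1 a.1)) = _
    rw [evD_dKR D1 hP.x1, hE, iter_comm hcomm]
    have h3 : r ((n.factorial : ℂ)⁻¹ • D2^[n] a.1 - evD D1 (x 1) (K 0) P) = 0 := by
      rw [map_sub, map_smul, ← hE, hP1, sub_self]
    have h4 := hr _ h3
    rw [map_sub, map_sub, Derivation.map_smul, map_smul, sub_eq_zero] at h4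
    exact h4
  · -- the second derivation
    intro a n
    rw [coeff_iotaHom, coeff_iotaHom]
    have h3 : (⟨PowerSeries.coeff n (E ((resD D2 (SS E Q) h2 a : SS E Q) : A)),
        memQ (resD D2 (SS E Q) h2 a) n⟩ : Q) = algebraMap ℂ Q ((n : ℂ) + 1) *
        ⟨PowerSeries.coeff (n + 1) (E a.1), memQ a (n + 1)⟩ := by
      apply Subtype.ext
      show PowerSeries.coeff n (E (D2 a.1)) =
        algebraMap ℂ B ((n : ℂ) + 1) * PowerSeries.coeff (n + 1) (E a.1)
      rw [← Algebra.smul_def, hE, hE, smul_smul, Function.iterate_succ_apply]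
      congr 1
      rw [Nat.factorial_succ]
      have hn1 : ((n : ℂ) + 1) ≠ 0 := by exact_mod_cast Nat.succ_ne_zero n
      push_cast
      field_simp [hfac n, hn1]
    rw [h3, map_mul, AlgHom.commutes, map_add, map_natCast, map_one]
  · -- the point
    have h3 : (x' 1 : A) = evD D1 (x 1) (K 0) (MvPolynomial.X none) := by
      rw [hx' 1 (by omega)]
      unfold evD
      rw [MvPolynomial.aeval_X]
      rfl
    rw [hl (MvPolynomial.X none) (x' 1) h3]
    unfold evD
    rw [MvPolynomial.aeval_X]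
    rfl
  · -- the coordinate
    have hco : ((x' 1 - x' 0 : SS E Q) : A) = x 1 - x 0 := by
      rw [← hx' 1 (by omega), ← hx' 0 (by omega)]
      rfl
    ext1 n
    rw [PowerSeries.coeff_X]
    rcases n with _ | _ | n
    · rw [if_neg (by omega)]
      refine hz _ 0 ?_
      rw [Function.iterate_zero_apply, hco, hu]
    · rw [if_pos rfl]
      have h3 := hc (x' 1 - x' 0) 1 1 (by
        rw [hE, hco]
        show ((Nat.factorial 1 : ℕ) : ℂ)⁻¹ • r (D2 (x 1 - x 0)) = _
        rw [hP.u2, map_one, map_one, map_one, Nat.factorial_one, Nat.cast_one, inv_one, one_smul])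
      rw [map_one] at h3
      exact h3
    · rw [if_neg (by omega)]
      refine hz _ (n + 2) ?_
      rw [hco, Function.iterate_succ_apply, Function.iterate_succ_apply, hP.u2,
        Derivation.map_one_eq_zero, iter_zero, map_zero]
  · -- the kicks
    intro i hi
    rw [← PowerSeries.coeff_zero_eq_constantCoeff_apply]
    rw [hc (K' i) 0 (MvPolynomial.X (some 0))]
    · unfold evD
      rw [MvPolynomial.aeval_X]
      rfl
    · rw [hE, hK' i hi, Nat.factorial_zero, Nat.cast_one, inv_one, one_smul,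
        Function.iterate_zero_apply, hK i hi]
      unfold evD
      rw [MvPolynomial.aeval_X]
      rfl

end Pool.Agent.MP_ae5b4e_an_NB1
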