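import Mathlib
import Pool.Agent.Lib.MP_ae5b4e_an_NB1.Iota
import Pool.Agent.Lib.MP_ae5b4e_an_NB1.ExpHom
import Pool.Agent.Lib.MP_ae5b4e_an_NB1.Ifc

/-!
# MP_ae5b4e_an, project NB_1: the algebraic part of case I
-/

noncomputable section

namespace Pool.Agent.MP_ae5b4e_an_NB1

open Pool.Agent.Lib.Puiseux (rot)

variable {A B : Type*} [CommRing A] [Algebra ℂ A] [CommRing B] [Algebra ℂ B]

private lemma coeff_low {L : Type*} [Field L] {f h : PowerSeries L} {l m : ℕ}
    (hf : ∀ i < l, PowerSeries.coeff i f = 0) (hh : ∀ i < m, PowerSeries.coeff i h = 0) :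
    PowerSeries.coeff (l + m) (f * h) = PowerSeries.coeff l f * PowerSeries.coeff m h := by
  rw [PowerSeries.coeff_mul]
  refine Finset.sum_eq_single (l, m) ?_ ?_
  · intro b hb hne
    have hb' := Finset.HasAntidiagonal.mem_antidiagonal.1 hb
    rcases lt_or_ge b.1 l with h1 | h1
    · rw [hf _ h1, zero_mul]
    · rcases lt_or_ge b.2 m with h2 | h2
      · rw [hh _ h2, mul_zero]
      · exact absurd (Prod.ext (by omega) (by omega)) hne
  · intro hn
    exact absurd (Finset.HasAntidiagonal.mem_antidiagonal.2 (show l + m = l + m from rfl)) hn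

/-- two power series with the same logarithmic derivative are proportional -/
private lemma const_ratio {L : Type*} [Field L] [CharZero L] {f h f' h' : PowerSeries L}
    (hf : ∀ n, PowerSeries.coeff n f' = ((n : L) + 1) * PowerSeries.coeff (n + 1) f)
    (hh : ∀ n, PowerSeries.coeff n h' = ((n : L) + 1) * PowerSeries.coeff (n + 1) h)
    (h0 : h ≠ 0) (he : f' * h = f * h') :
    ∃ m, PowerSeries.coeff m h ≠ 0 ∧
      f = PowerSeries.C (PowerSeries.coeff m f / PowerSeries.coeff m h) * h := by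
  classical
  have hex : ∃ m, PowerSeries.coeff m h ≠ 0 := by
    by_contra hn
    push Not at hn
    exact h0 (PowerSeries.ext (by simpa using hn))
  have hm := Nat.find_spec hex
  have hmin : ∀ i < Nat.find hex, PowerSeries.coeff i h = 0 := by
    intro i hi
    simpa using Nat.find_min hex hi
  generalize Nat.find hex = m at hm hmin
  refine ⟨m, hm, ?_⟩
  set g := PowerSeries.coeff m f / PowerSeries.coeff m h with hg
  have hXf : ∀ n, PowerSeries.coeff n (PowerSeries.X * f') = (n : L) * PowerSeries.coeff n f := by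
    intro n
    cases n with
    | zero => simp
    | succ n =>
      rw [PowerSeries.coeff_succ_X_mul, hf]
      push_cast
      ring
  have hXh : ∀ n, PowerSeries.coeff n (PowerSeries.X * h') = (n : L) * PowerSeries.coeff n h := by
    intro n
    cases n with
    | zero => simp
    | succ n =>
      rw [PowerSeries.coeff_succ_X_mul, hh]
      push_cast
      ring
  by_contra hne
  have hk0 : f - PowerSeries.C g * h ≠ 0 := sub_ne_zero.2 hne
  set k := f - PowerSeries.C g * h with hk
  set K := PowerSeries.X * f' - PowerSeries.C g * (PowerSeries.X * h') with hK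
  have hKk : K * h = k * (PowerSeries.X * h') := by
    rw [hK, hk]
    have := congrArg (fun z => PowerSeries.X * z) he
    linear_combination this
  have hKc : ∀ n, PowerSeries.coeff n K = (n : L) * PowerSeries.coeff n k := by
    intro n
    rw [hK, hk, map_sub, map_sub, PowerSeries.coeff_C_mul, PowerSeries.coeff_C_mul, hXf, hXh]
    ring
  have hkm : PowerSeries.coeff m k = 0 := by
    rw [hk, map_sub, PowerSeries.coeff_C_mul, hg, div_mul_cancel₀ _ hm, sub_self]
  have hex2 : ∃ l, PowerSeries.coeff l k ≠ 0 := by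
    by_contra hn
    push Not at hn
    exact hk0 (PowerSeries.ext (by simpa using hn))
  have hl := Nat.find_spec hex2
  have hlmin : ∀ i < Nat.find hex2, PowerSeries.coeff i k = 0 := by
    intro i hi
    simpa using Nat.find_min hex2 hi
  generalize Nat.find hex2 = l at hl hlmin
  have h1 := congrArg (PowerSeries.coeff (l + m)) hKk
  rw [coeff_low (fun i hi => by rw [hKc, hlmin i hi, mul_zero]) hmin,
    coeff_low hlmin (fun i hi => by rw [hXh, hmin i hi, mul_zero]), hKc, hXh] at h1
  have h2 : ((l : L) - m) * (PowerSeries.coeff l k * PowerSeries.coeff m h) = 0 := by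
    linear_combination h1
  rcases mul_eq_zero.1 h2 with h3 | h3
  · have : (l : L) = m := sub_eq_zero.1 h3
    have hlm : l = m := by exact_mod_cast this
    rw [hlm] at hl
    exact hl hkm
  · rcases mul_eq_zero.1 h3 with h4 | h4
    · exact hl h4
    · exact hm h4

/-- transfer of algebraicity to a subring -/
private lemma alg_transfer {S₀ S : Subalgebra ℂ A} (hle : S₀ ≤ S) {y : S}
    (h : IsAlgebraic S₀ (y : A)) : IsAlgebraic (S₀.comap S.val) y := by
  obtain ⟨p, hp, hp0⟩ := h
  let φ : S₀ →+* (S₀.comap S.val) :=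
    { toFun := fun a => ⟨⟨a.1, hle a.2⟩, a.2⟩
      map_one' := rfl
      map_mul' := fun _ _ => rfl
      map_zero' := rfl
      map_add' := fun _ _ => rfl }
  have hφ : Function.Injective φ := by
    intro a b hab
    have := congrArg (fun z : (S₀.comap S.val) => ((z : S) : A)) hab
    exact Subtype.ext this
  refine ⟨p.map φ, (Polynomial.map_ne_zero_iff hφ).2 hp, ?_⟩
  apply Subtype.ext
  rw [Polynomial.aeval_def, Polynomial.eval₂_map]
  have h1 : (S.val : S →+* A) (Polynomial.eval₂ ((algebraMap (S₀.comap S.val) S).comp φ) y p) =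
      Polynomial.eval₂ ((S.val : S →+* A).comp ((algebraMap (S₀.comap S.val) S).comp φ))
        ((S.val : S →+* A) y) p := Polynomial.hom_eval₂ _ _ _ _
  have h2 : ((S.val : S →+* A).comp ((algebraMap (S₀.comap S.val) S).comp φ)) =
      algebraMap S₀ A := rfl
  rw [h2] at h1
  rw [Polynomial.aeval_def] at hp0
  exact h1.trans hp0

/-- **The algebraic part of case I.** -/
theorem caseI_alg [IsDomain A] {D1 D2 : Derivation ℂ A A} {M : ℕ} {x K : ℕ → A} (hM : 2 ≤ M)
    (hP : Poly D1 D2 M x K)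
    (hcomm : ∀ a, D1 (D2 a) = D2 (D1 a)) {r : A →ₐ[ℂ] B} (hr : ∀ a, r a = 0 → r (D1 a) = 0)
    (hu : r (x 1 - x 0) = 0) (hK : ∀ i ≤ M, r (K i) = r (K 0))
    (hinj : ∀ a, (∀ n, r (D2^[n] a) = 0) → a = 0)
    {S₀ : Subalgebra ℂ A} (hE : Ends D1 D2 M x S₀)
    (hmin : ∀ S : Subalgebra ℂ A, Ends D1 D2 M x S → S₀ ≤ S)
    (halg : ∀ i ≤ M + 2, IsAlgebraic S₀ (x i))
    {N : ℕ} {d : Derivation ℂ (LaurentSeries ℂ) (LaurentSeries ℂ)} {e : ℂ}
    {κ : LaurentSeries ℂ} {ζ : ℂˣ} (hd : IsDz N d) (hζ : ζ ^ N = 1)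
    (hker : ∀ P : KR, r (evD D1 (x 1) (K 0) P) = 0 ↔ evD d (xL e N) κ P = 0)
    (hinv : ∀ a ∈ S₀, ∀ b ∈ S₀, b ≠ 0 → D2 a * b = a * D2 b → ∀ P R : KR,
      a * evD D1 (x 1) (K 0) R = b * evD D1 (x 1) (K 0) P → evD d (xL e N) κ R ≠ 0 →
      rot ζ (evD d (xL e N) κ P / evD d (xL e N) κ R) =
        evD d (xL e N) κ P / evD d (xL e N) κ R) :
    rot ζ κ = κ := by
  classical
  obtain ⟨E, hEx⟩ := exists_expHom D2 r
  obtain ⟨Q, hQ⟩ : ∃ Q : Subalgebra ℂ B, Q = (r.comp (evD D1 (x 1) (K 0))).range := ⟨_, rfl⟩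
  obtain ⟨h1, h2, hx, hKm, hev⟩ := mem_SS hP hcomm hr hu hK hEx hQ
  let x' : ℕ → SS E Q := fun i => if h : i ≤ M + 2 then ⟨x i, hx i h⟩ else 0
  let K' : ℕ → SS E Q := fun i => if h : i ≤ M then ⟨K i, hKm i h⟩ else 0
  have hx' : ∀ i ≤ M + 2, (x' i : A) = x i := by
    intro i hi
    simp only [x', dif_pos hi]
  have hK' : ∀ i ≤ M, (K' i : A) = K i := by
    intro i hi
    simp only [K', dif_pos hi]
  obtain ⟨ι, hF, hco, hC⟩ := exists_iota hP hcomm hr hu hK hinj hEx hQ hd hker h1 h2 hx' hK'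
  have hD1 : ∀ a : SS E Q, ((resD D1 (SS E Q) h1 a : SS E Q) : A) = D1 a := fun _ => rfl
  have hD2 : ∀ a : SS E Q, ((resD D2 (SS E Q) h2 a : SS E Q) : A) = D2 a := fun _ => rfl
  have hEnds : Ends D1 D2 M x (SS E Q) :=
    ⟨h1, h2, hx 0 (by omega), hx 1 (by omega), hx (M + 1) (by omega), hx (M + 2) le_rfl⟩
  have hle : S₀ ≤ SS E Q := hmin _ hEnds
  have hP' : Poly (resD D1 (SS E Q) h1) (resD D2 (SS E Q) h2) M x' K' := by
    refine ⟨?_, ?_, ?_, ?_, ?_, ?_, ?_⟩
    · intro i hi he
      have := congrArg (fun z : SS E Q => (z : A)) he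
      beta_reduce at this
      rw [hx' _ (by omega), hx' _ (by omega)] at this
      exact hP.ne i hi this
    · intro i hi
      apply Subtype.ext
      push_cast
      rw [hx' _ (by omega), hx' _ (by omega), hx' _ (by omega), hK' _ hi]
      exact hP.rel i hi
    · intro i hi
      apply Subtype.ext
      push_cast
      rw [hD1, hD2, hD2, hD1, hx' _ (by omega), hK' _ hi]
      exact hP.wr i hi
    · apply Subtype.ext
      rw [hD1, hx' _ (by omega), hP.x1]
      rfl
    · apply Subtype.ext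
      rw [hD2, hx' _ (by omega), hP.x2]
      rfl
    · apply Subtype.ext
      rw [hD1]
      push_cast
      rw [hx' _ (by omega), hx' _ (by omega), hP.u1]
    · apply Subtype.ext
      rw [hD2]
      push_cast
      rw [hx' _ (by omega), hx' _ (by omega), hP.u2]
  have hcomm' : ∀ a, resD D1 (SS E Q) h1 (resD D2 (SS E Q) h2 a) =
      resD D2 (SS E Q) h2 (resD D1 (SS E Q) h1 a) := by
    intro a
    apply Subtype.ext
    exact hcomm a
  have hE' : Ends (resD D1 (SS E Q) h1) (resD D2 (SS E Q) h2) M x'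
      (S₀.comap (SS E Q).val) := by
    refine ⟨?_, ?_, ?_, ?_, ?_, ?_⟩
    · intro a ha
      exact hE.d1 _ ha
    · intro a ha
      exact hE.d2 _ ha
    · change (x' 0 : A) ∈ S₀
      rw [hx' _ (by omega)]
      exact hE.m0
    · change (x' 1 : A) ∈ S₀
      rw [hx' _ (by omega)]
      exact hE.m1
    · change (x' (M + 1) : A) ∈ S₀
      rw [hx' _ (by omega)]
      exact hE.mM
    · change (x' (M + 2) : A) ∈ S₀
      rw [hx' _ (by omega)]
      exact hE.mM'
  have halg' : ∀ i ≤ M + 2, IsAlgebraic (S₀.comap (SS E Q).val) (x' i) := by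
    intro i hi
    apply alg_transfer hle
    rw [hx' i hi]
    exact halg i hi
  have hR : RInv (resD D2 (SS E Q) h2) (S₀.comap (SS E Q).val) ζ ι := by
    intro a ha b hb hb0 hab
    have hιb : ι b ≠ 0 := fun h => hb0 (hF.inj (h.trans (map_zero ι).symm))
    have hprod : ι (resD D2 (SS E Q) h2 a) * ι b = ι a * ι (resD D2 (SS E Q) h2 b) := by
      rw [← map_mul, ← map_mul, hab]
    have : CharZero (LaurentSeries ℂ) :=
      charZero_of_injective_ringHom (HahnSeries.C_injective (Γ := ℤ) (R := ℂ))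
    obtain ⟨m, hm, hrat⟩ := const_ratio (hF.c2 a) (hF.c2 b) hιb hprod
    have hQr : ∀ q ∈ Q, ∃ P, (r.comp (evD D1 (x 1) (K 0))) P = q := by
      intro q hq
      rw [hQ] at hq
      exact hq
    obtain ⟨P, hPa⟩ := hQr _ (a.2 m)
    obtain ⟨R, hRb⟩ := hQr _ (b.2 m)
    have hPa' : PowerSeries.coeff m (ι a) = evD d (xL e N) κ P := hco a m P hPa.symm
    have hRb' : PowerSeries.coeff m (ι b) = evD d (xL e N) κ R := hco b m R hRb.symm
    rw [hPa', hRb'] at hrat
    rw [hRb'] at hm
    have hp := hC P ⟨_, hev P⟩ rfl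
    have hq := hC R ⟨_, hev R⟩ rfl
    refine ⟨evD d (xL e N) κ P / evD d (xL e N) κ R, ?_, hrat⟩
    have hb0' : (b : A) ≠ 0 := fun h => hb0 (Subtype.ext h)
    refine hinv a ha b hb hb0' ?_ P R ?_ hm
    · exact congrArg (fun z : SS E Q => (z : A)) hab
    · have h5 : ι (a * ⟨_, hev R⟩) = ι (b * ⟨_, hev P⟩) := by
        rw [map_mul, map_mul, hp, hq, hrat]
        have h6 : (PowerSeries.C (evD d (xL e N) κ P / evD d (xL e N) κ R) :
            PowerSeries (LaurentSeries ℂ)) * PowerSeries.C (evD d (xL e N) κ R) =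
            PowerSeries.C (evD d (xL e N) κ P) := by
          rw [← map_mul, div_mul_cancel₀ _ hm]
        calc _ = ι b * ((PowerSeries.C (evD d (xL e N) κ P / evD d (xL e N) κ R) :
            PowerSeries (LaurentSeries ℂ)) * PowerSeries.C (evD d (xL e N) κ R)) := by ring
          _ = _ := by rw [h6]
      exact congrArg (fun z : SS E Q => (z : A)) (hF.inj h5)
  exact caseI_formal hM hP' hcomm' hE' halg' hd hF hζ hR

end Pool.Agent.MP_ae5b4e_an_NB1
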