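import Mathlib
import Pool.Agent.Lib.MP_ae5b4e_an_NB1.AnDefs

/-!
# MP_ae5b4e_an, project NB_1: the polygon near `(t₀, 0)` (definitions)
-/

noncomputable section

namespace Pool.Agent.MP_ae5b4e_an_NB1

open Complex Set Filter Topology Metric
open TopologicalSpace (Opens)
open Pool.Agent.MP_ae5b4e_an_NBT

/-- The point number `j - 1` of the polygon. -/
def yC (C : ℂ × ℂ → ℂ) (j : ℕ) : ℂ × ℂ → ℂ := fun p => C (p.1 + ((j : ℂ) - 1) * p.2, p.2)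

/-- A family in a chart near `(t₀, 0)`. -/
structure Fm (k : ℂ → ℂ) (C : ℂ × ℂ → ℂ) (t₀ : ℂ) : Prop where
  an : AnalyticAt ℂ C (t₀, 0)
  dt : pt C (t₀, 0) ≠ 0
  kan : AnalyticAt ℂ k (C (t₀, 0))
  fe : ∀ᶠ p in 𝓝 ((t₀, 0) : ℂ × ℂ), p.2 ≠ 0 →
    (C (p.1 + p.2, p.2) - C p)⁻¹ + (C (p.1 - p.2, p.2) - C p)⁻¹ = k (C p)

/-- The facts about the family on the ball `B` around `(t₀, 0)`. -/
structure OnB (k : ℂ → ℂ) (C : ℂ × ℂ → ℂ) (M : ℕ) (B : Set (ℂ × ℂ)) : Prop where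
  an : ∀ j ≤ M + 2, AnalyticOnNhd ℂ (yC C j) B
  kan : ∀ i ≤ M, ∀ p ∈ B, AnalyticAt ℂ k (yC C (i + 1) p)
  jac : ∀ i j, i < j → j ≤ M + 2 → ∀ p ∈ B, Jac (yC C i) (yC C j) p ≠ 0
  ne : ∀ i ≤ M + 1, ∀ p ∈ B, p.2 ≠ 0 → yC C (i + 1) p ≠ yC C i p
  rel : ∀ i ≤ M, ∀ p ∈ B, p.2 ≠ 0 →
    (yC C (i + 2) p - yC C (i + 1) p)⁻¹ + (yC C i p - yC C (i + 1) p)⁻¹ = k (yC C (i + 1) p)
  dt : ∀ p ∈ B, pt C p ≠ 0
  can : AnalyticOnNhd ℂ C B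

/-- The algebraic setup on the open set `U`. -/
structure SetU (k : ℂ → ℂ) (C : ℂ × ℂ → ℂ) (M : ℕ) {U : Opens (ℂ × ℂ)}
    (D1 D2 : Derivation ℂ (RU U) (RU U)) (x K : ℕ → RU U) : Prop where
  onB : OnB k C M U
  coord : Coord D1 D2 (x 1) (x 1 - x 0)
  poly : Poly D1 D2 M x K
  hx : ∀ j ≤ M + 2, ∀ p ∈ U, fn (x j) p = yC C j p
  hK : ∀ i ≤ M, ∀ p ∈ U, fn (K i) p = k (yC C (i + 1) p)

end Pool.Agent.MP_ae5b4e_an_NB1
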