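import Mathlib
import Pool.Agent.Lib.MP_ae5b4e_an_NB1.UDefs

/-!
# MP_ae5b4e_an, project NB_1: derivations in local coordinates
-/

noncomputable section

namespace Pool.Agent.MP_ae5b4e_an_NB1

open Complex Set Filter Topology Metric
open TopologicalSpace (Opens)
open Pool.Agent.MP_ae5b4e_an_NBT

variable {U : Opens (ℂ × ℂ)}

private theorem fn_apply (f : RU U) {q : ℂ × ℂ} (h : q ∈ U) : fn f q = f.1 ⟨q, h⟩ :=
  ext0_apply _ h

private theorem ru_ext {f g : RU U} (h : ∀ q ∈ U, fn f q = fn g q) : f = g := by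
  apply Subtype.ext
  funext q
  have h1 := h q.1 q.2
  rwa [fn_apply f q.2, fn_apply g q.2] at h1

private theorem fn_add (f g : RU U) {q : ℂ × ℂ} (h : q ∈ U) : fn (f + g) q = fn f q + fn g q := by
  rw [fn_apply _ h, fn_apply _ h, fn_apply _ h]
  rfl

private theorem fn_mul (f g : RU U) {q : ℂ × ℂ} (h : q ∈ U) : fn (f * g) q = fn f q * fn g q := by
  rw [fn_apply _ h, fn_apply _ h, fn_apply _ h]
  rfl

private theorem fn_sub (f g : RU U) {q : ℂ × ℂ} (h : q ∈ U) : fn (f - g) q = fn f q - fn g q := by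
  rw [fn_apply _ h, fn_apply _ h, fn_apply _ h]
  rfl

private theorem fn_smul (c : ℂ) (f : RU U) {q : ℂ × ℂ} (h : q ∈ U) :
    fn (c • f) q = c * fn f q := by
  rw [fn_apply _ h, fn_apply _ h]
  rfl

private theorem fn_one {q : ℂ × ℂ} (h : q ∈ U) : fn (1 : RU U) q = 1 := by
  rw [fn_apply _ h]
  rfl

private theorem fn_zero {q : ℂ × ℂ} (h : q ∈ U) : fn (0 : RU U) q = 0 := by
  rw [fn_apply _ h]
  rfl

private theorem fn_toRU (f : ℂ × ℂ → ℂ) (hf : AnalyticOnNhd ℂ f U) {q : ℂ × ℂ} (h : q ∈ U) :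
    fn (toRU U f hf) q = f q := by
  rw [fn_apply _ h]
  rfl

private theorem fn_diff (f : RU U) {q : ℂ × ℂ} (h : q ∈ U) : DifferentiableAt ℂ (fn f) q :=
  (fn_an f q h).differentiableAt

private theorem dv_an (f : RU U) (v : ℂ × ℂ) :
    AnalyticOnNhd ℂ (fun q => fderiv ℂ (fn f) q v) U := by
  intro q hq
  have h1 : AnalyticAt ℂ (fderiv ℂ (fn f)) q := (fn_an f q hq).fderiv
  exact ((ContinuousLinearMap.apply ℂ ℂ v).analyticAt _).comp h1

/-- the derivative in the direction `v` -/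
private def dv (v : ℂ × ℂ) : Derivation ℂ (RU U) (RU U) where
  toFun f := toRU U (fun q => fderiv ℂ (fn f) q v) (dv_an f v)
  map_add' f g := by
    refine ru_ext fun q hq => ?_
    rw [fn_add _ _ hq, fn_toRU _ _ hq, fn_toRU _ _ hq, fn_toRU _ _ hq]
    have h1 : fn (f + g) =ᶠ[𝓝 q] fun p => fn f p + fn g p := by
      filter_upwards [U.isOpen.mem_nhds hq] with p hp
      exact fn_add f g hp
    rw [h1.fderiv_eq, fderiv_fun_add (fn_diff f hq) (fn_diff g hq)]
    rfl
  map_smul' c f := by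
    refine ru_ext fun q hq => ?_
    rw [RingHom.id_apply, fn_smul _ _ hq, fn_toRU _ _ hq, fn_toRU _ _ hq]
    have h1 : fn (c • f) =ᶠ[𝓝 q] fun p => c * fn f p := by
      filter_upwards [U.isOpen.mem_nhds hq] with p hp
      exact fn_smul c f hp
    rw [h1.fderiv_eq, fderiv_const_mul (fn_diff f hq)]
    rfl
  map_one_eq_zero' := by
    refine ru_ext fun q hq => ?_
    show fn (toRU U (fun q => fderiv ℂ (fn (1 : RU U)) q v) (dv_an 1 v)) q = _
    rw [fn_toRU _ _ hq, fn_zero hq]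
    have h1 : fn (1 : RU U) =ᶠ[𝓝 q] fun _ => (1 : ℂ) := by
      filter_upwards [U.isOpen.mem_nhds hq] with p hp
      exact fn_one hp
    rw [h1.fderiv_eq, fderiv_fun_const]
    rfl
  leibniz' f g := by
    refine ru_ext fun q hq => ?_
    show fn (toRU U (fun q => fderiv ℂ (fn (f * g)) q v) (dv_an (f * g) v)) q =
      fn (f * toRU U (fun q => fderiv ℂ (fn g) q v) (dv_an g v) +
        g * toRU U (fun q => fderiv ℂ (fn f) q v) (dv_an f v)) q
    rw [fn_add _ _ hq, fn_mul _ _ hq, fn_mul _ _ hq, fn_toRU _ _ hq, fn_toRU _ _ hq,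
      fn_toRU _ _ hq]
    have h1 : fn (f * g) =ᶠ[𝓝 q] fun p => fn f p * fn g p := by
      filter_upwards [U.isOpen.mem_nhds hq] with p hp
      exact fn_mul f g hp
    rw [h1.fderiv_eq, fderiv_fun_mul (fn_diff f hq) (fn_diff g hq)]
    rfl

private theorem fn_dv (v : ℂ × ℂ) (f : RU U) {q : ℂ × ℂ} (hq : q ∈ U) :
    fn (dv v f) q = fderiv ℂ (fn f) q v :=
  fn_toRU _ _ hq

private theorem dv_comm (v w : ℂ × ℂ) (f : RU U) : dv v (dv w f) = dv w (dv v f) := by
  refine ru_ext fun q hq => ?_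
  have key : ∀ a b : ℂ × ℂ, fn (dv a (dv b f)) q = fderiv ℂ (fderiv ℂ (fn f)) q a b := by
    intro a b
    rw [fn_dv _ _ hq]
    have h1 : fn (dv b f) =ᶠ[𝓝 q] fun p => fderiv ℂ (fn f) p b := by
      filter_upwards [U.isOpen.mem_nhds hq] with p hp
      exact fn_dv b f hp
    rw [h1.fderiv_eq]
    have h2 : DifferentiableAt ℂ (fderiv ℂ (fn f)) q := (fn_an f q hq).fderiv.differentiableAt
    rw [fderiv_clm_apply h2 (differentiableAt_const b)]
    simp
  rw [key, key]
  have h3 : IsSymmSndFDerivAt ℂ (fn f) q := by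
    apply ContDiffAt.isSymmSndFDerivAt (n := 2)
    · exact (fn_an f q hq).contDiffAt
    · simp
  exact h3 v w

theorem exists_coord {x u : RU U} (hJ : ∀ q ∈ U, Jac (fn x) (fn u) q ≠ 0) :
    ∃ D1 D2 : Derivation ℂ (RU U) (RU U), Coord D1 D2 x u := by
  have hj : ∀ q ∈ U, fn (dv (1, 0) x * dv (0, 1) u - dv (1, 0) u * dv (0, 1) x) q =
      Jac (fn x) (fn u) q := by
    intro q hq
    rw [fn_sub _ _ hq, fn_mul _ _ hq, fn_mul _ _ hq, fn_dv _ _ hq, fn_dv _ _ hq, fn_dv _ _ hq,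
      fn_dv _ _ hq]
    rfl
  obtain ⟨i, hi⟩ : ∃ i : RU U,
      i * (dv (1, 0) x * dv (0, 1) u - dv (1, 0) u * dv (0, 1) x) = 1 := by
    set j : RU U := dv (1, 0) x * dv (0, 1) u - dv (1, 0) u * dv (0, 1) x with hjd
    refine ⟨toRU U (fun q => (fn j q)⁻¹) (fun q hq => (fn_an j q hq).inv ?_), ?_⟩
    · rw [hj q hq]
      exact hJ q hq
    · refine ru_ext fun q hq => ?_
      rw [fn_mul _ _ hq, fn_toRU _ _ hq, fn_one hq]
      apply inv_mul_cancel₀
      rw [hj q hq]
      exact hJ q hq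
  let xt := dv (1, 0) x
  let xr := dv (0, 1) x
  let ut := dv (1, 0) u
  let ur := dv (0, 1) u
  have hi' : i * (xt * ur - ut * xr) = 1 := hi
  let D1 : Derivation ℂ (RU U) (RU U) := (i * ur) • dv (1, 0) - (i * ut) • dv (0, 1)
  let D2 : Derivation ℂ (RU U) (RU U) := (i * xt) • dv (0, 1) - (i * xr) • dv (1, 0)
  have hD1 : ∀ f, D1 f = i * ur * dv (1, 0) f - i * ut * dv (0, 1) f := fun f => rfl
  have hD2 : ∀ f, D2 f = i * xt * dv (0, 1) f - i * xr * dv (1, 0) f := fun f => rfl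
  have hx1 : D1 x = 1 := by
    rw [hD1]
    show i * ur * xt - i * ut * xr = 1
    linear_combination hi'
  have hx2 : D2 x = 0 := by
    rw [hD2]
    show i * xt * xr - i * xr * xt = 0
    ring
  have hu1 : D1 u = 0 := by
    rw [hD1]
    show i * ur * ut - i * ut * ur = 0
    ring
  have hu2 : D2 u = 1 := by
    rw [hD2]
    show i * xt * ur - i * xr * ut = 1
    linear_combination hi'
  have hfd : ∀ f : RU U, dv (1, 0) f = D1 f * xt + D2 f * ut ∧
      dv (0, 1) f = D1 f * xr + D2 f * ur := by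
    intro f
    rw [hD1, hD2]
    constructor
    · linear_combination (-dv (1, 0) f) * hi'
    · linear_combination (-dv (0, 1) f) * hi'
  refine ⟨D1, D2, ?_, hx1, hx2, hu1, hu2, ?_, ?_⟩
  · -- the commutator
    obtain ⟨A, B, hAB⟩ : ∃ A B : RU U, ∀ f, D1 (D2 f) - D2 (D1 f) =
        A * dv (1, 0) f + B * dv (0, 1) f := by
      refine ⟨D2 (-(i * ur)) + D1 (-(i * xr)), D1 (i * xt) + D2 (i * ut), fun f => ?_⟩
      have e1 : D1 (D2 f) = D1 (i * xt) * dv (0, 1) f + i * xt * D1 (dv (0, 1) f) -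
          (D1 (i * xr) * dv (1, 0) f + i * xr * D1 (dv (1, 0) f)) := by
        rw [hD2 f, map_sub, D1.leibniz (i * xt) (dv (0, 1) f), D1.leibniz (i * xr) (dv (1, 0) f)]
        simp only [smul_eq_mul]
        ring
      have e2 : D2 (D1 f) = D2 (i * ur) * dv (1, 0) f + i * ur * D2 (dv (1, 0) f) -
          (D2 (i * ut) * dv (0, 1) f + i * ut * D2 (dv (0, 1) f)) := by
        rw [hD1 f, map_sub, D2.leibniz (i * ur) (dv (1, 0) f), D2.leibniz (i * ut) (dv (0, 1) f)]
        simp only [smul_eq_mul]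
        ring
      rw [e1, e2, hD1 (dv (0, 1) f), hD1 (dv (1, 0) f), hD2 (dv (0, 1) f), hD2 (dv (1, 0) f),
        dv_comm (0, 1) (1, 0) f, map_neg, map_neg]
      ring
    have h1 := hAB x
    have h2 := hAB u
    rw [hx1, hx2, map_zero, Derivation.map_one_eq_zero] at h1
    rw [hu1, hu2, map_zero, Derivation.map_one_eq_zero] at h2
    have h1' : A * xt + B * xr = 0 := by
      rw [← sub_zero (0 : RU U)]
      exact h1.symm
    have h2' : A * ut + B * ur = 0 := by
      rw [← sub_zero (0 : RU U)]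
      exact h2.symm
    have hA : A = 0 := by
      linear_combination (-A) * hi' + i * ur * h1' - i * xr * h2'
    have hB : B = 0 := by
      linear_combination (-B) * hi' + i * xt * h2' - i * ut * h1'
    intro f
    have h3 := hAB f
    rw [hA, hB, zero_mul, zero_mul, add_zero] at h3
    exact sub_eq_zero.1 h3
  · intro f q hq
    obtain ⟨h1, h2⟩ := hfd f
    have h1' := congrArg (fun g => fn g q) h1
    have h2' := congrArg (fun g => fn g q) h2
    simp only [fn_add _ _ hq, fn_mul _ _ hq] at h1' h2'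
    rw [fn_dv _ _ hq, show fn xt q = _ from fn_dv _ _ hq,
      show fn ut q = _ from fn_dv _ _ hq] at h1'
    rw [fn_dv _ _ hq, show fn xr q = _ from fn_dv _ _ hq,
      show fn ur q = _ from fn_dv _ _ hq] at h2'
    have key : ∀ (T : ℂ × ℂ →L[ℂ] ℂ) (p : ℂ × ℂ), T p = p.1 * T (1, 0) + p.2 * T (0, 1) := by
      intro T p
      have h3 : p = p.1 • ((1, 0) : ℂ × ℂ) + p.2 • ((0, 1) : ℂ × ℂ) := by
        ext <;> simp
      conv_lhs => rw [h3, map_add, map_smul, map_smul]
      simp only [smul_eq_mul]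
    refine ContinuousLinearMap.ext fun p => ?_
    simp only [ContinuousLinearMap.add_apply, ContinuousLinearMap.smul_apply, smul_eq_mul]
    rw [key (fderiv ℂ (fn f) q), key (fderiv ℂ (fn x) q), key (fderiv ℂ (fn u) q), h1', h2']
    ring
  · intro q hq
    exact hJ q hq

private theorem coord_two {D1 D2 : Derivation ℂ (RU U) (RU U)} {x u : RU U}
    (h : Coord D1 D2 x u) (f : RU U) {q : ℂ × ℂ} (hq : q ∈ U) (v : ℂ × ℂ) :
    fderiv ℂ (fn f) q v = fn (D1 f) q * fderiv ℂ (fn x) q v +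
      fn (D2 f) q * fderiv ℂ (fn u) q v := by
  rw [h.fd f q hq]
  simp only [ContinuousLinearMap.add_apply, ContinuousLinearMap.smul_apply, smul_eq_mul]

theorem Coord.D1_eq {D1 D2 : Derivation ℂ (RU U) (RU U)} {x u : RU U} (h : Coord D1 D2 x u)
    (f : RU U) {q : ℂ × ℂ} (hq : q ∈ U) :
    fn (D1 f) q = Jac (fn f) (fn u) q / Jac (fn x) (fn u) q := by
  have hj : Jac (fn x) (fn u) q ≠ 0 := h.jac q hq
  rw [eq_div_iff hj]
  unfold Jac
  rw [coord_two h f hq (1, 0), coord_two h f hq (0, 1)]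
  ring

theorem Coord.D2_eq {D1 D2 : Derivation ℂ (RU U) (RU U)} {x u : RU U} (h : Coord D1 D2 x u)
    (f : RU U) {q : ℂ × ℂ} (hq : q ∈ U) :
    fn (D2 f) q = Jac (fn x) (fn f) q / Jac (fn x) (fn u) q := by
  have hj : Jac (fn x) (fn u) q ≠ 0 := h.jac q hq
  rw [eq_div_iff hj]
  unfold Jac
  rw [coord_two h f hq (1, 0), coord_two h f hq (0, 1)]
  ring

/-- the analytic functions on a connected open set form a domain -/
theorem isDomain_RU (hU : IsPreconnected (U : Set (ℂ × ℂ))) (hne : (U : Set (ℂ × ℂ)).Nonempty) :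
    IsDomain (RU U) := by
  have h1 : Nontrivial (RU U) := by
    obtain ⟨q, hq⟩ := hne
    refine ⟨⟨0, 1, fun h => ?_⟩⟩
    have h2 := congrArg (fun g => fn g q) h
    simp only [fn_zero hq, fn_one hq] at h2
    exact zero_ne_one h2
  have h2 : NoZeroDivisors (RU U) := by
    refine ⟨fun {f g} hfg => ?_⟩
    by_cases hf : f = 0
    · exact Or.inl hf
    right
    obtain ⟨q, hq, hfq⟩ : ∃ q ∈ U, fn f q ≠ 0 := by
      by_contra hcon
      push Not at hcon
      refine hf (ru_ext fun q hq => ?_)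
      rw [hcon q hq, fn_zero hq]
    have h3 : ∀ᶠ p in 𝓝 q, fn f p ≠ 0 := (fn_an f q hq).continuousAt.eventually_ne hfq
    have h4 : fn g =ᶠ[𝓝 q] 0 := by
      filter_upwards [h3, U.isOpen.mem_nhds hq] with p hp hpU
      have h5 : fn (f * g) p = 0 := by rw [hfg, fn_zero hpU]
      rw [fn_mul _ _ hpU] at h5
      exact (mul_eq_zero.1 h5).resolve_left hp
    have h5 := (fn_an g).eqOn_zero_of_preconnected_of_eventuallyEq_zero hU hq h4
    refine ru_ext fun p hp => ?_
    rw [fn_zero hp]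
    exact h5 hp
  exact NoZeroDivisors.to_isDomain _

end Pool.Agent.MP_ae5b4e_an_NB1
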