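import Mathlib
import Pool.Agent.Lib.MP_ae5b4e_an_NB1.AnDefs

/-!
# MP_ae5b4e_an, project NB_1: Jacobians of meromorphic functions
-/

noncomputable section

namespace Pool.Agent.MP_ae5b4e_an_NB1

open Complex Set Filter Topology Metric
open Pool.Agent.MP_ae5b4e_an_NBT

variable {f f' g g' : ℂ × ℂ → ℂ} {p : ℂ × ℂ}

private lemma tendsto_col (t ρ : ℂ) : Tendsto (fun s : ℂ => (t, s)) (𝓝 ρ) (𝓝 (t, ρ)) := by
  have : Continuous (fun s : ℂ => (t, s)) := by fun_prop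
  exact this.tendsto ρ

private lemma tendsto_row (t ρ : ℂ) : Tendsto (fun s : ℂ => (s, ρ)) (𝓝 t) (𝓝 (t, ρ)) := by
  have : Continuous (fun s : ℂ => (s, ρ)) := by fun_prop
  exact this.tendsto t

private lemma an_col {B : ℂ × ℂ → ℂ} {t ρ : ℂ} (hB : AnalyticAt ℂ B (t, ρ)) :
    AnalyticAt ℂ (fun s : ℂ => B (t, s)) ρ :=
  AnalyticAt.fun_comp (g := B) (f := fun s : ℂ => (t, s)) hB (analyticAt_const.prod analyticAt_id)

private lemma nfM_congr' {q : ℂ × ℂ} (h : EqM f g q) : nfM f q = nfM g q := by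
  by_cases h1 : ∃ C : ℂ × ℂ → ℂ, AnalyticAt ℂ C q ∧ EqM g C q
  · obtain ⟨C, hC, hgC⟩ := h1
    rw [nfM_eq hC hgC, nfM_eq hC (h.trans hgC)]
  · have h2 : ¬ ∃ C : ℂ × ℂ → ℂ, AnalyticAt ℂ C q ∧ EqM f C q := by
      rintro ⟨C, hC, hfC⟩
      exact h1 ⟨C, hC, h.symm.trans hfC⟩
    unfold nfM
    rw [dif_neg h1, dif_neg h2]

private lemma nfM_evEq {C : ℂ × ℂ → ℂ} {q : ℂ × ℂ} (hC : AnalyticAt ℂ C q)
    (h : EqM f C q) : ∀ᶠ x in 𝓝 q, nfM f x = C x := by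
  filter_upwards [hC.eventually_analyticAt, h.eventually] with x h1 h2
  exact nfM_eq h1 h2

private lemma germ_quot {A B : ℂ × ℂ → ℂ} {q : ℂ × ℂ} (hA : AnalyticAt ℂ A q)
    (hB : AnalyticAt ℂ B q) (hfe : EqM f (fun q => A q / B q) q) :
    ∀ᶠ x in 𝓝 q, B x ≠ 0 → AnalyticAt ℂ (fun y => A y / B y) x ∧
      EqM f (fun y => A y / B y) x := by
  filter_upwards [hA.eventually_analyticAt, hB.eventually_analyticAt, hfe.eventually]
    with x h1 h2 h3 h4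
  exact ⟨h1.div h2 h4, h3⟩

private lemma deriv_col {C : ℂ × ℂ → ℂ} {q : ℂ × ℂ} (hC : AnalyticAt ℂ C q) :
    deriv (fun s => C (q.1, s)) q.2 = fderiv ℂ C q (0, 1) := by
  have h1 : HasFDerivAt C (fderiv ℂ C q) q := hC.differentiableAt.hasFDerivAt
  have h2 : HasDerivAt (fun s : ℂ => (q.1, s)) ((0 : ℂ), (1 : ℂ)) q.2 :=
    (hasDerivAt_const q.2 q.1).prodMk (hasDerivAt_id q.2)
  have h3 : HasDerivAt (fun s : ℂ => C (q.1, s)) (fderiv ℂ C q (0, 1)) q.2 :=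
    HasFDerivAt.comp_hasDerivAt q.2 (f := fun s : ℂ => (q.1, s)) (l := C) h1 h2
  exact h3.deriv

private lemma deriv_row {C : ℂ × ℂ → ℂ} {q : ℂ × ℂ} (hC : AnalyticAt ℂ C q) :
    deriv (fun s => C (s, q.2)) q.1 = fderiv ℂ C q (1, 0) := by
  have h1 : HasFDerivAt C (fderiv ℂ C q) q := hC.differentiableAt.hasFDerivAt
  have h2 : HasDerivAt (fun s : ℂ => (s, q.2)) ((1 : ℂ), (0 : ℂ)) q.1 :=
    (hasDerivAt_id q.1).prodMk (hasDerivAt_const q.1 q.2)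
  have h3 : HasDerivAt (fun s : ℂ => C (s, q.2)) (fderiv ℂ C q (1, 0)) q.1 :=
    HasFDerivAt.comp_hasDerivAt q.1 (f := fun s : ℂ => (s, q.2)) (l := C) h1 h2
  exact h3.deriv

private lemma drM_eq {C : ℂ × ℂ → ℂ} {q : ℂ × ℂ} (hC : AnalyticAt ℂ C q) (h : EqM f C q) :
    MP_ae5b4e_an_NB1.drM f q = fderiv ℂ C q (0, 1) := by
  have h1 : (fun s => nfM f (q.1, s)) =ᶠ[𝓝 q.2] fun s => C (q.1, s) :=
    (tendsto_col q.1 q.2).eventually (nfM_evEq (q := (q.1, q.2)) hC h)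
  show deriv (fun s => nfM f (q.1, s)) q.2 = _
  rw [h1.deriv_eq, deriv_col hC]

private lemma an_dir {C : ℂ × ℂ → ℂ} {q : ℂ × ℂ} (v : ℂ × ℂ) (hC : AnalyticAt ℂ C q) :
    AnalyticAt ℂ (fun x => fderiv ℂ C x v) q :=
  ((ContinuousLinearMap.apply ℂ ℂ v).analyticAt (fderiv ℂ C q)).comp hC.fderiv

private lemma fderiv_quot' {A B : ℂ × ℂ → ℂ} {q : ℂ × ℂ} (hA : AnalyticAt ℂ A q)
    (hB : AnalyticAt ℂ B q) (h0 : B q ≠ 0) :
    fderiv ℂ (fun y => A y / B y) q (0, 1) =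
      (fderiv ℂ A q (0, 1) * B q - A q * fderiv ℂ B q (0, 1)) / (B q * B q) := by
  have hq : AnalyticAt ℂ (fun y => A y / B y) q := hA.div hB h0
  rw [← deriv_col hq, ← deriv_col hA, ← deriv_col hB]
  have h1 : DifferentiableAt ℂ (fun s => A (q.1, s)) q.2 :=
    (an_col (t := q.1) (ρ := q.2) hA).differentiableAt
  have h2 : DifferentiableAt ℂ (fun s => B (q.1, s)) q.2 :=
    (an_col (t := q.1) (ρ := q.2) hB).differentiableAt
  have h3 := (h1.hasDerivAt.div h2.hasDerivAt h0).deriv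
  have h4 : deriv (fun s => A (q.1, s) / B (q.1, s)) q.2 =
      (deriv (fun s => A (q.1, s)) q.2 * B (q.1, q.2) -
        A (q.1, q.2) * deriv (fun s => B (q.1, s)) q.2) / B (q.1, q.2) ^ 2 := h3
  rw [h4, pow_two]

private lemma eqM_drM {A B : ℂ × ℂ → ℂ} (hA : AnalyticAt ℂ A p) (hB : Den B p)
    (hfe : EqM f (fun q => A q / B q) p) :
    EqM (MP_ae5b4e_an_NB1.drM f)
      (fun q => (fderiv ℂ A q (0, 1) * B q - A q * fderiv ℂ B q (0, 1)) / (B q * B q)) p := by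
  refine ⟨B, hB, ?_⟩
  filter_upwards [germ_quot hA hB.an hfe, hA.eventually_analyticAt, hB.an.eventually_analyticAt]
    with q h1 h2 h3 h4
  rw [drM_eq (h1 h4).1 (h1 h4).2, fderiv_quot' h2 h3 h4]

theorem MerAt.drM (hf : MerAt f p) : MerAt (drM f) p := by
  obtain ⟨A, B, hA, hB, h⟩ := hf
  have h1 := eqM_drM (f := f) hA hB ⟨B, hB, h⟩
  refine MerAt.congr (f := fun q => (fderiv ℂ A q (0, 1) * B q - A q * fderiv ℂ B q (0, 1)) /
    (B q * B q)) ?_ h1.symm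
  exact ⟨_, _, ((an_dir _ hA).mul hB.an).sub (hA.mul (an_dir _ hB.an)), hB.mul hB,
    Eventually.of_forall fun _ _ => rfl⟩

theorem EqM.drM (hf : MerAt f p) (h : EqM f g p) : EqM (drM f) (drM g) p := by
  apply EqM.of_eventuallyEq
  filter_upwards [h.eventually.eventually_nhds] with q hq
  have h1 : (fun s => nfM f (q.1, s)) =ᶠ[𝓝 q.2] fun s => nfM g (q.1, s) := by
    filter_upwards [(tendsto_col q.1 q.2).eventually hq] with s hs
    exact nfM_congr' hs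
  exact h1.deriv_eq

theorem MerAt.JM (hf : MerAt f p) (hg : MerAt g p) : MerAt (JM f g) p :=
  (hf.dtM.mul (MerAt.drM hg)).sub (hg.dtM.mul (MerAt.drM hf))

theorem EqM.JM (hf : MerAt f p) (hg : MerAt g p) (h1 : EqM f f' p) (h2 : EqM g g' p) :
    EqM (JM f g) (JM f' g') p := by
  have a1 := EqM.map₂ (fun x y => x * y) (Pool.Agent.MP_ae5b4e_an_NBT.EqM.dtM hf h1)
    (EqM.drM hg h2)
  have a2 := EqM.map₂ (fun x y => x * y) (Pool.Agent.MP_ae5b4e_an_NBT.EqM.dtM hg h2)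
    (EqM.drM hf h1)
  exact EqM.map₂ (fun x y => x - y) a1 a2

/-- the meromorphic derivatives of analytic functions -/
theorem dtM_of_analyticAt (hf : AnalyticAt ℂ f p) : ∀ᶠ q in 𝓝 p, dtM f q = pt f q := by
  filter_upwards [hf.eventually_analyticAt] with q hq
  have h1 : (fun s => nfM f (s, q.2)) =ᶠ[𝓝 q.1] fun s => f (s, q.2) :=
    (tendsto_row q.1 q.2).eventually (nfM_evEq (q := (q.1, q.2)) hq (EqM.refl f _))
  show deriv (fun s => nfM f (s, q.2)) q.1 = _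
  rw [h1.deriv_eq, deriv_row hq]
  rfl

theorem drM_of_analyticAt (hf : AnalyticAt ℂ f p) : ∀ᶠ q in 𝓝 p, drM f q = pr f q := by
  filter_upwards [hf.eventually_analyticAt] with q hq
  rw [drM_eq hq (EqM.refl f _)]
  rfl

theorem JM_of_analyticAt (hf : AnalyticAt ℂ f p) (hg : AnalyticAt ℂ g p) :
    ∀ᶠ q in 𝓝 p, JM f g q = Jac f g q := by
  filter_upwards [dtM_of_analyticAt hf, dtM_of_analyticAt hg, drM_of_analyticAt hf,
    drM_of_analyticAt hg] with q h1 h2 h3 h4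
  unfold JM Jac
  rw [h1, h2, h3, h4]
  unfold pt pr
  ring

theorem analyticAt_pt (hf : AnalyticAt ℂ f p) : AnalyticAt ℂ (pt f) p := an_dir _ hf

theorem analyticAt_pr (hf : AnalyticAt ℂ f p) : AnalyticAt ℂ (pr f) p := an_dir _ hf

end Pool.Agent.MP_ae5b4e_an_NB1
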