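import Mathlib
import Pool.Agent.Lib.MP_ae5b4e_an_NB1.CoordEx
import Pool.Agent.Lib.MP_ae5b4e_an_NB1.MerD

/-!
# MP_ae5b4e_an, project NB_1: the elements of the smallest algebra extend
-/

noncomputable section

namespace Pool.Agent.MP_ae5b4e_an_NB1

open Complex Set Filter Topology Metric
open TopologicalSpace (Opens)
open Pool.Agent.MP_ae5b4e_an_NBT

variable {U : Opens (ℂ × ℂ)}

theorem exists_min (D1 D2 : Derivation ℂ (RU U) (RU U)) (M : ℕ) (x : ℕ → RU U) :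
    ∃ S₀ : Subalgebra ℂ (RU U), Ends D1 D2 M x S₀ ∧
      ∀ S : Subalgebra ℂ (RU U), Ends D1 D2 M x S → S₀ ≤ S := by
  refine ⟨sInf {S | Ends D1 D2 M x S}, ⟨?_, ?_, ?_, ?_, ?_, ?_⟩, fun S hS => sInf_le hS⟩
  · intro a ha
    rw [Algebra.mem_sInf] at ha ⊢
    exact fun S hS => Ends.d1 hS a (ha S hS)
  · intro a ha
    rw [Algebra.mem_sInf] at ha ⊢
    exact fun S hS => Ends.d2 hS a (ha S hS)
  · rw [Algebra.mem_sInf]
    exact fun S hS => Ends.m0 hS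
  · rw [Algebra.mem_sInf]
    exact fun S hS => Ends.m1 hS
  · rw [Algebra.mem_sInf]
    exact fun S hS => Ends.mM hS
  · rw [Algebra.mem_sInf]
    exact fun S hS => Ends.mM' hS

private lemma fn_at (a : RU U) {q : ℂ × ℂ} (hq : q ∈ U) : fn a q = a.1 ⟨q, hq⟩ :=
  ext0_apply a.1 hq

private lemma fn_add (a b : RU U) {p : ℂ × ℂ} (hp : p ∈ U) :
    (fun q => fn a q + fn b q) =ᶠ[𝓝 p] fn (a + b) := by
  filter_upwards [U.isOpen.mem_nhds hp] with q hq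
  rw [fn_at a hq, fn_at b hq, fn_at (a + b) hq]
  rfl

private lemma fn_sub (a b : RU U) {p : ℂ × ℂ} (hp : p ∈ U) :
    (fun q => fn a q - fn b q) =ᶠ[𝓝 p] fn (a - b) := by
  filter_upwards [U.isOpen.mem_nhds hp] with q hq
  rw [fn_at a hq, fn_at b hq, fn_at (a - b) hq]
  rfl

private lemma fn_mul (a b : RU U) {p : ℂ × ℂ} (hp : p ∈ U) :
    (fun q => fn a q * fn b q) =ᶠ[𝓝 p] fn (a * b) := by
  filter_upwards [U.isOpen.mem_nhds hp] with q hq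
  rw [fn_at a hq, fn_at b hq, fn_at (a * b) hq]
  rfl

private lemma fn_alg (c : ℂ) {p : ℂ × ℂ} (hp : p ∈ U) :
    (fun _ => c) =ᶠ[𝓝 p] fn (algebraMap ℂ (RU U) c) := by
  filter_upwards [U.isOpen.mem_nhds hp] with q hq
  rw [fn_at _ hq]
  rfl

/-- the functions with a meromorphic extension to `O` -/
def extmin_alg (U : Opens (ℂ × ℂ)) (O : Set (ℂ × ℂ)) : Subalgebra ℂ (RU U) where
  carrier := {a | ∃ A : ℂ × ℂ → ℂ, Mer A O ∧ ∀ p ∈ U, EqM A (fn a) p}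
  mul_mem' := by
    rintro a b ⟨A, hA, hA'⟩ ⟨B, hB, hB'⟩
    refine ⟨fun q => A q * B q, fun p hp => (hA p hp).mul (hB p hp), fun p hp => ?_⟩
    exact (EqM.map₂ (fun x y => x * y) (hA' p hp) (hB' p hp)).trans
      (EqM.of_eventuallyEq (fn_mul a b hp))
  add_mem' := by
    rintro a b ⟨A, hA, hA'⟩ ⟨B, hB, hB'⟩
    refine ⟨fun q => A q + B q, fun p hp => (hA p hp).add (hB p hp), fun p hp => ?_⟩
    exact (EqM.map₂ (fun x y => x + y) (hA' p hp) (hB' p hp)).trans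
      (EqM.of_eventuallyEq (fn_add a b hp))
  algebraMap_mem' := by
    intro c
    exact ⟨fun _ => c, fun p _ => merAt_of_analyticAt analyticAt_const, fun p hp =>
      EqM.of_eventuallyEq (fn_alg c hp)⟩

private lemma mem_extmin {O : Set (ℂ × ℂ)} {a : RU U} :
    a ∈ extmin_alg U O ↔ ∃ A : ℂ × ℂ → ℂ, Mer A O ∧ ∀ p ∈ U, EqM A (fn a) p := Iff.rfl

private lemma eqM_JM_fn {A B : ℂ × ℂ → ℂ} {a b : RU U} {p : ℂ × ℂ} (hp : p ∈ U)
    (mA : MerAt A p) (mB : MerAt B p) (hA : EqM A (fn a) p) (hB : EqM B (fn b) p) :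
    EqM (JM A B) (Jac (fn a) (fn b)) p :=
  (EqM.JM mA mB hA hB).trans
    (EqM.of_eventuallyEq (JM_of_analyticAt (fn_an a p hp) (fn_an b p hp)))

theorem ext_min {O : Set (ℂ × ℂ)} (hO : IsPreconnected O) (hUO : (U : Set (ℂ × ℂ)) ⊆ O)
    {D1 D2 : Derivation ℂ (RU U) (RU U)} {M : ℕ} {x : ℕ → RU U}
    (hC : Coord D1 D2 (x 1) (x 1 - x 0)) {X : ℕ → ℂ × ℂ → ℂ}
    (hX : ∀ i, i = 0 ∨ i = 1 ∨ i = M + 1 ∨ i = M + 2 →
      Mer (X i) O ∧ ∀ p ∈ U, EqM (X i) (fn (x i)) p)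
    {S₀ : Subalgebra ℂ (RU U)} (hmin : ∀ S : Subalgebra ℂ (RU U), Ends D1 D2 M x S → S₀ ≤ S)
    {a : RU U} (ha : a ∈ S₀) :
    ∃ A : ℂ × ℂ → ℂ, Mer A O ∧ ∀ p ∈ U, EqM A (fn a) p := by
  clear hO
  obtain ⟨hX0, hX0'⟩ := hX 0 (Or.inl rfl)
  obtain ⟨hX1, hX1'⟩ := hX 1 (Or.inr (Or.inl rfl))
  have hW : Mer (fun q => X 1 q - X 0 q) O := fun p hp => (hX1 p hp).sub (hX0 p hp)
  have hW' : ∀ p ∈ U, EqM (fun q => X 1 q - X 0 q) (fn (x 1 - x 0)) p := fun p hp =>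
    (EqM.map₂ (fun u v => u - v) (hX1' p hp) (hX0' p hp)).trans
      (EqM.of_eventuallyEq (fn_sub _ _ hp))
  have hden : ∀ p ∈ U, EqM (JM (X 1) (fun q => X 1 q - X 0 q))
      (Jac (fn (x 1)) (fn (x 1 - x 0))) p := fun p hp =>
    eqM_JM_fn hp (hX1 p (hUO hp)) (hW p (hUO hp)) (hX1' p hp) (hW' p hp)
  have hE : Ends D1 D2 M x (extmin_alg U O) := by
    refine ⟨?_, ?_, mem_extmin.2 ⟨_, hX0, hX0'⟩, mem_extmin.2 ⟨_, hX1, hX1'⟩,
      mem_extmin.2 ⟨_, hX (M + 1) (by simp)⟩, mem_extmin.2 ⟨_, hX (M + 2) (by simp)⟩⟩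
    · intro b hb
      obtain ⟨B, hB, hB'⟩ := mem_extmin.1 hb
      refine mem_extmin.2 ⟨fun q => JM B (fun q => X 1 q - X 0 q) q /
        JM (X 1) (fun q => X 1 q - X 0 q) q, fun p hp =>
        (MerAt.JM (hB p hp) (hW p hp)).div (MerAt.JM (hX1 p hp) (hW p hp)), fun p hp => ?_⟩
      refine (EqM.map₂ (fun u v => u / v)
        (eqM_JM_fn hp (hB p (hUO hp)) (hW p (hUO hp)) (hB' p hp) (hW' p hp)) (hden p hp)).trans
        (EqM.of_eventuallyEq ?_)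
      filter_upwards [U.isOpen.mem_nhds hp] with q hq
      exact (hC.D1_eq b hq).symm
    · intro b hb
      obtain ⟨B, hB, hB'⟩ := mem_extmin.1 hb
      refine mem_extmin.2 ⟨fun q => JM (X 1) B q /
        JM (X 1) (fun q => X 1 q - X 0 q) q, fun p hp =>
        (MerAt.JM (hX1 p hp) (hB p hp)).div (MerAt.JM (hX1 p hp) (hW p hp)), fun p hp => ?_⟩
      refine (EqM.map₂ (fun u v => u / v)
        (eqM_JM_fn hp (hX1 p (hUO hp)) (hB p (hUO hp)) (hX1' p hp) (hB' p hp)) (hden p hp)).trans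
        (EqM.of_eventuallyEq ?_)
      filter_upwards [U.isOpen.mem_nhds hp] with q hq
      exact (hC.D2_eq b hq).symm
  exact mem_extmin.1 (hmin _ hE ha)

end Pool.Agent.MP_ae5b4e_an_NB1
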