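import Mathlib
import Pool.Agent.Lib.MP_ae5b4e_an_NB1.AnDefs

/-!
# MP_ae5b4e_an, project NB_1: differential polynomials of functions of one variable
-/

noncomputable section

namespace Pool.Agent.MP_ae5b4e_an_NB1

open Complex Set Filter Topology Metric
open Pool.Agent.MP_ae5b4e_an_NBT

variable {c c' κ κ' : ℂ → ℂ} {t : ℂ}

private theorem ev1_C' (D : (ℂ → ℂ) → (ℂ → ℂ)) (x y : ℂ → ℂ) (a : ℂ) :
    evD D x y (MvPolynomial.C a) = fun _ => a := by
  unfold evD
  rw [MvPolynomial.aeval_C]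
  rfl

private theorem ev1_X' (D : (ℂ → ℂ) → (ℂ → ℂ)) (x y : ℂ → ℂ) (o : Option ℕ) :
    evD D x y (MvPolynomial.X o) = evv D x y o := by
  unfold evD
  rw [MvPolynomial.aeval_X]

private theorem ev1_it_mer (hc : MeromorphicAt c t) (hκ : MeromorphicAt κ t) (j : ℕ) :
    MeromorphicAt ((d1 c)^[j] κ) t := by
  induction j with
  | zero => exact hκ
  | succ j ih =>
    rw [Function.iterate_succ_apply']
    exact ih.deriv.div hc.deriv

theorem ev1_mer (hc : MeromorphicAt c t) (hκ : MeromorphicAt κ t) (P : KR) :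
    MeromorphicAt (ev1 c κ P) t := by
  unfold ev1
  induction P using MvPolynomial.induction_on with
  | C a =>
    rw [ev1_C']
    exact MeromorphicAt.const a t
  | add p q hp hq =>
    rw [map_add]
    exact hp.add hq
  | mul_X p o hp =>
    rw [map_mul, ev1_X']
    refine hp.mul ?_
    cases o with
    | none => exact hc
    | some j => exact ev1_it_mer hc hκ j

private theorem ev1_it_congr (h1 : c =ᶠ[𝓝[≠] t] c') (h2 : κ =ᶠ[𝓝[≠] t] κ') (j : ℕ) :
    (d1 c)^[j] κ =ᶠ[𝓝[≠] t] (d1 c')^[j] κ' := by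
  induction j with
  | zero => exact h2
  | succ j ih =>
    rw [Function.iterate_succ_apply', Function.iterate_succ_apply']
    filter_upwards [ih.nhdsNE_deriv, h1.nhdsNE_deriv] with s hs hs'
    show deriv _ s / deriv c s = deriv _ s / deriv c' s
    rw [hs, hs']

theorem ev1_congr (h1 : c =ᶠ[𝓝[≠] t] c') (h2 : κ =ᶠ[𝓝[≠] t] κ') (P : KR) :
    ev1 c κ P =ᶠ[𝓝[≠] t] ev1 c' κ' P := by
  unfold ev1
  induction P using MvPolynomial.induction_on with
  | C a =>
    rw [ev1_C', ev1_C']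
  | add p q hp hq =>
    rw [map_add, map_add]
    exact hp.add hq
  | mul_X p o hp =>
    rw [map_mul, map_mul, ev1_X', ev1_X']
    refine hp.mul ?_
    cases o with
    | none => exact h1
    | some j => exact ev1_it_congr h1 h2 j

/-- the identity theorem for meromorphic functions -/
theorem mer_ident {V : Set ℂ} (hV : IsPreconnected V) {f : ℂ → ℂ}
    (hf : ∀ t ∈ V, MeromorphicAt f t) {t₁ t₂ : ℂ} (h1 : t₁ ∈ V) (h2 : t₂ ∈ V)
    (h : ∀ᶠ s in 𝓝[≠] t₁, f s = 0) : ∀ᶠ s in 𝓝[≠] t₂, f s = 0 := by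
  have hg : MeromorphicOn f V := hf
  rw [← meromorphicOrderAt_eq_top_iff] at h ⊢
  by_contra hc
  exact hg.meromorphicOrderAt_ne_top_of_isPreconnected hV h2 h1 hc h

private theorem ev1_step {W : Set ℂ} (hW : IsOpen W) {e : ℂ} {N : ℕ} (hN : 0 < N)
    {w g : ℂ → ℂ}
    (hw : ∀ t ∈ W, AnalyticAt ℂ w t ∧ w t ≠ 0 ∧ deriv w t ≠ 0 ∧ AnalyticAt ℂ g (w t) ∧
      c t = e + w t ^ N ∧ κ t = g (w t)) (j : ℕ) : ∀ t ∈ W,
    (d1 c)^[j] κ t = (dg N)^[j] g (w t) ∧ AnalyticAt ℂ ((dg N)^[j] g) (w t) := by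
  induction j with
  | zero =>
    intro t ht
    obtain ⟨-, -, -, h4, -, h6⟩ := hw t ht
    exact ⟨h6, h4⟩
  | succ j ih =>
    intro t ht
    obtain ⟨h1, h2, h3, -, h5, -⟩ := hw t ht
    obtain ⟨ih1, ih2⟩ := ih t ht
    rw [Function.iterate_succ_apply', Function.iterate_succ_apply']
    have hNc : (N : ℂ) ≠ 0 := by
      exact_mod_cast hN.ne'
    have hden : (N : ℂ) * w t ^ (N - 1) ≠ 0 := mul_ne_zero hNc (pow_ne_zero _ h2)
    constructor
    · show deriv ((d1 c)^[j] κ) t / deriv c t =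
        deriv ((dg N)^[j] g) (w t) / (N * w t ^ (N - 1))
      have e1 : (d1 c)^[j] κ =ᶠ[𝓝 t] ((dg N)^[j] g) ∘ w := by
        filter_upwards [hW.mem_nhds ht] with s hs
        exact (ih s hs).1
      have e2 : c =ᶠ[𝓝 t] fun s => e + w s ^ N := by
        filter_upwards [hW.mem_nhds ht] with s hs
        exact (hw s hs).2.2.2.2.1
      have d1' : HasDerivAt (((dg N)^[j] g) ∘ w) (deriv ((dg N)^[j] g) (w t) * deriv w t) t :=
        HasDerivAt.comp t ih2.differentiableAt.hasDerivAt h1.differentiableAt.hasDerivAt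
      have d2' : HasDerivAt (fun s => e + w s ^ N) (N * w t ^ (N - 1) * deriv w t) t :=
        (h1.differentiableAt.hasDerivAt.fun_pow N).const_add e
      rw [e1.deriv_eq, e2.deriv_eq, d1'.deriv, d2'.deriv]
      field_simp
    · have h6 : AnalyticAt ℂ (fun v : ℂ => (N : ℂ) * v ^ (N - 1)) (w t) := by fun_prop
      exact ih2.deriv.div h6 hden

/-- composition with `w`, `c = e + w ^ N`, on an open set -/
theorem ev1_comp {W : Set ℂ} (hW : IsOpen W) {e : ℂ} {N : ℕ} (hN : 0 < N) {w g : ℂ → ℂ}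
    (hw : ∀ t ∈ W, AnalyticAt ℂ w t ∧ w t ≠ 0 ∧ deriv w t ≠ 0 ∧ AnalyticAt ℂ g (w t) ∧
      c t = e + w t ^ N ∧ κ t = g (w t)) (P : KR) {t : ℂ} (ht : t ∈ W) :
    ev1 c κ P t = evg e N g P (w t) := by
  unfold ev1 evg
  induction P using MvPolynomial.induction_on with
  | C a =>
    rw [ev1_C', ev1_C']
  | add p q hp hq =>
    rw [map_add, map_add, Pi.add_apply, Pi.add_apply, hp, hq]
  | mul_X p o hp =>
    rw [map_mul, map_mul, ev1_X', ev1_X', Pi.mul_apply, Pi.mul_apply, hp]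
    congr 1
    cases o with
    | none => exact (hw t ht).2.2.2.2.1
    | some j => exact (ev1_step hW hN hw j t ht).1

end Pool.Agent.MP_ae5b4e_an_NB1
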