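import Mathlib
import Pool.Agent.Lib.MP_ae5b4e_an_NB1.MerD

/-!
# MP_ae5b4e_an, project NB_1: differential polynomials of functions of two variables
-/

noncomputable section

namespace Pool.Agent.MP_ae5b4e_an_NB1

open Complex Set Filter Topology Metric
open Pool.Agent.MP_ae5b4e_an_NBT

variable {C κ G K : ℂ × ℂ → ℂ} {p : ℂ × ℂ}

/-- A relation which holds for constants and the variables and is stable under sums and products
holds for all values of differential polynomials. -/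
private theorem eva_rel {A B : Type*} [CommRing A] [Algebra ℂ A] [CommRing B] [Algebra ℂ B]
    {D : A → A} {D' : B → B} {x κ : A} {x' κ' : B} (R : A → B → Prop)
    (hC : ∀ a : ℂ, R (algebraMap ℂ A a) (algebraMap ℂ B a))
    (hadd : ∀ a b a' b', R a a' → R b b' → R (a + b) (a' + b'))
    (hmul : ∀ a b a' b', R a a' → R b b' → R (a * b) (a' * b'))
    (hx : R x x') (hK : ∀ j : ℕ, R (D^[j] κ) (D'^[j] κ')) (P : KR) :
    R (evD D x κ P) (evD D' x' κ' P) := by
  unfold evD
  induction P using MvPolynomial.induction_on with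
  | C a =>
    rw [MvPolynomial.aeval_C, MvPolynomial.aeval_C]
    exact hC a
  | add P Q hP hQ =>
    rw [map_add, map_add]
    exact hadd _ _ _ _ hP hQ
  | mul_X P n hP =>
    rw [map_mul, map_mul, MvPolynomial.aeval_X, MvPolynomial.aeval_X]
    refine hmul _ _ _ _ hP ?_
    cases n with
    | none => exact hx
    | some j => exact hK j

/-- the raw operator -/
private def evaD (C : ℂ × ℂ → ℂ) (f : ℂ × ℂ → ℂ) (q : ℂ × ℂ) : ℂ := pt f q / pt C q

private theorem evaD_analytic {f : ℂ × ℂ → ℂ} (hC : AnalyticAt ℂ C p) (ht : pt C p ≠ 0)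
    (hf : AnalyticAt ℂ f p) : AnalyticAt ℂ (evaD C f) p :=
  (analyticAt_pt hf).div (analyticAt_pt hC) ht

private theorem evaK_analytic (hC : AnalyticAt ℂ C p) (hκ : AnalyticAt ℂ κ p) (ht : pt C p ≠ 0)
    (j : ℕ) : AnalyticAt ℂ ((evaD C)^[j] κ) p := by
  induction j with
  | zero => exact hκ
  | succ j ih =>
    rw [Function.iterate_succ_apply']
    exact evaD_analytic hC ht ih

theorem evA_analytic (hC : AnalyticAt ℂ C p) (hκ : AnalyticAt ℂ κ p) (ht : pt C p ≠ 0) (P : KR) :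
    AnalyticAt ℂ (evA C κ P) p := by
  have h := eva_rel (D := evaD C) (D' := evaD C) (x := C) (κ := κ) (x' := C) (κ' := κ)
    (fun f _ => AnalyticAt ℂ f p) (fun _ => analyticAt_const)
    (fun _ _ _ _ h1 h2 => h1.add h2) (fun _ _ _ _ h1 h2 => h1.mul h2) hC
    (fun j => evaK_analytic hC hκ ht j) P
  exact h

private theorem eva_pt_add {f g : ℂ × ℂ → ℂ} {q : ℂ × ℂ} (v : ℂ × ℂ) (hf : AnalyticAt ℂ f q)
    (hg : AnalyticAt ℂ g q) :
    fderiv ℂ (f + g) q v = fderiv ℂ f q v + fderiv ℂ g q v := by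
  rw [fderiv_add hf.differentiableAt hg.differentiableAt]
  rfl

private theorem eva_pt_mul {f g : ℂ × ℂ → ℂ} {q : ℂ × ℂ} (v : ℂ × ℂ) (hf : AnalyticAt ℂ f q)
    (hg : AnalyticAt ℂ g q) :
    fderiv ℂ (f * g) q v = f q * fderiv ℂ g q v + g q * fderiv ℂ f q v := by
  rw [fderiv_mul hf.differentiableAt hg.differentiableAt]
  rfl

/-- the mixed partial derivatives -/
private theorem eva_symm {f : ℂ × ℂ → ℂ} {q : ℂ × ℂ} (hf : AnalyticAt ℂ f q) :
    fderiv ℂ (pt f) q (0, 1) = fderiv ℂ (pr f) q (1, 0) := by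
  have h1 : ∀ v w : ℂ × ℂ, fderiv ℂ (fun x => fderiv ℂ f x v) q w =
      fderiv ℂ (fderiv ℂ f) q w v := by
    intro v w
    have h2 : HasFDerivAt (fderiv ℂ f) (fderiv ℂ (fderiv ℂ f) q) q :=
      hf.fderiv.differentiableAt.hasFDerivAt
    have h3 := h2.clm_apply (hasFDerivAt_const v q)
    rw [h3.fderiv]
    simp
  have h4 : IsSymmSndFDerivAt ℂ f q := hf.contDiffAt.isSymmSndFDerivAt_of_omega
  have h5 := h1 (1, 0) (0, 1)
  have h6 := h1 (0, 1) (1, 0)
  unfold pt pr
  rw [h5, h6]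
  exact h4 (0, 1) (1, 0)

private theorem evaD_jac {f : ℂ × ℂ → ℂ} (hC : AnalyticAt ℂ C p) (ht : pt C p ≠ 0)
    (hf : AnalyticAt ℂ f p) (hJ : ∀ᶠ q in 𝓝 p, Jac f C q = 0) :
    ∀ᶠ q in 𝓝 p, Jac (evaD C f) C q = 0 := by
  have h0 : ∀ᶠ q in 𝓝 p, pt C q ≠ 0 := (analyticAt_pt hC).continuousAt.eventually_ne ht
  have h1 : ∀ᶠ q in 𝓝 p, pt f q = (evaD C f * pt C) q ∧ pr f q = (evaD C f * pr C) q := by
    filter_upwards [h0, hJ] with q hq hq'
    have h2 : pt f q * pr C q - pt C q * pr f q = 0 := hq'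
    constructor
    · show pt f q = pt f q / pt C q * pt C q
      rw [div_mul_cancel₀ _ hq]
    · show pr f q = pt f q / pt C q * pr C q
      field_simp
      linear_combination -h2
  filter_upwards [h0, h1.eventually_nhds, hC.eventually_analyticAt, hf.eventually_analyticAt]
    with q hq hq1 hCq hfq
  have hh : AnalyticAt ℂ (evaD C f) q := (analyticAt_pt hfq).div (analyticAt_pt hCq) hq
  have e1 : pt f =ᶠ[𝓝 q] evaD C f * pt C := hq1.mono fun x hx => hx.1
  have e2 : pr f =ᶠ[𝓝 q] evaD C f * pr C := hq1.mono fun x hx => hx.2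
  have h3 := eva_symm hfq
  rw [e1.fderiv_eq, e2.fderiv_eq, eva_pt_mul _ hh (analyticAt_pt hCq),
    eva_pt_mul _ hh (analyticAt_pr hCq), eva_symm hCq] at h3
  show fderiv ℂ (evaD C f) q (1, 0) * pr C q - pt C q * fderiv ℂ (evaD C f) q (0, 1) = 0
  linear_combination -h3

/-- differential polynomials of a function of `C` are functions of `C` -/
theorem evA_jac (hC : AnalyticAt ℂ C p) (hκ : AnalyticAt ℂ κ p) (ht : pt C p ≠ 0)
    (hJ : ∀ᶠ q in 𝓝 p, Jac κ C q = 0) (P : KR) : ∀ᶠ q in 𝓝 p, Jac (evA C κ P) C q = 0 := by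
  have h := eva_rel (D := evaD C) (D' := evaD C) (x := C) (κ := κ) (x' := C) (κ' := κ)
    (fun f _ => AnalyticAt ℂ f p ∧ ∀ᶠ q in 𝓝 p, Jac f C q = 0) ?_ ?_ ?_ ?_ ?_ P
  · exact h.2
  · intro a
    refine ⟨analyticAt_const, Eventually.of_forall fun q => ?_⟩
    have h1 : (algebraMap ℂ (ℂ × ℂ → ℂ) a) = fun _ => a := rfl
    unfold Jac
    rw [h1, fderiv_const_apply]
    simp
  · rintro a b - - ⟨h1, h2⟩ ⟨h3, h4⟩
    refine ⟨h1.add h3, ?_⟩
    filter_upwards [h1.eventually_analyticAt, h3.eventually_analyticAt, h2, h4]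
      with q g1 g2 g3 g4
    unfold Jac at g3 g4 ⊢
    rw [eva_pt_add _ g1 g2, eva_pt_add _ g1 g2]
    linear_combination g3 + g4
  · rintro a b - - ⟨h1, h2⟩ ⟨h3, h4⟩
    refine ⟨h1.mul h3, ?_⟩
    filter_upwards [h1.eventually_analyticAt, h3.eventually_analyticAt, h2, h4]
      with q g1 g2 g3 g4
    unfold Jac at g3 g4 ⊢
    rw [eva_pt_mul _ g1 g2, eva_pt_mul _ g1 g2]
    linear_combination b q * g3 + a q * g4
  · refine ⟨hC, Eventually.of_forall fun q => ?_⟩
    unfold Jac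
    ring
  · intro j
    refine ⟨evaK_analytic hC hκ ht j, ?_⟩
    induction j with
    | zero => exact hJ
    | succ j ih =>
      rw [Function.iterate_succ_apply']
      exact evaD_jac hC ht (evaK_analytic hC hκ ht j) ih

private theorem eva_line {f : ℂ × ℂ → ℂ} {t ρ : ℂ} (hf : AnalyticAt ℂ f (t, ρ)) :
    deriv (fun s => f (s, ρ)) t = pt f (t, ρ) := by
  have h1 : HasFDerivAt f (fderiv ℂ f (t, ρ)) (t, ρ) := hf.differentiableAt.hasFDerivAt
  have h2 : HasDerivAt (fun s : ℂ => (s, ρ)) ((1 : ℂ), (0 : ℂ)) t :=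
    (hasDerivAt_id t).prodMk (hasDerivAt_const t ρ)
  have h3 : HasDerivAt (fun s : ℂ => f (s, ρ)) (fderiv ℂ f (t, ρ) (1, 0)) t :=
    HasFDerivAt.comp_hasDerivAt t (f := fun s : ℂ => (s, ρ)) (l := f) h1 h2
  exact h3.deriv

private theorem eva_tend (p : ℂ × ℂ) : Tendsto (fun s : ℂ => (s, p.2)) (𝓝 p.1) (𝓝 p) := by
  have h : Continuous (fun s : ℂ => (s, p.2)) := by fun_prop
  exact h.tendsto p.1

/-- slices -/
theorem evA_slice (hC : AnalyticAt ℂ C p) (hκ : AnalyticAt ℂ κ p) (ht : pt C p ≠ 0) (P : KR) :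
    ∀ᶠ t in 𝓝 p.1, evA C κ P (t, p.2) =
      ev1 (fun s => C (s, p.2)) (fun s => κ (s, p.2)) P t := by
  have h := eva_rel (D := evaD C) (D' := d1 fun s => C (s, p.2)) (x := C) (κ := κ)
    (x' := fun s => C (s, p.2)) (κ' := fun s => κ (s, p.2))
    (fun f φ => ∀ᶠ t in 𝓝 p.1, f (t, p.2) = φ t) ?_ ?_ ?_ ?_ ?_ P
  · exact h
  · intro a
    exact Eventually.of_forall fun _ => rfl
  · intro a b a' b' h1 h2
    filter_upwards [h1, h2] with t g1 g2
    rw [Pi.add_apply, Pi.add_apply, g1, g2]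
  · intro a b a' b' h1 h2
    filter_upwards [h1, h2] with t g1 g2
    rw [Pi.mul_apply, Pi.mul_apply, g1, g2]
  · exact Eventually.of_forall fun _ => rfl
  · intro j
    induction j with
    | zero => exact Eventually.of_forall fun _ => rfl
    | succ j ih =>
      rw [Function.iterate_succ_apply', Function.iterate_succ_apply']
      have h1 := (eva_tend p).eventually (evaK_analytic hC hκ ht j).eventually_analyticAt
      have h2 := (eva_tend p).eventually hC.eventually_analyticAt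
      filter_upwards [ih.eventually_nhds, h1, h2] with t g1 g2 g3
      have e1 : (fun s => (evaD C)^[j] κ (s, p.2)) =ᶠ[𝓝 t]
          (d1 fun s => C (s, p.2))^[j] fun s => κ (s, p.2) := g1
      show pt ((evaD C)^[j] κ) (t, p.2) / pt C (t, p.2) =
        deriv ((d1 fun s => C (s, p.2))^[j] fun s => κ (s, p.2)) t /
          deriv (fun s => C (s, p.2)) t
      rw [← e1.deriv_eq, eva_line g2, eva_line g3]

theorem evM_mer (hG : MerAt G p) (hK : MerAt K p) (P : KR) : MerAt (evM G K P) p := by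
  have h := eva_rel (D := fun f q => dtM f q / dtM G q) (D' := fun f q => dtM f q / dtM G q)
    (x := G) (κ := K) (x' := G) (κ' := K) (fun f _ => MerAt f p)
    (fun _ => merAt_of_analyticAt analyticAt_const) (fun _ _ _ _ h1 h2 => h1.add h2)
    (fun _ _ _ _ h1 h2 => h1.mul h2) hG ?_ P
  · exact h
  · intro j
    induction j with
    | zero => exact hK
    | succ j ih =>
      rw [Function.iterate_succ_apply']
      exact ih.dtM.div hG.dtM

theorem evM_eq (hG : MerAt G p) (hK : MerAt K p) (hC : AnalyticAt ℂ C p) (hκ : AnalyticAt ℂ κ p)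
    (ht : pt C p ≠ 0) (h1 : EqM G C p) (h2 : EqM K κ p) (P : KR) :
    EqM (evM G K P) (evA C κ P) p := by
  have h := eva_rel (D := fun f q => dtM f q / dtM G q) (D' := evaD C)
    (x := G) (κ := K) (x' := C) (κ' := κ) (fun f g => EqM f g p)
    (fun _ => EqM.refl _ _) (fun _ _ _ _ h1 h2 => EqM.map₂ (fun x y => x + y) h1 h2)
    (fun _ _ _ _ h1 h2 => EqM.map₂ (fun x y => x * y) h1 h2) h1 ?_ P
  · exact h
  · intro j
    have hm : ∀ j : ℕ, MerAt ((fun f q => dtM f q / dtM G q)^[j] K) p := by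
      intro j
      induction j with
      | zero => exact hK
      | succ j ih =>
        rw [Function.iterate_succ_apply']
        exact ih.dtM.div hG.dtM
    induction j with
    | zero => exact h2
    | succ j ih =>
      rw [Function.iterate_succ_apply', Function.iterate_succ_apply']
      have e1 : EqM (dtM ((fun f q => dtM f q / dtM G q)^[j] K)) (pt ((evaD C)^[j] κ)) p :=
        (EqM.dtM (hm j) ih).trans
          (EqM.of_eventuallyEq (dtM_of_analyticAt (evaK_analytic hC hκ ht j)))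
      have e2 : EqM (dtM G) (pt C) p :=
        (EqM.dtM hG h1).trans (EqM.of_eventuallyEq (dtM_of_analyticAt hC))
      exact EqM.map₂ (fun x y => x / y) e1 e2

end Pool.Agent.MP_ae5b4e_an_NB1
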