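import Mathlib
import Pool.Agent.Lib.MP_ae5b4e_an_NB1.AnDefs
import Pool.Agent.Lib.MP_ae5b4e_an_NBT.Vert

/-!
# MP_ae5b4e_an, project NB_1: functions of `C` which vanish on a slice
-/

noncomputable section

namespace Pool.Agent.MP_ae5b4e_an_NB1

open Complex Set Filter Topology Metric
open Pool.Agent.MP_ae5b4e_an_NBT

private lemma tendsto_line (t ρ : ℂ) : Tendsto (fun s : ℂ => (s, ρ)) (𝓝 t) (𝓝 (t, ρ)) := by
  have : Continuous (fun s : ℂ => (s, ρ)) := by fun_prop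
  exact this.tendsto t

private lemma den_factor_swap {B : ℂ × ℂ → ℂ} {t₀ ρ : ℂ} (h : Den B (t₀, ρ)) :
    ∃ (k : ℕ) (B' : ℂ × ℂ → ℂ), AnalyticAt ℂ B' (t₀, ρ) ∧
      (¬ ∀ᶠ t in 𝓝 t₀, B' (t, ρ) = 0) ∧
      ∀ᶠ q in 𝓝 (t₀, ρ), B q = (q.2 - ρ) ^ k * B' q := by
  have hsw : ∀ q : ℂ × ℂ, AnalyticAt ℂ (Homeomorph.prodComm ℂ ℂ) q := by
    intro q
    change AnalyticAt ℂ (fun p : ℂ × ℂ => (p.2, p.1)) q
    exact analyticAt_snd.prod analyticAt_fst
  have h1 : Den (fun q : ℂ × ℂ => B (q.2, q.1)) (ρ, t₀) :=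
    Den.comp (B := B) (Homeomorph.prodComm ℂ ℂ) (p := (ρ, t₀)) (hsw _) h
  obtain ⟨k, B', hB', hB0, hBe⟩ := den_factor h1
  refine ⟨k, fun q => B' (q.2, q.1), ?_, hB0, ?_⟩
  · exact AnalyticAt.fun_comp (g := B') (f := fun q : ℂ × ℂ => (q.2, q.1)) (x := (t₀, ρ)) hB'
      (analyticAt_snd.prod analyticAt_fst)
  · have h2 : Tendsto (fun q : ℂ × ℂ => (q.2, q.1)) (𝓝 (t₀, ρ)) (𝓝 (ρ, t₀)) := by
      have : Continuous (fun q : ℂ × ℂ => (q.2, q.1)) := by fun_prop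
      exact this.tendsto (t₀, ρ)
    exact h2.eventually hBe

private lemma cont_fd {f : ℂ × ℂ → ℂ} {q : ℂ × ℂ} (hf : AnalyticAt ℂ f q) (v : ℂ × ℂ) :
    ContinuousAt (fun x => fderiv ℂ f x v) q := by
  have h1 : ContinuousAt (fderiv ℂ f) q := hf.fderiv.continuousAt
  exact h1.clm_apply continuousAt_const

/-- A function of `C` which vanishes on a slice `ρ = const` vanishes. -/
theorem leaf_slice {f C : ℂ × ℂ → ℂ} {p : ℂ × ℂ} (hf : AnalyticAt ℂ f p) (hC : AnalyticAt ℂ C p)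
    (ht : pt C p ≠ 0) (hJ : ∀ᶠ q in 𝓝 p, Jac f C q = 0)
    (h0 : ∀ᶠ t in 𝓝 p.1, f (t, p.2) = 0) : ∀ᶠ q in 𝓝 p, f q = 0 := by
  by_contra hne
  obtain ⟨k, B, hB, hB0, hfB⟩ := den_factor_swap (t₀ := p.1) (ρ := p.2) ⟨hf, hne⟩
  have hline := tendsto_line p.1 p.2
  rcases k with _ | m
  · apply hB0
    filter_upwards [h0, hline.eventually hfB] with t h1 h2
    rw [h1] at h2
    simpa using h2.symm
  -- the bracket
  let Φ : ℂ × ℂ → ℂ := fun q => (q.2 - p.2) *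
    (fderiv ℂ B q (1, 0) * fderiv ℂ C q (0, 1) - fderiv ℂ C q (1, 0) * fderiv ℂ B q (0, 1)) -
    ((m : ℂ) + 1) * fderiv ℂ C q (1, 0) * B q
  have hctC : ∀ᶠ q in 𝓝 p, fderiv ℂ C q (1, 0) ≠ 0 :=
    (cont_fd hC (1, 0)).eventually_ne ht
  have hjac : ∀ᶠ q in 𝓝 p, Jac f C q = (q.2 - p.2) ^ m * Φ q := by
    have hB' : AnalyticAt ℂ B p := hB
    have hfB' : ∀ᶠ q in 𝓝 p, f q = (q.2 - p.2) ^ (m + 1) * B q := hfB
    filter_upwards [hfB'.eventually_nhds, hB'.eventually_analyticAt] with q h1 h2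
    have h3 : fderiv ℂ f q = fderiv ℂ (fun q : ℂ × ℂ => (q.2 - p.2) ^ (m + 1) * B q) q :=
      Filter.EventuallyEq.fderiv_eq h1
    have h4 : HasFDerivAt (fun q : ℂ × ℂ => q.2 - p.2) (ContinuousLinearMap.snd ℂ ℂ ℂ) q :=
      hasFDerivAt_snd.sub_const _
    have h5 := (h4.pow (m + 1)).mul h2.differentiableAt.hasFDerivAt
    have h6 := h5.fderiv
    have h7 : ∀ v : ℂ × ℂ, fderiv ℂ f q v = (q.2 - p.2) ^ (m + 1) * fderiv ℂ B q v +
        B q * (((m : ℂ) + 1) * (q.2 - p.2) ^ m * v.2) := by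
      intro v
      rw [h3]
      have h8 : (fun q : ℂ × ℂ => (q.2 - p.2) ^ (m + 1) * B q) =
        (fun x : ℂ × ℂ => (x.2 - p.2) ^ (m + 1)) * B := rfl
      rw [h8, h6]
      simp
    unfold Jac
    rw [h7, h7]
    simp only [Φ]
    ring
  have hcon : ∀ᶠ q in 𝓝 p, q.2 ≠ p.2 → Φ q = 0 := by
    filter_upwards [hJ, hjac] with q h1 h2 h3
    rw [h1] at h2
    rcases mul_eq_zero.1 h2.symm with h4 | h4
    · exact absurd h4 (pow_ne_zero m (sub_ne_zero.2 h3))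
    · exact h4
  have hΦc : ∀ᶠ q in 𝓝 p, ContinuousAt Φ q := by
    have hB' : AnalyticAt ℂ B p := hB
    filter_upwards [hB'.eventually_analyticAt, hC.eventually_analyticAt] with q h1 h2
    have c1 := cont_fd h1 (1, 0)
    have c2 := cont_fd h1 (0, 1)
    have c3 := cont_fd h2 (1, 0)
    have c4 := cont_fd h2 (0, 1)
    have c5 : ContinuousAt (fun q : ℂ × ℂ => q.2 - p.2) q := by fun_prop
    exact (c5.mul ((c1.mul c4).sub (c3.mul c2))).sub
      ((continuousAt_const.mul c3).mul h1.continuousAt)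
  apply hB0
  filter_upwards [hline.eventually hcon.eventually_nhds, hline.eventually hΦc,
    hline.eventually hctC] with t h1 h2 h3
  have h4 : Tendsto (fun s : ℂ => (t, s)) (𝓝[≠] p.2) (𝓝 (t, p.2)) := by
    have : Continuous (fun s : ℂ => (t, s)) := by fun_prop
    exact (this.tendsto p.2).mono_left nhdsWithin_le_nhds
  have h5 : Tendsto (fun s : ℂ => Φ (t, s)) (𝓝[≠] p.2) (𝓝 (Φ (t, p.2))) := h2.tendsto.comp h4
  have h6 : ∀ᶠ s in 𝓝[≠] p.2, Φ (t, s) = 0 := by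
    filter_upwards [h4.eventually h1, self_mem_nhdsWithin] with s hs1 hs2
    exact hs1 hs2
  have h7 : Φ (t, p.2) = 0 := by
    refine tendsto_nhds_unique h5 ?_
    exact tendsto_const_nhds.congr' (h6.mono fun s hs => hs.symm)
  simp only [Φ, sub_self, zero_mul, zero_sub, neg_eq_zero, mul_eq_zero] at h7
  rcases h7 with (h7 | h7) | h7
  · exfalso
    have h8 : ((m + 1 : ℕ) : ℂ) = 0 := by push_cast; exact h7
    exact Nat.succ_ne_zero m (by exact_mod_cast h8)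
  · exact absurd h7 h3
  · exact h7

end Pool.Agent.MP_ae5b4e_an_NB1
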