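import Mathlib
import Pool.Agent.Lib.MP_ae5b4e_an_NB1.EvA
import Pool.Agent.Lib.MP_ae5b4e_an_NB1.LeafS

/-!
# MP_ae5b4e_an, project NB_1: differential relations are transported to another slice
-/

noncomputable section

namespace Pool.Agent.MP_ae5b4e_an_NB1

open Complex Set Filter Topology Metric
open Pool.Agent.MP_ae5b4e_an_NBT

private lemma tendsto_line' (t ρ : ℂ) : Tendsto (fun s : ℂ => (s, ρ)) (𝓝 t) (𝓝 (t, ρ)) := by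
  have : Continuous (fun s : ℂ => (s, ρ)) := by fun_prop
  exact this.tendsto t

private lemma mer_zero (O : Set (ℂ × ℂ)) : Mer (fun _ => (0 : ℂ)) O :=
  fun p _ => merAt_of_analyticAt analyticAt_const

private lemma eqM_zero {f : ℂ × ℂ → ℂ} {p : ℂ × ℂ} (h : ∀ᶠ q in 𝓝 p, f q = 0) :
    EqM f (fun _ => (0 : ℂ)) p := EqM.of_eventuallyEq h

private lemma analyticAt_Jac {f g : ℂ × ℂ → ℂ} {p : ℂ × ℂ} (hf : AnalyticAt ℂ f p)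
    (hg : AnalyticAt ℂ g p) : AnalyticAt ℂ (Jac f g) p :=
  ((analyticAt_pt hf).mul (analyticAt_pr hg)).sub ((analyticAt_pt hg).mul (analyticAt_pr hf))

/-- A differential polynomial relation near `p₀` is equivalent to the relation on the slice
`ρ = p₂.2` near `p₂`. -/
theorem ker_transfer {O : Set (ℂ × ℂ)} (hO : IsPreconnected O) {G K : ℂ × ℂ → ℂ} (hG : Mer G O)
    (hK : Mer K O) {p₀ p₂ : ℂ × ℂ} (h0 : p₀ ∈ O) (h2 : p₂ ∈ O) {C₀ κ₀ C₂ κ₂ : ℂ × ℂ → ℂ}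
    (hC₀ : AnalyticAt ℂ C₀ p₀) (hκ₀ : AnalyticAt ℂ κ₀ p₀) (ht₀ : pt C₀ p₀ ≠ 0)
    (hJ : ∀ᶠ q in 𝓝 p₀, Jac κ₀ C₀ q = 0) (e1 : EqM G C₀ p₀) (e2 : EqM K κ₀ p₀)
    (hC₂ : AnalyticAt ℂ C₂ p₂) (hκ₂ : AnalyticAt ℂ κ₂ p₂) (ht₂ : pt C₂ p₂ ≠ 0)
    (e3 : EqM G C₂ p₂) (e4 : EqM K κ₂ p₂) (P : KR) :
    (∀ᶠ q in 𝓝 p₀, evA C₀ κ₀ P q = 0) ↔
      ∀ᶠ t in 𝓝 p₂.1, ev1 (fun s => C₂ (s, p₂.2)) (fun s => κ₂ (s, p₂.2)) P t = 0 := by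
  have hM : Mer (evM G K P) O := fun p hp => evM_mer (hG p hp) (hK p hp) P
  have hE0 : EqM (evM G K P) (evA C₀ κ₀ P) p₀ := evM_eq (hG p₀ h0) (hK p₀ h0) hC₀ hκ₀ ht₀ e1 e2 P
  have hE2 : EqM (evM G K P) (evA C₂ κ₂ P) p₂ := evM_eq (hG p₂ h2) (hK p₂ h2) hC₂ hκ₂ ht₂ e3 e4 P
  have hA0 := evA_analytic hC₀ hκ₀ ht₀ P
  have hA2 := evA_analytic hC₂ hκ₂ ht₂ P
  have hsl := evA_slice hC₂ hκ₂ ht₂ P
  constructor
  · intro h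
    have h3 : EqM (evM G K P) (fun _ => (0 : ℂ)) p₀ := hE0.trans (eqM_zero h)
    have h4 := Mer.eqM hO hM (mer_zero O) h0 h3 p₂ h2
    have h5 : EqM (evA C₂ κ₂ P) (fun _ => (0 : ℂ)) p₂ := hE2.symm.trans h4
    have h6 : ∀ᶠ q in 𝓝 p₂, evA C₂ κ₂ P q = 0 := h5.eventuallyEq hA2 analyticAt_const
    filter_upwards [hsl, (tendsto_line' p₂.1 p₂.2).eventually h6] with t h7 h8
    rw [← h7, h8]
  · intro h
    -- the Jacobian vanishes near `p₂`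
    have hJM : Mer (JM K G) O := fun p hp => MerAt.JM (hK p hp) (hG p hp)
    have h3 : EqM (JM K G) (JM κ₀ C₀) p₀ := EqM.JM (hK p₀ h0) (hG p₀ h0) e2 e1
    have h4 : ∀ᶠ q in 𝓝 p₀, JM κ₀ C₀ q = 0 := by
      filter_upwards [JM_of_analyticAt hκ₀ hC₀, hJ] with q h5 h6
      rw [h5, h6]
    have h5 := Mer.eqM hO hJM (mer_zero O) h0 (h3.trans (eqM_zero h4)) p₂ h2
    have h6 : EqM (JM K G) (JM κ₂ C₂) p₂ := EqM.JM (hK p₂ h2) (hG p₂ h2) e4 e3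
    have h7 : EqM (JM κ₂ C₂) (Jac κ₂ C₂) p₂ := EqM.of_eventuallyEq (JM_of_analyticAt hκ₂ hC₂)
    have h8 : ∀ᶠ q in 𝓝 p₂, Jac κ₂ C₂ q = 0 :=
      EqM.eventuallyEq (analyticAt_Jac hκ₂ hC₂) analyticAt_const
        (h7.symm.trans (h6.symm.trans h5))
    have h9 := evA_jac hC₂ hκ₂ ht₂ h8 P
    have h10 : ∀ᶠ t in 𝓝 p₂.1, evA C₂ κ₂ P (t, p₂.2) = 0 := by
      filter_upwards [hsl, h] with t h11 h12
      rw [h11, h12]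
    have h11 := leaf_slice hA2 hC₂ ht₂ h9 h10
    have h12 : EqM (evM G K P) (fun _ => (0 : ℂ)) p₂ := hE2.trans (eqM_zero h11)
    have h13 := Mer.eqM hO hM (mer_zero O) h2 h12 p₀ h0
    exact (hE0.symm.trans h13).eventuallyEq hA0 analyticAt_const

end Pool.Agent.MP_ae5b4e_an_NB1
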