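import Mathlib
import Pool.Agent.Lib.MP_ae5b4e_an_NB1.AnDefs

/-!
# MP_ae5b4e_an, project NB_1: Laurent expansions of meromorphic germs
-/

noncomputable section

namespace Pool.Agent.MP_ae5b4e_an_NB1

open Complex Set Filter Topology Metric
open Pool.Agent.MP_ae5b4e_an_ND (HasPS)
open Pool.Agent.Lib.Puiseux (rot)

variable {f g : ℂ → ℂ} {ℓ ℓ' : LaurentSeries ℂ}

/-- the monomial -/
private def sg (n : ℤ) : LaurentSeries ℂ := HahnSeries.single n (1:ℂ)

private lemma sg_mul (a b : ℤ) : sg a * sg b = sg (a + b) := by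
  unfold sg
  rw [HahnSeries.single_mul_single, one_mul]

private lemma sg_zero : sg 0 = 1 := rfl

private lemma sg_nat (n : ℕ) : sg n = HahnSeries.ofPowerSeries ℤ ℂ (PowerSeries.X ^ n) := by
  rw [HahnSeries.ofPowerSeries_X_pow]
  rfl

private lemma hasPS_X_pow (n : ℕ) : HasPS (fun v => v ^ n) (PowerSeries.X ^ n) := by
  have h := HasPS.polynomial (Polynomial.X ^ n : Polynomial ℂ)
  simpa using h

/-- a larger exponent -/
private lemma raise {c : ℕ} {g : ℂ → ℂ} {p : PowerSeries ℂ} (hg : HasPS g p)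
    (hℓ : ℓ = sg (-(c : ℤ)) * HahnSeries.ofPowerSeries ℤ ℂ p)
    (hf : ∀ᶠ v in 𝓝[≠] (0:ℂ), f v = g v / v ^ c) (d : ℕ) :
    ∃ (g' : ℂ → ℂ) (p' : PowerSeries ℂ), HasPS g' p' ∧
      ℓ = sg (-((c + d : ℕ) : ℤ)) * HahnSeries.ofPowerSeries ℤ ℂ p' ∧
      ∀ᶠ v in 𝓝[≠] (0:ℂ), f v = g' v / v ^ (c + d) := by
  refine ⟨fun v => g v * v ^ d, p * PowerSeries.X ^ d, hg.mul (hasPS_X_pow d), ?_, ?_⟩
  · rw [map_mul, ← sg_nat, hℓ, mul_comm (HahnSeries.ofPowerSeries ℤ ℂ p), ← mul_assoc, sg_mul]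
    congr 2
    push_cast
    ring
  · filter_upwards [hf, self_mem_nhdsWithin] with v h1 h2
    have hv : v ≠ 0 := h2
    rw [h1, pow_add]
    field_simp

theorem exists_lExp (hf : MeromorphicAt f 0) : ∃ ℓ, LExp f ℓ := by
  obtain ⟨n, hn⟩ := hf
  obtain ⟨p, hp⟩ := HasPS.exists_of_analyticAt hn
  refine ⟨_, n, _, p, hp, rfl, ?_⟩
  filter_upwards [self_mem_nhdsWithin] with v hv
  have hv' : v ≠ 0 := hv
  have h1 : v ^ n ≠ 0 := pow_ne_zero _ hv'
  simp only [sub_zero, smul_eq_mul]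
  rw [mul_comm, mul_div_assoc, div_self h1, mul_one]

theorem LExp.mer (h : LExp f ℓ) : MeromorphicAt f 0 := by
  obtain ⟨c, g, p, hg, -, hf⟩ := h
  have h1 : MeromorphicAt (fun v : ℂ => g v / v ^ c) 0 :=
    hg.analyticAt.meromorphicAt.fun_div ((analyticAt_id.fun_pow c).meromorphicAt)
  exact h1.congr (hf.mono fun v hv => hv.symm)

theorem LExp.congr (h : LExp f ℓ) (hfg : ∀ᶠ v in 𝓝[≠] (0:ℂ), f v = g v) : LExp g ℓ := by
  obtain ⟨c, g', p, hg, hℓ, hf⟩ := h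
  refine ⟨c, g', p, hg, hℓ, ?_⟩
  filter_upwards [hf, hfg] with v h1 h2
  rw [← h2, h1]

theorem LExp.const (a : ℂ) : LExp (fun _ => a) (HahnSeries.C a) := by
  refine ⟨0, fun _ => a, PowerSeries.C a, ?_, ?_, ?_⟩
  · simpa using HasPS.polynomial (Polynomial.C a)
  · rw [HahnSeries.ofPowerSeries_C]
    have : (HahnSeries.single (-((0 : ℕ) : ℤ)) (1:ℂ) : LaurentSeries ℂ) = 1 := by
      simp
    rw [this, one_mul]
  · exact Eventually.of_forall fun v => by simp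

theorem LExp.add (hf : LExp f ℓ) (hg : LExp g ℓ') : LExp (fun v => f v + g v) (ℓ + ℓ') := by
  obtain ⟨c, g1, p1, h1, h2, h3⟩ := hf
  obtain ⟨d, g2, p2, h4, h5, h6⟩ := hg
  obtain ⟨g1', p1', a1, a2, a3⟩ := raise h1 h2 h3 d
  obtain ⟨g2', p2', b1, b2, b3⟩ := raise h4 h5 h6 c
  rw [add_comm d c] at b2 b3
  refine ⟨c + d, fun v => g1' v + g2' v, p1' + p2', a1.add b1, ?_, ?_⟩
  · rw [a2, b2, map_add, mul_add]
    rfl
  · filter_upwards [a3, b3] with v h7 h8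
    rw [h7, h8, add_div]

theorem LExp.mul (hf : LExp f ℓ) (hg : LExp g ℓ') : LExp (fun v => f v * g v) (ℓ * ℓ') := by
  obtain ⟨c, g1, p1, h1, h2, h3⟩ := hf
  obtain ⟨d, g2, p2, h4, h5, h6⟩ := hg
  refine ⟨c + d, fun v => g1 v * g2 v, p1 * p2, h1.mul h4, ?_, ?_⟩
  · have h7 : (HahnSeries.single (-((c + d : ℕ) : ℤ)) (1:ℂ) : LaurentSeries ℂ) =
        HahnSeries.single (-(c : ℤ)) (1:ℂ) * HahnSeries.single (-(d : ℤ)) (1:ℂ) := by
      rw [HahnSeries.single_mul_single, one_mul]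
      congr 1
      push_cast
      ring_nf
    rw [h2, h5, map_mul, h7]
    ring
  · filter_upwards [h3, h6] with v h7 h8
    rw [h7, h8, pow_add, div_mul_div_comm]

theorem LExp.eq_zero_iff (h : LExp f ℓ) : ℓ = 0 ↔ ∀ᶠ v in 𝓝[≠] (0:ℂ), f v = 0 := by
  obtain ⟨c, g, p, hg, hℓ, hf⟩ := h
  have hℓ' : ℓ = sg (-(c : ℤ)) * HahnSeries.ofPowerSeries ℤ ℂ p := hℓ
  have h1 : ℓ = 0 ↔ p = 0 := by
    constructor
    · intro h0
      have h2 : sg (c : ℤ) * ℓ = HahnSeries.ofPowerSeries ℤ ℂ p := by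
        rw [hℓ', ← mul_assoc, sg_mul, add_neg_cancel, sg_zero, one_mul]
      rw [h0, mul_zero] at h2
      exact HahnSeries.ofPowerSeries_injective (Γ := ℤ) (by rw [← h2, map_zero])
    · rintro rfl
      rw [hℓ', map_zero, mul_zero]
  rw [h1]
  constructor
  · rintro rfl
    have h2 := hg.eq_zero
    filter_upwards [hf, h2.filter_mono nhdsWithin_le_nhds] with v h3 h4
    rw [h3, h4, zero_div]
  · intro h0
    have h2 : ∀ᶠ v in 𝓝[≠] (0:ℂ), g v = 0 := by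
      filter_upwards [hf, h0, self_mem_nhdsWithin] with v h3 h4 h5
      have hv : v ≠ 0 := h5
      rw [h4] at h3
      rcases div_eq_zero_iff.1 h3.symm with h6 | h6
      · exact h6
      · exact absurd h6 (pow_ne_zero _ hv)
    have h3 : ∀ᶠ v in 𝓝 (0:ℂ), g v = 0 :=
      (hg.analyticAt.frequently_zero_iff_eventually_zero).1 h2.frequently
    have h4 : HasPS (fun _ => (0:ℂ)) (0 : PowerSeries ℂ) := by
      simpa using HasPS.polynomial (0 : Polynomial ℂ)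
    exact (hg.congr h3).unique h4

theorem LExp.unique (h : LExp f ℓ) (h' : LExp f ℓ') : ℓ = ℓ' := by
  have h1 := h.add ((LExp.const (-1)).mul h')
  have h2 := h1.eq_zero_iff.2 (Eventually.of_forall fun v => by
    show f v + -1 * f v = 0
    ring)
  have h3 : (HahnSeries.C (-1 : ℂ) : LaurentSeries ℂ) = -1 := by
    rw [map_neg, map_one]
  rw [h3] at h2
  have h4 : ℓ - ℓ' = 0 := by
    rw [← h2]
    ring
  exact sub_eq_zero.1 h4

theorem LExp.coord (e : ℂ) {N : ℕ} (hN : 0 < N) : LExp (fun v => e + v ^ N) (xL e N) := by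
  refine ⟨0, fun v => e + v ^ N, PowerSeries.C e + PowerSeries.X ^ N, ?_, ?_, ?_⟩
  · have h := HasPS.polynomial (Polynomial.C e + Polynomial.X ^ N : Polynomial ℂ)
    simpa using h
  · have : (HahnSeries.single (-((0 : ℕ) : ℤ)) (1:ℂ) : LaurentSeries ℂ) = 1 := by
      simp
    rw [this, one_mul, map_add, HahnSeries.ofPowerSeries_C, HahnSeries.ofPowerSeries_X_pow]
    rfl
  · exact Eventually.of_forall fun v => by simp

end Pool.Agent.MP_ae5b4e_an_NB1
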