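import Mathlib
import Pool.Agent.Lib.MP_ae5b4e_an_NB1.LExpA

/-!
# MP_ae5b4e_an, project NB_1: Laurent expansions, derivative, rotation, differential polynomials
-/

noncomputable section

namespace Pool.Agent.MP_ae5b4e_an_NB1

open Complex Set Filter Topology Metric
open Pool.Agent.MP_ae5b4e_an_ND (HasPS)
open Pool.Agent.Lib.Puiseux (rot)

variable {f g : ℂ → ℂ} {ℓ ℓ' : LaurentSeries ℂ}

/-- The Euler operator. -/
private def lexpb_thFun (x : LaurentSeries ℂ) : LaurentSeries ℂ where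
  coeff := fun j => (j : ℂ) * x.coeff j
  isPWO_support' := x.isPWO_support.mono fun j hj => by
    rw [Function.mem_support] at hj
    exact (HahnSeries.mem_support _ _).mpr (right_ne_zero_of_mul hj)

private theorem lexpb_th_coeff (x : LaurentSeries ℂ) (j : ℤ) :
    (lexpb_thFun x).coeff j = (j : ℂ) * x.coeff j := rfl

private theorem lexpb_th_supp (x : LaurentSeries ℂ) :
    (lexpb_thFun x).support ⊆ x.support := fun j hj => by
  rw [HahnSeries.mem_support, lexpb_th_coeff] at hj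
  exact (HahnSeries.mem_support _ _).mpr (right_ne_zero_of_mul hj)

private theorem lexpb_th_mul (x y : LaurentSeries ℂ) :
    lexpb_thFun (x * y) = x * lexpb_thFun y + y * lexpb_thFun x := by
  ext j
  rw [HahnSeries.coeff_add, mul_comm y, lexpb_th_coeff, HahnSeries.coeff_mul,
    HahnSeries.coeff_mul_right' y.isPWO_support (lexpb_th_supp y),
    HahnSeries.coeff_mul_left' x.isPWO_support (lexpb_th_supp x), Finset.mul_sum,
    ← Finset.sum_add_distrib]
  refine Finset.sum_congr rfl fun a ha => ?_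
  rw [Finset.mem_antidiagonal] at ha
  rw [lexpb_th_coeff, lexpb_th_coeff, ← ha.2.2]
  push_cast
  ring

private theorem lexpb_alg (a : ℂ) : algebraMap ℂ (LaurentSeries ℂ) a = HahnSeries.C a := by
  rw [HahnSeries.algebraMap_apply']
  exact HahnSeries.ofPowerSeries_C a

private theorem lexpb_smul (N : ℕ) (a : ℂ) (x : LaurentSeries ℂ) :
    HahnSeries.single (-(N : ℤ)) ((N : ℂ)⁻¹) * lexpb_thFun (algebraMap ℂ (LaurentSeries ℂ) a * x) =
      a • (HahnSeries.single (-(N : ℤ)) ((N : ℂ)⁻¹) * lexpb_thFun x) := by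
  ext j
  rw [HahnSeries.coeff_smul, HahnSeries.coeff_single_mul, HahnSeries.coeff_single_mul,
    lexpb_th_coeff, lexpb_th_coeff, lexpb_alg, HahnSeries.C_apply,
    HahnSeries.coeff_single_mul, sub_zero, smul_eq_mul]
  ring

/-- `d/dz`, `z = v ^ N`. -/
private def lexpb_d (N : ℕ) : Derivation ℂ (LaurentSeries ℂ) (LaurentSeries ℂ) :=
  Derivation.mk'
    (@LinearMap.mk ℂ ℂ _ _ (RingHom.id ℂ) (LaurentSeries ℂ) (LaurentSeries ℂ) _ _
      Algebra.toModule HahnSeries.instModule
      ⟨fun x => HahnSeries.single (-(N : ℤ)) ((N : ℂ)⁻¹) * lexpb_thFun x, by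
        intro x y
        rw [← mul_add]
        congr 1
        ext j
        rw [HahnSeries.coeff_add, lexpb_th_coeff, lexpb_th_coeff, lexpb_th_coeff,
          HahnSeries.coeff_add, mul_add]⟩
      (by
        intro a x
        have h := lexpb_smul N a x
        rw [← Algebra.smul_def] at h
        exact h))
    (by
      intro x y
      show HahnSeries.single (-(N : ℤ)) ((N : ℂ)⁻¹) * lexpb_thFun (x * y) =
        x * (HahnSeries.single (-(N : ℤ)) ((N : ℂ)⁻¹) * lexpb_thFun y) +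
        y * (HahnSeries.single (-(N : ℤ)) ((N : ℂ)⁻¹) * lexpb_thFun x)
      rw [lexpb_th_mul]
      ring)

private theorem lexpb_d_apply (N : ℕ) (x : LaurentSeries ℂ) :
    lexpb_d N x = HahnSeries.single (-(N : ℤ)) ((N : ℂ)⁻¹) * lexpb_thFun x := rfl

/-- The coefficients of a power series. -/
private theorem lexpb_coeff_ps (p : PowerSeries ℂ) (j : ℤ) :
    (HahnSeries.ofPowerSeries ℤ ℂ p).coeff j =
      if j < 0 then 0 else PowerSeries.coeff j.natAbs p :=
  PowerSeries.coeff_coe p j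

private theorem lexpb_coeff_eq {f : ℂ → ℂ} {p : PowerSeries ℂ} (h : HasPS f p) (n : ℕ) :
    PowerSeries.coeff n p = iteratedDeriv n f 0 / (n.factorial : ℂ) := by
  have h1 := (Pool.Agent.MP_ae5b4e_an_ND.HasPS.iff_fps.1 h).eq_formalMultilinearSeries
    h.analyticAt.hasFPowerSeriesAt
  have h2 := congrArg (fun P => P.coeff n) h1
  simpa using h2

/-- The derivative. -/
private theorem lexpb_deriv {f : ℂ → ℂ} {p : PowerSeries ℂ} (h : HasPS f p) :
    HasPS (deriv f) (PowerSeries.mk fun n => ((n : ℂ) + 1) * PowerSeries.coeff (n + 1) p) := by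
  obtain ⟨q, hq⟩ := Pool.Agent.MP_ae5b4e_an_ND.HasPS.exists_of_analyticAt h.analyticAt.deriv
  have e1 : (PowerSeries.mk fun n => ((n : ℂ) + 1) * PowerSeries.coeff (n + 1) p) = q := by
    ext n
    rw [PowerSeries.coeff_mk, lexpb_coeff_eq h, lexpb_coeff_eq hq, iteratedDeriv_succ',
      Nat.factorial_succ]
    have h1 : ((n : ℂ) + 1) ≠ 0 := Nat.cast_add_one_ne_zero n
    have h2 : (n.factorial : ℂ) ≠ 0 := by exact_mod_cast n.factorial_ne_zero
    push_cast
    field_simp
  rw [e1]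
  exact hq

private theorem lexpb_const (a : ℂ) : HasPS (fun _ => a) (PowerSeries.C a) := by
  have h := Pool.Agent.MP_ae5b4e_an_ND.HasPS.polynomial (Polynomial.C a)
  simpa using h

private theorem lexpb_id : HasPS (fun w => w) PowerSeries.X := by
  have h := Pool.Agent.MP_ae5b4e_an_ND.HasPS.polynomial Polynomial.X
  simpa using h

/-- the derivation `d/dz` exists -/
theorem exists_dz {N : ℕ} (hN : 0 < N) :
    ∃ d : Derivation ℂ (LaurentSeries ℂ) (LaurentSeries ℂ), IsDz N d := by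
  refine ⟨lexpb_d N, hN, fun f n => ?_⟩
  rw [lexpb_d_apply, HahnSeries.coeff_single_mul, lexpb_th_coeff, sub_neg_eq_add]
  push_cast
  rw [div_eq_mul_inv]
  ring

theorem LExp.dg (h : LExp f ℓ) {N : ℕ} {d : Derivation ℂ (LaurentSeries ℂ) (LaurentSeries ℂ)}
    (hd : IsDz N d) : LExp (dg N f) (d ℓ) := by
  obtain ⟨c, G, p, hG, hl, hf⟩ := h
  have hN := hd.pos
  have hN0 : (N : ℂ) ≠ 0 := Nat.cast_ne_zero.mpr hN.ne'
  refine ⟨c + N, fun v => (N : ℂ)⁻¹ * (v * deriv G v + (-(c : ℂ)) * G v),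
    PowerSeries.C (N : ℂ)⁻¹ * (PowerSeries.X *
      (PowerSeries.mk fun n => ((n : ℂ) + 1) * PowerSeries.coeff (n + 1) p) +
      PowerSeries.C (-(c : ℂ)) * p),
    (lexpb_const _).mul ((lexpb_id.mul (lexpb_deriv hG)).add ((lexpb_const _).mul hG)), ?_, ?_⟩
  · ext n
    rw [hd.coeff, hl, HahnSeries.coeff_single_mul, HahnSeries.coeff_single_mul, one_mul, one_mul,
      lexpb_coeff_ps, lexpb_coeff_ps]
    have e1 : n - (-((c + N : ℕ) : ℤ)) = n + N - (-(c : ℤ)) := by
      push_cast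
      ring
    rw [e1]
    split_ifs with hj
    · rw [mul_zero]
    · obtain ⟨k, hk⟩ : ∃ k : ℕ, n + N - (-(c : ℤ)) = k := ⟨(n + N - (-(c : ℤ))).toNat, by omega⟩
      rw [hk, Int.natAbs_natCast]
      have e2 : (n : ℂ) + N = k - c := by
        have h3 : n + N = (k : ℤ) - c := by omega
        have h4 : ((n + N : ℤ) : ℂ) = (((k : ℤ) - c : ℤ) : ℂ) := by rw [h3]
        push_cast at h4
        exact h4
      rw [e2, PowerSeries.coeff_C_mul, map_add, PowerSeries.coeff_C_mul]
      have e3 : PowerSeries.coeff k (PowerSeries.X *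
          (PowerSeries.mk fun n => ((n : ℂ) + 1) * PowerSeries.coeff (n + 1) p)) =
          (k : ℂ) * PowerSeries.coeff k p := by
        cases k with
        | zero => simp
        | succ k =>
          rw [PowerSeries.coeff_succ_X_mul, PowerSeries.coeff_mk]
          push_cast
          ring
      rw [e3]
      field_simp
      ring
  · have h2 : ∀ᶠ v in 𝓝[≠] (0:ℂ), DifferentiableAt ℂ G v :=
      (hG.analyticAt.eventually_analyticAt.filter_mono nhdsWithin_le_nhds).mono
        fun v hv => hv.differentiableAt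
    have h3 : ∀ᶠ v in 𝓝[≠] (0:ℂ), ∀ᶠ w in 𝓝 v, f w = G w / w ^ c := by
      have h4 := eventually_eventually_nhdsWithin.2 hf
      filter_upwards [h4, self_mem_nhdsWithin, hf] with v hv hv0 hv1
      rw [isOpen_compl_singleton.nhdsWithin_eq hv0] at hv
      exact hv
    filter_upwards [h2, h3, self_mem_nhdsWithin] with v hv2 hv3 hv0
    have hv0' : v ≠ 0 := hv0
    have e1 : deriv f v = (deriv G v * v ^ c - G v * (c * v ^ (c - 1))) / (v ^ c) ^ 2 := by
      have h5 : f =ᶠ[𝓝 v] fun w => G w / w ^ c := hv3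
      rw [h5.deriv_eq]
      have h6 : HasDerivAt (fun w : ℂ => w ^ c) (c * v ^ (c - 1)) v := hasDerivAt_pow c v
      exact (hv2.hasDerivAt.div h6 (pow_ne_zero _ hv0')).deriv
    unfold Pool.Agent.MP_ae5b4e_an_NB1.dg
    rw [e1]
    obtain ⟨M, rfl⟩ : ∃ M, N = M + 1 := ⟨N - 1, by omega⟩
    rw [Nat.add_sub_cancel]
    cases c with
    | zero =>
      simp only [Nat.cast_zero, zero_mul, mul_zero, sub_zero, pow_zero, mul_one, neg_zero,
        add_zero, zero_add, one_pow, div_one]
      field_simp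
      ring
    | succ c =>
      rw [Nat.add_sub_cancel]
      field_simp
      ring

theorem LExp.rot (h : LExp f ℓ) (ζ : ℂˣ) :
    LExp (fun v => f (ζ * v)) (Pool.Agent.Lib.Puiseux.rot ζ ℓ) := by
  obtain ⟨c, G, p, hG, hl, hf⟩ := h
  have hζ : (ζ : ℂ) ≠ 0 := ζ.ne_zero
  have ht : Tendsto (fun v : ℂ => (ζ : ℂ) * v) (𝓝 0) (𝓝 0) := by
    have h1 : Continuous fun v : ℂ => (ζ : ℂ) * v := by fun_prop
    have h2 := h1.tendsto 0
    rwa [mul_zero] at h2
  have ht' : Tendsto (fun v : ℂ => (ζ : ℂ) * v) (𝓝[≠] 0) (𝓝[≠] 0) :=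
    tendsto_nhdsWithin_iff.2 ⟨ht.mono_left nhdsWithin_le_nhds, by
      filter_upwards [self_mem_nhdsWithin] with v hv
      exact mul_ne_zero hζ hv⟩
  refine ⟨c, fun v => ((ζ : ℂ) ^ c)⁻¹ * G (ζ * v),
    PowerSeries.mk fun n => ((ζ : ℂ) ^ c)⁻¹ * (ζ : ℂ) ^ n * PowerSeries.coeff n p, ?_, ?_, ?_⟩
  · have h1 : ∀ᶠ w in 𝓝 (0 : ℂ), HasSum (fun n : ℕ => PowerSeries.coeff n p * w ^ n) (G w) := hG
    have h2 := ht.eventually h1
    show ∀ᶠ w in 𝓝 (0 : ℂ), _
    filter_upwards [h2] with v hv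
    have h3 := hv.mul_left (((ζ : ℂ) ^ c)⁻¹)
    refine h3.congr_fun ?_
    intro n
    rw [PowerSeries.coeff_mk, mul_pow]
    ring
  · ext j
    rw [Pool.Agent.Lib.Puiseux.rot_coeff, hl, HahnSeries.coeff_single_mul,
      HahnSeries.coeff_single_mul, one_mul, one_mul, lexpb_coeff_ps, lexpb_coeff_ps]
    split_ifs with hj
    · rw [mul_zero]
    · obtain ⟨k, hk⟩ : ∃ k : ℕ, j - (-(c : ℤ)) = k := ⟨(j - (-(c : ℤ))).toNat, by omega⟩
      rw [hk, Int.natAbs_natCast, PowerSeries.coeff_mk]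
      have e1 : j = (k : ℤ) - c := by omega
      rw [e1]
      congr 1
      rw [Units.val_zpow_eq_zpow_val, zpow_sub₀ hζ, zpow_natCast, zpow_natCast, div_eq_mul_inv]
      ring
  · filter_upwards [ht'.eventually hf, self_mem_nhdsWithin] with v hv hv0
    rw [hv, mul_pow]
    have hv0' : v ≠ 0 := hv0
    field_simp

/-- differential polynomials -/
theorem LExp.evg (h : LExp g ℓ) {N : ℕ} {d : Derivation ℂ (LaurentSeries ℂ) (LaurentSeries ℂ)}
    (hd : IsDz N d) (e : ℂ) (P : KR) : LExp (evg e N g P) (evD d (xL e N) ℓ P) := by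
  have hN := hd.pos
  induction P using MvPolynomial.induction_on with
  | C a =>
    have e1 : Pool.Agent.MP_ae5b4e_an_NB1.evg e N g (MvPolynomial.C a) = fun _ => a := by
      unfold Pool.Agent.MP_ae5b4e_an_NB1.evg evD
      rw [MvPolynomial.aeval_C]
      rfl
    have e2 : evD d (xL e N) ℓ (MvPolynomial.C a) = HahnSeries.C a := by
      unfold evD
      rw [MvPolynomial.aeval_C]
      exact lexpb_alg a
    rw [e1, e2]
    exact LExp.const a
  | add P Q hP hQ =>
    have e1 : Pool.Agent.MP_ae5b4e_an_NB1.evg e N g (P + Q) = fun v =>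
        Pool.Agent.MP_ae5b4e_an_NB1.evg e N g P v + Pool.Agent.MP_ae5b4e_an_NB1.evg e N g Q v := by
      unfold Pool.Agent.MP_ae5b4e_an_NB1.evg
      rw [map_add]
      rfl
    rw [e1, map_add]
    exact hP.add hQ
  | mul_X P i hP =>
    have e1 : Pool.Agent.MP_ae5b4e_an_NB1.evg e N g (P * MvPolynomial.X i) = fun v =>
        Pool.Agent.MP_ae5b4e_an_NB1.evg e N g P v *
          evv (Pool.Agent.MP_ae5b4e_an_NB1.dg N) (fun v => e + v ^ N) g i v := by
      unfold Pool.Agent.MP_ae5b4e_an_NB1.evg evD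
      rw [map_mul, MvPolynomial.aeval_X]
      rfl
    have e2 : evD d (xL e N) ℓ (P * MvPolynomial.X i) =
        evD d (xL e N) ℓ P * evv d (xL e N) ℓ i := by
      rw [map_mul]
      congr 1
      unfold evD
      rw [MvPolynomial.aeval_X]
    rw [e1, e2]
    clear e1 e2
    refine hP.mul ?_
    cases i with
    | none => exact LExp.coord e hN
    | some j =>
      show LExp ((Pool.Agent.MP_ae5b4e_an_NB1.dg N)^[j] g) (d^[j] ℓ)
      induction j with
      | zero => exact h
      | succ j ih =>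
        rw [Function.iterate_succ_apply', Function.iterate_succ_apply']
        exact LExp.dg ih hd

end Pool.Agent.MP_ae5b4e_an_NB1
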