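import Mathlib
import Pool.Agent.Lib.MP_ae5b4e_an_NB1.UDefs
import Pool.Agent.Lib.MP_ae5b4e_an_NB1.Branch

/-!
# MP_ae5b4e_an, project NB_1: the slice with a branch point (definitions)
-/

noncomputable section

namespace Pool.Agent.MP_ae5b4e_an_NB1

open Complex Set Filter Topology Metric
open Pool.Agent.MP_ae5b4e_an_NBT

/-- The family near `(t₀, 0)` and its continuation `G`, `K` to the domain `O₁`.  On the slice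
`ρ = ρ₁` the point is `x₁`, the kick is `f₁`; at `t₁` the point is `e + s ^ n`, the kick is
`g (w)`, `w ^ m = s`. -/
structure SlD (k : ℂ → ℂ) (C G K : ℂ × ℂ → ℂ) (t₀ : ℂ) (O₁ : Set (ℂ × ℂ)) (tp ρ₀ : ℂ) (r r' : ℝ)
    (ρ₁ t₁ t₂ : ℂ) (f₁ x₁ : ℂ → ℂ) (e : ℂ) (n m : ℕ) (s g w : ℂ → ℂ) (ε : ℝ) : Prop where
  fm : Fm k C t₀
  opn : IsOpen O₁
  pre : IsPreconnected O₁
  mem : ((t₀, 0) : ℂ × ℂ) ∈ O₁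
  merG : Mer G O₁
  merK : Mer K O₁
  eG : EqM G C (t₀, 0)
  eK : EqM K (fun p => k (C p)) (t₀, 0)
  hρ₁ : ρ₁ ∈ ball ρ₀ r
  ht₁ : t₁ ∈ ball tp r'
  ht₂ : t₂ ∈ ball tp r'
  ht₂₁ : t₂.im < t₁.im
  hp₂ : (t₂, ρ₁) ∈ O₁
  mf : ∀ t ∈ ball tp r', t.im < t₁.im → MeromorphicAt f₁ t
  mx : ∀ t ∈ ball tp r', MeromorphicAt x₁ t
  loc : ∃ C₂ κ₂ : ℂ × ℂ → ℂ, AnalyticAt ℂ C₂ (t₂, ρ₁) ∧ AnalyticAt ℂ κ₂ (t₂, ρ₁) ∧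
    pt C₂ (t₂, ρ₁) ≠ 0 ∧ EqM G C₂ (t₂, ρ₁) ∧ EqM K κ₂ (t₂, ρ₁) ∧
    (∀ᶠ t in 𝓝 t₂, x₁ t = C₂ (t, ρ₁)) ∧ ∀ᶠ t in 𝓝 t₂, f₁ t = κ₂ (t, ρ₁)
  hs : AnalyticAt ℂ s t₁
  hs0 : s t₁ = 0
  hs1 : deriv s t₁ ≠ 0
  hn : 0 < n
  hx : ∀ᶠ t in 𝓝[≠] t₁, x₁ t = e + s t ^ n
  hm : 0 < m
  hε : 0 < ε
  hg : MeromorphicAt g 0
  hw : ∀ t ∈ Cone t₁ ε, AnalyticAt ℂ w t ∧ w t ^ m = s t ∧ w t ≠ 0 ∧ f₁ t = g (w t)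
  hlim : Tendsto w (𝓝[Cone t₁ ε] t₁) (𝓝 0)

end Pool.Agent.MP_ae5b4e_an_NB1
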