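import Mathlib
import Pool.Agent.Lib.MP_ae5b4e_an_NB1.SlDefs
import Pool.Agent.Lib.MP_ae5b4e_an_NB1.KerT
import Pool.Agent.Lib.MP_ae5b4e_an_NB1.Ev1
import Pool.Agent.Lib.MP_ae5b4e_an_NB1.LExpB

/-!
# MP_ae5b4e_an, project NB_1: differential relations at the branch point
-/

noncomputable section

namespace Pool.Agent.MP_ae5b4e_an_NB1

open Complex Set Filter Topology Metric
open Pool.Agent.MP_ae5b4e_an_NBT

variable {k : ℂ → ℂ} {C G K : ℂ × ℂ → ℂ} {t₀ : ℂ} {O₁ : Set (ℂ × ℂ)} {tp ρ₀ : ℂ} {r r' : ℝ}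
  {ρ₁ t₁ t₂ : ℂ} {f₁ x₁ : ℂ → ℂ} {e : ℂ} {n m : ℕ} {s g w : ℂ → ℂ} {ε : ℝ}

private theorem kersl_open (t₁ : ℂ) (ε : ℝ) : IsOpen (Cone t₁ ε) := by
  have h1 : IsOpen {t : ℂ | dist t t₁ < ε} := isOpen_lt (by fun_prop) (by fun_prop)
  have h2 : IsOpen {t : ℂ | |t.re - t₁.re| < t₁.im - t.im} := by
    refine isOpen_lt ?_ ?_
    · exact (Complex.continuous_re.sub continuous_const).abs
    · exact continuous_const.sub Complex.continuous_im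
  exact h1.inter h2

private theorem kersl_im {t₁ t : ℂ} {ε : ℝ} (h : t ∈ Cone t₁ ε) : t.im < t₁.im := by
  have h1 := h.2
  have h2 := abs_nonneg (t.re - t₁.re)
  linarith

private theorem kersl_neBot (t₁ : ℂ) {ε : ℝ} (hε : 0 < ε) : (𝓝[Cone t₁ ε] t₁).NeBot := by
  rw [← mem_closure_iff_nhdsWithin_neBot, Metric.mem_closure_iff]
  intro δ hδ
  have h1 : 0 < min δ ε / 2 := by positivity
  have h2 : dist (t₁ - ((min δ ε / 2 : ℝ) : ℂ) * I) t₁ = min δ ε / 2 := by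
    rw [dist_eq_norm, sub_sub_cancel_left, norm_neg, norm_mul, norm_I, mul_one, Complex.norm_real,
      Real.norm_eq_abs, abs_of_pos h1]
  have h3 := min_le_left δ ε
  have h4 := min_le_right δ ε
  refine ⟨t₁ - ((min δ ε / 2 : ℝ) : ℂ) * I, ⟨?_, ?_⟩, ?_⟩
  · rw [h2]
    linarith
  · have e1 : (t₁ - ((min δ ε / 2 : ℝ) : ℂ) * I).re = t₁.re := by simp
    have e2 : (t₁ - ((min δ ε / 2 : ℝ) : ℂ) * I).im = t₁.im - min δ ε / 2 := by simp
    rw [e1, e2, sub_self, abs_zero]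
    linarith
  · rw [dist_comm, h2]
    linarith

/-- on the cone below `t₁` the differential polynomials are functions of `w` -/
theorem SlD.cone (h : SlD k C G K t₀ O₁ tp ρ₀ r r' ρ₁ t₁ t₂ f₁ x₁ e n m s g w ε) (P : KR) :
    ∀ᶠ t in 𝓝[Cone t₁ ε] t₁, w t ≠ 0 ∧ ev1 x₁ f₁ P t = evg e (m * n) g P (w t) := by
  have h1 : ∀ᶠ t in 𝓝[Cone t₁ ε] t₁, AnalyticAt ℂ s t ∧ deriv s t ≠ 0 := by
    have h2 : ∀ᶠ t in 𝓝 t₁, deriv s t ≠ 0 := h.hs.deriv.continuousAt.eventually_ne h.hs1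
    exact mem_nhdsWithin_of_mem_nhds (h.hs.eventually_analyticAt.and h2)
  have h2 : ∀ᶠ t in 𝓝[Cone t₁ ε] t₁, x₁ t = e + s t ^ n := by
    have hsub : Cone t₁ ε ⊆ {t₁}ᶜ := by
      intro t ht hne
      have h3 := kersl_im ht
      rw [Set.mem_singleton_iff] at hne
      rw [hne] at h3
      exact lt_irrefl _ h3
    exact nhdsWithin_mono t₁ hsub h.hx
  have hw0 : ∀ᶠ t in 𝓝[Cone t₁ ε] t₁, w t ≠ 0 := by
    filter_upwards [self_mem_nhdsWithin] with t ht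
    exact (h.hw t ht).2.2.1
  have hw1 : Tendsto w (𝓝[Cone t₁ ε] t₁) (𝓝[≠] 0) :=
    tendsto_nhdsWithin_iff.2 ⟨h.hlim, hw0⟩
  have h3 : ∀ᶠ t in 𝓝[Cone t₁ ε] t₁, AnalyticAt ℂ g (w t) :=
    hw1.eventually h.hg.eventually_analyticAt
  obtain ⟨ε', hε', hsub⟩ := Metric.mem_nhdsWithin_iff.1 (h1.and (h2.and h3))
  have hW : IsOpen (ball t₁ ε' ∩ Cone t₁ ε) := isOpen_ball.inter (kersl_open t₁ ε)
  have hev : ball t₁ ε' ∩ Cone t₁ ε ∈ 𝓝[Cone t₁ ε] t₁ :=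
    inter_mem (mem_nhdsWithin_of_mem_nhds (ball_mem_nhds _ hε')) self_mem_nhdsWithin
  filter_upwards [hev] with t ht
  refine ⟨(h.hw t ht.2).2.2.1, ev1_comp hW (Nat.mul_pos h.hm h.hn) ?_ P ht⟩
  intro z hz
  obtain ⟨hza, hzm, hz0, hzf⟩ := h.hw z hz.2
  obtain ⟨⟨hs1, hs2⟩, hx, hg⟩ := hsub hz
  refine ⟨hza, hz0, ?_, hg, ?_, hzf⟩
  · intro hd
    apply hs2
    have e1 : HasDerivAt (fun y => w y ^ m) ((m : ℂ) * w z ^ (m - 1) * deriv w z) z :=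
      hza.differentiableAt.hasDerivAt.pow m
    have e2 : (fun y => w y ^ m) =ᶠ[𝓝 z] s := by
      filter_upwards [(kersl_open t₁ ε).mem_nhds hz.2] with y hy
      exact (h.hw y hy).2.1
    have e3 := (e1.congr_of_eventuallyEq e2.symm).deriv
    rw [e3, hd, mul_zero]
  · rw [hx, ← hzm, pow_mul]

/-- the differential relations near `(t₀, 0)` are those of the formal place -/
theorem SlD.ker (h : SlD k C G K t₀ O₁ tp ρ₀ r r' ρ₁ t₁ t₂ f₁ x₁ e n m s g w ε)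
    {d : Derivation ℂ (LaurentSeries ℂ) (LaurentSeries ℂ)} (hd : IsDz (m * n) d)
    {ℓ : LaurentSeries ℂ} (hℓ : LExp g ℓ) (P : KR) :
    (∀ᶠ q in 𝓝 ((t₀, 0) : ℂ × ℂ), evA C (fun p => k (C p)) P q = 0) ↔
      evD d (xL e (m * n)) ℓ P = 0 := by
  obtain ⟨C₂, κ₂, hC₂, hκ₂, hpt₂, e3, e4, hx₂, hf₂⟩ := h.loc
  -- first step: transfer to the slice
  have hκ₀ : AnalyticAt ℂ (fun p => k (C p)) (t₀, 0) := h.fm.kan.fun_comp h.fm.an
  have hJ : ∀ᶠ q in 𝓝 ((t₀, 0) : ℂ × ℂ), Jac (fun p => k (C p)) C q = 0 := by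
    have h1 : ∀ᶠ q in 𝓝 ((t₀, 0) : ℂ × ℂ), AnalyticAt ℂ k (C q) :=
      h.fm.an.continuousAt.eventually h.fm.kan.eventually_analyticAt
    filter_upwards [h1, h.fm.an.eventually_analyticAt] with q hq hCq
    have h2 : fderiv ℂ (fun p => k (C p)) q = deriv k (C q) • fderiv ℂ C q :=
      (hq.differentiableAt.hasDerivAt.comp_hasFDerivAt q
        hCq.differentiableAt.hasFDerivAt).fderiv
    unfold Jac
    rw [h2]
    simp only [_root_.smul_apply, smul_eq_mul]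
    ring
  rw [ker_transfer h.pre h.merG h.merK h.mem h.hp₂ h.fm.an hκ₀ h.fm.dt hJ h.eG h.eK hC₂ hκ₂
    hpt₂ e3 e4 P]
  -- second step: punctured neighbourhoods
  have hcongr : ev1 x₁ f₁ P =ᶠ[𝓝[≠] t₂]
      ev1 (fun s => C₂ (s, ρ₁)) (fun s => κ₂ (s, ρ₁)) P :=
    ev1_congr (hx₂.filter_mono nhdsWithin_le_nhds) (hf₂.filter_mono nhdsWithin_le_nhds) P
  have hcont : ContinuousAt (ev1 (fun s => C₂ (s, ρ₁)) (fun s => κ₂ (s, ρ₁)) P) t₂ := by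
    have h1 := evA_slice hC₂ hκ₂ hpt₂ P
    have h2 : ContinuousAt (fun t : ℂ => evA C₂ κ₂ P (t, ρ₁)) t₂ := by
      have h3 := (evA_analytic hC₂ hκ₂ hpt₂ P).continuousAt
      have h4 : ContinuousAt (fun t : ℂ => (t, ρ₁)) t₂ := by fun_prop
      exact ContinuousAt.comp (g := evA C₂ κ₂ P) (f := fun t : ℂ => (t, ρ₁)) h3 h4
    exact h2.congr h1
  have hstep : (∀ᶠ t in 𝓝 t₂, ev1 (fun s => C₂ (s, ρ₁)) (fun s => κ₂ (s, ρ₁)) P t = 0) ↔
      ∀ᶠ t in 𝓝[≠] t₂, ev1 x₁ f₁ P t = 0 := by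
    constructor
    · intro h1
      filter_upwards [h1.filter_mono nhdsWithin_le_nhds, hcongr] with t ht ht'
      rw [ht', ht]
    · intro h1
      have h2 : ∀ᶠ t in 𝓝[≠] t₂, ev1 (fun s => C₂ (s, ρ₁)) (fun s => κ₂ (s, ρ₁)) P t = 0 := by
        filter_upwards [h1, hcongr] with t ht ht'
        rw [← ht', ht]
      have h3 : ev1 (fun s => C₂ (s, ρ₁)) (fun s => κ₂ (s, ρ₁)) P t₂ = 0 := by
        have h4 : Tendsto (ev1 (fun s => C₂ (s, ρ₁)) (fun s => κ₂ (s, ρ₁)) P) (𝓝[≠] t₂)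
            (𝓝 0) := tendsto_const_nhds.congr' (by
              filter_upwards [h2] with t ht
              exact ht.symm)
        exact tendsto_nhds_unique (hcont.tendsto.mono_left nhdsWithin_le_nhds) h4
      rw [eventually_nhdsWithin_iff] at h2
      filter_upwards [h2] with t ht
      by_cases htt : t = t₂
      · rw [htt]
        exact h3
      · exact ht htt
  rw [hstep]
  -- third step: the branch point
  have hV : IsPreconnected {t : ℂ | t ∈ ball tp r' ∧ t.im < t₁.im} := by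
    have h1 : Convex ℝ {t : ℂ | t ∈ ball tp r' ∧ t.im < t₁.im} :=
      (convex_ball tp r').inter (convex_halfSpace_im_lt t₁.im)
    exact h1.isPreconnected
  have hmer : ∀ t ∈ {t : ℂ | t ∈ ball tp r' ∧ t.im < t₁.im}, MeromorphicAt (ev1 x₁ f₁ P) t :=
    fun t ht => ev1_mer (h.mx t ht.1) (h.mf t ht.1 ht.2) P
  have hcone := h.cone P
  have hin : ∀ᶠ t in 𝓝[Cone t₁ ε] t₁, t ∈ {t : ℂ | t ∈ ball tp r' ∧ t.im < t₁.im} := by
    filter_upwards [self_mem_nhdsWithin,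
      mem_nhdsWithin_of_mem_nhds (isOpen_ball.mem_nhds h.ht₁)] with t ht ht'
    exact ⟨ht', kersl_im ht⟩
  have hw0 : ∀ᶠ t in 𝓝[Cone t₁ ε] t₁, w t ≠ 0 := hcone.mono fun t ht => ht.1
  have hw1 : Tendsto w (𝓝[Cone t₁ ε] t₁) (𝓝[≠] 0) :=
    tendsto_nhdsWithin_iff.2 ⟨h.hlim, hw0⟩
  have hnb := kersl_neBot t₁ h.hε
  have hopen : ∀ {p : ℂ → Prop}, (∀ᶠ t in 𝓝[Cone t₁ ε] t₁, p t) →
      ∀ᶠ t in 𝓝[Cone t₁ ε] t₁, ∀ᶠ y in 𝓝 t, p y := by
    intro p hp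
    filter_upwards [eventually_eventually_nhdsWithin.2 hp, self_mem_nhdsWithin] with t ht ht'
    rwa [(kersl_open t₁ ε).nhdsWithin_eq ht'] at ht
  have hexp := hℓ.evg hd e P
  rw [hexp.eq_zero_iff]
  constructor
  · intro hz
    rcases hexp.mer.eventually_eq_zero_or_eventually_ne_zero with h1 | h1
    · exact h1
    · exfalso
      have h2 : ∀ᶠ t in 𝓝[Cone t₁ ε] t₁, ev1 x₁ f₁ P t ≠ 0 := by
        filter_upwards [hcone, hw1.eventually h1] with t ht ht'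
        rw [ht.2]
        exact ht'
      obtain ⟨t, h3, h4⟩ := ((hopen h2).and hin).exists
      have h5 := mer_ident hV hmer ⟨h.ht₂, h.ht₂₁⟩ h4 hz
      obtain ⟨y, h6, h7⟩ := (h5.and (h3.filter_mono nhdsWithin_le_nhds)).exists
      exact h7 h6
  · intro hz
    have h2 : ∀ᶠ t in 𝓝[Cone t₁ ε] t₁, ev1 x₁ f₁ P t = 0 := by
      filter_upwards [hcone, hw1.eventually hz] with t ht ht'
      rw [ht.2]
      exact ht'
    obtain ⟨t, h3, h4⟩ := ((hopen h2).and hin).exists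
    exact mer_ident hV hmer h4 ⟨h.ht₂, h.ht₂₁⟩ (h3.filter_mono nhdsWithin_le_nhds)

end Pool.Agent.MP_ae5b4e_an_NB1
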