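import Mathlib
import Pool.Agent.Lib.MP_ae5b4e_an_NB1.KerSl

/-!
# MP_ae5b4e_an, project NB_1: invariance of the single valued functions of `x₀`
-/

noncomputable section

namespace Pool.Agent.MP_ae5b4e_an_NB1

open Complex Set Filter Topology Metric
open Pool.Agent.MP_ae5b4e_an_NBT
open Pool.Agent.Lib.Puiseux (rot)

variable {k : ℂ → ℂ} {C G K : ℂ × ℂ → ℂ} {t₀ : ℂ} {O₁ : Set (ℂ × ℂ)} {tp ρ₀ : ℂ} {r r' : ℝ}
  {ρ₁ t₁ t₂ : ℂ} {f₁ x₁ : ℂ → ℂ} {e : ℂ} {n m : ℕ} {s g w : ℂ → ℂ} {ε : ℝ}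

/-- the Jacobian of a function of `C` and `C` -/
private lemma rinvsl_jac {k : ℂ → ℂ} {C : ℂ × ℂ → ℂ} {p : ℂ × ℂ} (hC : AnalyticAt ℂ C p)
    (hk : AnalyticAt ℂ k (C p)) : ∀ᶠ q in 𝓝 p, Jac (fun p => k (C p)) C q = 0 := by
  filter_upwards [hC.eventually_analyticAt,
    hC.continuousAt.eventually hk.eventually_analyticAt] with q h1 h2
  have h3 : HasFDerivAt (fun p => k (C p)) (deriv k (C q) • fderiv ℂ C q) q :=
    h2.differentiableAt.hasDerivAt.comp_hasFDerivAt q h1.differentiableAt.hasFDerivAt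
  unfold Jac
  rw [h3.fderiv]
  change (deriv k (C q) * fderiv ℂ C q (1, 0)) * fderiv ℂ C q (0, 1) -
    fderiv ℂ C q (1, 0) * (deriv k (C q) * fderiv ℂ C q (0, 1)) = 0
  ring

private lemma rinvsl_line (t ρ : ℂ) : Tendsto (fun s : ℂ => (s, ρ)) (𝓝 t) (𝓝 (t, ρ)) := by
  have : Continuous (fun s : ℂ => (s, ρ)) := by fun_prop
  exact this.tendsto t

/-- the quotient at `(t₂, ρ₁)` -/
private lemma rinvsl_q0 (h : SlD k C G K t₀ O₁ tp ρ₀ r r' ρ₁ t₁ t₂ f₁ x₁ e n m s g w ε)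
    {A B : ℂ × ℂ → ℂ} (hA : Mer A (O₁ ∪ ball tp r' ×ˢ ball ρ₀ r))
    (hB : Mer B (O₁ ∪ ball tp r' ×ˢ ball ρ₀ r)) (hB0 : ¬ EqM B (fun _ => 0) (t₀, 0)) {P R : KR}
    (hAB : EqM (fun q => A q * evM G K R q) (fun q => B q * evM G K P q) (t₀, 0))
    {d : Derivation ℂ (LaurentSeries ℂ) (LaurentSeries ℂ)} (hd : IsDz (m * n) d)
    {ℓ : LaurentSeries ℂ} (hℓ : LExp g ℓ) (hR : evD d (xL e (m * n)) ℓ R ≠ 0) :
    SlAt (fun q => A q / B q) (t₂, ρ₁) ∧ ∀ᶠ x in 𝓝[≠] t₂,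
      sl (fun q => A q / B q) ρ₁ x * ev1 x₁ f₁ R x = ev1 x₁ f₁ P x := by
  obtain ⟨C₂, κ₂, hC₂, hκ₂, hp₂, hG₂, hK₂, hx₂, hf₂⟩ := h.loc
  -- the identity on `O₁`
  have hq0 : Mer (fun q => A q / B q) (O₁ ∪ ball tp r' ×ˢ ball ρ₀ r) :=
    fun q hq => (hA q hq).div (hB q hq)
  have hmR : ∀ Q : KR, Mer (evM G K Q) O₁ := fun Q q hq => evM_mer (h.merG q hq) (h.merK q hq) Q
  have hL : Mer (fun q => A q / B q * evM G K R q) O₁ :=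
    fun q hq => (hq0 q (Or.inl hq)).mul (hmR R q hq)
  have h1 : EqM (fun q => A q / B q * evM G K R q) (evM G K P) (t₀, 0) := by
    rcases (hB _ (Or.inl h.mem)).eqM_or (merAt_of_analyticAt (f := fun _ => (0 : ℂ))
      analyticAt_const) with h2 | ⟨D, hD, h2⟩
    · exact absurd h2 hB0
    · obtain ⟨E, hE, h3⟩ := hAB
      refine ⟨_, hD.mul hE, ?_⟩
      filter_upwards [h2, h3] with q h4 h5 h6
      have h7 := h4 (left_ne_zero_of_mul h6)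
      have h8 := h5 (right_ne_zero_of_mul h6)
      change A q / B q * evM G K R q = evM G K P q
      rw [div_mul_eq_mul_div, h8, mul_div_assoc, mul_comm, div_mul_cancel₀]
      exact h7
  have h2 : EqM (fun q => A q / B q * evM G K R q) (evM G K P) (t₂, ρ₁) :=
    Mer.eqM h.pre hL (hmR P) h.mem h1 _ h.hp₂
  have e1 : ∀ Q : KR, EqM (evM G K Q) (evA C₂ κ₂ Q) (t₂, ρ₁) := fun Q =>
    evM_eq (h.merG _ h.hp₂) (h.merK _ h.hp₂) hC₂ hκ₂ hp₂ hG₂ hK₂ Q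
  have e2 : ∀ Q : KR, AnalyticAt ℂ (evA C₂ κ₂ Q) (t₂, ρ₁) := fun Q =>
    evA_analytic hC₂ hκ₂ hp₂ Q
  -- the slices
  have e3 : ∀ Q : KR, ∀ᶠ x in 𝓝 t₂, evA C₂ κ₂ Q (x, ρ₁) =
      ev1 (fun s => C₂ (s, ρ₁)) (fun s => κ₂ (s, ρ₁)) Q x := fun Q =>
    evA_slice hC₂ hκ₂ hp₂ Q
  have h3 : ¬ ∀ᶠ x in 𝓝 t₂, evA C₂ κ₂ R (x, ρ₁) = 0 := by
    intro h4
    have h5 : ∀ᶠ x in 𝓝 t₂, ev1 (fun s => C₂ (s, ρ₁)) (fun s => κ₂ (s, ρ₁)) R x = 0 := by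
      filter_upwards [h4, e3 R] with x h6 h7
      rw [← h7, h6]
    have h6 := (ker_transfer h.pre h.merG h.merK h.mem h.hp₂ h.fm.an
      (κ₀ := fun p => k (C p)) (h.fm.kan.comp h.fm.an) h.fm.dt (rinvsl_jac h.fm.an h.fm.kan)
      h.eG h.eK hC₂ hκ₂ hp₂ hG₂ hK₂ R).2 h5
    exact hR ((h.ker hd hℓ R).1 h6)
  have hDen : Den (evA C₂ κ₂ R) (t₂, ρ₁) :=
    ⟨e2 R, fun h4 => h3 ((rinvsl_line t₂ ρ₁).eventually h4)⟩
  have h4 : EqM (fun q => A q / B q) (fun q => evA C₂ κ₂ P q / evA C₂ κ₂ R q) (t₂, ρ₁) := by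
    obtain ⟨D, hD, h5⟩ := h2
    obtain ⟨D₁, hD₁, h6⟩ := e1 R
    obtain ⟨D₂, hD₂, h7⟩ := e1 P
    refine ⟨_, ((hD.mul hD₁).mul hD₂).mul hDen, ?_⟩
    filter_upwards [h5, h6, h7] with q h8 h9 h10 h11
    have h12 := right_ne_zero_of_mul h11
    have h13 := left_ne_zero_of_mul h11
    have h14 := h10 (right_ne_zero_of_mul h13)
    have h15 := h9 (right_ne_zero_of_mul (left_ne_zero_of_mul h13))
    have h16 := h8 (left_ne_zero_of_mul (left_ne_zero_of_mul h13))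
    change A q / B q = evA C₂ κ₂ P q / evA C₂ κ₂ R q
    change A q / B q * evM G K R q = evM G K P q at h16
    rw [h15, h14] at h16
    exact eq_div_of_mul_eq h12 h16
  refine ⟨⟨_, _, e2 P, e2 R, h3, h4⟩, ?_⟩
  have hline : AnalyticAt ℂ (fun x : ℂ => evA C₂ κ₂ R (x, ρ₁)) t₂ :=
    AnalyticAt.fun_comp (g := evA C₂ κ₂ R) (f := fun x : ℂ => (x, ρ₁)) (e2 R)
      (analyticAt_id.prod analyticAt_const)
  have hne : ∀ᶠ x in 𝓝[≠] t₂, evA C₂ κ₂ R (x, ρ₁) ≠ 0 :=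
    hline.eventually_eq_zero_or_eventually_ne_zero.resolve_left h3
  have c1 : ∀ Q : KR, ev1 x₁ f₁ Q =ᶠ[𝓝[≠] t₂]
      ev1 (fun s => C₂ (s, ρ₁)) (fun s => κ₂ (s, ρ₁)) Q := fun Q =>
    ev1_congr (hx₂.filter_mono nhdsWithin_le_nhds) (hf₂.filter_mono nhdsWithin_le_nhds) Q
  filter_upwards [hne, (sl_congr h4).filter_mono nhdsWithin_le_nhds, c1 R, c1 P,
    (e3 R).filter_mono nhdsWithin_le_nhds, (e3 P).filter_mono nhdsWithin_le_nhds,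
    ((rinvsl_line t₂ ρ₁).eventually (e2 R).eventually_analyticAt).filter_mono
      nhdsWithin_le_nhds,
    ((rinvsl_line t₂ ρ₁).eventually (e2 P).eventually_analyticAt).filter_mono
      nhdsWithin_le_nhds] with x i1 i2 i3 i4 i5 i6 i7 i8
  have i9 : sl (fun q => evA C₂ κ₂ P q / evA C₂ κ₂ R q) ρ₁ x =
      evA C₂ κ₂ P (x, ρ₁) / evA C₂ κ₂ R (x, ρ₁) := sl_of_analyticAt (i8.div i7 i1)
  rw [i2, i3, i4, ← i5, ← i6, i9]
  exact div_mul_cancel₀ _ i1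

/-- the slice of the quotient below `t₁` -/
private lemma rinvsl_q1 (h : SlD k C G K t₀ O₁ tp ρ₀ r r' ρ₁ t₁ t₂ f₁ x₁ e n m s g w ε)
    {q0 : ℂ × ℂ → ℂ} (hq0 : Mer q0 (ball tp r' ×ˢ ball ρ₀ r)) (hsl : SlAt q0 (t₂, ρ₁))
    {P R : KR} (he : ∀ᶠ x in 𝓝[≠] t₂, sl q0 ρ₁ x * ev1 x₁ f₁ R x = ev1 x₁ f₁ P x) :
    (∀ t ∈ ball tp r', MeromorphicAt (sl q0 ρ₁) t) ∧
      ∀ t ∈ ball tp r', t.im < t₁.im → ∀ᶠ x in 𝓝[≠] t,
        sl q0 ρ₁ x * ev1 x₁ f₁ R x = ev1 x₁ f₁ P x := by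
  have h1 : ∀ t ∈ ball tp r', SlAt q0 (t, ρ₁) :=
    slAt_of_mer (convex_ball tp r').isPreconnected (fun t ht => hq0 (t, ρ₁) ⟨ht, h.hρ₁⟩)
      h.ht₂ hsl
  have h2 : ∀ t ∈ ball tp r', MeromorphicAt (sl q0 ρ₁) t := fun t ht => (h1 t ht).meromorphicAt
  refine ⟨h2, fun t ht hti => ?_⟩
  have hV : IsPreconnected {t : ℂ | t ∈ ball tp r' ∧ t.im < t₁.im} :=
    ((convex_ball tp r').inter (convex_halfSpace_im_lt t₁.im)).isPreconnected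
  have h3 : ∀ t ∈ {t : ℂ | t ∈ ball tp r' ∧ t.im < t₁.im},
      MeromorphicAt (fun x => sl q0 ρ₁ x * ev1 x₁ f₁ R x - ev1 x₁ f₁ P x) t := by
    rintro t ⟨i1, i2⟩
    exact ((h2 t i1).mul (ev1_mer (h.mx t i1) (h.mf t i1 i2) R)).sub
      (ev1_mer (h.mx t i1) (h.mf t i1 i2) P)
  have h4 := mer_ident hV h3 (t₁ := t₂) (t₂ := t) ⟨h.ht₂, h.ht₂₁⟩ ⟨ht, hti⟩ (by
    filter_upwards [he] with x hx
    rw [hx, sub_self])
  filter_upwards [h4] with x hx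
  exact sub_eq_zero.1 hx

private lemma rinvsl_cone_open (t₁ : ℂ) (ε : ℝ) : IsOpen (Cone t₁ ε) := by
  have h1 : IsOpen {t : ℂ | dist t t₁ < ε} := isOpen_lt (by fun_prop) (by fun_prop)
  have h2 : IsOpen {t : ℂ | |t.re - t₁.re| < t₁.im - t.im} :=
    isOpen_lt ((Complex.continuous_re.sub continuous_const).abs)
      (continuous_const.sub Complex.continuous_im)
  exact h1.inter h2

/-- The cone has points near `t₁`. -/
private lemma rinvsl_cone_mem {t₁ : ℂ} {ε : ℝ} (hε : 0 < ε) {W : Set ℂ} (hW : W ∈ 𝓝 t₁) :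
    ∃ t ∈ Cone t₁ ε, t ∈ interior W := by
  have h1 : Tendsto (fun η : ℝ => t₁ - η * I) (𝓝[>] 0) (𝓝 t₁) := by
    have h2 : Continuous fun η : ℝ => t₁ - η * I := by fun_prop
    have h3 := h2.tendsto 0
    simp only [Complex.ofReal_zero, zero_mul, sub_zero] at h3
    exact h3.mono_left nhdsWithin_le_nhds
  have h4 : ∀ᶠ η : ℝ in 𝓝[>] 0, t₁ - η * I ∈ interior W :=
    h1.eventually (interior_mem_nhds.2 hW)
  have h5 : ∀ᶠ η : ℝ in 𝓝[>] 0, η < ε := nhdsWithin_le_nhds (Iio_mem_nhds hε)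
  obtain ⟨η, h6, h7, h8⟩ := (h4.and (h5.and self_mem_nhdsWithin)).exists
  have h9 : 0 < η := h8
  refine ⟨t₁ - η * I, ⟨?_, ?_⟩, h6⟩
  · rw [dist_eq_norm, sub_sub_cancel_left, norm_neg, norm_mul, Complex.norm_I, mul_one,
      Complex.norm_real, Real.norm_eq_abs, abs_of_pos h9]
    exact h7
  · simpa using h9

/-- the function of `w` -/
private lemma rinvsl_gam (h : SlD k C G K t₀ O₁ tp ρ₀ r r' ρ₁ t₁ t₂ f₁ x₁ e n m s g w ε)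
    {q1 : ℂ → ℂ} (hq1 : MeromorphicAt q1 t₁) {P R : KR}
    (he : ∀ t ∈ ball tp r', t.im < t₁.im → ∀ᶠ x in 𝓝[≠] t,
      q1 x * ev1 x₁ f₁ R x = ev1 x₁ f₁ P x)
    {d : Derivation ℂ (LaurentSeries ℂ) (LaurentSeries ℂ)} (hd : IsDz (m * n) d)
    {ℓ : LaurentSeries ℂ} (hℓ : LExp g ℓ) :
    ∃ gam : ℂ → ℂ, MeromorphicAt gam 0 ∧ (∀ ζ v : ℂ, ζ ^ m = 1 → gam (ζ * v) = gam v) ∧
      ∀ᶠ v in 𝓝[≠] (0 : ℂ), gam v * evg e (m * n) g R v = evg e (m * n) g P v := by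
  have hs := h.hs
  have hs1 := h.hs1
  have hs0 := h.hs0
  obtain ⟨σ, hσ, hσ0, hσl⟩ : ∃ σ : ℂ → ℂ, AnalyticAt ℂ σ 0 ∧ σ 0 = t₁ ∧
      ∀ᶠ t in 𝓝 t₁, σ (s t) = t := by
    refine ⟨hs.hasStrictDerivAt.localInverse _ _ _ hs1, ?_, ?_, ?_⟩
    · have h1 := hs.analyticAt_localInverse hs1
      rwa [hs0] at h1
    · have h1 : hs.hasStrictDerivAt.localInverse s _ t₁ hs1 (s t₁) = t₁ :=
        HasStrictFDerivAt.localInverse_apply_image ..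
      rwa [hs0] at h1
    · exact HasStrictDerivAt.eventually_left_inverse ..
  have hm := h.hm
  have hgam : MeromorphicAt (fun v => q1 (σ (v ^ m))) 0 := by
    have h1 : AnalyticAt ℂ (fun v : ℂ => σ (v ^ m)) 0 := by
      refine AnalyticAt.fun_comp (g := σ) (f := fun v : ℂ => v ^ m) ?_ (analyticAt_id.pow m)
      rw [zero_pow hm.ne']
      exact hσ
    have h2 : MeromorphicAt q1 ((fun v : ℂ => σ (v ^ m)) 0) := by
      change MeromorphicAt q1 (σ (0 ^ m))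
      rw [zero_pow hm.ne', hσ0]
      exact hq1
    exact MeromorphicAt.comp_analyticAt (g := fun v : ℂ => σ (v ^ m)) h2 h1
  refine ⟨fun v => q1 (σ (v ^ m)), hgam, fun ζ v hζ => ?_, ?_⟩
  · change q1 (σ ((ζ * v) ^ m)) = q1 (σ (v ^ m))
    rw [mul_pow, hζ, one_mul]
  · -- frequently in the cone
    have hcone := (h.cone R).and (h.cone P)
    have hball : ∀ᶠ t in 𝓝 t₁, t ∈ ball tp r' := isOpen_ball.mem_nhds h.ht₁
    have h1 : ∃ᶠ t in 𝓝[Cone t₁ ε] t₁, q1 t * ev1 x₁ f₁ R t = ev1 x₁ f₁ P t := by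
      rw [frequently_nhdsWithin_iff, frequently_iff]
      intro W hW
      obtain ⟨t, ht, htW⟩ := rinvsl_cone_mem h.hε (Filter.inter_mem hW hball)
      have h2 : t ∈ ball tp r' := (interior_subset htW).2
      have h3 : t.im < t₁.im := by
        have h4 := ht.2
        have h5 := abs_nonneg (t.re - t₁.re)
        linarith
      have h4 : ∀ᶠ x in 𝓝[≠] t, x ∈ Cone t₁ ε ∧ x ∈ W :=
        nhdsWithin_le_nhds (Filter.inter_mem ((rinvsl_cone_open t₁ ε).mem_nhds ht)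
          (Filter.mem_of_superset (isOpen_interior.mem_nhds htW)
            (fun x hx => (interior_subset hx).1)))
      obtain ⟨x, hx, hx1, hx2⟩ := ((he t h2 h3).and h4).exists
      exact ⟨x, hx2, hx, hx1⟩
    have h2 : ∃ᶠ t in 𝓝[Cone t₁ ε] t₁, w t ≠ 0 ∧
        q1 (σ (w t ^ m)) * evg e (m * n) g R (w t) = evg e (m * n) g P (w t) := by
      have hself : ∀ᶠ t in 𝓝[Cone t₁ ε] t₁, t ∈ Cone t₁ ε := self_mem_nhdsWithin
      refine (h1.and_eventually (hcone.and (hself.and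
        (hσl.filter_mono nhdsWithin_le_nhds)))).mono ?_
      rintro t ⟨i1, ⟨⟨i2, i3⟩, ⟨i4, i5⟩⟩, i6, i7⟩
      refine ⟨i2, ?_⟩
      rw [← i3, ← i5, (h.hw t i6).2.1, i7]
      exact i1
    have h3 : ∃ᶠ v in 𝓝[≠] (0 : ℂ), q1 (σ (v ^ m)) * evg e (m * n) g R v =
        evg e (m * n) g P v := by
      rw [frequently_nhdsWithin_iff]
      refine h.hlim.frequently (h2.mono ?_)
      rintro t ⟨i1, i2⟩
      exact ⟨i2, i1⟩
    have h4 : MeromorphicAt (fun v => q1 (σ (v ^ m)) * evg e (m * n) g R v) 0 :=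
      hgam.mul (hℓ.evg hd e R).mer
    exact (h4.frequently_eq_iff_eventuallyEq (hℓ.evg hd e P).mer).1 h3

theorem SlD.rinv (h : SlD k C G K t₀ O₁ tp ρ₀ r r' ρ₁ t₁ t₂ f₁ x₁ e n m s g w ε)
    {A B : ℂ × ℂ → ℂ} (hA : Mer A (O₁ ∪ ball tp r' ×ˢ ball ρ₀ r))
    (hB : Mer B (O₁ ∪ ball tp r' ×ˢ ball ρ₀ r)) (hB0 : ¬ EqM B (fun _ => 0) (t₀, 0)) {P R : KR}
    (hAB : EqM (fun q => A q * evM G K R q) (fun q => B q * evM G K P q) (t₀, 0))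
    {d : Derivation ℂ (LaurentSeries ℂ) (LaurentSeries ℂ)} (hd : IsDz (m * n) d)
    {ℓ : LaurentSeries ℂ} (hℓ : LExp g ℓ) (hR : evD d (xL e (m * n)) ℓ R ≠ 0)
    {ζ : ℂˣ} (hζ : ζ ^ m = 1) :
    rot ζ (evD d (xL e (m * n)) ℓ P / evD d (xL e (m * n)) ℓ R) =
      evD d (xL e (m * n)) ℓ P / evD d (xL e (m * n)) ℓ R := by
  obtain ⟨h1, h2⟩ := rinvsl_q0 h hA hB hB0 hAB hd hℓ hR
  have hq0 : Mer (fun q => A q / B q) (ball tp r' ×ˢ ball ρ₀ r) :=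
    fun q hq => (hA q (Or.inr hq)).div (hB q (Or.inr hq))
  obtain ⟨h3, h4⟩ := rinvsl_q1 h hq0 h1 h2
  obtain ⟨gam, h5, h6, h7⟩ := rinvsl_gam h (h3 t₁ h.ht₁) h4 hd hℓ
  obtain ⟨lam, hlam⟩ := exists_lExp h5
  have h8 : lam * evD d (xL e (m * n)) ℓ R = evD d (xL e (m * n)) ℓ P :=
    ((hlam.mul (hℓ.evg hd e R)).congr h7).unique (hℓ.evg hd e P)
  have h9 : evD d (xL e (m * n)) ℓ P / evD d (xL e (m * n)) ℓ R = lam := by
    rw [← h8]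
    exact mul_div_cancel_right₀ _ hR
  have hζ' : (ζ : ℂ) ^ m = 1 := by
    rw [← Units.val_pow_eq_pow_val, hζ, Units.val_one]
  have h10 : LExp gam (rot ζ lam) :=
    (hlam.rot ζ).congr (Eventually.of_forall fun v => h6 ζ v hζ')
  rw [h9]
  exact h10.unique hlam

end Pool.Agent.MP_ae5b4e_an_NB1
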