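import Mathlib
import Pool.Agent.Lib.MP_ae5b4e_an_NB1.CoordEx
import Pool.Agent.Lib.MP_ae5b4e_an_NBT.Vert

/-!
# MP_ae5b4e_an, project NB_1: restriction to the line `ρ = 0`
-/

noncomputable section

namespace Pool.Agent.MP_ae5b4e_an_NB1

open Complex Set Filter Topology Metric
open TopologicalSpace (Opens)
open Pool.Agent.MP_ae5b4e_an_NBT

variable {U : Opens (ℂ × ℂ)} {k : ℂ → ℂ} {C : ℂ × ℂ → ℂ} {M : ℕ}
  {D1 D2 : Derivation ℂ (RU U) (RU U)} {x K : ℕ → RU U}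

/-! ### Auxiliary lemmas -/

private lemma rst_tendsto (t : ℂ) :
    Tendsto (fun s : ℂ => ((s, 0) : ℂ × ℂ)) (𝓝 t) (𝓝 (t, 0)) := by
  have : Continuous (fun s : ℂ => ((s, 0) : ℂ × ℂ)) := by fun_prop
  exact this.tendsto t

private lemma rst_apply (a : RU U) (t : {t : ℂ // (t, (0:ℂ)) ∈ U}) :
    rst U a t = fn a (t.1, 0) := (ext0_apply a.1 t.2).symm

private lemma rst_line {a : RU U} (ha : rst U a = 0) {t : ℂ} (ht : (t, (0:ℂ)) ∈ U) :
    fn a (t, 0) = 0 := by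
  have h := congrFun ha ⟨t, ht⟩
  rw [rst_apply] at h
  exact h

private lemma rst_memU {t : ℂ} (ht : (t, (0:ℂ)) ∈ U) : ∀ᶠ s in 𝓝 t, (s, (0:ℂ)) ∈ U :=
  (rst_tendsto t).eventually (U.isOpen.mem_nhds ht)

private lemma rst_line_ev {a : RU U} (ha : rst U a = 0) {t : ℂ} (ht : (t, (0:ℂ)) ∈ U) :
    ∀ᶠ s in 𝓝 t, fn a (s, 0) = 0 := by
  filter_upwards [rst_memU ht] with s hs
  exact rst_line ha hs

private lemma rst_pt {f : ℂ × ℂ → ℂ} {t : ℂ} (hf : DifferentiableAt ℂ f (t, 0))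
    (h0 : ∀ᶠ s in 𝓝 t, f (s, 0) = 0) : fderiv ℂ f (t, 0) (1, 0) = 0 := by
  have h2 : HasDerivAt (fun s : ℂ => ((s, 0) : ℂ × ℂ)) ((1, 0) : ℂ × ℂ) t :=
    (hasDerivAt_id t).prodMk (hasDerivAt_const t (0:ℂ))
  have h1 : HasDerivAt (fun s : ℂ => f (s, 0)) (fderiv ℂ f (t, 0) (1, 0)) t :=
    HasFDerivAt.comp_hasDerivAt t (l := f) (f := fun s : ℂ => ((s, 0) : ℂ × ℂ))
      hf.hasFDerivAt h2
  have h3 : HasDerivAt (fun s : ℂ => f (s, 0)) 0 t :=
    (hasDerivAt_const t (0:ℂ)).congr_of_eventuallyEq h0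
  exact h1.unique h3

private lemma rst_evalAn {f : ℂ × ℂ → ℂ} {p : ℂ × ℂ} (hf : AnalyticAt ℂ f p) (v : ℂ × ℂ) :
    AnalyticAt ℂ (fun q => fderiv ℂ f q v) p := by
  have h1 := hf.fderiv
  exact ((ContinuousLinearMap.apply ℂ ℂ v).analyticAt _).comp h1

private lemma rst_fnx (h : SetU k C M D1 D2 x K) {q : ℂ × ℂ} (hq : q ∈ U) :
    fn (x 1) q = C q := by
  rw [h.hx 1 (by omega) q hq]
  simp [yC]

private lemma rst_fnx_ev (h : SetU k C M D1 D2 x K) {q : ℂ × ℂ} (hq : q ∈ U) :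
    fn (x 1) =ᶠ[𝓝 q] C := by
  filter_upwards [U.isOpen.mem_nhds hq] with p hp
  exact rst_fnx h hp

private lemma rst_fnx_pt (h : SetU k C M D1 D2 x K) {q : ℂ × ℂ} (hq : q ∈ U) :
    fderiv ℂ (fn (x 1)) q (1, 0) ≠ 0 := by
  rw [(rst_fnx_ev h hq).fderiv_eq]
  exact h.onB.dt q hq

/-- `den_factor` with the coordinates exchanged -/
private lemma rst_factor {B : ℂ × ℂ → ℂ} {t₀ ρ : ℂ} (h : Den B (t₀, ρ)) :
    ∃ (k : ℕ) (B' : ℂ × ℂ → ℂ), AnalyticAt ℂ B' (t₀, ρ) ∧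
      (¬ ∀ᶠ t in 𝓝 t₀, B' (t, ρ) = 0) ∧
      ∀ᶠ q in 𝓝 (t₀, ρ), B q = (q.2 - ρ) ^ k * B' q := by
  have hsw : ∀ q : ℂ × ℂ, AnalyticAt ℂ (Homeomorph.prodComm ℂ ℂ) q := by
    intro q
    change AnalyticAt ℂ (fun p : ℂ × ℂ => (p.2, p.1)) q
    exact analyticAt_snd.prod analyticAt_fst
  have h1 : Den (fun q => B ((Homeomorph.prodComm ℂ ℂ) q)) (ρ, t₀) :=
    Den.comp (Homeomorph.prodComm ℂ ℂ) (hsw _) h
  obtain ⟨k, B', hB', hB0, hBe⟩ := den_factor h1
  refine ⟨k, fun q => B' (q.2, q.1), ?_, hB0, ?_⟩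
  · exact AnalyticAt.fun_comp (g := B') (f := fun q : ℂ × ℂ => (q.2, q.1)) hB'
      (analyticAt_snd.prod analyticAt_fst)
  · have ht : Tendsto (fun q : ℂ × ℂ => (q.2, q.1)) (𝓝 (t₀, ρ)) (𝓝 (ρ, t₀)) := by
      have : Continuous (fun q : ℂ × ℂ => (q.2, q.1)) := by fun_prop
      exact this.tendsto _
    filter_upwards [ht.eventually hBe] with q hq
    exact hq

theorem rst_u (h : SetU k C M D1 D2 x K) : rst U (x 1 - x 0) = 0 := by
  funext t
  rw [map_sub, Pi.sub_apply, rst_apply, rst_apply, h.hx 1 (by omega) _ t.2,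
    h.hx 0 (by omega) _ t.2]
  simp [yC]

theorem rst_K (h : SetU k C M D1 D2 x K) : ∀ i ≤ M, rst U (K i) = rst U (K 0) := by
  intro i hi
  funext t
  rw [rst_apply, rst_apply, h.hK i hi _ t.2, h.hK 0 (by omega) _ t.2]
  simp [yC]

theorem rst_D1 (h : SetU k C M D1 D2 x K) (a : RU U) (ha : rst U a = 0) : rst U (D1 a) = 0 := by
  funext t
  rw [rst_apply, h.coord.D1_eq a t.2]
  have h1 : fderiv ℂ (fn a) (t.1, 0) (1, 0) = 0 :=
    rst_pt (fn_an a _ t.2).differentiableAt (rst_line_ev ha t.2)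
  have h2 : fderiv ℂ (fn (x 1 - x 0)) (t.1, 0) (1, 0) = 0 :=
    rst_pt (fn_an _ _ t.2).differentiableAt (rst_line_ev (rst_u h) t.2)
  have h3 : Jac (fn a) (fn (x 1 - x 0)) (t.1, 0) = 0 := by
    unfold Jac
    rw [h1, h2]
    ring
  rw [h3, zero_div]
  rfl

private lemma rst_step (h : SetU k C M D1 D2 x K) {t₀ : ℂ} (ht : (t₀, (0:ℂ)) ∈ U) (m : ℕ) :
    ∀ (f : RU U) (B : ℂ × ℂ → ℂ), AnalyticAt ℂ B (t₀, 0) →
      (∀ᶠ q in 𝓝 ((t₀, 0) : ℂ × ℂ), fn f q = q.2 ^ m * B q) →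
      (∀ n, rst U (D2^[n] f) = 0) → ∀ᶠ t in 𝓝 t₀, B (t, 0) = 0 := by
  induction m with
  | zero =>
    intro f B _ hf h0
    have h1 : rst U f = 0 := h0 0
    filter_upwards [(rst_tendsto t₀).eventually hf, rst_line_ev h1 ht] with s hs hs0
    rw [hs0, pow_zero, one_mul] at hs
    exact hs.symm
  | succ m ih =>
    intro f B hB hf h0
    set X := fn (x 1) with hX
    set V := fn (x 1 - x 0) with hV
    have hXa : AnalyticAt ℂ X (t₀, 0) := fn_an _ _ ht
    have hVa : AnalyticAt ℂ V (t₀, 0) := fn_an _ _ ht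
    have hJ : ∀ q ∈ U, Jac X V q ≠ 0 := fun q hq => h.coord.jac q hq
    set N : ℂ × ℂ → ℂ := fun q => ((m:ℂ) + 1) * fderiv ℂ X q (1, 0) * B q +
      q.2 * (fderiv ℂ X q (1, 0) * fderiv ℂ B q (0, 1) -
        fderiv ℂ B q (1, 0) * fderiv ℂ X q (0, 1)) with hN
    have hNa : AnalyticAt ℂ N (t₀, 0) := by
      refine AnalyticAt.add ?_ ?_
      · exact (analyticAt_const.mul (rst_evalAn hXa _)).mul hB
      · exact analyticAt_snd.mul (((rst_evalAn hXa _).mul (rst_evalAn hB _)).sub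
          ((rst_evalAn hB _).mul (rst_evalAn hXa _)))
    have hJa : AnalyticAt ℂ (Jac X V) (t₀, 0) := by
      show AnalyticAt ℂ (fun p => fderiv ℂ X p (1, 0) * fderiv ℂ V p (0, 1) -
        fderiv ℂ V p (1, 0) * fderiv ℂ X p (0, 1)) (t₀, 0)
      exact ((rst_evalAn hXa _).mul (rst_evalAn hVa _)).sub
          ((rst_evalAn hVa _).mul (rst_evalAn hXa _))
    have hkey : ∀ᶠ q in 𝓝 ((t₀, 0) : ℂ × ℂ), fn (D2 f) q = q.2 ^ m * (N q / Jac X V q) := by
      filter_upwards [U.isOpen.mem_nhds ht, hf.eventually_nhds, hB.eventually_analyticAt]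
        with q hq hfq hBq
      rw [h.coord.D2_eq f hq]
      have hd : HasFDerivAt (fun p : ℂ × ℂ => p.2 ^ (m + 1) * B p)
          ((q.2 ^ (m + 1)) • fderiv ℂ B q +
            (B q) • ((((m + 1 : ℕ) : ℂ) * q.2 ^ m) • ContinuousLinearMap.snd ℂ ℂ ℂ)) q := by
        have h1 : HasFDerivAt (fun p : ℂ × ℂ => p.2 ^ (m + 1))
            ((((m + 1 : ℕ) : ℂ) * q.2 ^ m) • ContinuousLinearMap.snd ℂ ℂ ℂ) q := by
          have h2 : HasDerivAt (fun z : ℂ => z ^ (m + 1)) (((m + 1 : ℕ) : ℂ) * q.2 ^ m) q.2 := by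
            have h4 := hasDerivAt_pow (m + 1) q.2
            simpa using h4
          exact h2.comp_hasFDerivAt q (hasFDerivAt_snd (𝕜 := ℂ) (E := ℂ) (F := ℂ))
        exact h1.mul hBq.differentiableAt.hasFDerivAt
      have hfd : fderiv ℂ (fn f) q = (q.2 ^ (m + 1)) • fderiv ℂ B q +
            (B q) • ((((m + 1 : ℕ) : ℂ) * q.2 ^ m) • ContinuousLinearMap.snd ℂ ℂ ℂ) := by
        have h3 : fn f =ᶠ[𝓝 q] fun p : ℂ × ℂ => p.2 ^ (m + 1) * B p := hfq
        rw [h3.fderiv_eq]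
        exact hd.fderiv
      have e1 : Jac X (fn f) q = q.2 ^ m * N q := by
        unfold Jac
        rw [hfd]
        simp only [hN, ContinuousLinearMap.add_apply, ContinuousLinearMap.smul_apply,
          ContinuousLinearMap.coe_snd', smul_eq_mul]
        push_cast
        ring
      rw [e1]
      ring
    have h1 : ∀ᶠ t in 𝓝 t₀, (N (t, 0) / Jac X V (t, 0)) = 0 := by
      refine ih (D2 f) (fun q => N q / Jac X V q) (hNa.div hJa (hJ _ ht)) hkey ?_
      intro n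
      have := h0 (n + 1)
      rw [Function.iterate_succ_apply] at this
      exact this
    filter_upwards [h1, rst_memU ht] with t ht1 htU
    rcases div_eq_zero_iff.1 ht1 with h2 | h2
    · have h3 : ((m:ℂ) + 1) * fderiv ℂ X (t, 0) (1, 0) * B (t, 0) = 0 := by
        have h4 : N (t, 0) = ((m:ℂ) + 1) * fderiv ℂ X (t, 0) (1, 0) * B (t, 0) := by
          simp only [hN]
          ring
        rw [← h4]
        exact h2
      have h5 : ((m:ℂ) + 1) ≠ 0 := by exact_mod_cast Nat.succ_ne_zero m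
      rcases mul_eq_zero.1 h3 with h6 | h6
      · exact absurd h6 (mul_ne_zero h5 (rst_fnx_pt h htU))
      · exact h6
    · exact absurd h2 (hJ _ htU)

theorem rst_inj (h : SetU k C M D1 D2 x K) (hU : IsPreconnected (U : Set (ℂ × ℂ)))
    {t₀ : ℂ} (ht : (t₀, (0:ℂ)) ∈ U) (a : RU U) (ha : ∀ n, rst U (D2^[n] a) = 0) : a = 0 := by
  by_contra hne
  have hD : Den (fn a) (t₀, 0) := by
    refine ⟨fn_an a _ ht, fun hz => hne ?_⟩
    have h1 := (fn_an a).eqOn_zero_of_preconnected_of_eventuallyEq_zero hU ht hz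
    apply Subtype.ext
    funext q
    have h2 := h1 q.2
    rw [fn, ext0_apply _ q.2] at h2
    exact h2
  obtain ⟨m, B, hB, hB0, hBe⟩ := rst_factor hD
  refine hB0 (rst_step h ht m a B hB ?_ ha)
  filter_upwards [hBe] with q hq
  rw [hq, sub_zero]

/-! ### Differential polynomials -/

private lemma rst_fn_add (a b : RU U) {q : ℂ × ℂ} (hq : q ∈ U) :
    fn (a + b) q = fn a q + fn b q := by
  simp only [fn]
  rw [ext0_apply _ hq, ext0_apply _ hq, ext0_apply _ hq]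
  rfl

private lemma rst_fn_mul (a b : RU U) {q : ℂ × ℂ} (hq : q ∈ U) :
    fn (a * b) q = fn a q * fn b q := by
  simp only [fn]
  rw [ext0_apply _ hq, ext0_apply _ hq, ext0_apply _ hq]
  rfl

private lemma rst_fn_const (c : ℂ) {q : ℂ × ℂ} (hq : q ∈ U) :
    fn (algebraMap ℂ (RU U) c) q = c := by
  simp only [fn]
  rw [ext0_apply _ hq]
  rfl

private lemma rst_comp_fd {f : ℂ × ℂ → ℂ} {g : ℂ → ℂ} {q : ℂ × ℂ}
    (hC : AnalyticAt ℂ C q) (hg : AnalyticAt ℂ g (C q))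
    (hf : ∀ᶠ p in 𝓝 q, f p = g (C p)) :
    fderiv ℂ f q = deriv g (C q) • fderiv ℂ C q := by
  have h1 : f =ᶠ[𝓝 q] fun p => g (C p) := hf
  rw [h1.fderiv_eq]
  have h2 : HasFDerivAt (fun p => g (C p)) (deriv g (C q) • fderiv ℂ C q) q :=
    HasDerivAt.comp_hasFDerivAt q hg.differentiableAt.hasDerivAt
      hC.differentiableAt.hasFDerivAt
  exact h2.fderiv

private lemma rst_iter1 (h : SetU k C M D1 D2 x K) (j : ℕ) : ∀ q ∈ U,
    AnalyticAt ℂ (deriv^[j] k) (C q) ∧ fn (D1^[j] (K 0)) q = deriv^[j] k (C q) := by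
  induction j with
  | zero =>
    intro q hq
    have h1 := h.onB.kan 0 (by omega) q hq
    have h2 := h.hK 0 (by omega) q hq
    have e : yC C (0 + 1) q = C q := by simp [yC]
    rw [e] at h1 h2
    exact ⟨h1, h2⟩
  | succ j ih =>
    intro q hq
    rw [Function.iterate_succ_apply', Function.iterate_succ_apply']
    refine ⟨(ih q hq).1.deriv, ?_⟩
    rw [h.coord.D1_eq _ hq]
    have hC : AnalyticAt ℂ C q := h.onB.can q hq
    have h1 : fderiv ℂ (fn (D1^[j] (K 0))) q = deriv (deriv^[j] k) (C q) • fderiv ℂ C q := by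
      refine rst_comp_fd hC (ih q hq).1 ?_
      filter_upwards [U.isOpen.mem_nhds hq] with p hp
      exact (ih p hp).2
    have h2 : fderiv ℂ (fn (x 1)) q = fderiv ℂ C q := (rst_fnx_ev h hq).fderiv_eq
    have h3 : Jac (fn (x 1)) (fn (x 1 - x 0)) q ≠ 0 := h.coord.jac q hq
    have h4 : Jac (fn (D1^[j] (K 0))) (fn (x 1 - x 0)) q =
        deriv (deriv^[j] k) (C q) * Jac (fn (x 1)) (fn (x 1 - x 0)) q := by
      unfold Jac
      rw [h1, h2]
      simp only [ContinuousLinearMap.smul_apply, smul_eq_mul]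
      ring
    rw [h4, mul_div_assoc, div_self h3, mul_one]

private lemma rst_iter2 (h : SetU k C M D1 D2 x K) (j : ℕ) : ∀ q ∈ U,
    (fun (f : ℂ × ℂ → ℂ) q => pt f q / pt C q)^[j] (fun p => k (C p)) q =
      deriv^[j] k (C q) := by
  induction j with
  | zero =>
    intro q _
    rfl
  | succ j ih =>
    intro q hq
    rw [Function.iterate_succ_apply', Function.iterate_succ_apply']
    have hC : AnalyticAt ℂ C q := h.onB.can q hq
    have h1 : fderiv ℂ ((fun (f : ℂ × ℂ → ℂ) q => pt f q / pt C q)^[j]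
        (fun p => k (C p))) q = deriv (deriv^[j] k) (C q) • fderiv ℂ C q := by
      refine rst_comp_fd hC (rst_iter1 h j q hq).1 ?_
      filter_upwards [U.isOpen.mem_nhds hq] with p hp
      exact ih p hp
    have h2 : pt C q ≠ 0 := h.onB.dt q hq
    show pt ((fun (f : ℂ × ℂ → ℂ) q => pt f q / pt C q)^[j] (fun p => k (C p))) q / pt C q = _
    have h3 : pt ((fun (f : ℂ × ℂ → ℂ) q => pt f q / pt C q)^[j] (fun p => k (C p))) q =
        deriv (deriv^[j] k) (C q) * pt C q := by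
      show fderiv ℂ _ q (1, 0) = _
      rw [h1]
      rfl
    rw [h3, mul_div_assoc, div_self h2, mul_one]

/-- the differential polynomials in `κ` are those of the pair `C`, `k (C)` -/
theorem fn_evD (h : SetU k C M D1 D2 x K) (P : KR) {q : ℂ × ℂ} (hq : q ∈ U) :
    fn (evD D1 (x 1) (K 0) P) q = evA C (fun p => k (C p)) P q := by
  induction P using MvPolynomial.induction_on with
  | C c =>
    rw [evA, evD, evD, MvPolynomial.aeval_C, MvPolynomial.aeval_C, rst_fn_const c hq]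
    rfl
  | add P Q hP hQ =>
    rw [evA] at hP hQ ⊢
    rw [map_add, map_add, rst_fn_add _ _ hq, hP, hQ]
    rfl
  | mul_X P n hP =>
    rw [evA] at hP ⊢
    rw [map_mul, map_mul, rst_fn_mul _ _ hq, hP]
    show _ * fn (evD D1 (x 1) (K 0) (MvPolynomial.X n)) q = _ * _
    congr 1
    rw [evD, evD, MvPolynomial.aeval_X, MvPolynomial.aeval_X]
    cases n with
    | none => exact rst_fnx h hq
    | some j =>
      show fn (D1^[j] (K 0)) q =
        (fun (f : ℂ × ℂ → ℂ) q => pt f q / pt C q)^[j] (fun p => k (C p)) q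
      rw [(rst_iter1 h j q hq).2, rst_iter2 h j q hq]

end Pool.Agent.MP_ae5b4e_an_NB1
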