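import Mathlib
import Pool.Agent.Lib.MP_ae5b4e_an_NB1.UDefs

/-!
# MP_ae5b4e_an, project NB_1: the polygon on a small ball
-/

noncomputable section

namespace Pool.Agent.MP_ae5b4e_an_NB1

open Complex Set Filter Topology Metric
open Pool.Agent.MP_ae5b4e_an_NBT

/-- the shift of the point number `j - 1` -/
private def sh (j : ℕ) (p : ℂ × ℂ) : ℂ × ℂ := (p.1 + ((j : ℂ) - 1) * p.2, p.2)

private lemma sh_zero (j : ℕ) (t₀ : ℂ) : sh j (t₀, 0) = (t₀, 0) := by simp [sh]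

private lemma sh_fderiv (j : ℕ) (p : ℂ × ℂ) : HasFDerivAt (sh j)
    ((ContinuousLinearMap.fst ℂ ℂ ℂ + ((j : ℂ) - 1) • ContinuousLinearMap.snd ℂ ℂ ℂ).prod
      (ContinuousLinearMap.snd ℂ ℂ ℂ)) p := by
  have h1 : HasFDerivAt (fun p : ℂ × ℂ => p.1) (ContinuousLinearMap.fst ℂ ℂ ℂ) p := hasFDerivAt_fst
  have h2 : HasFDerivAt (fun p : ℂ × ℂ => p.2) (ContinuousLinearMap.snd ℂ ℂ ℂ) p := hasFDerivAt_snd
  exact (h1.add (h2.const_mul ((j : ℂ) - 1))).prodMk h2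

private lemma sh_tendsto (j : ℕ) (t₀ : ℂ) :
    Tendsto (sh j) (𝓝 ((t₀, 0) : ℂ × ℂ)) (𝓝 ((t₀, 0) : ℂ × ℂ)) := by
  have := (sh_fderiv j ((t₀, 0) : ℂ × ℂ)).continuousAt.tendsto
  rwa [sh_zero] at this

private lemma sh_an (j : ℕ) (p : ℂ × ℂ) : AnalyticAt ℂ (sh j) p := by
  unfold sh
  exact (analyticAt_fst.add (analyticAt_const.mul analyticAt_snd)).prod analyticAt_snd

theorem exists_onB {k : ℂ → ℂ} {C : ℂ × ℂ → ℂ} {t₀ : ℂ} (h : Fm k C t₀) (M : ℕ)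
    {O : Set (ℂ × ℂ)} (hO : O ∈ 𝓝 ((t₀, 0) : ℂ × ℂ)) :
    ∃ r > 0, ball ((t₀, 0) : ℂ × ℂ) r ⊆ O ∧ OnB k C M (ball ((t₀, 0) : ℂ × ℂ) r) := by
  set q₀ : ℂ × ℂ := (t₀, 0) with hq₀
  have hyC : ∀ j, yC C j = C ∘ sh j := fun j => rfl
  have hyan : ∀ j, AnalyticAt ℂ (yC C j) q₀ := by
    intro j
    rw [hyC]
    refine AnalyticAt.comp ?_ (sh_an j q₀)
    rw [hq₀, sh_zero]
    exact h.an
  have hyval : ∀ j, yC C j q₀ = C q₀ := fun j => by
    rw [hyC, Function.comp_apply, hq₀, sh_zero]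
  have E1 : ∀ j, ∀ᶠ p in 𝓝 q₀, AnalyticAt ℂ (yC C j) p := fun j => (hyan j).eventually_analyticAt
  have E2 : ∀ j, ∀ᶠ p in 𝓝 q₀, AnalyticAt ℂ k (yC C j p) := by
    intro j
    have h1 : Tendsto (yC C j) (𝓝 q₀) (𝓝 (C q₀)) := by
      have := (hyan j).continuousAt.tendsto
      rwa [hyval] at this
    exact h1.eventually h.kan.eventually_analyticAt
  -- the derivatives at `q₀`
  have hfd : ∀ j, HasFDerivAt (yC C j) ((fderiv ℂ C q₀).comp
      ((ContinuousLinearMap.fst ℂ ℂ ℂ + ((j : ℂ) - 1) • ContinuousLinearMap.snd ℂ ℂ ℂ).prod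
      (ContinuousLinearMap.snd ℂ ℂ ℂ))) q₀ := by
    intro j
    have h1 : HasFDerivAt C (fderiv ℂ C q₀) (sh j q₀) := by
      rw [hq₀, sh_zero]
      exact h.an.differentiableAt.hasFDerivAt
    exact h1.comp q₀ (sh_fderiv j q₀)
  have hJ : ∀ i j, Jac (yC C i) (yC C j) q₀ = ((j : ℂ) - i) * (pt C q₀) ^ 2 := by
    intro i j
    have ha : ∀ j, fderiv ℂ (yC C j) q₀ (1, 0) = pt C q₀ := by
      intro j
      rw [(hfd j).fderiv]
      simp [pt]
    have hb : ∀ j : ℕ, fderiv ℂ (yC C j) q₀ (0, 1) = ((j : ℂ) - 1) * pt C q₀ + pr C q₀ := by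
      intro j
      rw [(hfd j).fderiv]
      have h1 : (((j : ℂ) - 1, 1) : ℂ × ℂ) = ((j : ℂ) - 1) • ((1, 0) : ℂ × ℂ) + (0, 1) := by
        ext <;> simp
      have h2 : ((fderiv ℂ C q₀).comp ((ContinuousLinearMap.fst ℂ ℂ ℂ +
          ((j : ℂ) - 1) • ContinuousLinearMap.snd ℂ ℂ ℂ).prod (ContinuousLinearMap.snd ℂ ℂ ℂ)))
          (0, 1) = fderiv ℂ C q₀ ((j : ℂ) - 1, 1) := by
        simp
      rw [h2, h1, map_add, map_smul, smul_eq_mul]
      rfl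
    unfold Jac
    rw [ha, ha, hb, hb]
    ring
  have E3 : ∀ i j, i < j → ∀ᶠ p in 𝓝 q₀, Jac (yC C i) (yC C j) p ≠ 0 := by
    intro i j hij
    have hc : ∀ j (v : ℂ × ℂ), ContinuousAt (fun p => fderiv ℂ (yC C j) p v) q₀ := by
      intro j v
      exact ((hyan j).fderiv.continuousAt).clm_apply continuousAt_const
    have h1 : ContinuousAt (Jac (yC C i) (yC C j)) q₀ :=
      ((hc i _).mul (hc j _)).sub ((hc j _).mul (hc i _))
    refine h1.eventually_ne ?_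
    rw [hJ]
    refine mul_ne_zero (sub_ne_zero.mpr ?_) (pow_ne_zero 2 h.dt)
    exact_mod_cast hij.ne'
  -- neighbouring points are different
  have E4' : ∀ᶠ q in 𝓝 q₀, q.2 ≠ 0 → C (q.1 + q.2, q.2) ≠ C q := by
    have h1 := h.an.hasStrictFDerivAt.isLittleO.def
      (half_pos (norm_pos_iff.mpr h.dt))
    have h2 : Tendsto (fun q : ℂ × ℂ => (((q.1 + q.2, q.2), q) : (ℂ × ℂ) × (ℂ × ℂ))) (𝓝 q₀)
        (𝓝 (q₀, q₀)) := by
      have h3 : Continuous fun q : ℂ × ℂ => (((q.1 + q.2, q.2), q) : (ℂ × ℂ) × (ℂ × ℂ)) := by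
        fun_prop
      have h4 := h3.tendsto q₀
      simpa [hq₀] using h4
    filter_upwards [h2.eventually h1] with q hq hq2 heq
    have h5 : ((q.1 + q.2, q.2) : ℂ × ℂ) - q = q.2 • ((1, 0) : ℂ × ℂ) := by
      ext <;> simp
    rw [heq, sub_self, zero_sub, norm_neg, h5, map_smul, norm_smul, norm_smul] at hq
    have h6 : ‖((1, 0) : ℂ × ℂ)‖ = 1 := by simp [Prod.norm_def]
    rw [h6, mul_one] at hq
    have h7 : 0 < ‖q.2‖ := norm_pos_iff.mpr hq2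
    have h8 : 0 < ‖pt C q₀‖ := norm_pos_iff.mpr h.dt
    have h9 : ‖fderiv ℂ C (t₀, 0) (1, 0)‖ = ‖pt C q₀‖ := rfl
    rw [h9] at hq
    have h10 : pt C (t₀, 0) = pt C q₀ := rfl
    rw [h10] at hq
    nlinarith
  have E4 : ∀ i, ∀ᶠ p in 𝓝 q₀, p.2 ≠ 0 → yC C (i + 1) p ≠ yC C i p := by
    intro i
    filter_upwards [(sh_tendsto i t₀).eventually E4'] with p hp hp2
    have h1 := hp hp2
    have h2 : yC C (i + 1) p = C ((sh i p).1 + (sh i p).2, (sh i p).2) := by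
      unfold yC sh
      congr 1
      ext
      · push_cast; ring
      · rfl
    rw [h2]
    exact h1
  have E5 : ∀ i, ∀ᶠ p in 𝓝 q₀, p.2 ≠ 0 →
      (yC C (i + 2) p - yC C (i + 1) p)⁻¹ + (yC C i p - yC C (i + 1) p)⁻¹ =
        k (yC C (i + 1) p) := by
    intro i
    filter_upwards [(sh_tendsto (i + 1) t₀).eventually h.fe] with p hp hp2
    have h1 := hp hp2
    have h2 : yC C (i + 2) p = C ((sh (i + 1) p).1 + (sh (i + 1) p).2, (sh (i + 1) p).2) := by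
      unfold yC sh
      congr 1
      ext
      · push_cast; ring
      · rfl
    have h3 : yC C i p = C ((sh (i + 1) p).1 - (sh (i + 1) p).2, (sh (i + 1) p).2) := by
      unfold yC sh
      congr 1
      ext
      · push_cast; ring
      · rfl
    rw [h2, h3]
    exact h1
  have E6 : ∀ᶠ p in 𝓝 q₀, pt C p ≠ 0 := by
    have h1 : ContinuousAt (pt C) q₀ := (h.an.fderiv.continuousAt).clm_apply continuousAt_const
    exact h1.eventually_ne h.dt
  have E7 : ∀ᶠ p in 𝓝 q₀, AnalyticAt ℂ C p := h.an.eventually_analyticAt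
  have F1 : ∀ᶠ p in 𝓝 q₀, ∀ j ∈ Finset.range (M + 3), AnalyticAt ℂ (yC C j) p :=
    (Finset.eventually_all _).2 fun j _ => E1 j
  have F2 : ∀ᶠ p in 𝓝 q₀, ∀ j ∈ Finset.range (M + 3), AnalyticAt ℂ k (yC C j p) :=
    (Finset.eventually_all _).2 fun j _ => E2 j
  have F3 : ∀ᶠ p in 𝓝 q₀, ∀ i ∈ Finset.range (M + 3), ∀ j ∈ Finset.range (M + 3), i < j →
      Jac (yC C i) (yC C j) p ≠ 0 := by
    refine (Finset.eventually_all _).2 fun i _ => (Finset.eventually_all _).2 fun j _ => ?_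
    by_cases hij : i < j
    · exact (E3 i j hij).mono fun p hp _ => hp
    · exact Eventually.of_forall fun p h => absurd h hij
  have F4 : ∀ᶠ p in 𝓝 q₀, ∀ i ∈ Finset.range (M + 3), p.2 ≠ 0 → yC C (i + 1) p ≠ yC C i p :=
    (Finset.eventually_all _).2 fun j _ => E4 j
  have F5 : ∀ᶠ p in 𝓝 q₀, ∀ i ∈ Finset.range (M + 3), p.2 ≠ 0 →
      (yC C (i + 2) p - yC C (i + 1) p)⁻¹ + (yC C i p - yC C (i + 1) p)⁻¹ =
        k (yC C (i + 1) p) :=
    (Finset.eventually_all _).2 fun j _ => E5 j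
  obtain ⟨r, hr, hb⟩ := Metric.eventually_nhds_iff_ball.mp
    (F1.and (F2.and (F3.and (F4.and (F5.and (E6.and (E7.and hO)))))))
  refine ⟨r, hr, fun p hp => (hb p hp).2.2.2.2.2.2.2, ?_⟩
  exact
    { an := fun j hj p hp => (hb p hp).1 j (Finset.mem_range.mpr (by omega))
      kan := fun i hi p hp => (hb p hp).2.1 (i + 1) (Finset.mem_range.mpr (by omega))
      jac := fun i j hij hj p hp => (hb p hp).2.2.1 i (Finset.mem_range.mpr (by omega)) j
        (Finset.mem_range.mpr (by omega)) hij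
      ne := fun i hi p hp => (hb p hp).2.2.2.1 i (Finset.mem_range.mpr (by omega))
      rel := fun i hi p hp => (hb p hp).2.2.2.2.1 i (Finset.mem_range.mpr (by omega))
      dt := fun p hp => (hb p hp).2.2.2.2.2.1
      can := fun p hp => (hb p hp).2.2.2.2.2.2.1 }

end Pool.Agent.MP_ae5b4e_an_NB1
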