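import Mathlib
import Pool.Agent.Lib.MP_ae5b4e_an_NB1.CoordEx
import Pool.Agent.Lib.MP_ae5b4e_an_NB1.UBall

/-!
# MP_ae5b4e_an, project NB_1: the algebraic setup on the ball
-/

noncomputable section

namespace Pool.Agent.MP_ae5b4e_an_NB1

open Complex Set Filter Topology Metric
open TopologicalSpace (Opens)
open Pool.Agent.MP_ae5b4e_an_NBT

/-- evaluation at a point of `U` -/
private def setup_ev {U : Opens (ℂ × ℂ)} (q : U) : RU U →ₐ[ℂ] ℂ :=
  (Pi.evalAlgHom ℂ (fun _ : U => ℂ) q).comp (RU U).val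

private theorem setup_fn {U : Opens (ℂ × ℂ)} (f : RU U) {q : ℂ × ℂ} (hq : q ∈ U) :
    fn f q = setup_ev ⟨q, hq⟩ f := by
  unfold fn
  rw [ext0_apply _ hq]
  rfl

private theorem setup_ext {U : Opens (ℂ × ℂ)} {f g : RU U}
    (h : ∀ q (hq : q ∈ U), setup_ev ⟨q, hq⟩ f = setup_ev ⟨q, hq⟩ g) : f = g := by
  apply Subtype.ext
  funext q
  exact h q.1 q.2

private theorem setup_toRU {U : Opens (ℂ × ℂ)} {f : ℂ × ℂ → ℂ} (hf : AnalyticOnNhd ℂ f U)
    {q : ℂ × ℂ} (hq : q ∈ U) : fn (toRU U f hf) q = f q := by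
  unfold fn
  rw [ext0_apply _ hq]
  rfl

private theorem setup_fd {U : Opens (ℂ × ℂ)} {f : RU U} {g : ℂ × ℂ → ℂ}
    (h : ∀ p ∈ U, fn f p = g p) {q : ℂ × ℂ} (hq : q ∈ U) :
    fderiv ℂ (fn f) q = fderiv ℂ g q := by
  apply Filter.EventuallyEq.fderiv_eq
  filter_upwards [U.isOpen.mem_nhds hq] with p hp
  exact h p hp

private theorem setup_sub {U : Opens (ℂ × ℂ)} (f g : RU U) {q : ℂ × ℂ} (hq : q ∈ U) :
    fderiv ℂ (fn (f - g)) q = fderiv ℂ (fn f) q - fderiv ℂ (fn g) q := by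
  have h1 : ∀ p ∈ U, fn (f - g) p = fn f p - fn g p := by
    intro p hp
    rw [setup_fn _ hp, setup_fn _ hp, setup_fn _ hp, map_sub]
  rw [setup_fd h1 hq]
  exact fderiv_fun_sub (fn_an f q hq).differentiableAt (fn_an g q hq).differentiableAt

theorem exists_setU {k : ℂ → ℂ} {C : ℂ × ℂ → ℂ} {M : ℕ} {U : Opens (ℂ × ℂ)}
    (h : OnB k C M U) (hconv : Convex ℝ (U : Set (ℂ × ℂ)))
    {t₀ : ℂ} (ht : (t₀, (0:ℂ)) ∈ U) :
    ∃ (D1 D2 : Derivation ℂ (RU U) (RU U)) (x K : ℕ → RU U), SetU k C M D1 D2 x K := by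
  classical
  have hkan : ∀ i ≤ M, AnalyticOnNhd ℂ (fun p => k (yC C (i + 1) p)) U := by
    intro i hi p hp
    exact AnalyticAt.comp' (h.kan i hi p hp) (h.an (i + 1) (by omega) p hp)
  let x : ℕ → RU U := fun j => if hj : j ≤ M + 2 then toRU U (yC C j) (h.an j hj) else 0
  let K : ℕ → RU U := fun i =>
    if hi : i ≤ M then toRU U (fun p => k (yC C (i + 1) p)) (hkan i hi) else 0
  have hx : ∀ j ≤ M + 2, ∀ p ∈ U, fn (x j) p = yC C j p := by
    intro j hj p hp
    change fn (if hj : j ≤ M + 2 then toRU U (yC C j) (h.an j hj) else 0) p = _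
    rw [dif_pos hj]
    exact setup_toRU _ hp
  have hK : ∀ i ≤ M, ∀ p ∈ U, fn (K i) p = k (yC C (i + 1) p) := by
    intro i hi p hp
    change fn (if hi : i ≤ M then toRU U (fun p => k (yC C (i + 1) p)) (hkan i hi) else 0) p = _
    rw [dif_pos hi]
    exact setup_toRU _ hp
  have hfx : ∀ j ≤ M + 2, ∀ p ∈ U, fderiv ℂ (fn (x j)) p = fderiv ℂ (yC C j) p :=
    fun j hj p hp => setup_fd (hx j hj) hp
  have hJ : ∀ q ∈ U, Jac (fn (x 1)) (fn (x 1 - x 0)) q ≠ 0 := by
    intro q hq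
    have h1 : Jac (fn (x 1)) (fn (x 1 - x 0)) q = Jac (yC C 0) (yC C 1) q := by
      unfold Jac
      rw [setup_sub _ _ hq, hfx 1 (by omega) q hq, hfx 0 (by omega) q hq]
      simp only [ContinuousLinearMap.sub_apply]
      ring
    rw [h1]
    exact h.jac 0 1 (by omega) (by omega) q hq
  obtain ⟨D1, D2, hc⟩ := exists_coord hJ
  refine ⟨D1, D2, x, K, h, hc, ?_, hx, hK⟩
  refine ⟨?_, ?_, ?_, hc.x1, hc.x2, hc.u1, hc.u2⟩
  · intro i hi heq
    apply h.jac i (i + 1) (by omega) (by omega) _ ht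
    have h1 : fderiv ℂ (yC C i) (t₀, 0) = fderiv ℂ (yC C (i + 1)) (t₀, 0) := by
      rw [← hfx i (by omega) _ ht, ← hfx (i + 1) (by omega) _ ht, heq]
    unfold Jac
    rw [h1]
    ring
  · intro i hi
    apply setup_ext
    intro q hq
    simp only [map_sub, map_mul]
    rw [← setup_fn (x i) hq, ← setup_fn (x (i + 1)) hq, ← setup_fn (x (i + 2)) hq,
      ← setup_fn (K i) hq, hx i (by omega) q hq, hx (i + 1) (by omega) q hq,
      hx (i + 2) (by omega) q hq, hK i hi q hq]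
    by_cases hq2 : q.2 = 0
    · have h2 : ∀ j : ℕ, yC C j q = C (q.1, q.2) := by
        intro j
        unfold yC
        rw [hq2, mul_zero, add_zero]
      rw [h2, h2, h2]
      ring
    · have h3 := h.rel i hi q hq hq2
      have hA : yC C (i + 2) q - yC C (i + 1) q ≠ 0 :=
        sub_ne_zero.mpr (h.ne (i + 1) (by omega) q hq hq2)
      have hB : yC C (i + 1) q - yC C i q ≠ 0 := sub_ne_zero.mpr (h.ne i (by omega) q hq hq2)
      have h4 : yC C i q - yC C (i + 1) q = -(yC C (i + 1) q - yC C i q) := by ring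
      rw [h4, inv_neg] at h3
      rw [← h3]
      generalize yC C (i + 2) q - yC C (i + 1) q = A at hA ⊢
      generalize yC C (i + 1) q - yC C i q = B at hB ⊢
      field_simp
      ring
  · intro i hi
    have hfK : ∀ q ∈ U, fderiv ℂ (fn (K i)) q =
        deriv k (yC C (i + 1) q) • fderiv ℂ (fn (x (i + 1))) q := by
      intro q hq
      rw [setup_fd (hK i hi) hq, hfx (i + 1) (by omega) q hq]
      have h5 : HasDerivAt k (deriv k (yC C (i + 1) q)) (yC C (i + 1) q) :=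
        (h.kan i hi q hq).differentiableAt.hasDerivAt
      have h6 : HasFDerivAt (yC C (i + 1)) (fderiv ℂ (yC C (i + 1)) q) q :=
        (h.an (i + 1) (by omega) q hq).differentiableAt.hasFDerivAt
      exact (h5.comp_hasFDerivAt q h6).fderiv
    apply setup_ext
    intro q hq
    simp only [map_mul]
    rw [← setup_fn (D1 (K i)) hq, ← setup_fn (D2 (x (i + 1))) hq, ← setup_fn (D2 (K i)) hq,
      ← setup_fn (D1 (x (i + 1))) hq, hc.D1_eq _ hq, hc.D1_eq _ hq, hc.D2_eq _ hq, hc.D2_eq _ hq]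
    have h7 : ∀ g : ℂ × ℂ → ℂ, Jac (fn (K i)) g q =
        deriv k (yC C (i + 1) q) * Jac (fn (x (i + 1))) g q := by
      intro g
      unfold Jac
      rw [hfK q hq]
      simp only [ContinuousLinearMap.smul_apply, smul_eq_mul]
      ring
    have h8 : ∀ g : ℂ × ℂ → ℂ, Jac g (fn (K i)) q =
        deriv k (yC C (i + 1) q) * Jac g (fn (x (i + 1))) q := by
      intro g
      unfold Jac
      rw [hfK q hq]
      simp only [ContinuousLinearMap.smul_apply, smul_eq_mul]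
      ring
    rw [h7, h8]
    ring

end Pool.Agent.MP_ae5b4e_an_NB1
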