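import Mathlib
import Pool.Agent.Lib.MP_ae5b4e_an_NB1.RInvSl
import Pool.Agent.Lib.MP_ae5b4e_an_NB1.CaseIAlg
import Pool.Agent.Lib.MP_ae5b4e_an_NB1.SetUp
import Pool.Agent.Lib.MP_ae5b4e_an_NB1.Rst
import Pool.Agent.Lib.MP_ae5b4e_an_NB1.ExtMin

/-!
# MP_ae5b4e_an, project NB_1: case I is impossible
-/

noncomputable section

namespace Pool.Agent.MP_ae5b4e_an_NB1

open Complex Set Filter Topology Metric
open TopologicalSpace (Opens)
open Pool.Agent.MP_ae5b4e_an_NBT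
open Pool.Agent.Lib.Puiseux (rot)

variable {k : ℂ → ℂ} {C G K : ℂ × ℂ → ℂ} {t₀ : ℂ} {O₁ : Set (ℂ × ℂ)} {tp ρ₀ : ℂ} {r r' : ℝ}
  {ρ₁ t₁ t₂ : ℂ} {f₁ x₁ : ℂ → ℂ} {e : ℂ} {n m : ℕ} {s g w : ℂ → ℂ} {ε : ℝ}

/-! ### Auxiliary facts -/

section Aux

variable {U : Opens (ℂ × ℂ)}

private lemma fn_apply (f : RU U) {q : ℂ × ℂ} (hq : q ∈ U) : fn f q = f.1 ⟨q, hq⟩ :=
  ext0_apply _ hq

private lemma ci_fn_mul (f g : RU U) {q : ℂ × ℂ} (hq : q ∈ U) :
    fn (f * g) q = fn f q * fn g q := by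
  rw [fn_apply _ hq, fn_apply _ hq, fn_apply _ hq]
  rfl

private lemma ci_ext {f g : RU U} (h : ∀ q ∈ U, fn f q = fn g q) : f = g := by
  apply Subtype.ext
  funext q
  have := h q.1 q.2
  rwa [fn_apply _ q.2, fn_apply _ q.2] at this

private lemma fn_zero' {q : ℂ × ℂ} (hq : q ∈ U) : fn (0 : RU U) q = 0 := by
  rw [fn_apply _ hq]
  rfl

/-- the identity theorem -/
private lemma ci_zero (hU : IsPreconnected (U : Set (ℂ × ℂ))) {p : ℂ × ℂ} (hp : p ∈ U) {f : RU U}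
    (h : ∀ᶠ q in 𝓝 p, fn f q = 0) : f = 0 := by
  apply ci_ext
  intro q hq
  rw [fn_zero' hq]
  exact (fn_an f).eqOn_zero_of_preconnected_of_eventuallyEq_zero hU hp h hq

private lemma D2_evD {D1 D2 : Derivation ℂ (RU U) (RU U)} (hc : ∀ a, D1 (D2 a) = D2 (D1 a))
    {x κ : RU U} (hx : D2 x = 0) (hκ : D2 κ = 0) (P : KR) : D2 (evD D1 x κ P) = 0 := by
  have hj : ∀ j : ℕ, D2 (D1^[j] κ) = 0 := by
    intro j
    induction j with
    | zero => exact hκ
    | succ j ih => rw [Function.iterate_succ_apply', ← hc, ih, map_zero]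
  induction P using MvPolynomial.induction_on with
  | C a =>
    have h2 : evD D1 x κ (MvPolynomial.C a) = algebraMap ℂ (RU U) a := (evD D1 x κ).commutes a
    rw [h2, D2.map_algebraMap]
  | add p q hp hq => rw [map_add, map_add, hp, hq, add_zero]
  | mul_X p i hp =>
    have h3 : D2 (evD D1 x κ (MvPolynomial.X i)) = 0 := by
      have h4 : evD D1 x κ (MvPolynomial.X i) = evv D1 x κ i := MvPolynomial.aeval_X _ _
      rw [h4]
      cases i with
      | none => exact hx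
      | some j => exact hj j
    rw [map_mul, Derivation.leibniz, hp, h3, smul_zero, smul_zero, add_zero]

end Aux

/-- two functions with the same expansion agree -/
private lemma lExp_eq {f g : ℂ → ℂ} {ℓ : LaurentSeries ℂ} (hf : LExp f ℓ) (hg : LExp g ℓ) :
    ∀ᶠ v in 𝓝[≠] (0:ℂ), f v = g v := by
  have h1 := hf.add ((LExp.const (-1)).mul hg)
  have h2 : ℓ + HahnSeries.C (-1 : ℂ) * ℓ = 0 := by
    rw [map_neg, map_one]
    ring
  have h3 := (h1.eq_zero_iff).1 h2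
  filter_upwards [h3] with v hv
  linear_combination hv

/-- **Case I is impossible.** -/
theorem caseI_core {M : ℕ} (hM : 2 ≤ M)
    (h : SlD k C G K t₀ O₁ tp ρ₀ r r' ρ₁ t₁ t₂ f₁ x₁ e n m s g w ε) {X : ℕ → ℂ × ℂ → ℂ}
    (hX : ∀ i, i = 0 ∨ i = 1 ∨ i = M + 1 ∨ i = M + 2 →
      Mer (X i) (O₁ ∪ ball tp r' ×ˢ ball ρ₀ r) ∧ EqM (X i) (yC C i) (t₀, 0))
    (hno : ¬ ARel M (fun j => yC C (j + 1)) (t₀, 0))
    {ζ : ℂ} (hζ : ζ ^ m = 1) (hgζ : ¬ ∀ᶠ v in 𝓝[≠] (0:ℂ), g (ζ * v) = g v) : False := by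
  have hζ0 : ζ ≠ 0 := by
    intro h0
    rw [h0, zero_pow h.hm.ne'] at hζ
    exact zero_ne_one hζ
  obtain ⟨z, hz⟩ : ∃ z : ℂˣ, (z : ℂ) = ζ := ⟨Units.mk0 ζ hζ0, rfl⟩
  have hzm : z ^ m = 1 := by
    apply Units.ext
    push_cast
    rw [hz, hζ]
  have hzN : z ^ (m * n) = 1 := by rw [pow_mul, hzm, one_pow]
  obtain ⟨d, hd⟩ := exists_dz (Nat.mul_pos h.hm h.hn)
  obtain ⟨ℓ, hℓ⟩ := exists_lExp h.hg
  obtain ⟨r0, hr0, hsub, hB⟩ := exists_onB h.fm M (h.opn.mem_nhds h.mem)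
  obtain ⟨U, hUd⟩ : ∃ U : Opens (ℂ × ℂ), (U : Set (ℂ × ℂ)) = ball ((t₀, 0) : ℂ × ℂ) r0 :=
    ⟨⟨ball ((t₀, 0) : ℂ × ℂ) r0, isOpen_ball⟩, rfl⟩
  have hmem : ((t₀, 0) : ℂ × ℂ) ∈ U := by
    rw [← SetLike.mem_coe, hUd]
    exact mem_ball_self hr0
  have hUc : Convex ℝ (U : Set (ℂ × ℂ)) := by
    rw [hUd]
    exact convex_ball _ _
  have hUp : IsPreconnected (U : Set (ℂ × ℂ)) := hUc.isPreconnected
  rw [← hUd] at hsub hB
  obtain ⟨D1, D2, x, K', hS⟩ := exists_setU hB hUc hmem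
  obtain ⟨S₀, hE, hmin⟩ := exists_min D1 D2 M x
  have : IsDomain (RU U) := isDomain_RU hUp ⟨_, hmem⟩
  -- the functions of the polygon
  have hxe : ∀ j ≤ M + 2, ∀ p ∈ U, fn (x j) =ᶠ[𝓝 p] yC C j := by
    intro j hj p hp
    filter_upwards [U.isOpen.mem_nhds hp] with q hq
    exact hS.hx j hj q hq
  -- no relation
  have hno' : ∀ q ∈ U, ∀ φ : ℕ → PowerSeries ℂ, FRel M (fun j => fn (x (j + 1))) q φ →
      ∀ j ≤ M, φ j = 0 := by
    intro q hq φ hφ
    by_contra hcon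
    push Not at hcon
    have hy : ∀ j ≤ M, AnalyticOnNhd ℂ (fn (x (j + 1))) (ball ((t₀, 0) : ℂ × ℂ) r0) := by
      intro j _
      rw [← hUd]
      exact fn_an _
    have hJ : ∀ i j, i < j → j ≤ M → ∀ p ∈ ball ((t₀, 0) : ℂ × ℂ) r0,
        Jac (fn (x (i + 1))) (fn (x (j + 1))) p ≠ 0 := by
      intro i j hij hj p hp
      rw [← hUd] at hp
      have h1 := hB.jac (i + 1) (j + 1) (by omega) (by omega) p hp
      unfold Jac at h1 ⊢
      rw [(hxe (i + 1) (by omega) p hp).fderiv_eq, (hxe (j + 1) (by omega) p hp).fderiv_eq]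
      exact h1
    have hq' : q ∈ ball ((t₀, 0) : ℂ × ℂ) r0 := by
      rw [← hUd]
      exact hq
    obtain ⟨a, ha1, ha2, ha3⟩ :=
      ar_lemma hM (y := fun j => fn (x (j + 1))) hy hJ hq' hφ hcon
    have hv : ∀ j ≤ M, fn (x (j + 1)) (t₀, 0) = yC C (j + 1) (t₀, 0) := fun j hj =>
      hS.hx (j + 1) (by omega) _ hmem
    refine hno ⟨a, ?_, ?_, ?_⟩
    · intro j hj
      have h1 := ha1 j hj
      beta_reduce at h1 ⊢
      rw [← hv j hj]
      exact h1
    · obtain ⟨j, hj, h1⟩ := ha2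
      refine ⟨j, hj, ?_⟩
      beta_reduce at h1 ⊢
      rw [← hv j hj]
      exact h1
    · filter_upwards [ha3, U.isOpen.mem_nhds hmem] with p hp hpU
      rw [← hp]
      refine Finset.sum_congr rfl fun j hj => ?_
      have hj' : j ≤ M := by
        have := Finset.mem_range.1 hj
        omega
      have h1 := hxe (j + 1) (by omega) p hpU
      rw [h1.fderiv_eq, h1.eq_of_nhds]
  have halg := alg41 hUp ⟨_, hmem⟩ hM hS.coord hS.poly hno' hE
  -- the kernel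
  have hK2 : D2 (K' 0) = 0 := by
    have h1 := hS.poly.wr 0 (by omega)
    rw [hS.poly.x1, hS.poly.x2, mul_zero, mul_one] at h1
    exact h1.symm
  have hfn : ∀ P : KR, ∀ᶠ q in 𝓝 ((t₀, 0) : ℂ × ℂ),
      fn (evD D1 (x 1) (K' 0) P) q = evA C (fun p => k (C p)) P q := by
    intro P
    filter_upwards [U.isOpen.mem_nhds hmem] with q hq
    exact fn_evD hS P hq
  have hker : ∀ P : KR, rst U (evD D1 (x 1) (K' 0) P) = 0 ↔
      evD d (xL e (m * n)) ℓ P = 0 := by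
    intro P
    rw [← h.ker hd hℓ P]
    constructor
    · intro h0
      have h1 : evD D1 (x 1) (K' 0) P = 0 := by
        apply rst_inj hS hUp hmem
        intro j
        rcases j with _ | j
        · exact h0
        · have h2 : D2 (evD D1 (x 1) (K' 0) P) = 0 :=
            D2_evD hS.coord.comm hS.poly.x2 hK2 P
          have h3 : ∀ i : ℕ, D2^[i] (0 : RU U) = 0 := by
            intro i
            induction i with
            | zero => rfl
            | succ i ih => rw [Function.iterate_succ_apply', ih, map_zero]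
          rw [Function.iterate_succ_apply, h2, h3, map_zero]
      filter_upwards [hfn P, U.isOpen.mem_nhds hmem] with q hq hqU
      rw [← hq, h1, fn_zero' hqU]
    · intro h0
      have h1 : evD D1 (x 1) (K' 0) P = 0 := by
        apply ci_zero hUp hmem
        filter_upwards [hfn P, h0] with q hq hq0
        rw [hq, hq0]
      rw [h1, map_zero]
  -- the invariance
  have hO : IsPreconnected (O₁ ∪ ball tp r' ×ˢ ball ρ₀ r) :=
    IsPreconnected.union (t₂, ρ₁) h.hp₂ ⟨h.ht₂, h.hρ₁⟩ h.pre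
      (((convex_ball tp r').prod (convex_ball ρ₀ r)).isPreconnected)
  have hX' : ∀ i, i = 0 ∨ i = 1 ∨ i = M + 1 ∨ i = M + 2 →
      Mer (X i) (O₁ ∪ ball tp r' ×ˢ ball ρ₀ r) ∧ ∀ p ∈ U, EqM (X i) (fn (x i)) p := by
    intro i hi
    obtain ⟨h1, h2⟩ := hX i hi
    refine ⟨h1, fun p hp => ?_⟩
    have hi' : i ≤ M + 2 := by omega
    have h3 := Mer.eqM hUp (h1.mono (hsub.trans subset_union_left))
      (Mer.of_analytic (hB.an i hi')) hmem h2 p hp
    exact h3.trans (EqM.of_eventuallyEq (hxe i hi' p hp).symm)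
  have hinv : ∀ a ∈ S₀, ∀ b ∈ S₀, b ≠ 0 → D2 a * b = a * D2 b → ∀ P R : KR,
      a * evD D1 (x 1) (K' 0) R = b * evD D1 (x 1) (K' 0) P →
      evD d (xL e (m * n)) ℓ R ≠ 0 →
      rot z (evD d (xL e (m * n)) ℓ P / evD d (xL e (m * n)) ℓ R) =
        evD d (xL e (m * n)) ℓ P / evD d (xL e (m * n)) ℓ R := by
    intro a ha b hb hb0 _ P R hPR hR
    obtain ⟨A, hA, hA'⟩ := ext_min hO (hsub.trans subset_union_left) hS.coord hX' hmin ha
    obtain ⟨B, hBm, hB'⟩ := ext_min hO (hsub.trans subset_union_left) hS.coord hX' hmin hb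
    have hB0 : ¬ EqM B (fun _ => 0) (t₀, 0) := by
      intro h0
      have h1 := (hB' _ hmem).symm.trans h0
      have h2 := h1.eventuallyEq (fn_an b _ hmem) analyticAt_const
      exact hb0 (ci_zero hUp hmem h2)
    have hev : ∀ Q : KR, EqM (evM G K Q) (fn (evD D1 (x 1) (K' 0) Q)) (t₀, 0) := by
      intro Q
      have hkC : AnalyticAt ℂ (fun p => k (C p)) ((t₀, 0) : ℂ × ℂ) :=
        AnalyticAt.fun_comp h.fm.kan h.fm.an
      have h1 := evM_eq (h.merG _ h.mem) (h.merK _ h.mem) h.fm.an hkC h.fm.dt h.eG h.eK Q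
      exact h1.trans (EqM.of_eventuallyEq ((hfn Q).mono fun q hq => hq.symm))
    have hAB : EqM (fun q => A q * evM G K R q) (fun q => B q * evM G K P q) (t₀, 0) := by
      have h1 := EqM.map₂ (fun u v => u * v) (hA' _ hmem) (hev R)
      have h2 := EqM.map₂ (fun u v => u * v) (hB' _ hmem) (hev P)
      have h3 : EqM (fun q => fn a q * fn (evD D1 (x 1) (K' 0) R) q)
          (fun q => fn b q * fn (evD D1 (x 1) (K' 0) P) q) (t₀, 0) := by
        apply EqM.of_eventuallyEq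
        filter_upwards [U.isOpen.mem_nhds hmem] with q hq
        rw [← ci_fn_mul _ _ hq, ← ci_fn_mul _ _ hq, hPR]
      exact (h1.trans h3).trans h2.symm
    exact h.rinv hA hBm hB0 hAB hd hℓ hR hzm
  have hfin : rot z ℓ = ℓ :=
    caseI_alg hM hS.poly hS.coord.comm (r := rst U) (rst_D1 hS) (rst_u hS) (rst_K hS)
      (rst_inj hS hUp hmem) hE hmin halg hd hzN hker hinv
  have h1 := hℓ.rot z
  rw [hfin] at h1
  apply hgζ
  rw [← hz]
  exact lExp_eq h1 hℓ

end Pool.Agent.MP_ae5b4e_an_NB1
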