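import Mathlib
import Pool.Agent.Lib.MP_ae5b4e_an_NB1.SetUp
import Pool.Agent.Lib.MP_ae5b4e_an_NB1.ExtMin
import Pool.Agent.Lib.MP_ae5b4e_an_NB1.Ifc

/-!
# MP_ae5b4e_an, project NB_1: the kick is algebraic over the meromorphic functions
-/

noncomputable section

namespace Pool.Agent.MP_ae5b4e_an_NB1

open Complex Set Filter Topology Metric
open TopologicalSpace (Opens)
open Pool.Agent.MP_ae5b4e_an_NBT

/-- evaluation at a point of `U` -/
private def fa_ev {U : Opens (ℂ × ℂ)} (q : U) : RU U →ₐ[ℂ] ℂ :=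
  (Pi.evalAlgHom ℂ (fun _ : U => ℂ) q).comp (RU U).val

private theorem fa_fn {U : Opens (ℂ × ℂ)} (f : RU U) {q : ℂ × ℂ} (hq : q ∈ U) :
    fn f q = fa_ev ⟨q, hq⟩ f := by
  unfold fn
  rw [ext0_apply _ hq]
  rfl

private theorem fa_ext {U : Opens (ℂ × ℂ)} {f g : RU U}
    (h : ∀ q (hq : q ∈ U), fa_ev ⟨q, hq⟩ f = fa_ev ⟨q, hq⟩ g) : f = g := by
  apply Subtype.ext
  funext q
  exact h q.1 q.2

/-- an element of the ring which vanishes near one point of a connected open set is zero -/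
private theorem fa_zero {U : Opens (ℂ × ℂ)} (hU : IsPreconnected (U : Set (ℂ × ℂ))) {f : RU U}
    {p : ℂ × ℂ} (hp : p ∈ U) (h : ∀ᶠ q in 𝓝 p, fn f q = 0) : f = 0 := by
  have h1 := (fn_an f).eqOn_zero_of_preconnected_of_eventuallyEq_zero hU hp h
  refine fa_ext fun q hq => ?_
  rw [← fa_fn f hq, map_zero]
  exact h1 hq

/-- a formal relation depends only on the functions near the point -/
private theorem fa_frel {M : ℕ} {y y' : ℕ → ℂ × ℂ → ℂ} {q : ℂ × ℂ} {φ : ℕ → PowerSeries ℂ}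
    (h : ∀ᶠ p in 𝓝 q, ∀ j ∈ Finset.range (M + 1), y j p = y' j p) (hφ : FRel M y q φ) :
    FRel M y' q φ := by
  refine ⟨hφ.1, fun n => ?_⟩
  obtain ⟨C, hC⟩ := hφ.2 n
  refine ⟨C, ?_⟩
  have hq := h.self_of_nhds
  filter_upwards [h, hC] with p hp hCp
  have h1 : ∑ j ∈ Finset.range (M + 1), ((φ j).trunc (n + 1)).eval (y' j p - y' j q) =
      ∑ j ∈ Finset.range (M + 1), ((φ j).trunc (n + 1)).eval (y j p - y j q) := by
    refine Finset.sum_congr rfl fun j hj => ?_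
    rw [hp j hj, hq j hj]
  rw [h1]
  exact hCp

private theorem fa_mer {b : ℕ → ℂ × ℂ → ℂ} {K : ℂ × ℂ → ℂ} {p : ℂ × ℂ} (hK : MerAt K p)
    (hb : ∀ i, MerAt (b i) p) (n : ℕ) :
    MerAt (fun q => ∑ i ∈ Finset.range n, b i q * K q ^ i) p := by
  have hpow : ∀ i : ℕ, MerAt (fun q => K q ^ i) p := by
    intro i
    induction i with
    | zero => simpa using merAt_of_analyticAt (analyticAt_const (v := (1 : ℂ)) (x := p))
    | succ i ih =>
      simp only [pow_succ]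
      exact ih.mul hK
  induction n with
  | zero => simpa using merAt_of_analyticAt (analyticAt_const (v := (0 : ℂ)) (x := p))
  | succ n ih =>
    simp only [Finset.sum_range_succ]
    exact ih.add ((hb n).mul (hpow n))

private theorem fa_eqM {b b' : ℕ → ℂ × ℂ → ℂ} {K K' : ℂ × ℂ → ℂ} {p : ℂ × ℂ}
    (hK : EqM K K' p) (hb : ∀ i, EqM (b i) (b' i) p) (n : ℕ) :
    EqM (fun q => ∑ i ∈ Finset.range n, b i q * K q ^ i)
      (fun q => ∑ i ∈ Finset.range n, b' i q * K' q ^ i) p := by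
  induction n with
  | zero => simpa using EqM.refl (fun _ => (0 : ℂ)) p
  | succ n ih =>
    simp only [Finset.sum_range_succ]
    exact EqM.map₂ (fun x y => x + y) ih (EqM.map₂ (fun x y => x * y ^ n) (hb n) hK)

/-- without abelian relations the kick satisfies an algebraic equation with coefficients which are
meromorphic on `O` -/
theorem from_alg {k : ℂ → ℂ} {C K : ℂ × ℂ → ℂ} {t₀ : ℂ} {M : ℕ} (hM : 2 ≤ M)
    (hfm : Fm k C t₀) {O₁ O : Set (ℂ × ℂ)} (hO₁ : IsOpen O₁) (hp₁ : IsPreconnected O₁)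
    (h0 : ((t₀, 0) : ℂ × ℂ) ∈ O₁) (hp : IsPreconnected O) (hsub : O₁ ⊆ O) (hK : Mer K O₁)
    (eK : EqM K (fun p => k (C p)) (t₀, 0)) {X : ℕ → ℂ × ℂ → ℂ}
    (hX : ∀ i, i = 0 ∨ i = 1 ∨ i = M + 1 ∨ i = M + 2 →
      Mer (X i) O ∧ EqM (X i) (yC C i) (t₀, 0))
    (hno : ¬ ARel M (fun j => yC C (j + 1)) (t₀, 0)) :
    ∃ (D : ℕ) (b : ℕ → ℂ × ℂ → ℂ), (∀ i ≤ D, Mer (b i) O) ∧
      (∃ i ≤ D, ¬ EqM (b i) (fun _ => 0) (t₀, 0)) ∧
      ∀ p ∈ O₁, EqM (fun q => ∑ i ∈ Finset.range (D + 1), b i q * K q ^ i) (fun _ => 0) p := by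
  classical
  obtain ⟨r, hr, hball, hon⟩ := exists_onB hfm M (hO₁.mem_nhds h0)
  let U : Opens (ℂ × ℂ) := ⟨ball (t₀, 0) r, isOpen_ball⟩
  have hUc : Convex ℝ (U : Set (ℂ × ℂ)) := convex_ball _ _
  have hUp : IsPreconnected (U : Set (ℂ × ℂ)) := hUc.isPreconnected
  have h00 : ((t₀, 0) : ℂ × ℂ) ∈ U := mem_ball_self hr
  have hUO₁ : (U : Set (ℂ × ℂ)) ⊆ O₁ := hball
  have hUO : (U : Set (ℂ × ℂ)) ⊆ O := hUO₁.trans hsub
  have hon' : OnB k C M (U : Set (ℂ × ℂ)) := hon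
  obtain ⟨D1, D2, x, K', hS⟩ := exists_setU hon' hUc h00
  obtain ⟨S₀, hE, hmin⟩ := exists_min D1 D2 M x
  have : IsDomain (RU U) := isDomain_RU hUp ⟨_, h00⟩
  -- no formal relations
  have hnof : ∀ q ∈ U, ∀ φ : ℕ → PowerSeries ℂ, FRel M (fun j => fn (x (j + 1))) q φ →
      ∀ j ≤ M, φ j = 0 := by
    intro q hq φ hφ j hj
    by_contra hne
    refine hno (ar_lemma hM (p₀ := (t₀, 0)) (r := r) (y := fun j => yC C (j + 1)) (φ := φ)
      ?_ ?_ hq ?_ ⟨j, hj, hne⟩)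
    · intro j hj
      exact hon.an (j + 1) (by omega)
    · intro i j hij hj
      exact hon.jac (i + 1) (j + 1) (by omega) (by omega)
    · refine fa_frel ?_ hφ
      filter_upwards [U.isOpen.mem_nhds hq] with p hp' j hj
      rw [Finset.mem_range] at hj
      exact hS.hx (j + 1) (by omega) p hp'
  have halg := alg41 hUp ⟨_, h00⟩ hM hS.coord hS.poly hnof hE
  -- the kick is algebraic
  have hK0 : IsAlgebraic S₀ (K' 0) := by
    have hrel := hS.poly.rel 0 (by omega)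
    have hne0 := hS.poly.ne 0 (by omega)
    have hne1 := hS.poly.ne 1 (by omega)
    have a0 := halg 0 (by omega)
    have a1 := halg 1 (by omega)
    have a2 := halg 2 (by omega)
    simp only [zero_add] at hrel hne0
    have hb : (x 2 - x 1) * (x 1 - x 0) ≠ 0 :=
      mul_ne_zero (sub_ne_zero.mpr hne1) (sub_ne_zero.mpr hne0)
    refine IsAlgebraic.of_mul (y := (x 2 - x 1) * (x 1 - x 0)) (mem_nonZeroDivisors_of_ne_zero hb)
      ((a2.sub a1).mul (a1.sub a0)) ?_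
    have h1 : (x 2 - x 1) * (x 1 - x 0) * K' 0 = (x 1 - x 0) - (x 2 - x 1) := by
      rw [hrel]
      ring
    rw [h1]
    exact (a1.sub a0).sub (a2.sub a1)
  obtain ⟨P, hP0, hP⟩ := hK0
  -- the ends extend
  have hX' : ∀ i, i = 0 ∨ i = 1 ∨ i = M + 1 ∨ i = M + 2 →
      Mer (X i) O ∧ ∀ p ∈ U, EqM (X i) (fn (x i)) p := by
    intro i hi
    have hi' : i ≤ M + 2 := by omega
    obtain ⟨h1, h2⟩ := hX i hi
    refine ⟨h1, fun p hp' => ?_⟩
    have h3 : EqM (X i) (yC C i) p :=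
      Mer.eqM hUp (h1.mono hUO) (Mer.of_analytic (hon'.an i hi')) h00 h2 p hp'
    refine h3.trans (EqM.of_eventuallyEq ?_)
    filter_upwards [U.isOpen.mem_nhds hp'] with q hq
    exact (hS.hx i hi' q hq).symm
  have hb : ∀ i : ℕ, ∃ A : ℂ × ℂ → ℂ, Mer A O ∧ ∀ p ∈ U, EqM A (fn (P.coeff i : RU U)) p :=
    fun i => ext_min hp hUO hS.coord hX' hmin (P.coeff i).2
  choose b hbM hbE using hb
  refine ⟨P.natDegree, b, fun i _ => hbM i, ⟨P.natDegree, le_rfl, fun h1 => ?_⟩, fun p hp' => ?_⟩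
  · have h2 : EqM (fn (P.coeff P.natDegree : RU U)) (fun _ => 0) (t₀, 0) :=
      (hbE _ _ h00).symm.trans h1
    have h3 := h2.eventuallyEq (fn_an _ _ h00) analyticAt_const
    have h4 : (P.coeff P.natDegree : RU U) = 0 := fa_zero hUp h00 h3
    have h5 : P.coeff P.natDegree = 0 := Subtype.ext h4
    exact hP0 (Polynomial.leadingCoeff_eq_zero.mp h5)
  · refine Mer.eqM hp₁ (f := fun q => ∑ i ∈ Finset.range (P.natDegree + 1), b i q * K q ^ i)
      (g := fun _ => 0) (fun q hq => fa_mer (hK q hq) (fun i => hbM i q (hsub hq)) _)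
      (fun q _ => merAt_of_analyticAt analyticAt_const) h0 ?_ p hp'
    have hKE : EqM K (fn (K' 0)) (t₀, 0) := by
      refine eK.trans (EqM.of_eventuallyEq ?_)
      filter_upwards [U.isOpen.mem_nhds h00] with q hq
      rw [hS.hK 0 (Nat.zero_le _) q hq]
      simp [yC]
    refine (fa_eqM hKE (fun i => hbE i _ h00) _).trans (EqM.of_eventuallyEq ?_)
    filter_upwards [U.isOpen.mem_nhds h00] with q hq
    have h1 : fa_ev ⟨q, hq⟩ (Polynomial.aeval (K' 0) P) = 0 := by rw [hP, map_zero]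
    rw [Polynomial.aeval_eq_sum_range, map_sum] at h1
    rw [← h1]
    refine Finset.sum_congr rfl fun i _ => ?_
    rw [fa_fn _ hq, fa_fn _ hq, Algebra.smul_def, map_mul, map_pow]
    rfl

end Pool.Agent.MP_ae5b4e_an_NB1
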