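import Mathlib
import Pool.Agent.Lib.MP_ae5b4e_an_NB1.SlDefs
import Pool.Agent.Lib.MP_ae5b4e_an_NB1.MerD

/-!
# MP_ae5b4e_an, project NB_1: the chart `1 / x`
-/

noncomputable section

namespace Pool.Agent.MP_ae5b4e_an_NB1

open Complex Set Filter Topology Metric
open Pool.Agent.MP_ae5b4e_an_NBT

/-- The slice `ρ = ρ₁` before the choice of the local coordinates at `t₁`. -/
structure SlP (k : ℂ → ℂ) (C G K : ℂ × ℂ → ℂ) (t₀ : ℂ) (O₁ : Set (ℂ × ℂ)) (tp ρ₀ : ℂ) (r r' : ℝ)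
    (ρ₁ t₁ t₂ : ℂ) (f₁ x₁ : ℂ → ℂ) : Prop where
  fm : Fm k C t₀
  ne : C (t₀, 0) ≠ 0
  opn : IsOpen O₁
  pre : IsPreconnected O₁
  mem : ((t₀, 0) : ℂ × ℂ) ∈ O₁
  merG : Mer G O₁
  merK : Mer K O₁
  eG : EqM G C (t₀, 0)
  eK : EqM K (fun p => k (C p)) (t₀, 0)
  hρ₁ : ρ₁ ∈ ball ρ₀ r
  ht₁ : t₁ ∈ ball tp r'
  ht₂ : t₂ ∈ ball tp r'
  ht₂₁ : t₂.im < t₁.im
  hp₂ : (t₂, ρ₁) ∈ O₁
  mf : ∀ t ∈ ball tp r', t.im < t₁.im → MeromorphicAt f₁ t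
  mx : ∀ t ∈ ball tp r', MeromorphicAt x₁ t
  loc : ∃ C₂ κ₂ : ℂ × ℂ → ℂ, AnalyticAt ℂ C₂ (t₂, ρ₁) ∧ AnalyticAt ℂ κ₂ (t₂, ρ₁) ∧
    C₂ (t₂, ρ₁) ≠ 0 ∧ pt C₂ (t₂, ρ₁) ≠ 0 ∧ EqM G C₂ (t₂, ρ₁) ∧ EqM K κ₂ (t₂, ρ₁) ∧
    (∀ᶠ t in 𝓝 t₂, x₁ t = C₂ (t, ρ₁)) ∧ ∀ᶠ t in 𝓝 t₂, f₁ t = κ₂ (t, ρ₁)

/-- the function `k` in the chart `1 / x` -/
def kI (k : ℂ → ℂ) (y : ℂ) : ℂ := -k y⁻¹ / y ^ 2 - 2 / y

private theorem charti_fderiv {C : ℂ × ℂ → ℂ} {q : ℂ × ℂ} (hC : AnalyticAt ℂ C q)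
    (h0 : C q ≠ 0) : fderiv ℂ (fun p => (C p)⁻¹) q = (-(C q ^ 2)⁻¹) • fderiv ℂ C q := by
  have h1 : HasFDerivAt C (fderiv ℂ C q) q := hC.differentiableAt.hasFDerivAt
  have h2 : HasFDerivAt (fun p => (C p)⁻¹) ((-(C q ^ 2)⁻¹) • fderiv ℂ C q) q :=
    (hasDerivAt_inv h0).comp_hasFDerivAt q h1
  exact h2.fderiv

private theorem charti_pt {C : ℂ × ℂ → ℂ} {q : ℂ × ℂ} (hC : AnalyticAt ℂ C q)
    (h0 : C q ≠ 0) (h1 : pt C q ≠ 0) : pt (fun p => (C p)⁻¹) q ≠ 0 := by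
  unfold pt at h1 ⊢
  rw [charti_fderiv hC h0]
  simp only [_root_.smul_apply, smul_eq_mul]
  exact mul_ne_zero (neg_ne_zero.2 (inv_ne_zero (pow_ne_zero 2 h0))) h1

private theorem charti_tendsto (t₀ c : ℂ) : Tendsto (fun p : ℂ × ℂ => (p.1 + c * p.2, p.2))
    (𝓝 ((t₀, 0) : ℂ × ℂ)) (𝓝 ((t₀, 0) : ℂ × ℂ)) := by
  have h1 : Continuous (fun p : ℂ × ℂ => (p.1 + c * p.2, p.2)) := by fun_prop
  have h2 := h1.tendsto ((t₀, 0) : ℂ × ℂ)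
  simpa using h2

private theorem charti_sep {C : ℂ × ℂ → ℂ} {t₀ : ℂ} (hC : AnalyticAt ℂ C (t₀, 0))
    (h1 : pt C (t₀, 0) ≠ 0) {c : ℂ} (hc : c ≠ 0) :
    ∀ᶠ p in 𝓝 ((t₀, 0) : ℂ × ℂ), p.2 ≠ 0 → C (p.1 + c * p.2, p.2) ≠ C p := by
  have hs := hC.hasStrictFDerivAt.isLittleO
  have hpos : 0 < ‖pt C (t₀, 0)‖ / 2 := by positivity
  have hb := hs.def hpos
  have ht : Tendsto (fun p : ℂ × ℂ => (((p.1 + c * p.2, p.2) : ℂ × ℂ), p))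
      (𝓝 ((t₀, 0) : ℂ × ℂ)) (𝓝 (((t₀, 0) : ℂ × ℂ), ((t₀, 0) : ℂ × ℂ))) :=
    (charti_tendsto t₀ c).prodMk_nhds tendsto_id
  filter_upwards [ht.eventually hb] with p hp hp2 heq
  have e1 : ((p.1 + c * p.2, p.2) : ℂ × ℂ) - p = (c * p.2) • ((1, 0) : ℂ × ℂ) := by
    ext <;> simp
  simp only [heq, sub_self, zero_sub, norm_neg] at hp
  rw [e1, map_smul, norm_smul, norm_smul] at hp
  have e2 : ‖((1, 0) : ℂ × ℂ)‖ = 1 := by simp [Prod.norm_def]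
  have hcp : 0 < ‖c * p.2‖ := norm_pos_iff.2 (mul_ne_zero hc hp2)
  have e3 : ‖(fderiv ℂ C (t₀, 0)) (1, 0)‖ = ‖pt C (t₀, 0)‖ := rfl
  have hpt : 0 < ‖pt C (t₀, 0)‖ := norm_pos_iff.2 h1
  rw [e2, e3, mul_one] at hp
  nlinarith

theorem Fm.inv {k : ℂ → ℂ} {C : ℂ × ℂ → ℂ} {t₀ : ℂ} (h : Fm k C t₀) (h0 : C (t₀, 0) ≠ 0) :
    Fm (kI k) (fun p => (C p)⁻¹) t₀ := by
  refine ⟨h.an.inv h0, charti_pt h.an h0 h.dt, ?_, ?_⟩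
  · have h1 : (C (t₀, 0))⁻¹ ≠ 0 := inv_ne_zero h0
    have h2 : AnalyticAt ℂ (fun y : ℂ => y⁻¹) (C (t₀, 0))⁻¹ := analyticAt_id.inv h1
    have h3 : AnalyticAt ℂ (fun y : ℂ => k y⁻¹) (C (t₀, 0))⁻¹ := by
      refine AnalyticAt.fun_comp (g := k) (f := fun y : ℂ => y⁻¹) ?_ h2
      rw [inv_inv]
      exact h.kan
    have h4 : AnalyticAt ℂ (fun y : ℂ => y) (C (t₀, 0))⁻¹ := analyticAt_id
    exact ((h3.neg).div (h4.pow 2) (pow_ne_zero 2 h1)).sub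
      (analyticAt_const.div h4 h1)
  · have hne : ∀ᶠ p in 𝓝 ((t₀, 0) : ℂ × ℂ), C p ≠ 0 := h.an.continuousAt.eventually_ne h0
    filter_upwards [h.fe, charti_sep h.an h.dt one_ne_zero,
      charti_sep h.an h.dt (neg_ne_zero.2 one_ne_zero), hne,
      (charti_tendsto t₀ 1).eventually hne, (charti_tendsto t₀ (-1)).eventually hne]
      with p h1 h2 h3 h4 h5 h6 hp
    have e1 : ((p.1 + 1 * p.2, p.2) : ℂ × ℂ) = (p.1 + p.2, p.2) := by rw [one_mul]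
    have e2 : ((p.1 + -1 * p.2, p.2) : ℂ × ℂ) = (p.1 - p.2, p.2) := by
      rw [neg_one_mul, ← sub_eq_add_neg]
    rw [e1] at h2 h5
    rw [e2] at h3 h6
    have h1' := h1 hp
    have h2' := sub_ne_zero.2 (h2 hp)
    have h3' := sub_ne_zero.2 (h3 hp)
    have key : ∀ a x : ℂ, a ≠ 0 → x ≠ 0 → a - x ≠ 0 →
        (a⁻¹ - x⁻¹)⁻¹ = -x - x ^ 2 * (a - x)⁻¹ := by
      intro a x ha hx hax
      have h7 : a⁻¹ - x⁻¹ = (x - a) / (a * x) := by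
        field_simp
      have h8 : x - a ≠ 0 := by
        intro h9
        apply hax
        rw [← neg_sub, h9, neg_zero]
      rw [h7, inv_div, div_eq_iff h8]
      have h9 : x - a = -(a - x) := by ring
      rw [h9]
      field_simp
      ring
    show ((C (p.1 + p.2, p.2))⁻¹ - (C p)⁻¹)⁻¹ + ((C (p.1 - p.2, p.2))⁻¹ - (C p)⁻¹)⁻¹ =
      -k ((C p)⁻¹)⁻¹ / ((C p)⁻¹) ^ 2 - 2 / (C p)⁻¹
    rw [key _ _ h5 h4 h2', key _ _ h6 h4 h3', inv_inv, ← h1']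
    field_simp
    ring

private theorem charti_yC_an {C : ℂ × ℂ → ℂ} {t₀ : ℂ} (hC : AnalyticAt ℂ C (t₀, 0)) (j : ℕ) :
    AnalyticAt ℂ (yC C j) (t₀, 0) := by
  have h1 : AnalyticAt ℂ (fun p : ℂ × ℂ => ((p.1 + ((j : ℂ) - 1) * p.2, p.2) : ℂ × ℂ))
      (t₀, 0) :=
    (analyticAt_fst.add (analyticAt_const.mul analyticAt_snd)).prod analyticAt_snd
  refine AnalyticAt.fun_comp (g := C)
    (f := fun p : ℂ × ℂ => ((p.1 + ((j : ℂ) - 1) * p.2, p.2) : ℂ × ℂ)) ?_ h1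
  simpa using hC

private theorem charti_yC_zero (C : ℂ × ℂ → ℂ) (t₀ : ℂ) (j : ℕ) :
    yC C j (t₀, 0) = C (t₀, 0) := by
  simp [yC]

theorem ARel.of_inv {C : ℂ × ℂ → ℂ} {t₀ : ℂ} {M : ℕ} (hC : AnalyticAt ℂ C (t₀, 0))
    (h0 : C (t₀, 0) ≠ 0) (h : ARel M (fun j => yC (fun p => (C p)⁻¹) (j + 1)) (t₀, 0)) :
    ARel M (fun j => yC C (j + 1)) (t₀, 0) := by
  obtain ⟨a, ha, ⟨j₀, hj₀, hne⟩, hrel⟩ := h
  have hi : ∀ j, yC (fun p => (C p)⁻¹) (j + 1) (t₀, 0) = (C (t₀, 0))⁻¹ := fun j =>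
    charti_yC_zero (fun p => (C p)⁻¹) t₀ (j + 1)
  have hy : ∀ j, yC C (j + 1) (t₀, 0) = C (t₀, 0) := fun j => charti_yC_zero C t₀ (j + 1)
  refine ⟨fun j s => -a j s⁻¹ / s ^ 2, ?_, ⟨j₀, hj₀, ?_⟩, ?_⟩
  · intro j hj
    have h1 := ha j hj
    simp only [hi] at h1
    simp only [hy]
    have h2 : AnalyticAt ℂ (fun y : ℂ => y⁻¹) (C (t₀, 0)) := analyticAt_id.inv h0
    have h3 : AnalyticAt ℂ (fun y : ℂ => a j y⁻¹) (C (t₀, 0)) :=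
      AnalyticAt.fun_comp (g := a j) (f := fun y : ℂ => y⁻¹) h1 h2
    have h4 : AnalyticAt ℂ (fun y : ℂ => y) (C (t₀, 0)) := analyticAt_id
    exact (h3.neg).div (h4.pow 2) (pow_ne_zero 2 h0)
  · intro hz
    apply hne
    simp only [hy] at hz
    simp only [hi]
    have h1 : (C (t₀, 0))⁻¹ ≠ 0 := inv_ne_zero h0
    have h2 : Tendsto (fun y : ℂ => y⁻¹) (𝓝 (C (t₀, 0))⁻¹) (𝓝 (C (t₀, 0))) := by
      have h3 := (continuousAt_inv₀ h1).tendsto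
      rwa [inv_inv] at h3
    filter_upwards [h2.eventually hz, isOpen_ne.mem_nhds h1] with s hs hs0
    have hs0' : s ≠ 0 := hs0
    have h5 : (s⁻¹) ^ 2 ≠ 0 := pow_ne_zero 2 (inv_ne_zero hs0')
    rw [inv_inv, div_eq_zero_iff] at hs
    rcases hs with hs | hs
    · exact neg_eq_zero.1 hs
    · exact absurd hs h5
  · have han : ∀ j ∈ Finset.range (M + 1), ∀ᶠ p in 𝓝 ((t₀, 0) : ℂ × ℂ),
        AnalyticAt ℂ (yC C (j + 1)) p ∧ yC C (j + 1) p ≠ 0 := by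
      intro j _
      have h1 := charti_yC_an hC (j + 1)
      refine h1.eventually_analyticAt.and (h1.continuousAt.eventually_ne ?_)
      rw [hy]
      exact h0
    have han' := (Filter.eventually_all_finset (Finset.range (M + 1))).2 han
    filter_upwards [hrel, han'] with p h1 h2
    rw [← h1]
    refine Finset.sum_congr rfl ?_
    intro j hj
    obtain ⟨h3, h4⟩ := h2 j hj
    have h5 : fderiv ℂ (yC (fun p => (C p)⁻¹) (j + 1)) p =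
        (-(yC C (j + 1) p ^ 2)⁻¹) • fderiv ℂ (yC C (j + 1)) p := charti_fderiv h3 h4
    have h6 : yC (fun p => (C p)⁻¹) (j + 1) p = (yC C (j + 1) p)⁻¹ := rfl
    show (-a j (yC C (j + 1) p)⁻¹ / (yC C (j + 1) p) ^ 2) • fderiv ℂ (yC C (j + 1)) p =
      a j (yC (fun p => (C p)⁻¹) (j + 1) p) • fderiv ℂ (yC (fun p => (C p)⁻¹) (j + 1)) p
    rw [h5, h6, smul_smul]
    congr 1
    rw [div_eq_mul_inv]
    ring

private theorem charti_merK {G K : ℂ × ℂ → ℂ} {p : ℂ × ℂ} (hG : MerAt G p) (hK : MerAt K p) :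
    MerAt (fun p => -(G p) ^ 2 * K p - 2 * G p) p := by
  have h2 : MerAt (fun _ : ℂ × ℂ => (2 : ℂ)) p := merAt_of_analyticAt analyticAt_const
  have h1 := ((hG.mul hG).neg.mul hK).sub (h2.mul hG)
  refine h1.congr (EqM.of_eventuallyEq (Eventually.of_forall fun q => ?_))
  show -(G q * G q) * K q - 2 * G q = -(G q) ^ 2 * K q - 2 * G q
  ring

theorem SlP.inv {k : ℂ → ℂ} {C G K : ℂ × ℂ → ℂ} {t₀ : ℂ} {O₁ : Set (ℂ × ℂ)} {tp ρ₀ : ℂ}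
    {r r' : ℝ} {ρ₁ t₁ t₂ : ℂ} {f₁ x₁ : ℂ → ℂ}
    (h : SlP k C G K t₀ O₁ tp ρ₀ r r' ρ₁ t₁ t₂ f₁ x₁) :
    SlP (kI k) (fun p => (C p)⁻¹) (fun p => (G p)⁻¹) (fun p => -(G p) ^ 2 * K p - 2 * G p) t₀ O₁
      tp ρ₀ r r' ρ₁ t₁ t₂ (fun t => -(x₁ t) ^ 2 * f₁ t - 2 * x₁ t) (fun t => (x₁ t)⁻¹) := by
  obtain ⟨C₂, κ₂, hC₂, hκ₂, hC0, hpt, hGC, hKκ, hx, hf⟩ := h.loc
  refine
    { fm := h.fm.inv h.ne
      ne := inv_ne_zero h.ne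
      opn := h.opn
      pre := h.pre
      mem := h.mem
      merG := fun p hp => (h.merG p hp).inv
      merK := fun p hp => charti_merK (h.merG p hp) (h.merK p hp)
      eG := EqM.map (fun x => x⁻¹) h.eG
      eK := ?_
      hρ₁ := h.hρ₁
      ht₁ := h.ht₁
      ht₂ := h.ht₂
      ht₂₁ := h.ht₂₁
      hp₂ := h.hp₂
      mf := ?_
      mx := fun t ht => (h.mx t ht).inv
      loc := ?_ }
  · refine (EqM.map₂ (fun x y => -x ^ 2 * y - 2 * x) h.eG h.eK).trans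
      (EqM.of_eventuallyEq ?_)
    filter_upwards [h.fm.an.continuousAt.eventually_ne h.ne] with p hp
    show -(C p) ^ 2 * k (C p) - 2 * C p = -k ((C p)⁻¹)⁻¹ / ((C p)⁻¹) ^ 2 - 2 / (C p)⁻¹
    rw [inv_inv]
    field_simp
  · intro t ht hlt
    exact (((h.mx t ht).pow 2).neg.mul (h.mf t ht hlt)).sub
      ((MeromorphicAt.const 2 t).mul (h.mx t ht))
  · refine ⟨fun p => (C₂ p)⁻¹, fun p => -(C₂ p) ^ 2 * κ₂ p - 2 * C₂ p, hC₂.inv hC0, ?_,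
      inv_ne_zero hC0, charti_pt hC₂ hC0 hpt, EqM.map (fun x => x⁻¹) hGC,
      EqM.map₂ (fun x y => -x ^ 2 * y - 2 * x) hGC hKκ, ?_, ?_⟩
    · exact ((hC₂.pow 2).neg.mul hκ₂).sub (analyticAt_const.mul hC₂)
    · filter_upwards [hx] with t ht
      rw [ht]
    · filter_upwards [hx, hf] with t ht ht'
      rw [ht, ht']

end Pool.Agent.MP_ae5b4e_an_NB1
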