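import Mathlib
import Pool.Agent.Lib.MP_ae5b4e_an_NB1.Pick
import Pool.Agent.Lib.MP_ae5b4e_an_NB1.UDefs

/-!
# MP_ae5b4e_an, project NB_1: the domain of the polygon
-/

noncomputable section

namespace Pool.Agent.MP_ae5b4e_an_NB1

open Complex Set Filter Topology Metric
open Pool.Agent.MP_ae5b4e_an_NBT

variable {k : ℂ → ℂ} {F G : ℂ × ℂ → ℂ} {c h : ℝ} {M : ℕ} {d : ℝ}

theorem isOpen_DP : IsOpen (DP F c M d) := by
  rw [isOpen_iff_mem_nhds]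
  rintro p ⟨h1, h2⟩
  have e1 : ∀ᶠ q : ℂ × ℂ in 𝓝 p, |q.2.im| < d := by
    have hc : Continuous fun q : ℂ × ℂ => |q.2.im| := by fun_prop
    exact hc.continuousAt.eventually (gt_mem_nhds h1)
  have e2 : ∀ᶠ q : ℂ × ℂ in 𝓝 p, ∀ j ∈ Finset.Icc (-1 : ℤ) (M + 1),
      (q.1 + (j:ℂ) * q.2, q.2) ∈ DF F c (c / 4) := by
    rw [Filter.eventually_all_finset]
    intro j hj
    rw [Finset.mem_Icc] at hj
    have hc : Continuous fun q : ℂ × ℂ => (q.1 + (j:ℂ) * q.2, q.2) := by fun_prop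
    exact hc.continuousAt.eventually ((isOpen_Dom _ _ _ _).mem_nhds (h2 j hj.1 hj.2))
  filter_upwards [e1, e2] with q q1 q2
  exact ⟨q1, fun j hj hj' => q2 j (Finset.mem_Icc.2 ⟨hj, hj'⟩)⟩

private lemma domp_merF (hE : ConE k F c h G) : Mer F (St (-c) c ×ˢ ball 0 (c / 4)) := by
  have hc := hE.pos
  exact (Mer.of_analytic hE.an).mono (prod_mono Subset.rfl (ball_subset_ball (by linarith)))

private lemma domp_base (hE : ConE k F c h G) {t ρ : ℂ} (hρ : ρ ∈ ball (0:ℂ) (c / 4))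
    (ht : |t.im| < c) : (t, ρ) ∈ DF F c (c / 4) :=
  (slice_Dom hE.pos le_rfl (domp_merF hE) hρ).2.2.1 t ht

/-- the imaginary part of `j ρ` -/
private lemma domp_im {j : ℤ} (h1 : -1 ≤ j) (h2 : j ≤ M + 1) {ρ : ℂ} (hρ : |ρ.im| < d)
    (hMd : (M + 2) * d < c / 2) : |((j:ℂ) * ρ).im| < c / 2 := by
  have hd : 0 < d := (abs_nonneg _).trans_lt hρ
  have e : ((j:ℂ) * ρ).im = (j:ℝ) * ρ.im := by simp
  rw [e, abs_mul]
  have hj : |(j:ℝ)| ≤ M + 1 := by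
    have h3 : (-1:ℝ) ≤ j := by exact_mod_cast h1
    have h4 : (j:ℝ) ≤ M + 1 := by exact_mod_cast h2
    have h5 : (0:ℝ) ≤ M := Nat.cast_nonneg M
    rw [abs_le]
    constructor <;> linarith
  have h3 : |(j:ℝ)| * |ρ.im| ≤ (M + 1) * d := mul_le_mul hj hρ.le (abs_nonneg _) (by positivity)
  linarith

private lemma domp_low (hE : ConE k F c h G) (hMd : (M + 2) * d < c / 2) {t ρ : ℂ}
    (hρ : ρ ∈ ball (0:ℂ) (c / 4)) (hρd : |ρ.im| < d) (ht : |t.im| < c / 2) :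
    (t, ρ) ∈ DP F c M d := by
  refine ⟨hρd, fun j h1 h2 => domp_base hE hρ ?_⟩
  show |(t + (j:ℂ) * ρ).im| < c
  rw [add_im]
  have h3 := domp_im h1 h2 hρd hMd
  have h4 := abs_add_le t.im ((j:ℂ) * ρ).im
  linarith

private lemma domp_slice (hE : ConE k F c h G) (ρ : ℂ) :
    Convex ℝ {s : ℂ | (s, ρ) ∈ DP F c M d} := by
  rintro s ⟨h1, h2⟩ s' ⟨_, h3⟩ u v hu hv huv
  refine ⟨h1, fun j hj hj' => ?_⟩
  have h4 := h2 j hj hj'
  have h5 := h3 j hj hj'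
  have hρ : ρ ∈ ball (0:ℂ) (c / 4) := h4.1
  have h6 := (slice_Dom hE.pos le_rfl (domp_merF hE) hρ).1 h4 h5 hu hv huv
  have e : u • s + v • s' + (j:ℂ) * ρ = u • (s + (j:ℂ) * ρ) + v • (s' + (j:ℂ) * ρ) := by
    have h7 : (u:ℂ) + v = 1 := by exact_mod_cast huv
    simp only [real_smul]
    linear_combination (-((j:ℂ) * ρ)) * h7
  show (u • s + v • s' + (j:ℂ) * ρ, ρ) ∈ DF F c (c / 4)
  rw [e]
  exact h6

theorem zero_mem_DP (hE : ConE k F c h G) (hd : 0 < d) : ((0, 0) : ℂ × ℂ) ∈ DP F c M d := by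
  have hc := hE.pos
  refine ⟨by simpa using hd, fun j _ _ => domp_base hE (mem_ball_self (by positivity)) ?_⟩
  simpa using hc

theorem isPreconnected_DP (hE : ConE k F c h G) (hd : 0 < d) (hMd : (M + 2) * d < c / 2) :
    IsPreconnected (DP F c M d) := by
  have hc := hE.pos
  have hcv : Convex ℝ {ρ : ℂ | ρ ∈ ball (0:ℂ) (c / 4) ∧ |ρ.im| < d} := by
    have h1 : {ρ : ℂ | ρ ∈ ball (0:ℂ) (c / 4) ∧ |ρ.im| < d} =
        ball (0:ℂ) (c / 4) ∩ St (-d) d := by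
      ext z
      constructor
      · rintro ⟨h1, h2⟩
        exact ⟨h1, (abs_lt.1 h2).1, (abs_lt.1 h2).2⟩
      · rintro ⟨h1, h2, h3⟩
        exact ⟨h1, abs_lt.2 ⟨h2, h3⟩⟩
    rw [h1]
    exact (convex_ball _ _).inter (convex_St _ _)
  have hB : IsPreconnected (St (-(c / 2)) (c / 2) ×ˢ
      {ρ : ℂ | ρ ∈ ball (0:ℂ) (c / 4) ∧ |ρ.im| < d}) :=
    ((convex_St _ _).prod hcv).isPreconnected
  have hBs : St (-(c / 2)) (c / 2) ×ˢ {ρ : ℂ | ρ ∈ ball (0:ℂ) (c / 4) ∧ |ρ.im| < d} ⊆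
      DP F c M d := by
    rintro ⟨t, ρ⟩ ⟨h1, h2, h3⟩
    exact domp_low hE hMd h2 h3 (abs_lt.2 ⟨h1.1, h1.2⟩)
  have h0S : (0:ℂ) ∈ St (-(c / 2)) (c / 2) := by
    refine ⟨?_, ?_⟩
    · show -(c / 2) < (0:ℂ).im
      simp [hc]
    · show (0:ℂ).im < c / 2
      simp [hc]
  refine isPreconnected_of_forall ((0:ℂ), (0:ℂ)) ?_
  rintro ⟨t, ρ⟩ hp
  have hρ : ρ ∈ ball (0:ℂ) (c / 4) := (hp.2 0 (by norm_num) (by positivity)).1
  have hρd : |ρ.im| < d := hp.1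
  have hS : IsPreconnected ((fun s : ℂ => (s, ρ)) '' {t | (t, ρ) ∈ DP F c M d}) :=
    (domp_slice hE ρ).isPreconnected.image _ (by fun_prop)
  have h0m : ((0:ℂ), ρ) ∈ St (-(c / 2)) (c / 2) ×ˢ
      {ρ : ℂ | ρ ∈ ball (0:ℂ) (c / 4) ∧ |ρ.im| < d} := ⟨h0S, hρ, hρd⟩
  refine ⟨(fun s : ℂ => (s, ρ)) '' {t | (t, ρ) ∈ DP F c M d} ∪ St (-(c / 2)) (c / 2) ×ˢ
      {ρ : ℂ | ρ ∈ ball (0:ℂ) (c / 4) ∧ |ρ.im| < d}, ?_, ?_, ?_, ?_⟩
  · apply union_subset _ hBs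
    rintro _ ⟨s, hs, rfl⟩
    exact hs
  · right
    exact ⟨h0S, mem_ball_self (by positivity), by simpa using hd⟩
  · left
    exact ⟨t, hp, rfl⟩
  · exact hS.union ((0:ℂ), ρ) ⟨0, hBs h0m, rfl⟩ h0m hB

private lemma domp_mer (hE : ConE k F c h G) {p : ℂ × ℂ} (hp : p ∈ DP F c M d) (j : ℤ)
    (h1 : -1 ≤ j) (h2 : j ≤ M + 1) : MerAt (fun q => G (q.1 + (j:ℂ) * q.2, q.2)) p :=
  MerAt.shift (h := fun z => (j:ℂ) * z) (by fun_prop) (hE.merG _ (hp.2 j h1 h2))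

theorem mer_yG (hE : ConE k F c h G) (j : ℕ) (hj : j ≤ M + 2) : Mer (yC G j) (DP F c M d) := by
  intro p hp
  have h1 := domp_mer hE hp ((j:ℤ) - 1) (by omega) (by omega)
  have h2 : (((j:ℤ) - 1 : ℤ) : ℂ) = (j:ℂ) - 1 := by push_cast; ring
  rw [h2] at h1
  exact h1

theorem DP_sub_DF {p : ℂ × ℂ} (hp : p ∈ DP F c M d) : p ∈ DF F c (c / 4) := by
  have h1 := hp.2 0 (by norm_num) (by positivity)
  have h2 : p.1 + ((0:ℤ):ℂ) * p.2 = p.1 := by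
    push_cast
    ring
  rw [h2] at h1
  exact h1

theorem mer_KG_DP (hE : ConE k F c h G) : Mer (KF G) (DP F c M d) := by
  intro p hp
  have g0 : MerAt G p := hE.merG _ (DP_sub_DF hp)
  have g1 : MerAt (fun q : ℂ × ℂ => G (q.1 + q.2, q.2)) p := by
    have h1 := domp_mer hE hp 1 (by norm_num) (by omega)
    simpa using h1
  have g2 : MerAt (fun q : ℂ × ℂ => G (q.1 - q.2, q.2)) p := by
    have h1 := domp_mer hE hp (-1) (by norm_num) (by omega)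
    have h2 : (fun q : ℂ × ℂ => G (q.1 + ((-1:ℤ):ℂ) * q.2, q.2)) =
        fun q : ℂ × ℂ => G (q.1 - q.2, q.2) := by
      funext q
      have : q.1 + ((-1:ℤ):ℂ) * q.2 = q.1 - q.2 := by
        push_cast
        ring
      rw [this]
    rw [h2] at h1
    exact h1
  exact ((g1.sub g0).inv).add ((g2.sub g0).inv)

theorem slAt_KG_DP (hE : ConE k F c h G) (hd : 0 < d) (hMd : (M + 2) * d < c / 2) {p : ℂ × ℂ}
    (hp : p ∈ DP F c M d) : SlAt (KF G) p := by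
  have hc := hE.pos
  have hρ : p.2 ∈ ball (0:ℂ) (c / 4) := (DP_sub_DF hp).1
  have hm : Mer (KF F) (St (-(c / 2)) (c / 2) ×ˢ ball 0 (c / 4)) :=
    mer_KF (by linarith) (domp_merF hE)
  have h1 : ((0:ℂ), p.2) ∈ DK F c (c / 4) :=
    (slice_Dom (half_pos hc) le_rfl hm hρ).2.2.1 0 (by simpa using hc)
  have h2 : ((0:ℂ), p.2) ∈ DP F c M d := domp_low hE hMd hρ hp.1 (by simpa using hc)
  exact slAt_of_mer (V := {t | (t, p.2) ∈ DP F c M d}) (domp_slice hE p.2).isPreconnected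
    (fun t ht => mer_KG_DP hE _ ht) h2 (slAt_K hE h1) p.1 hp

theorem down_DP (hE : ConE k F c h G) (hMd : (M + 2) * d < c / 2) {tp : ℂ} {r : ℝ}
    (hr : r < tp.im) {t t' ρ : ℂ} (ht : (t, ρ) ∈ DP F c M d) (ht' : t' ∈ ball tp r)
    (him : t'.im ≤ t.im) : (t', ρ) ∈ DP F c M d := by
  have hc := hE.pos
  have h0 : 0 < t'.im := by
    have h1 : ‖t' - tp‖ < r := by
      rw [mem_ball, dist_eq_norm] at ht'
      exact ht'
    have h2 := (abs_im_le_norm (t' - tp)).trans_lt h1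
    rw [sub_im] at h2
    have h3 := (abs_lt.1 h2).1
    linarith
  refine ⟨ht.1, fun j h1 h2 => ?_⟩
  obtain ⟨h3, ⟨y, hy1, hy2⟩, -⟩ := ht.2 j h1 h2
  have hy1' : (t + (j:ℂ) * ρ).im < y := hy1
  have h4 := domp_im h1 h2 ht.1 hMd
  have h5 := (abs_lt.1 h4).1
  refine ⟨h3, ⟨y, ?_, hy2⟩, c, ?_, extM_base (domp_merF hE) ?_⟩
  · show (t' + (j:ℂ) * ρ).im < y
    rw [add_im] at hy1' ⊢
    linarith
  · show -(t' + (j:ℂ) * ρ).im < c
    rw [add_im]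
    have h6 : -(c / 2) < ((j:ℂ) * ρ).im := h5
    linarith
  · have h6 : ρ ∈ ball (0:ℂ) (c / 4) := h3
    rw [mem_ball_zero_iff] at h6 ⊢
    rw [RCLike.norm_conj]
    exact h6

/-- the points of the polygon on the union of the two domains -/
theorem glue_X (hE : ConE k F c h G) {ρ₀ r : ℝ} {tp : ℂ} {X : ℕ → ℂ × ℂ → ℂ}
    (hP : Pick F G c M d ρ₀ r tp X) :
    ∃ Y : ℕ → ℂ × ℂ → ℂ, ∀ i, i = 0 ∨ i = 1 ∨ i = M + 1 ∨ i = M + 2 →
      Mer (Y i) (DP F c M d ∪ ball tp r ×ˢ ball (ρ₀ : ℂ) r) ∧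
        ∀ p ∈ DP F c M d, EqM (Y i) (yC G i) p := by
  have key : ∀ i : ℕ, ∃ Y : ℂ × ℂ → ℂ, i = 0 ∨ i = 1 ∨ i = M + 1 ∨ i = M + 2 →
      Mer Y (DP F c M d ∪ ball tp r ×ˢ ball (ρ₀ : ℂ) r) ∧
        ∀ p ∈ DP F c M d, EqM Y (yC G i) p := by
    intro i
    by_cases hi : i = 0 ∨ i = 1 ∨ i = M + 1 ∨ i = M + 2
    · have hi2 : i ≤ M + 2 := by omega
      have hov : ∀ q ∈ DP F c M d ∩ (ball tp r ×ˢ ball (ρ₀ : ℂ) r), EqM (X i) (yC G i) q :=
        fun q hq => hP.eq i hi q ⟨hq.2, hq.1⟩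
      obtain ⟨Y, hY, hYe⟩ := exists_glue (ι := Bool)
        (fun b => match b with
          | true => DP F c M d
          | false => ball tp r ×ˢ ball (ρ₀ : ℂ) r)
        (by
          rintro (_ | _)
          · exact isOpen_ball.prod isOpen_ball
          · exact isOpen_DP)
        (fun b => match b with
          | true => yC G i
          | false => X i)
        (by
          rintro (_ | _)
          · exact hP.mer i hi
          · exact mer_yG hE i hi2)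
        (by
          rintro (_ | _) (_ | _) q hq
          · exact EqM.refl _ _
          · exact hov q ⟨hq.2, hq.1⟩
          · exact (hov q hq).symm
          · exact EqM.refl _ _)
      refine ⟨Y, fun _ => ⟨hY.mono ?_, fun p hp => hYe true p hp⟩⟩
      rintro p (hp | hp)
      · exact mem_iUnion.2 ⟨true, hp⟩
      · exact mem_iUnion.2 ⟨false, hp⟩
    · exact ⟨fun _ => 0, fun h => absurd h hi⟩
  choose Y hY using key
  exact ⟨Y, hY⟩

end Pool.Agent.MP_ae5b4e_an_NB1
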