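import Mathlib
import Pool.Agent.Lib.MP_ae5b4e_an_NB1.ChartI
import Pool.Agent.Lib.MP_ae5b4e_an_NB1.DomP

/-!
# MP_ae5b4e_an, project NB_1: the data of the slice
-/

noncomputable section

namespace Pool.Agent.MP_ae5b4e_an_NB1

open Complex Set Filter Topology Metric
open Pool.Agent.MP_ae5b4e_an_NBT

variable {k : ℂ → ℂ} {F G : ℂ × ℂ → ℂ} {c h : ℝ} {M : ℕ} {d : ℝ}

private theorem sp_deriv {C : ℂ × ℂ → ℂ} {t ρ : ℂ} (hC : AnalyticAt ℂ C (t, ρ)) :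
    deriv (fun s => C (s, ρ)) t = pt C (t, ρ) := by
  have h1 : HasFDerivAt C (fderiv ℂ C (t, ρ)) (t, ρ) := hC.differentiableAt.hasFDerivAt
  have h2 : HasDerivAt (fun s : ℂ => (s, ρ)) ((1 : ℂ), (0 : ℂ)) t :=
    (hasDerivAt_id t).prodMk (hasDerivAt_const t ρ)
  have h3 : HasDerivAt (fun s : ℂ => C (s, ρ)) (fderiv ℂ C (t, ρ) (1, 0)) t :=
    HasFDerivAt.comp_hasDerivAt t (f := fun s : ℂ => (s, ρ)) (l := C) h1 h2
  exact h3.deriv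

/-- the functional equation near the base strip -/
private theorem sp_fe (hE : ConE k F c h G) : ∀ᶠ q in 𝓝 ((0, 0) : ℂ × ℂ), q.2 ≠ 0 →
    (F (q.1 + q.2, q.2) - F q)⁻¹ + (F (q.1 - q.2, q.2) - F q)⁻¹ = k (F q) := by
  have hc := hE.pos
  have hopen : IsOpen (St (-(c / 2)) (c / 2) ×ˢ ball (0:ℂ) (c / 4)) :=
    (isOpen_St _ _).prod isOpen_ball
  have h0 : ((0, 0) : ℂ × ℂ) ∈ St (-(c / 2)) (c / 2) ×ˢ ball (0:ℂ) (c / 4) := by
    refine ⟨⟨?_, ?_⟩, mem_ball_self (by linarith)⟩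
    · show -(c / 2) < (0:ℂ).im
      rw [zero_im]
      linarith
    · show (0:ℂ).im < c / 2
      rw [zero_im]
      linarith
  filter_upwards [hopen.mem_nhds h0] with q hq hq0
  obtain ⟨⟨hq1, hq2⟩, hq3⟩ := hq
  have hq4 : ‖q.2‖ < c / 4 := by simpa using hq3
  have hq5 : |q.2.im| < c / 4 := lt_of_le_of_lt (abs_im_le_norm _) hq4
  obtain ⟨hq6, hq7⟩ := abs_lt.1 hq5
  have hqc : q ∈ St (-c) c ×ˢ ball (0:ℂ) c :=
    ⟨⟨by linarith, by linarith⟩, ball_subset_ball (by linarith) hq3⟩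
  exact hE.fe q hqc hq0 ⟨by rw [add_im]; linarith, by rw [add_im]; linarith⟩
    ⟨by rw [sub_im]; linarith, by rw [sub_im]; linarith⟩

theorem fm_zero (hE : ConE k F c h G) : Fm k F 0 ∧ F (0, 0) ≠ 0 ∧ EqM G F (0, 0) ∧
    EqM (KF G) (fun p => k (F p)) (0, 0) := by
  have hc := hE.pos
  have hz1 : (0:ℂ) ∈ St (-c) c := by
    constructor
    · rw [zero_im]
      linarith
    · rw [zero_im]
      exact hc
  have hzc : ((0, 0) : ℂ × ℂ) ∈ St (-c) c ×ˢ ball (0:ℂ) c := ⟨hz1, mem_ball_self hc⟩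
  have hz4 : ((0, 0) : ℂ × ℂ) ∈ St (-c) c ×ˢ ball (0:ℂ) (c / 4) :=
    ⟨hz1, mem_ball_self (by linarith)⟩
  have han : AnalyticAt ℂ F (0, 0) := hE.an _ hzc
  have h0 : EqM G F (0, 0) := hE.eqG _ hz4
  refine ⟨⟨han, ?_, hE.reg _ hzc, sp_fe hE⟩, ?_, h0, ?_⟩
  · rw [← sp_deriv han]
    exact hE.dt _ hzc
  · intro hF
    have h1 := hE.refl _ hzc
    rw [hF, map_zero, mul_zero] at h1
    exact zero_ne_one h1
  · have h1 : EqM (fun q : ℂ × ℂ => G (q.1 + q.2, q.2)) (fun q => F (q.1 + q.2, q.2)) (0, 0) :=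
      EqM.shift (h := fun x => x) (p := (0, 0)) differentiable_id
        (hE.eqG _ (by
          show ((0:ℂ) + 0, (0:ℂ)) ∈ _
          rw [add_zero]
          exact hz4))
    have h2 : EqM (fun q : ℂ × ℂ => G (q.1 - q.2, q.2)) (fun q => F (q.1 - q.2, q.2))
        (0, 0) := by
      have h3 := EqM.shift (f := G) (g := F) (h := fun x => -x) (p := (0, 0))
        differentiable_id.neg (hE.eqG _ (by
          show ((0:ℂ) + -0, (0:ℂ)) ∈ _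
          rw [neg_zero, add_zero]
          exact hz4))
      simpa only [sub_eq_add_neg] using h3
    refine (EqM.map₂ (fun x y => x + y) (EqM.map₂ (fun x y => (x - y)⁻¹) h1 h0)
      (EqM.map₂ (fun x y => (x - y)⁻¹) h2 h0)).trans ?_
    have h3 : Den (fun q : ℂ × ℂ => q.2) (0, 0) := by
      refine ⟨analyticAt_snd, fun h2 => ?_⟩
      have h3 : Tendsto (fun x : ℂ => ((0:ℂ), x)) (𝓝 0) (𝓝 ((0, 0) : ℂ × ℂ)) := by
        have : Continuous (fun x : ℂ => ((0:ℂ), x)) := by fun_prop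
        exact this.tendsto 0
      have h4 : ∀ᶠ x : ℂ in 𝓝[≠] 0, x = 0 := nhdsWithin_le_nhds (h3.eventually h2)
      obtain ⟨x, hx, hx0⟩ := (h4.and self_mem_nhdsWithin).exists
      exact hx0 hx
    exact ⟨_, h3, sp_fe hE⟩

/-- a meromorphic function with vanishing derivative is constant -/
private theorem sp_const {g : ℂ → ℂ} {t : ℂ} (hg : MeromorphicAt g t)
    (h : ∀ᶠ s in 𝓝[≠] t, deriv g s = 0) : ∃ x, ∀ᶠ s in 𝓝[≠] t, g s = x := by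
  have h1 : meromorphicOrderAt (deriv g) t = ⊤ := meromorphicOrderAt_eq_top_iff.2 h
  by_cases h2 : meromorphicOrderAt g t = ⊤
  · exact ⟨0, meromorphicOrderAt_eq_top_iff.1 h2⟩
  obtain ⟨n, hn⟩ := WithTop.ne_top_iff_exists.1 h2
  by_cases h3 : n = 0
  · subst h3
    obtain ⟨φ, hφ, hφ0, h4⟩ := (meromorphicOrderAt_eq_int_iff hg).1 hn.symm
    have h5 : g =ᶠ[𝓝[≠] t] φ := by
      filter_upwards [h4] with s hs
      rw [hs, zpow_zero, one_smul]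
    have h6 : deriv g =ᶠ[𝓝[≠] t] deriv φ := h5.nhdsNE_deriv
    have h7 : ∀ᶠ s in 𝓝[≠] t, deriv φ s = 0 := by
      filter_upwards [h6, h] with s h8 h9
      rw [← h8, h9]
    have h8 : ∀ᶠ s in 𝓝 t, deriv φ s = 0 :=
      hφ.deriv.frequently_zero_iff_eventually_zero.1 h7.frequently
    obtain ⟨r, hr, h9⟩ := Metric.eventually_nhds_iff_ball.1 (h8.and hφ.eventually_analyticAt)
    refine ⟨φ t, ?_⟩
    filter_upwards [h5, nhdsWithin_le_nhds (ball_mem_nhds t hr)] with s h10 h11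
    rw [h10]
    exact isOpen_ball.is_const_of_deriv_eq_zero (convex_ball t r).isPreconnected
      (fun z hz => (h9 z hz).2.differentiableAt.differentiableWithinAt)
      (fun z hz => (h9 z hz).1) h11 (mem_ball_self hr)
  · exfalso
    have h4 := meromorphicOrderAt_deriv_eq_sub_one (𝕜 := ℂ) (n := n) (Int.cast_ne_zero.2 h3)
      hn.symm
    rw [h1] at h4
    exact WithTop.top_ne_coe h4

/-- the identity theorem -/
private theorem sp_ident {V : Set ℂ} (hV : IsPreconnected V) {f : ℂ → ℂ}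
    (hf : ∀ t ∈ V, MeromorphicAt f t) {t₁ t₂ : ℂ} (h1 : t₁ ∈ V) (h2 : t₂ ∈ V)
    (h : ∀ᶠ s in 𝓝[≠] t₁, f s = 0) : ∀ᶠ s in 𝓝[≠] t₂, f s = 0 := by
  have hg : MeromorphicOn f V := hf
  rw [← meromorphicOrderAt_eq_top_iff] at h ⊢
  by_contra hc
  exact hg.meromorphicOrderAt_ne_top_of_isPreconnected hV h2 h1 hc h

/-- the slice near a point with an analytic germ -/
private theorem sp_sl {f C : ℂ × ℂ → ℂ} {t ρ : ℂ} (hC : AnalyticAt ℂ C (t, ρ))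
    (h : EqM f C (t, ρ)) : ∀ᶠ s in 𝓝 t, sl f ρ s = C (s, ρ) := by
  have hl : Tendsto (fun s : ℂ => (s, ρ)) (𝓝 t) (𝓝 (t, ρ)) := by
    have : Continuous (fun s : ℂ => (s, ρ)) := by fun_prop
    exact this.tendsto t
  filter_upwards [sl_congr h, hl.eventually hC.eventually_analyticAt] with s h1 h2
  rw [h1, sl_of_analyticAt h2]

theorem exists_slP (hE : ConE k F c h G) {ρ₀ r : ℝ} {tp : ℂ} {X : ℕ → ℂ × ℂ → ℂ}
    (hP : Pick F G c M d ρ₀ r tp X) {Y : ℂ × ℂ → ℂ}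
    (hY : Mer Y (DP F c M d ∪ ball tp r ×ˢ ball (ρ₀ : ℂ) r))
    (hYG : ∀ p ∈ DP F c M d, EqM Y (yC G 1) p) {ρ₁ t₁ : ℂ} {r' : ℝ} {f₁ : ℂ → ℂ}
    (hρ₁ : ρ₁ ∈ ball (ρ₀ : ℂ) r) (hr' : 0 < r') (hr'r : r' < r) (ht₁ : t₁ ∈ ball tp r')
    (hf₁ : ∀ t ∈ ball tp r', t.im < t₁.im → MeromorphicAt f₁ t)
    (hex : ∃ t ∈ ball tp r', t.im < t₁.im ∧
      (t, ρ₁) ∈ (ball tp r ×ˢ ball (ρ₀ : ℂ) r) ∩ DP F c M d)
    (hsl : ∀ t ∈ ball tp r', t.im < t₁.im →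
      (t, ρ₁) ∈ (ball tp r ×ˢ ball (ρ₀ : ℂ) r) ∩ DP F c M d →
        SlAt (KF G) (t, ρ₁) ∧ f₁ =ᶠ[𝓝[≠] t] sl (KF G) ρ₁) :
    ∃ t₂ : ℂ, SlP k F G (KF G) 0 (DP F c M d) tp ρ₀ r r' ρ₁ t₁ t₂ f₁ (sl Y ρ₁) ∧
      ∀ a : ℂ, ¬ ∀ᶠ t in 𝓝[≠] t₁, sl Y ρ₁ t = a := by
  obtain ⟨hfm, hF0, hGF, hKG⟩ := fm_zero hE
  have hYG' : ∀ p ∈ DP F c M d, EqM Y G p := by
    intro p hp
    refine (hYG p hp).trans (EqM.of_eventuallyEq (Eventually.of_forall fun q => ?_))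
    show G (q.1 + (((1 : ℕ) : ℂ) - 1) * q.2, q.2) = G q
    rw [Nat.cast_one, sub_self, zero_mul, add_zero]
  obtain ⟨ts, hts1, hts2, hts3⟩ := hex
  obtain ⟨hKs, hfs⟩ := hsl ts hts1 hts2 hts3
  have hDs : (ts, ρ₁) ∈ DP F c M d := hts3.2
  have hsub : ball tp r' ⊆ ball tp r := ball_subset_ball hr'r.le
  have hGs : SlAt G (ts, ρ₁) := slAt_G hE (DP_sub_DF hDs)
  have hYs : SlAt Y (ts, ρ₁) := hGs.congr (hYG' _ hDs).symm
  have hYall : ∀ t ∈ ball tp r, SlAt Y (t, ρ₁) :=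
    slAt_of_mer (convex_ball tp r).isPreconnected (fun t ht => hY _ (Or.inr ⟨ht, hρ₁⟩))
      (hsub hts1) hYs
  have hnc : ∀ a : ℂ, ¬ ∀ᶠ s in 𝓝[≠] ts, sl G ρ₁ s = a := fun a =>
    sl_G_not_const hE (p := (ts, ρ₁)) (DP_sub_DF hDs) a
  have hGm : MeromorphicAt (sl G ρ₁) ts := hGs.meromorphicAt
  -- conditions near `ts`
  have hline : Tendsto (fun s : ℂ => (s, ρ₁)) (𝓝 ts) (𝓝 (ts, ρ₁)) := by
    have : Continuous (fun s : ℂ => (s, ρ₁)) := by fun_prop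
    exact this.tendsto ts
  have c1 : ∀ᶠ s in 𝓝[≠] ts, s ∈ ball tp r' :=
    nhdsWithin_le_nhds (isOpen_ball.mem_nhds hts1)
  have c2 : ∀ᶠ s in 𝓝[≠] ts, s.im < t₁.im :=
    nhdsWithin_le_nhds (continuous_im.continuousAt.eventually (Iio_mem_nhds hts2))
  have c3 : ∀ᶠ s in 𝓝[≠] ts, (s, ρ₁) ∈ DP F c M d :=
    nhdsWithin_le_nhds (hline.eventually (isOpen_DP.mem_nhds hDs))
  have c4 := hGs.germ
  have c5 := hKs.germ
  have c6 : ∀ᶠ s in 𝓝[≠] ts, ∀ᶠ t in 𝓝 s, f₁ t = sl (KF G) ρ₁ t := by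
    have h1 := eventually_eventually_nhdsWithin.mpr hfs
    filter_upwards [h1, self_mem_nhdsWithin] with s h2 h3
    have h4 : 𝓝[≠] ts ≤ 𝓝 ts := nhdsWithin_le_nhds
    have h5 : 𝓝[{ts}ᶜ] s = 𝓝 s := isOpen_compl_singleton.nhdsWithin_eq h3
    rwa [h5] at h2
  have c7 : ∀ᶠ s in 𝓝[≠] ts, sl G ρ₁ s ≠ 0 := by
    rcases hGm.eventually_eq_zero_or_eventually_ne_zero with h1 | h1
    · exact absurd h1 (hnc 0)
    · exact h1
  have c8 : ∀ᶠ s in 𝓝[≠] ts, deriv (sl G ρ₁) s ≠ 0 := by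
    rcases hGm.deriv.eventually_eq_zero_or_eventually_ne_zero with h1 | h1
    · obtain ⟨x, hx⟩ := sp_const hGm h1
      exact absurd hx (hnc x)
    · exact h1
  obtain ⟨t₂, d1, d2, d3, ⟨C₂, hC₂, hGC₂⟩, ⟨κ₂, hκ₂, hKκ₂⟩, d6, d7, d8⟩ :=
    (c1.and (c2.and (c3.and (c4.and (c5.and (c6.and (c7.and c8))))))).exists
  have hslG := sp_sl hC₂ hGC₂
  have hslK := sp_sl hκ₂ hKκ₂
  refine ⟨t₂, ⟨hfm, hF0, isOpen_DP, isPreconnected_DP hE hP.hd hP.hMd, zero_mem_DP hE hP.hd,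
    fun p hp => hE.merG p (DP_sub_DF hp), mer_KG_DP hE, hGF, hKG, hρ₁, ht₁, d1, d2, d3, hf₁,
    fun t ht => (hYall t (hsub ht)).meromorphicAt, C₂, κ₂, hC₂, hκ₂, ?_, ?_, hGC₂, hKκ₂, ?_, ?_⟩,
    ?_⟩
  · rw [← hslG.self_of_nhds]
    exact d7
  · rw [← sp_deriv hC₂]
    have h1 : sl G ρ₁ =ᶠ[𝓝 t₂] fun s => C₂ (s, ρ₁) := hslG
    rw [← h1.deriv_eq]
    exact d8
  · filter_upwards [sl_congr (hYG' _ d3), hslG] with t h1 h2
    rw [h1, h2]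
  · filter_upwards [d6, hslK] with t h1 h2
    rw [h1, h2]
  · intro a ha
    have h1 : ∀ᶠ s in 𝓝[≠] t₁, sl Y ρ₁ s - a = 0 := by
      filter_upwards [ha] with s hs
      rw [hs, sub_self]
    have h2 := sp_ident (V := ball tp r) (convex_ball tp r).isPreconnected
      (fun t ht => (hYall t ht).meromorphicAt.sub (MeromorphicAt.const a t))
      (hsub ht₁) (hsub hts1) h1
    refine hnc a ?_
    filter_upwards [h2, nhdsWithin_le_nhds (sl_congr (hYG' _ hDs))] with s h3 h4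
    rw [← h4]
    exact sub_eq_zero.mp h3

end Pool.Agent.MP_ae5b4e_an_NB1
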