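import Mathlib
import Pool.Agent.Lib.MP_ae5b4e_an_NB1.CoreI
import Pool.Agent.Lib.MP_ae5b4e_an_NB1.SlPre
import Pool.Agent.Lib.MP_ae5b4e_an_NB1.FromAlg
import Pool.Agent.Lib.MP_ae5b4e_an_NB1.CoordX
import Pool.Agent.Lib.MP_ae5b4e_an_NB1.Branch

/-!
# MP_ae5b4e_an, project NB_1: finite height implies natural boundary
-/

noncomputable section

namespace Pool.Agent.MP_ae5b4e_an_NB1

open Complex Set Filter Topology Metric
open Pool.Agent.MP_ae5b4e_an_NBT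
open scoped ComplexConjugate

variable {k : ℂ → ℂ} {F G : ℂ × ℂ → ℂ} {c h : ℝ} {M : ℕ} {d : ℝ}

/-- the shifted family near `(0, 0)` -/
theorem eqM_yC (hE : ConE k F c h G) (j : ℕ) : EqM (yC G j) (yC F j) (0, 0) := by
  obtain ⟨-, -, h1, -⟩ := fm_zero hE
  have h2 : EqM G F ((0:ℂ) + (fun z : ℂ => ((j : ℂ) - 1) * z) 0, 0) := by
    simpa using h1
  exact EqM.shift (h := fun z => ((j : ℂ) - 1) * z) (by fun_prop) (p := (0, 0)) h2

/-- case I -/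
theorem caseI_pick (hE : ConE k F c h G) {ρ₀ r : ℝ} {tp : ℂ} {X : ℕ → ℂ × ℂ → ℂ}
    (hP : Pick F G c M d ρ₀ r tp X)
    (hno : ¬ ARel M (fun j => yC F (j + 1)) (0, 0)) : False := by
  obtain ⟨hfm, hF0, hGF, hKF⟩ := fm_zero hE
  obtain ⟨Y, hY⟩ := glue_X hE hP
  have hz : ((0, 0) : ℂ × ℂ) ∈ DP F c M d := zero_mem_DP hE hP.hd
  have hopen : IsOpen (DP F c M d) := isOpen_DP
  have hpre : IsPreconnected (DP F c M d) := isPreconnected_DP hE hP.hd hP.hMd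
  have hNc : IsPreconnected (ball tp r ×ˢ ball (ρ₀ : ℂ) r) :=
    ((convex_ball _ _).prod (convex_ball _ _)).isPreconnected
  have hr := hP.hr
  -- a common point
  have hcom : ∀ η : ℝ, 0 < η → η < r →
      (tp - η * I, (ρ₀ : ℂ)) ∈ (ball tp r ×ˢ ball (ρ₀ : ℂ) r) ∩ DP F c M d := by
    intro η h1 h2
    refine ⟨⟨?_, mem_ball_self hr⟩, hP.low η h1 h2⟩
    rw [mem_ball, dist_eq_norm]
    simpa [abs_of_pos h1] using h2
  have hO : IsPreconnected (DP F c M d ∪ ball tp r ×ˢ ball (ρ₀ : ℂ) r) := by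
    obtain ⟨h1, h2⟩ := hcom (r / 2) (half_pos hr) (half_lt_self hr)
    exact hpre.union _ h2 h1 hNc
  have hX : ∀ i, i = 0 ∨ i = 1 ∨ i = M + 1 ∨ i = M + 2 →
      Mer (Y i) (DP F c M d ∪ ball tp r ×ˢ ball (ρ₀ : ℂ) r) ∧ EqM (Y i) (yC F i) (0, 0) :=
    fun i hi => ⟨(hY i hi).1, ((hY i hi).2 _ hz).trans (eqM_yC hE i)⟩
  obtain ⟨D, b, hb, hb0, hbK⟩ := from_alg hP.hM hfm hopen hpre hz hO subset_union_left
    (mer_KG_DP hE) hKF hX hno
  -- the branch point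
  obtain ⟨ρ₁, t₁, r', f₁, hρ₁, -, hr', hr'r, ht₁, hf₁, hex, hsl, hram⟩ := exists_branch
    (tp := tp) (ρ₀ := (ρ₀ : ℂ)) hr (Ω := (ball tp r ×ˢ ball (ρ₀ : ℂ) r) ∩ DP F c M d)
    ((isOpen_ball.prod isOpen_ball).inter hopen) inter_subset_left
    (fun t t' ρ ht ht' him => ⟨⟨ht', ht.1.2⟩, down_DP hE hP.hMd hP.hrt ht.2 ht' him⟩) hcom
    (f := KF G) ((mer_KG_DP hE).mono inter_subset_right) (D := D) (b := b)
    (fun i hi => (hb i hi).mono subset_union_right)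
    (by
      obtain ⟨i, hi, h1⟩ := hb0
      obtain ⟨h2, h3⟩ := hcom (r / 2) (half_pos hr) (half_lt_self hr)
      refine ⟨i, hi, _, ⟨h2, h3⟩, fun h4 => h1 ?_⟩
      exact Mer.eqM hO (hb i hi) (Mer.of_analytic fun _ _ => analyticAt_const) (Or.inl h3) h4 _
        (Or.inl hz))
    (fun p hp => hbK p hp.2)
    (by
      rintro ⟨δ, hδ, g, hg, hge⟩
      refine hP.sing ⟨min δ r, lt_min hδ hr, g, hg.mono (prod_mono (ball_subset_ball
        (min_le_left _ _)) (ball_subset_ball (min_le_left _ _))), ?_⟩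
      rintro p ⟨⟨hp1, hp2⟩, hp3⟩
      exact hge p ⟨⟨ball_subset_ball (min_le_left _ _) hp1,
        ball_subset_ball (min_le_left _ _) hp2⟩, ⟨ball_subset_ball (min_le_right _ _) hp1,
        ball_subset_ball (min_le_right _ _) hp2⟩, hp3⟩)
    (Z := ∅) countable_empty
  have hY1 := hY 1 (Or.inr (Or.inl rfl))
  obtain ⟨t₂, hS, hnc⟩ := exists_slP hE hP hY1.1 hY1.2 hρ₁ hr' hr'r ht₁ hf₁ hex hsl
  obtain ⟨n, s, e, hn, hs, hs0, hs1, hcase⟩ := exists_coordX (hS.mx t₁ ht₁) hnc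
  obtain ⟨m, g, w, ε, hm, hε, hg, hw, hlim, ζ, hζ, hgζ⟩ := hram s hs hs0 hs1
  have hsub : DP F c M d ∪ ball tp r' ×ˢ ball (ρ₀ : ℂ) r ⊆
      DP F c M d ∪ ball tp r ×ˢ ball (ρ₀ : ℂ) r :=
    union_subset_union_right _ (prod_mono (ball_subset_ball hr'r.le) Subset.rfl)
  rcases hcase with hx | ⟨hx, hx0⟩
  · exact caseI_core hP.hM ⟨hS.fm, hS.opn, hS.pre, hS.mem, hS.merG, hS.merK, hS.eG, hS.eK,
      hS.hρ₁, hS.ht₁, hS.ht₂, hS.ht₂₁, hS.hp₂, hS.mf, hS.mx, by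
        obtain ⟨C₂, κ₂, h1, h2, -, h3, h4, h5, h6, h7⟩ := hS.loc
        exact ⟨C₂, κ₂, h1, h2, h3, h4, h5, h6, h7⟩, hs, hs0, hs1, hn, hx, hm, hε, hg, hw, hlim⟩
      (fun i hi => ⟨(hX i hi).1.mono hsub, (hX i hi).2⟩) hno hζ hgζ
  · -- the chart `1 / x`
    have hSi := hS.inv
    obtain ⟨δ, hδ, hδx⟩ : ∃ δ > 0, ∀ t ∈ ball t₁ δ, t ≠ t₁ →
        (sl (Y 1) ρ₁ t)⁻¹ = 0 + s t ^ n ∧ sl (Y 1) ρ₁ t ≠ 0 := by
      have h1 := hx.and hx0
      rw [eventually_nhdsWithin_iff, Metric.eventually_nhds_iff_ball] at h1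
      exact h1
    have hcone : Cone t₁ (min ε δ) ⊆ Cone t₁ ε := by
      rintro t ⟨h1, h2⟩
      exact ⟨h1.trans_le (min_le_left _ _), h2⟩
    have hxw : ∀ t ∈ Cone t₁ (min ε δ), sl (Y 1) ρ₁ t = (w t ^ (m * n))⁻¹ := by
      rintro t ⟨h1, h2⟩
      have hne : t ≠ t₁ := by
        rintro rfl
        simp at h2
      obtain ⟨h3, -⟩ := hδx t (h1.trans_le (min_le_right _ _)) hne
      rw [zero_add, ← (hw t ⟨h1.trans_le (min_le_left _ _), h2⟩).2.1, ← pow_mul] at h3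
      rw [← h3, inv_inv]
    have hpow : MeromorphicAt (fun v : ℂ => (v ^ (m * n))⁻¹) 0 :=
      ((analyticAt_id (𝕜 := ℂ) (z := (0:ℂ))).pow (m * n)).meromorphicAt.inv
    refine caseI_core (K := fun p => -(G p) ^ 2 * KF G p - 2 * G p) (e := 0)
      (g := fun v => -(v ^ (m * n))⁻¹ ^ 2 * g v - 2 * (v ^ (m * n))⁻¹) (w := w) (ε := min ε δ)
      (X := fun i p => (Y i p)⁻¹) hP.hM
      ⟨hSi.fm, hSi.opn, hSi.pre, hSi.mem, hSi.merG, hSi.merK, hSi.eG, hSi.eK,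
      hSi.hρ₁, hSi.ht₁, hSi.ht₂, hSi.ht₂₁, hSi.hp₂, hSi.mf, hSi.mx, by
        obtain ⟨C₂, κ₂, h1, h2, -, h3, h4, h5, h6, h7⟩ := hSi.loc
        exact ⟨C₂, κ₂, h1, h2, h3, h4, h5, h6, h7⟩, hs, hs0, hs1, hn, hx, hm,
        lt_min hε hδ, ?_, ?_, ?_⟩ ?_ ?_ hζ ?_
    · exact ((hpow.pow 2).neg.mul hg).sub ((MeromorphicAt.const 2 0).mul hpow)
    · intro t ht
      obtain ⟨h1, h2, h3, h4⟩ := hw t (hcone ht)
      refine ⟨h1, h2, h3, ?_⟩
      show -(sl (Y 1) ρ₁ t) ^ 2 * f₁ t - 2 * sl (Y 1) ρ₁ t = _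
      rw [hxw t ht, h4]
    · exact hlim.mono_left (nhdsWithin_mono _ hcone)
    · intro i hi
      refine ⟨fun p hp => ((hX i hi).1 p (hsub hp)).inv, ?_⟩
      exact EqM.map (fun z => z⁻¹) (hX i hi).2
    · intro h1
      exact hno (ARel.of_inv hfm.an hF0 h1)
    · intro h1
      apply hgζ
      filter_upwards [h1, self_mem_nhdsWithin] with v h2 h3
      have h3' : v ≠ 0 := h3
      have h4 : (ζ * v) ^ (m * n) = v ^ (m * n) := by
        rw [mul_pow, pow_mul, hζ, one_pow, one_mul]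
      rw [h4] at h2
      have h5 : (v ^ (m * n))⁻¹ ≠ 0 := inv_ne_zero (pow_ne_zero _ h3')
      have h6 : (v ^ (m * n))⁻¹ ^ 2 * (g (ζ * v) - g v) = 0 := by linear_combination -h2
      rcases mul_eq_zero.1 h6 with h7 | h7
      · exact absurd h7 (pow_ne_zero _ h5)
      · exact sub_eq_zero.1 h7

/-- **Theorem NB_1** -/
theorem nb_one (hE : ConE k F c h G) (hmax : ∀ y > h, ¬ ExtM F c (c / 4) y 0) :
    NBd k F c h G := by
  have hc := hE.pos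
  have hh : 0 < h := hc.trans hE.hc
  have key : ∀ b : ℂ, b.im = h → ¬ RegAt G h b := by
    intro b hb hreg
    obtain ⟨M, d, ρ₀, r, tp, X, hP⟩ := exists_pick hE (by
      rintro ⟨y, hy, h1⟩
      exact hmax y hy h1) hb hreg
    by_cases hA : ARel M (fun j => yC F (j + 1)) (0, 0)
    · refine hmax (h + 1) (by linarith) (caseII hE.toCon (t := 0) hP.hM ?_ (h + 1))
      have h1 : (fun j => yC F (j + 1)) = fun (j : ℕ) (p : ℂ × ℂ) => F (p.1 + j * p.2, p.2) := by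
        funext j p
        unfold yC
        push_cast
        ring_nf
      rw [h1] at hA
      simpa using hA
    · exact caseI_pick hE hP hA
  refine ⟨hE, fun b hb hreg => ?_⟩
  rcases eq_or_eq_neg_of_abs_eq hb with h1 | h1
  · exact key b h1 hreg
  · -- reflection
    refine key (conj b) (by rw [conj_im, h1, neg_neg]) ?_
    obtain ⟨δ, hδ, g, hg, t₁, ht₁, ht₁h, hgG⟩ := hreg
    have hcd : ∀ z w : ℂ, dist (conj z) (conj w) = dist z w := by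
      intro z w
      rw [dist_eq_norm, dist_eq_norm, ← map_sub, RCLike.norm_conj]
    refine ⟨δ, hδ, fun q => (conj (g (conj q.1, conj q.2)))⁻¹, ?_, conj t₁, ?_, ?_, ?_⟩
    · rintro p ⟨hp1, hp2⟩
      refine (MerAt.conj' (hg _ ⟨?_, ?_⟩)).inv
      · rw [mem_ball, ← hcd, conj_conj]
        exact hp1
      · rw [mem_ball_zero_iff, RCLike.norm_conj]
        exact mem_ball_zero_iff.1 hp2
    · rw [mem_ball, hcd]
      exact ht₁
    · rwa [conj_im, abs_neg]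
    · have h2 : EqM g G (conj (conj t₁), conj (0:ℂ)) := by
        rw [conj_conj, map_zero]
        exact hgG
      have h3 := EqM.conj' (p := (conj t₁, 0)) h2
      have h4 := EqM.map (fun z => z⁻¹) h3
      refine h4.trans (hE.reflG _ ?_)
      have h5 := (DK_shift hE.toCon (mem_DK_zero hE (t := conj t₁) (by rwa [conj_im, abs_neg]))).1
      exact h5

end Pool.Agent.MP_ae5b4e_an_NB1
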